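import Pool.Agent.SK.QcI
import Pool.Agent.D8.AStm
import Pool.Agent.H32.MA.A0
import Pool.Agent.H98.MF.L.WApx

/-!
# Malle's conjecture for 8T8 over number fields: the statement (TD), definitions (notes 5327-5329)

`tx : TX Fr L` is a quadratic extension `L` of `k` with compatible frames such that `-1` is a norm
from `L` everywhere locally and all primes outside the frame have norm at least seven.
-/

set_option autoImplicit false

open scoped BigOperators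
open NumberField IsDedekindDomain

namespace Pool.Agent.SKT

open Pool.Agent.H98.MF
open Pool.Agent.H98.MK (sg)
open Pool.Agent.H32.MQ
open Pool.Agent.H32.MA (SD)
open Pool.Agent.D8 (IsTh)

/-- the data of a quadratic extension -/
structure TX {k : Type} [Field k] [NumberField k] (Fr : Frm k) (L : Type) [Field L]
    [NumberField L] [Algebra k L] where
  X : HX Fr L
  FL : Frm L
  hF : Ovr Fr.S FL.S
  hM : X.M = ∅
  /-- the element `a` is a unit outside the frame -/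
  au : ∀ p : Fr.sys.P, ord (Fr.pl p) (X.a : k) = 0
  /-- `-1` is a norm locally everywhere -/
  neg : ∀ v : Pl k, hv v (X.a : k) (-1 : k) = 0
  /-- all primes outside the frame have norm at least seven -/
  big : ∀ p : Fr.sys.P, 7 ≤ Fr.sys.N p

/-- `x ≡ c` modulo the `n`-th power of `P` -/
def Nr {K : Type} [Field K] [NumberField K] (P : HeightOneSpectrum (𝓞 K)) (n : ℤ) (x c : K) :
    Prop := x = c ∨ n ≤ ord P (x - c)

section

variable {k : Type} [Field k] [NumberField k] {Fr : Frm k} {L : Type} [Field L]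
  [NumberField L] [Algebra k L] (tx : TX Fr L)

namespace TX

/-- the first coordinate of `x + y α` -/
noncomputable def cx (_ : TX Fr L) (u : L) : k := (2 : k)⁻¹ * Algebra.trace k L u

/-- the second coordinate of `x + y α` -/
noncomputable def cy (u : L) : k := (2 * (tx.X.a : k))⁻¹ * Algebra.trace k L (u * tx.X.α)

/-- the norm -/
noncomputable def nn (_ : TX Fr L) (u : L) : k := Algebra.norm k u

/-- the coordinates of `u` are not zero -/
def Nz (u : L) : Prop := tx.cx u ≠ 0 ∧ tx.cy u ≠ 0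

/-- the content of `u` at `p` -/
noncomputable def jj (p : Fr.sys.P) (u : L) : ℤ :=
  min (ord (Fr.pl p) (tx.cx u)) (ord (Fr.pl p) (tx.cy u))

/-- the local symbol at `p` -/
noncomputable def tp (p : Fr.sys.P) (u : L) : ZMod 2 :=
  ((tx.jj p u / 2 : ℤ) : ZMod 2) * qr (tx.X.a : k) (Fr.pl p) +
    (if ord (Fr.pl p) (tx.cy u) < ord (Fr.pl p) (tx.cx u) then
      ((ord (Fr.pl p) (tx.cx u) - ord (Fr.pl p) (tx.cy u) : ℤ) : ZMod 2) *
        qr (tx.cy u) (Fr.pl p) else 0)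

/-- the global symbol -/
noncomputable def tt (u : L) : ZMod 2 := ∑ᶠ p : Fr.sys.P, tx.tp p u

/-- the symbol of `u₂` at the conjugates of the primes of `u₁` above `p` -/
noncomputable def Kp (p : Fr.sys.P) (u₂ u₁ : L) : ZMod 2 :=
  ∑ P ∈ up tx.FL Fr p, ((ord (tx.FL.pl P) u₁ - tx.jj p u₁ : ℤ) : ZMod 2) *
    qr u₂ (cj tx.X.sig (tx.FL.pl P))

/-- the sum of Hilbert symbols in the multiplication law -/
noncomputable def Rv (v : Pl k) (u₁ u₂ : L) : ZMod 2 :=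
  hv v (tx.cx (u₁ * u₂)) (tx.cx u₁ * tx.cy u₂ * tx.nn u₁) + hv v (tx.cx u₁) (tx.nn u₁) +
    hv v (-1 : k) (tx.cx u₁) + hv v (tx.cx u₁) (tx.cy u₂) + hv v (tx.cx u₂) (tx.cy u₂)

/-- the sum over the places of the frame and the real places -/
noncomputable def RS (u₁ u₂ : L) : ZMod 2 := ∑ v ∈ pls Fr.S, tx.Rv v u₁ u₂

/-- even content -/
def Ev (p : Fr.sys.P) (u : L) : Prop := Even (tx.jj p u)

/-- no conflict at `p` -/
def Nc (p : Fr.sys.P) (u₁ u₂ : L) : Prop := tx.jj p (u₁ * u₂) = tx.jj p u₁ + tx.jj p u₂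

/-- a unit above `p` -/
def Un (_ : TX Fr L) (p : Fr.sys.P) (u : L) : Prop :=
  ∀ Q : HeightOneSpectrum (𝓞 L), Over (Fr.pl p) Q → ord Q u = 0

/-- the precision at the places of the frame is large enough -/
def Big (N : ℤ) : Prop :=
  ∀ P ∈ Fr.S, 20 * (ord P (2 : k) + |ord P (tx.X.a : k)| + 1) ≤ N

/-- close to `1` at the places of the frame, totally positive -/
structure UU (N : ℤ) (u : L) : Prop where
  x : ∀ P ∈ Fr.S, Nr P N (tx.cx u) 1
  y : ∀ P ∈ Fr.S, Nr P N (tx.cy u) 0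
  pos : ∀ ψ : L →+* ℝ, 0 < ψ u

/-- an orientation: one of the two primes above each split prime -/
def Ori (Ps : Set tx.X.PX) : Prop := ∀ b, b ∈ Ps ↔ tx.X.cjX b ∉ Ps

/-- local squares at the places of the frame, units at the inert primes and the primes not in
`Ps`, integral at the primes of `Ps` -/
structure OO (Ps : Set tx.X.PX) (l : Lˣ) : Prop where
  sq : ∀ v ∈ pls tx.FL.S, LocP v (l : L)
  inert : ∀ Q : HeightOneSpectrum (𝓞 L), tx.X.Out Q → cj tx.X.sig Q = Q → ord Q (l : L) = 0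
  neg : ∀ b, b ∉ Ps → ord b.1 (l : L) = 0
  pos : ∀ b ∈ Ps, 0 ≤ ord b.1 (l : L)

/-- admissible elements for the definition of the symbol of `l` -/
structure Adz (N : ℤ) (l z : Lˣ) : Prop where
  uu : tx.UU N ((l * z ^ 2 : Lˣ) : L)
  un : ∀ p, ¬ tx.Un p (l : L) → tx.Un p (z : L)
  nz : tx.Nz ((l * z ^ 2 : Lˣ) : L)

open Classical in
/-- the symbol of `l` -/
noncomputable def br (N : ℤ) (l : Lˣ) : ZMod 2 :=
  if h : ∃ z, tx.Adz N l z then tx.tt ((l * h.choose ^ 2 : Lˣ) : L) else 0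

/-- the symbol of `l₂` at the conjugates of the primes of `l₁` -/
noncomputable def KP (Ps : Set tx.X.PX) (l₂ l₁ : L) : ZMod 2 :=
  ∑ᶠ b : tx.X.PX, Set.indicator Ps
    (fun b => ((ord b.1 l₁ : ℤ) : ZMod 2) * qr l₂ (tx.X.cjX b).1) b

open Classical in
/-- the representative with unit coordinates `t` and odd exponents at `g` -/
noncomputable def gm (t : tx.FL.sys.T) (g : Finset tx.X.PX) : Lˣ :=
  rep tx.FL (t, g.image (io tx.X tx.FL tx.hF))

open Classical in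
/-- the type of a set of primes -/
noncomputable def ty (g : Finset tx.X.PX) : tx.FL.sys.T :=
  tx.FL.sys.tys (g.image (io tx.X tx.FL tx.hF))

/-- good sets -/
def Gd (g : Finset tx.X.PX) : Prop := ∀ a ∈ g, ∀ b ∈ g, tx.X.shX a = tx.X.shX b → a = b

/-- the obstructions vanish -/
def Kap (u : Lˣ) : Prop := ∀ z : Lˣ, tx.cx ((u * z ^ 2 : Lˣ) : L) ≠ 0 → ∀ v : Pl k,
  hv v (2 * tx.cx ((u * z ^ 2 : Lˣ) : L)) (-(tx.X.a * tx.nn ((u * z ^ 2 : Lˣ) : L)) : k) =
    hv v (2 : k) (tx.X.a : k)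

/-- the symbols at the conjugate primes vanish -/
def Lf (u : Lˣ) (g : Finset tx.X.PX) : Prop := ∀ b ∈ g, qr (u : L) (tx.X.cjX b).1 = 0

/-- the homomorphisms attached to a class -/
structure At (u : Lˣ) (ρ : Gm k →* SD) : Prop where
  lc : IsLocallyConstant ρ
  pd : ∀ σ, (ρ σ).pd = chi (tx.X.a : k) σ
  pf : IsTh tx.X.a (tx.cx (u : L)) (tx.cy (u : L)) (fun σ => (ρ σ).pf)

/-- normalised: trivial at the tame generators outside the frame and `g` -/
def Nor (Rk : Pool.Agent.D8.RxF k) (g : Finset tx.X.PX) (ρ : Gm k →* SD) : Prop :=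
  ∀ p, (∀ b ∈ g, tx.X.shX b ≠ p) → ρ (Rk.tau (Fr.pl p)) = 1

/-- the local quotients of `ρ₁` and of a conjugate of `ρ₂` at the frame are the classes of
`c v`, and `D` is the sum of the symbols of `a` and `c v` -/
def DD (ρ₁ ρ₂ : Gm k →* SD) (D : ZMod 2) : Prop :=
  ∃ (e : Pl k → ZMod 2) (c : Pl k → kˣ), (∀ v ∈ pls Fr.S, ∀ σ ∈ DecP v,
    ρ₁ σ = (if e v = 0 then ρ₂ σ else SD.ss * ρ₂ σ * SD.ss⁻¹) * SD.zz (chi (c v : k) σ)) ∧
    D = ∑ v ∈ pls Fr.S, hv v (tx.X.a : k) (c v : k)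

end TX

/-! ### the common trace (section 8) -/

/-- the conditions for one element with trace `c`: `G` is the set of shadows -/
structure CT (G : Finset Fr.sys.P) (c : kˣ) (u z : Lˣ) : Prop where
  tr : Algebra.trace k L ((u * z ^ 2 : Lˣ) : L) = (c : k)
  /-- units at the shadows -/
  sh : ∀ p ∈ G, tx.Un p (z : L)
  /-- units at the primes where `c` is not a unit -/
  cu : ∀ p, ord (Fr.pl p) (c : k) ≠ 0 → tx.Un p (z : L)
  nz : tx.cy ((u * z ^ 2 : Lˣ) : L) ≠ 0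

open Classical in
/-- S8: the common trace -/
def STct : Prop := ∀ (t : tx.FL.sys.T) (g₁ g₂ : Finset tx.X.PX), tx.Gd g₁ → tx.Gd g₂ →
  g₁.Nonempty → g₂.Nonempty → tx.ty g₁ = tx.ty g₂ → tx.Kap (tx.gm t g₁) → tx.Kap (tx.gm t g₂) →
  tx.Lf (tx.gm t g₁) g₁ → tx.Lf (tx.gm t g₂) g₂ →
  ∃ (c : kˣ) (z₂ : Lˣ),
    (∀ p ∈ g₁.image tx.X.shX ∪ g₂.image tx.X.shX, ord (Fr.pl p) (c : k) = 0 ∧
      qr (c : k) (Fr.pl p) = 0) ∧
    CT tx (g₁.image tx.X.shX ∪ g₂.image tx.X.shX) c (tx.gm t g₂) z₂ ∧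
    tx.cx (((tx.gm t g₂ * z₂ ^ 2) ^ 2 : Lˣ) : L) ≠ 0 ∧
    ∀ M : ℕ, ∃ z₁ : Lˣ,
      CT tx (g₁.image tx.X.shX ∪ g₂.image tx.X.shX) c (tx.gm t g₁) z₁ ∧
      (∀ p, tx.Un p (z₁ : L) ∨ tx.Un p (z₂ : L)) ∧
      (∀ Q ∈ tx.FL.S, Nr Q (M : ℤ)
        (((tx.gm t g₁ * z₁ ^ 2) / (tx.gm t g₂ * z₂ ^ 2) : Lˣ) : L) 1) ∧
      (∀ ψ : L →+* ℝ, 0 < ψ (((tx.gm t g₁ * z₁ ^ 2) / (tx.gm t g₂ * z₂ ^ 2) : Lˣ) : L)) ∧
      tx.Nz ((tx.gm t g₁ * z₁ ^ 2) * (tx.gm t g₂ * z₂ ^ 2) : Lˣ)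

end

end Pool.Agent.SKT
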