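import Pool.Agent.SKT.Stm
import Pool.Agent.H98.MF.C.Main
import Pool.Agent.H98.MF.NNin

/-!
# Malle's conjecture for 8T8 over number fields, part (TD), row U6: weak approximation with
generic coordinates
-/

set_option autoImplicit false

open scoped BigOperators
open NumberField IsDedekindDomain

namespace Pool.Agent.SKT

open Pool.Agent.H98.MF
open Pool.Agent.H32.MQ

section

variable {k : Type} [Field k] [NumberField k]

/-- infinitely many primes at which `a` is a local square -/
theorem ap_inf (a : kˣ) (ha : ¬ IsSquare a) (S : Set (HeightOneSpectrum (𝓞 k)))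
    (hS : S.Finite) : ∃ P, P ∉ S ∧ LocSq P (a : k) := by
  by_contra hcon
  push Not at hcon
  have hsub : {P : HeightOneSpectrum (𝓞 k) | LocSq P (a : k)} ⊆ S := by
    intro P hP
    by_contra h
    exact hcon P h hP
  have hfin : Finite {P : HeightOneSpectrum (𝓞 k) // LocSq P (a : k)} := hS.subset hsub
  letI := Fintype.ofFinite {P : HeightOneSpectrum (𝓞 k) // LocSq P (a : k)}
  obtain ⟨K, hK⟩ := (nin k).n4a a ha
  set C : ℝ := (Fintype.card {P : HeightOneSpectrum (𝓞 k) // LocSq P (a : k)} : ℝ) with hC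
  have hC0 : 0 ≤ C := Nat.cast_nonneg _
  have hK0 : 0 ≤ K := le_trans (abs_nonneg _) (hK 2 (by norm_num) (le_refl _))
  set s : ℝ := 1 + Real.exp (-(2 * (K + C) + 2)) with hs
  have he := Real.exp_pos (-(2 * (K + C) + 2))
  have hs1 : 1 < s := by rw [hs]; linarith
  have hs2 : s ≤ 2 := by
    have h1 : Real.exp (-(2 * (K + C) + 2)) ≤ 1 := by
      rw [Real.exp_le_one_iff]
      linarith
    rw [hs]; linarith
  have h1 := hK s hs1 hs2
  have h2 : Real.log (1 / (s - 1)) = 2 * (K + C) + 2 := by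
    rw [hs, add_sub_cancel_left, one_div, Real.log_inv, Real.log_exp, neg_neg]
  have h3 : ∑' Q : {Q : HeightOneSpectrum (𝓞 k) // LocSq Q (a : k)}, (nrm Q.1 : ℝ) ^ (-s) ≤ C := by
    rw [tsum_fintype, hC]
    have h4 : ∀ Q ∈ (Finset.univ : Finset {Q : HeightOneSpectrum (𝓞 k) // LocSq Q (a : k)}),
        (nrm Q.1 : ℝ) ^ (-s) ≤ 1 := by
      intro Q _
      rcases Nat.eq_zero_or_pos (nrm Q.1) with h | h
      · rw [h, Nat.cast_zero, Real.zero_rpow (by linarith)]
        norm_num
      · exact Real.rpow_le_one_of_one_le_of_nonpos (by exact_mod_cast h) (by linarith)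
    have h5 := Finset.sum_le_card_nsmul _ _ _ h4
    rwa [nsmul_eq_mul, mul_one, Finset.card_univ] at h5
  rw [h2] at h1
  have h4 := (abs_le.1 h1).1
  linarith

variable {Fr : Frm k} {L : Type} [Field L] [NumberField L] [Algebra k L]

/-- a prime of `L` different from its conjugate, outside a finite set -/
theorem ap_split (X : HX Fr L) (T : Finset (HeightOneSpectrum (𝓞 L))) :
    ∃ Q : HeightOneSpectrum (𝓞 L), Q ∉ T ∧ cj X.sig Q ∉ T ∧ cj X.sig Q ≠ Q := by
  have hfin : (⋃ Q ∈ T, {P : HeightOneSpectrum (𝓞 k) | Over P Q}).Finite := by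
    refine Set.Finite.biUnion (Finset.finite_toSet T) fun Q _ => ?_
    refine Set.Subsingleton.finite fun P hP P' hP' => ?_
    have hP1 : Over P Q := hP
    have hP2 : Over P' Q := hP'
    apply HeightOneSpectrum.ext
    rw [← hP1, ← hP2]
  obtain ⟨P, hP, hl⟩ := ap_inf X.a X.qe.ns _ hfin
  obtain ⟨Q, hQ⟩ := exists_over (L := L) P
  have hno : ∀ Q' : HeightOneSpectrum (𝓞 L), Over P Q' → Q' ∉ T := by
    intro Q' h1 h2
    apply hP
    rw [Set.mem_iUnion₂]
    exact ⟨Q', h2, h1⟩
  exact ⟨Q, hno Q hQ, hno _ (hQ.cj X.sig),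
    (Pool.Agent.H98.MF.B.qe_split_iff X.qe X.sig X.sig_α hQ).1 hl⟩

/-- different exponents at conjugate primes imply that the coordinates do not vanish -/
theorem ap_nz (tx : TX Fr L) (h0 : SCo tx) (Q : HeightOneSpectrum (𝓞 L)) (u : L)
    (h : ord (cj tx.X.sig Q) u ≠ ord Q u) : tx.Nz u := by
  rw [ord_cj] at h
  constructor
  · intro h1
    apply h
    have h2 : tx.X.sig u = -u := by
      rw [h0.repr (tx.X.sig u), h0.cx_sig, h0.cy_sig, h1]
      conv_rhs => rw [h0.repr u, h1]
      rw [map_zero, map_neg]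
      ring
    rw [h2, ord_neg]
  · intro h1
    apply h
    have h2 : tx.X.sig u = u := by
      rw [h0.repr (tx.X.sig u), h0.cx_sig, h0.cy_sig, h1]
      conv_rhs => rw [h0.repr u, h1]
      rw [neg_zero]
    rw [h2]

theorem ap_close (Q : HeightOneSpectrum (𝓞 L)) {z c : L} (hc : c ≠ 0) {n m : ℤ}
    (hm : n + ord Q c ≤ m) (h : z = c ∨ m ≤ ord Q (z - c)) :
    Nr Q n (z / c) 1 := by
  by_cases hzc : z = c
  · left
    rw [hzc, div_self hc]
  · right
    rcases h with h | h
    · exact absurd h hzc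
    have h1 : z / c - 1 = (z - c) / c := by rw [sub_div, div_self hc]
    rw [h1, ord_div Q (sub_ne_zero.2 hzc) hc]
    omega

end

/-- U6: weak approximation with generic coordinates -/
theorem sApx {k : Type} [Field k] [NumberField k] {Fr : Frm k} {L : Type} [Field L]
    [NumberField L] [Algebra k L] (tx : TX Fr L) (h0 : SCo tx) : SApx tx := by
  classical
  intro T c n s m
  obtain ⟨Q, hQ, hQ', hne⟩ := ap_split tx.X T
  set Q' : HeightOneSpectrum (𝓞 L) := cj tx.X.sig Q with hQ'def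
  obtain ⟨π, hπ⟩ := exists_unif Q
  -- a large exponent
  set i : ℕ := 1 + ∑ u ∈ m, (ord Q (u : L) - ord Q' (u : L)).natAbs with hi
  set N : ℕ := n + ∑ R ∈ T, (ord R (c R : L)).natAbs + i + 1 with hN
  have hπ0 : (π : L) ≠ 0 := by
    intro h
    rw [h, ord_zero] at hπ
    exact absurd hπ (by norm_num)
  obtain ⟨z, hz1, hz2⟩ := weak_apx (T ∪ {Q, Q'})
    (fun R => if R = Q then (π : L) ^ i else if R = Q' then 1 else (c R : L)) N s
  have hzQ : ord Q z = i ∧ z ≠ 0 := by
    have h1 := hz1 Q (by simp)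
    rw [if_pos rfl] at h1
    have h2 : ord Q ((π : L) ^ i) = i := by rw [ord_pow, hπ, mul_one]
    have h3 := ord_add_eq Q (a := (π : L) ^ i) (b := z - (π : L) ^ i) (pow_ne_zero _ hπ0) (by
      rcases h1 with h1 | h1
      · left
        rw [h1, sub_self]
      · right
        rw [h2]
        omega)
    rw [add_sub_cancel, h2] at h3
    exact ⟨h3.2, h3.1⟩
  have hzQ' : ord Q' z = 0 := by
    have h1 := hz1 Q' (by simp)
    rw [if_neg hne, if_pos rfl] at h1
    have h3 := sqr_unit Q' (n := (N : ℤ)) (by omega) h1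
    exact h3.2
  refine ⟨Units.mk0 z hzQ.2, fun R hR => ?_, fun ψ => ?_, fun u hu => ?_⟩
  · have h1 := hz1 R (Finset.mem_union_left _ hR)
    have hRQ : R ≠ Q := fun h => hQ (h ▸ hR)
    have hRQ' : R ≠ Q' := fun h => hQ' (h ▸ hR)
    rw [if_neg hRQ, if_neg hRQ'] at h1
    rw [Units.val_div_eq_div_val, Units.val_mk0]
    refine ap_close R (c R).ne_zero ?_ h1
    have h2 : (ord R (c R : L)).natAbs ≤ ∑ R ∈ T, (ord R (c R : L)).natAbs :=
      Finset.single_le_sum (f := fun R => (ord R (c R : L)).natAbs) (fun _ _ => Nat.zero_le _) hR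
    omega
  · rw [Units.val_mk0]
    exact (hz2 ψ).2
  · have hu1 : (ord Q (u : L) - ord Q' (u : L)).natAbs < i := by
      have h2 : (ord Q (u : L) - ord Q' (u : L)).natAbs ≤
          ∑ u ∈ m, (ord Q (u : L) - ord Q' (u : L)).natAbs :=
        Finset.single_le_sum (f := fun u : Lˣ => (ord Q (u : L) - ord Q' (u : L)).natAbs)
          (fun _ _ => Nat.zero_le _) hu
      omega
    have hi0 : 0 < i := by omega
    constructor
    · apply ap_nz tx h0 Q
      rw [Units.val_mul, Units.val_mk0, ← hQ'def, ord_mul Q' u.ne_zero hzQ.2,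
        ord_mul Q u.ne_zero hzQ.2, hzQ.1, hzQ']
      omega
    · apply ap_nz tx h0 Q
      rw [Units.val_mul, Units.val_pow_eq_pow_val, Units.val_mk0, ← hQ'def,
        ord_mul Q' u.ne_zero (pow_ne_zero 2 hzQ.2), ord_mul Q u.ne_zero (pow_ne_zero 2 hzQ.2),
        ord_pow, ord_pow, hzQ.1, hzQ']
      push_cast
      omega

end Pool.Agent.SKT
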