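import Pool.Agent.SKT.Stm
import Pool.Agent.H98.MF.L.Ord

/-!
# Malle's conjecture for 8T8 over number fields, part (TD), row B0: even contents
-/

set_option autoImplicit false

open scoped BigOperators
open NumberField IsDedekindDomain

namespace Pool.Agent.SKT

open Pool.Agent.H98.MF
open Pool.Agent.H32.MQ

section

variable {k : Type} [Field k] [NumberField k] {Fr : Frm k} {L : Type} [Field L]
  [NumberField L] [Algebra k L] (tx : TX Fr L)

/-- B0: the contents of elements without conflicts are even -/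
theorem td_B0 (hJ : SJj tx) : SEv tx := by
  intro Ps l hO hl z hz hnz p
  obtain ⟨Q, hQ⟩ := exists_over (L := L) (Fr.pl p)
  have hQ' : Over (Fr.pl p) (cj tx.X.sig Q) := hQ.cj tx.X.sig
  have h1 := (hJ p Q hQ _ hnz).1
  have e : ∀ R : HeightOneSpectrum (𝓞 L),
      ord R ((l * z ^ 2 : Lˣ) : L) = ord R (l : L) + 2 * ord R (z : L) := by
    intro R
    rw [Units.val_mul, Units.val_pow_eq_pow_val, ord_mul R l.ne_zero (pow_ne_zero 2 z.ne_zero),
      ord_pow]
    push_cast
    ring
  unfold TX.Ev
  rw [h1, e, e]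
  by_cases hu : tx.Un p (l : L)
  · rw [hu Q hQ, hu _ hQ', zero_add, zero_add]
    rcases min_choice (2 * ord Q (z : L)) (2 * ord (cj tx.X.sig Q) (z : L)) with h | h
    · rw [h]
      exact even_two_mul _
    · rw [h]
      exact even_two_mul _
  · have hzu := hz p hu
    have hout : tx.X.Out Q := ⟨p, by rw [tx.hM]; exact Finset.notMem_empty p, hQ⟩
    rw [hzu Q hQ, hzu _ hQ', mul_zero, add_zero, add_zero]
    by_cases hc : cj tx.X.sig Q = Q
    · rw [hc, hl.inert Q hout hc, min_self]
      exact Even.zero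
    · by_cases hb : (⟨Q, hout, hc⟩ : tx.X.PX) ∈ Ps
      · have h2 : 0 ≤ ord Q (l : L) := hl.pos _ hb
        have h3 : ord (cj tx.X.sig Q) (l : L) = 0 :=
          hl.neg (tx.X.cjX ⟨Q, hout, hc⟩) ((hO _).1 hb)
        rw [h3, min_eq_right h2]
        exact Even.zero
      · have h2 : ord Q (l : L) = 0 := hl.neg _ hb
        have h4 : tx.X.cjX ⟨Q, hout, hc⟩ ∈ Ps := by
          by_contra h
          exact hb ((hO _).2 h)
        have h3 : 0 ≤ ord (cj tx.X.sig Q) (l : L) := hl.pos _ h4
        rw [h2, min_eq_left h3]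
        exact Even.zero

end

end Pool.Agent.SKT
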