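import Pool.Agent.SKT.Stm

/-!
# Malle's conjecture for 8T8 over number fields, (TD): the symbol does not depend on the choice
(row B1)
-/

set_option autoImplicit false

open scoped BigOperators
open NumberField IsDedekindDomain

namespace Pool.Agent.SKT

open Pool.Agent.H98.MF
open Pool.Agent.H98.MK (sg)
open Pool.Agent.H32.MQ

section

variable {k : Type} [Field k] [NumberField k] {Fr : Frm k} {L : Type} [Field L]
  [NumberField L] [Algebra k L] (tx : TX Fr L)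

private theorem b1_ne {u : L} (h : tx.Nz u) : u ≠ 0 := by
  rintro rfl
  apply h.1
  unfold TX.cx
  rw [map_zero, mul_zero]

private theorem b1_un_mul {p : Fr.sys.P} {u v : L} (hu0 : u ≠ 0) (hv0 : v ≠ 0)
    (hu : tx.Un p u) (hv : tx.Un p v) : tx.Un p (u * v) := by
  intro Q hQ
  rw [ord_mul Q hu0 hv0, hu Q hQ, hv Q hQ, add_zero]

private theorem b1_un_pow {p : Fr.sys.P} {u : L} (hu : tx.Un p u) (n : ℕ) :
    tx.Un p (u ^ n) := by
  intro Q hQ
  rw [ord_pow, hu Q hQ, mul_zero]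

private theorem b1_nc (hJ : SJj tx) {p : Fr.sys.P} {u v : L} (h1 : tx.Nz u) (h2 : tx.Nz v)
    (h12 : tx.Nz (u * v)) (h : tx.Un p u ∨ tx.Un p v) : tx.Nc p u v := by
  obtain ⟨Q, hQ⟩ := exists_over (L := L) (Fr.pl p)
  have hQ' := hQ.cj tx.X.sig
  have hu := b1_ne tx h1
  have hv := b1_ne tx h2
  unfold TX.Nc
  rw [(hJ p Q hQ _ h1).1, (hJ p Q hQ _ h2).1, (hJ p Q hQ _ h12).1, ord_mul Q hu hv,
    ord_mul _ hu hv]
  rcases h with h | h
  · rw [h Q hQ, h _ hQ', min_self, zero_add, zero_add, zero_add]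
  · rw [h Q hQ, h _ hQ', min_self, add_zero, add_zero, add_zero]

private theorem b1_kp (p : Fr.sys.P) {w : L} (hw : w ≠ 0) (u : L) : tx.Kp p (w ^ 2) u = 0 := by
  unfold TX.Kp
  refine Finset.sum_eq_zero fun P _ => ?_
  have h : qr (w ^ 2) (cj tx.X.sig (tx.FL.pl P)) = 0 := by
    unfold qr
    exact if_pos (locSq_sq _ hw)
  rw [h, mul_zero]

private theorem b1_oo (Ps : Set tx.X.PX) : tx.OO Ps 1 := by
  refine ⟨fun v _ => ?_, fun Q _ _ => ?_, fun b _ => ?_, fun b _ => ?_⟩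
  · have h := B.LocP_sq v (1 : Lˣ)
    rw [one_pow] at h
    exact h
  · rw [Units.val_one, ord_one]
  · rw [Units.val_one, ord_one]
  · rw [Units.val_one, ord_one]

private theorem b1_ev (hE : SEv tx) {Ps : Set tx.X.PX} (hO : tx.Ori Ps) (w : Lˣ)
    (hz : tx.Nz ((w : L) ^ 2)) (p : Fr.sys.P) : tx.Ev p ((w : L) ^ 2) := by
  have e : (((1 : Lˣ) * w ^ 2 : Lˣ) : L) = (w : L) ^ 2 := by
    rw [one_mul, Units.val_pow_eq_pow_val]
  have h := hE Ps 1 hO (b1_oo tx Ps) w (fun p hp => absurd (fun Q _ => by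
    rw [Units.val_one, ord_one]) hp) (by rw [e]; exact hz) p
  rw [e] at h
  exact h

private theorem b1_fin (u : Lˣ) : {p : Fr.sys.P | ¬ tx.Un p (u : L)}.Finite := by
  have h1 := ord_finite (a := (u : L)) u.ne_zero
  have h2 : (⋃ Q ∈ {Q : HeightOneSpectrum (𝓞 L) | ord Q (u : L) ≠ 0},
      {p : Fr.sys.P | Over (Fr.pl p) Q}).Finite := by
    refine Set.Finite.biUnion h1 fun Q _ => Set.Subsingleton.finite ?_
    intro p hp q hq
    exact HX.over_inj hp hq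
  refine h2.subset fun p hp => ?_
  have hp1 : ¬ ∀ Q : HeightOneSpectrum (𝓞 L), Over (Fr.pl p) Q → ord Q (u : L) = 0 := hp
  push Not at hp1
  obtain ⟨Q, hQ, hQ1⟩ := hp1
  rw [Set.mem_iUnion₂]
  exact ⟨Q, hQ1, hQ⟩

private theorem b1_nr {K : Type} [Field K] [NumberField K] {P : HeightOneSpectrum (𝓞 K)} {n : ℕ}
    {w : K} (h : Nr P ((n + 1 : ℕ) : ℤ) w 1) : Nr P (n : ℤ) (w ^ 2) 1 := by
  rcases h with h | h
  · left
    rw [h, one_pow]
  have h1 : w - 1 = 0 ∨ (n : ℤ) ≤ ord P (w - 1) := Or.inr (by push_cast at h; omega)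
  have h2 : (w - 1) ^ 2 = 0 ∨ (n : ℤ) ≤ ord P ((w - 1) ^ 2) := by
    right
    rw [ord_pow]
    push_cast at h ⊢
    nlinarith
  have h3 := le_ord_add P (n : ℤ) h2 (le_ord_add P (n : ℤ) h1 h1)
  have e : (w - 1) ^ 2 + (w - 1 + (w - 1)) = w ^ 2 - 1 := by ring
  rw [e] at h3
  rcases h3 with h3 | h3
  · left
    exact sub_eq_zero.1 h3
  · exact Or.inr h3

private theorem b1_unit {K : Type} [Field K] [NumberField K] {P : HeightOneSpectrum (𝓞 K)}
    {n : ℕ} {w : K} (h : Nr P ((n + 1 : ℕ) : ℤ) w 1) : ord P w = 0 := by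
  rcases h with h | h
  · rw [h, ord_one]
  · have h1 := (ord_add_eq P (a := (1 : K)) (b := w - 1) one_ne_zero (Or.inr (by
      rw [ord_one]
      push_cast at h
      omega))).2
    rw [add_sub_cancel, ord_one] at h1
    exact h1

private theorem b1_step (hJ : SJj tx) (hG : STmG tx) (hE : SEv tx) (hm : SUm tx) (hr : SUr tx)
    (hs : SUs tx) (hA : SApx tx) (hN : SNr tx) {N : ℤ} (hB : tx.Big N) {Ps : Set tx.X.PX}
    {l z x : Lˣ} (hO : tx.Ori Ps) (hl : tx.OO Ps l) (hz : tx.Adz N l z) (hx : tx.Adz N l x)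
    (hzx : ∀ p, ¬ tx.Un p (z : L) → tx.Un p (x : L)) :
    tx.tt ((l * z ^ 2 : Lˣ) : L) = tx.tt ((l * x ^ 2 : Lˣ) : L) := by
  classical
  obtain ⟨n, hn⟩ := hN N
  let W : Finset Fr.sys.P := (b1_fin tx l).toFinset ∪ (b1_fin tx z).toFinset ∪
    (b1_fin tx x).toFinset
  have hW : ∀ p, p ∉ W → tx.Un p (l : L) ∧ tx.Un p (z : L) ∧ tx.Un p (x : L) := by
    intro p hp
    simp only [W, Finset.mem_union, Set.Finite.mem_toFinset, Set.mem_ofPred_eq, not_or,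
      not_not] at hp
    exact ⟨hp.1.1, hp.1.2, hp.2⟩
  let T : Finset (HeightOneSpectrum (𝓞 L)) :=
    tx.FL.S ∪ W.biUnion fun p => (up tx.FL Fr p).image tx.FL.pl
  obtain ⟨y, hy1, -, hy3⟩ := hA T (fun Q => if Q ∈ tx.FL.S then x⁻¹ else 1) (n + 1)
    (fun _ => True) {x, z, x ^ 2, z ^ 2, l * z ^ 2 * x ^ 2}
  have hyS : ∀ Q ∈ tx.FL.S, Nr Q ((n + 1 : ℕ) : ℤ) ((x * y : Lˣ) : L) 1 := by
    intro Q hQ
    have h := hy1 Q (Finset.mem_union_left _ hQ)
    simp only [if_pos hQ] at h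
    rw [div_inv_eq_mul, mul_comm] at h
    exact h
  have hyW : ∀ p ∈ W, tx.Un p (y : L) := by
    intro p hp Q hQ
    have hQS : Q ∉ tx.FL.S := qf_notMem tx.FL tx.hF hQ
    obtain ⟨P, hP⟩ := (tx.FL.pl_iff Q).2 hQS
    have hQT : Q ∈ T := by
      refine Finset.mem_union_right _ (Finset.mem_biUnion.2 ⟨p, hp, Finset.mem_image.2
        ⟨P, ?_, hP⟩⟩)
      rw [mem_up, hP]
      exact hQ
    have h := hy1 Q hQT
    simp only [if_neg hQS] at h
    rw [div_one] at h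
    exact b1_unit h
  have hy : ∀ p, ¬ tx.Un p (y : L) → tx.Un p (l : L) ∧ tx.Un p (z : L) ∧ tx.Un p (x : L) :=
    fun p hp => hW p fun h => hp (hyW p h)
  have m1 := hy3 x (by simp)
  have m2 := hy3 z (by simp)
  have m3 := hy3 (x ^ 2) (by simp)
  have m4 := hy3 (z ^ 2) (by simp)
  have m5 := hy3 (l * z ^ 2 * x ^ 2) (by simp)
  have l0 := l.ne_zero
  have z0 := z.ne_zero
  have x0 := x.ne_zero
  have y0 := y.ne_zero
  -- the elements close to one
  have hxy : tx.UU N (((x * y : Lˣ) : L) ^ 2) := by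
    refine hn _ (fun Q hQ => b1_nr (hyS Q hQ)) fun ψ => ?_
    rw [map_pow]
    have h : ψ ((x * y : Lˣ) : L) ≠ 0 := (map_ne_zero ψ).2 (x * y).ne_zero
    positivity
  have hzy : tx.UU N (((z * y : Lˣ) : L) ^ 2) := by
    have h1 := (hm N hB _ _ hx.uu hx.uu).2
    have h2 := (hm N hB _ _ (hm N hB _ _ hz.uu h1).1 hxy).1
    have e : ((l * z ^ 2 : Lˣ) : L) * (((l * x ^ 2 : Lˣ) : L))⁻¹ * ((x * y : Lˣ) : L) ^ 2 =
        ((z * y : Lˣ) : L) ^ 2 := by
      push_cast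
      field_simp
    rw [e] at h2
    exact h2
  have e3 : (((x ^ 2) * y ^ 2 : Lˣ) : L) = ((x * y : Lˣ) : L) ^ 2 := by
    push_cast
    ring
  have e4 : (((z ^ 2) * y ^ 2 : Lˣ) : L) = ((z * y : Lˣ) : L) ^ 2 := by
    push_cast
    ring
  have e5 : ((l * z ^ 2 * x ^ 2 * y ^ 2 : Lˣ) : L) =
      ((l * z ^ 2 : Lˣ) : L) * ((x * y : Lˣ) : L) ^ 2 := by
    push_cast
    ring
  have e6 : ((l * z ^ 2 * x ^ 2 * y ^ 2 : Lˣ) : L) =
      ((l * x ^ 2 : Lˣ) : L) * ((z * y : Lˣ) : L) ^ 2 := by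
    push_cast
    ring
  have n3 : tx.Nz (((x * y : Lˣ) : L) ^ 2) := by
    rw [← e3]
    exact m3.2
  have n4 : tx.Nz (((z * y : Lˣ) : L) ^ 2) := by
    rw [← e4]
    exact m4.2
  have n5 : tx.Nz (((l * z ^ 2 : Lˣ) : L) * ((x * y : Lˣ) : L) ^ 2) := by
    rw [← e5]
    exact m5.2
  have n6 : tx.Nz (((l * x ^ 2 : Lˣ) : L) * ((z * y : Lˣ) : L) ^ 2) := by
    rw [← e6]
    exact m5.2
  have ulz : ∀ {p : Fr.sys.P} {w : Lˣ}, tx.Un p (l : L) → tx.Un p (w : L) →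
      tx.Un p ((l * w ^ 2 : Lˣ) : L) := by
    intro p w h1 h2
    rw [Units.val_mul, Units.val_pow_eq_pow_val]
    exact b1_un_mul tx l0 (pow_ne_zero _ w.ne_zero) h1 (b1_un_pow tx h2 2)
  have uwy : ∀ {p : Fr.sys.P} {w : Lˣ}, tx.Un p (w : L) → tx.Un p (y : L) →
      tx.Un p (((w * y : Lˣ) : L) ^ 2) := by
    intro p w h1 h2
    rw [Units.val_mul]
    exact b1_un_pow tx (b1_un_mul tx w.ne_zero y0 h1 h2) 2
  -- the two products
  have hAm := hG ((l * z ^ 2 : Lˣ) : L) (((x * y : Lˣ) : L) ^ 2) hz.nz n3 n5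
    (hE Ps l hO hl z hz.un hz.nz) (b1_ev tx hE hO (x * y) n3) (fun p => by
      refine b1_nc tx hJ hz.nz n3 n5 ?_
      by_cases hyp : tx.Un p (y : L)
      · by_cases hxp : tx.Un p (x : L)
        · exact Or.inr (uwy hxp hyp)
        · left
          refine ulz ?_ ?_
          · by_contra h
            exact hxp (hx.un p h)
          · by_contra h
            exact hxp (hzx p h)
      · exact Or.inl (ulz (hy p hyp).1 (hy p hyp).2.1))
  have hBm := hG ((l * x ^ 2 : Lˣ) : L) (((z * y : Lˣ) : L) ^ 2) hx.nz n4 n6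
    (hE Ps l hO hl x hx.un hx.nz) (b1_ev tx hE hO (z * y) n4) (fun p => by
      refine b1_nc tx hJ hx.nz n4 n6 ?_
      by_cases hyp : tx.Un p (y : L)
      · by_cases hzp : tx.Un p (z : L)
        · exact Or.inr (uwy hzp hyp)
        · left
          refine ulz ?_ (hzx p hzp)
          by_contra h
          exact hzp (hz.un p h)
      · exact Or.inl (ulz (hy p hyp).1 (hy p hyp).2.2))
  have k1 : ∑ᶠ p, tx.Kp p (((x * y : Lˣ) : L) ^ 2) ((l * z ^ 2 : Lˣ) : L) = 0 := by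
    rw [← finsum_zero (α := Fr.sys.P)]
    exact finsum_congr fun p => b1_kp tx p (x * y).ne_zero _
  have k2 : ∑ᶠ p, tx.Kp p (((z * y : Lˣ) : L) ^ 2) ((l * x ^ 2 : Lˣ) : L) = 0 := by
    rw [← finsum_zero (α := Fr.sys.P)]
    exact finsum_congr fun p => b1_kp tx p (z * y).ne_zero _
  rw [k1, hs N hB _ hxy m1.1, hr N hB _ _ hz.uu hxy hz.nz n3, add_zero, add_zero, add_zero]
    at hAm
  rw [k2, hs N hB _ hzy m2.1, hr N hB _ _ hx.uu hzy hx.nz n4, add_zero, add_zero, add_zero]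
    at hBm
  rw [← hAm, ← hBm, ← e5, ← e6]

theorem td_B1 (hJ : SJj tx) (hG : STmG tx) (hE : SEv tx) (hm : SUm tx) (hr : SUr tx)
    (hs : SUs tx) (hA : SApx tx) (hN : SNr tx) (hZ : SAdz tx) : SBw tx := by
  classical
  intro N hB Ps l z hO hl hz
  have hany : ∀ z z' : Lˣ, tx.Adz N l z → tx.Adz N l z' →
      tx.tt ((l * z ^ 2 : Lˣ) : L) = tx.tt ((l * z' ^ 2 : Lˣ) : L) := by
    intro z z' hz hz'
    obtain ⟨x, hx, hxW, -⟩ := hZ N Ps l hl
      ((b1_fin tx z).toFinset ∪ (b1_fin tx z').toFinset) ∅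
    have h1 : ∀ p, ¬ tx.Un p (z : L) → tx.Un p (x : L) := fun p hp => hxW p
      (Finset.mem_union_left _ ((Set.Finite.mem_toFinset _).2 hp))
    have h2 : ∀ p, ¬ tx.Un p (z' : L) → tx.Un p (x : L) := fun p hp => hxW p
      (Finset.mem_union_right _ ((Set.Finite.mem_toFinset _).2 hp))
    rw [b1_step tx hJ hG hE hm hr hs hA hN hB hO hl hz hx h1,
      b1_step tx hJ hG hE hm hr hs hA hN hB hO hl hz' hx h2]
  have hex : ∃ z, tx.Adz N l z := ⟨z, hz⟩
  unfold TX.br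
  rw [dif_pos hex]
  exact hany _ _ hex.choose_spec hz

end

end Pool.Agent.SKT
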