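import Pool.Agent.SKT.Stm
import Pool.Agent.H98.MF.C.Main

/-!
# Malle's conjecture for 8T8 over number fields, part (TD), row B2: the symbol of a product
-/

set_option autoImplicit false

open scoped BigOperators
open NumberField IsDedekindDomain

namespace Pool.Agent.SKT

open Pool.Agent.H98.MF
open Pool.Agent.H32.MQ

section

variable {k : Type} [Field k] [NumberField k] {Fr : Frm k} {L : Type} [Field L]
  [NumberField L] [Algebra k L] {tx : TX Fr L}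

theorem b2_ord (Q : HeightOneSpectrum (𝓞 L)) (l z : Lˣ) :
    ord Q ((l * z ^ 2 : Lˣ) : L) = ord Q (l : L) + 2 * ord Q (z : L) := by
  rw [Units.val_mul, Units.val_pow_eq_pow_val, ord_mul Q l.ne_zero (pow_ne_zero 2 z.ne_zero),
    ord_pow]
  push_cast
  ring

theorem b2_qr (Q : HeightOneSpectrum (𝓞 L)) (l z : Lˣ) :
    qr ((l * z ^ 2 : Lˣ) : L) Q = qr (l : L) Q := by
  have h1 : qr ((l * z ^ 2 : Lˣ) : L) Q = 0 ↔ qr (l : L) Q = 0 := by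
    rw [qr_eq_zero, qr_eq_zero, Units.val_mul, Units.val_pow_eq_pow_val]
    exact locSq_mul_sq Q z.ne_zero _
  have h2 : ∀ x y : ZMod 2, (x = 0 ↔ y = 0) → x = y := by decide
  exact h2 _ _ h1

/-- the primes where an element is not a unit -/
theorem b2_fin (tx : TX Fr L) (l : Lˣ) : {p : Fr.sys.P | ¬ tx.Un p (l : L)}.Finite := by
  have h1 := Pool.Agent.H98.MF.B.ord_finite (l : L) l.ne_zero
  have h2 : (⋃ Q ∈ {Q : HeightOneSpectrum (𝓞 L) | ord Q (l : L) ≠ 0},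
      {p : Fr.sys.P | Over (Fr.pl p) Q}).Finite := by
    refine Set.Finite.biUnion h1 fun Q _ => ?_
    refine Set.Subsingleton.finite fun p hp p' hp' => ?_
    exact HX.over_inj hp hp'
  refine h2.subset fun p hp => ?_
  have hp1 : ¬ tx.Un p (l : L) := hp
  unfold TX.Un at hp1
  push Not at hp1
  obtain ⟨Q, hQ1, hQ2⟩ := hp1
  rw [Set.mem_iUnion₂]
  exact ⟨Q, hQ2, hQ1⟩

/-- either all primes above `p` are self-conjugate or there is a prime of `Ps` above `p` -/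
theorem b2_case (Ps : Set tx.X.PX) (hO : tx.Ori Ps) (p : Fr.sys.P) :
    (∀ b : tx.X.PX, tx.X.shX b ≠ p) ∨ ∃ b ∈ Ps, tx.X.shX b = p := by
  by_cases h : ∃ b : tx.X.PX, tx.X.shX b = p
  · right
    obtain ⟨b, hb⟩ := h
    by_cases hP : b ∈ Ps
    · exact ⟨b, hP, hb⟩
    · refine ⟨tx.X.cjX b, ?_, ?_⟩
      · by_contra h2
        exact hP ((hO b).2 h2)
      · exact tx.X.shX_eq _ (by
          rw [← hb]
          exact (tx.X.shX_over b).cj tx.X.sig)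
  · left
    push Not at h
    exact h

/-- the two elements are prepared at `p` -/
def ZZ (tx : TX Fr L) (l₁ l₂ z₁ z₂ : Lˣ) : Prop := ∀ p : Fr.sys.P,
  (tx.Un p (z₁ : L) ∧ tx.Un p (z₂ : L)) ∨
    (tx.Un p (l₁ : L) ∧ tx.Un p (l₂ : L) ∧ (tx.Un p (z₁ : L) ∨ tx.Un p (z₂ : L)))

theorem b2_b (Ps : Set tx.X.PX) (hO : tx.Ori Ps) {l : Lˣ} (hl : tx.OO Ps l) {b : tx.X.PX}
    (hb : b ∈ Ps) : 0 ≤ ord b.1 (l : L) ∧ ord (cj tx.X.sig b.1) (l : L) = 0 :=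
  ⟨hl.pos b hb, hl.neg (tx.X.cjX b) ((hO b).1 hb)⟩

/-- no conflicts -/
theorem b2_nc (hJ : SJj tx) (Ps : Set tx.X.PX) (hO : tx.Ori Ps) {l₁ l₂ z₁ z₂ : Lˣ}
    (h1 : tx.OO Ps l₁) (h2 : tx.OO Ps l₂) (hz : ZZ tx l₁ l₂ z₁ z₂)
    (n1 : tx.Nz ((l₁ * z₁ ^ 2 : Lˣ) : L)) (n2 : tx.Nz ((l₂ * z₂ ^ 2 : Lˣ) : L))
    (n12 : tx.Nz (((l₁ * z₁ ^ 2 : Lˣ) : L) * ((l₂ * z₂ ^ 2 : Lˣ) : L))) (p : Fr.sys.P) :
    tx.Nc p ((l₁ * z₁ ^ 2 : Lˣ) : L) ((l₂ * z₂ ^ 2 : Lˣ) : L) := by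
  unfold TX.Nc
  have hm : ∀ Q : HeightOneSpectrum (𝓞 L),
      ord Q (((l₁ * z₁ ^ 2 : Lˣ) : L) * ((l₂ * z₂ ^ 2 : Lˣ) : L)) =
        ord Q ((l₁ * z₁ ^ 2 : Lˣ) : L) + ord Q ((l₂ * z₂ ^ 2 : Lˣ) : L) := fun Q =>
    ord_mul Q (Units.ne_zero _) (Units.ne_zero _)
  rcases b2_case Ps hO p with h | ⟨b, hb, rfl⟩
  · obtain ⟨Q, hQ⟩ := exists_over (L := L) (Fr.pl p)
    have hc : cj tx.X.sig Q = Q := qf_inert tx.X tx.hM h hQ
    rw [(hJ p Q hQ _ n1).1, (hJ p Q hQ _ n2).1, (hJ p Q hQ _ n12).1, hc, min_self, min_self,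
      min_self, hm]
  · have hQ := tx.X.shX_over b
    have hQ' := hQ.cj tx.X.sig
    rw [(hJ _ b.1 hQ _ n1).1, (hJ _ b.1 hQ _ n2).1, (hJ _ b.1 hQ _ n12).1, hm, hm, b2_ord,
      b2_ord, b2_ord, b2_ord]
    obtain ⟨e1, e2⟩ := b2_b Ps hO h1 hb
    obtain ⟨e3, e4⟩ := b2_b Ps hO h2 hb
    rcases hz (tx.X.shX b) with ⟨u1, u2⟩ | ⟨v1, v2, u⟩
    · rw [u1 b.1 hQ, u2 b.1 hQ, u1 _ hQ', u2 _ hQ', e2, e4]
      omega
    · rw [v1 b.1 hQ, v2 b.1 hQ, v1 _ hQ', v2 _ hQ']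
      rcases u with u | u
      · rw [u b.1 hQ, u _ hQ']
        omega
      · rw [u b.1 hQ, u _ hQ']
        omega

theorem b2_even (n : ℤ) (h : Even n) : ((n : ℤ) : ZMod 2) = 0 :=
  ZMod.intCast_eq_zero_iff_even.2 h

/-- the local terms at the primes without a prime of `Ps` above -/
theorem b2_k0 (hJ : SJj tx) {p : Fr.sys.P} (h : ∀ b : tx.X.PX, tx.X.shX b ≠ p) {u₁ : L}
    (u₂ : L) (n1 : tx.Nz u₁) : tx.Kp p u₂ u₁ = 0 := by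
  unfold TX.Kp
  refine Finset.sum_eq_zero fun P hP => ?_
  have hQ := (mem_up tx.FL).1 hP
  have hc : cj tx.X.sig (tx.FL.pl P) = tx.FL.pl P := qf_inert tx.X tx.hM h hQ
  rw [(hJ p _ hQ _ n1).1, hc, min_self, sub_self, Int.cast_zero, zero_mul]

/-- the local terms at the primes below `Ps` -/
theorem b2_k1 (hJ : SJj tx) (Ps : Set tx.X.PX) (hO : tx.Ori Ps) {l₁ l₂ z₁ z₂ : Lˣ}
    (h1 : tx.OO Ps l₁) (hz : ZZ tx l₁ l₂ z₁ z₂) (n1 : tx.Nz ((l₁ * z₁ ^ 2 : Lˣ) : L))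
    {b : tx.X.PX} (hb : b ∈ Ps) :
    tx.Kp (tx.X.shX b) ((l₂ * z₂ ^ 2 : Lˣ) : L) ((l₁ * z₁ ^ 2 : Lˣ) : L) =
      ((ord b.1 (l₁ : L) : ℤ) : ZMod 2) * qr (l₂ : L) (tx.X.cjX b).1 := by
  classical
  have hQ := tx.X.shX_over b
  have hQ' := hQ.cj tx.X.sig
  have hne : io tx.X tx.FL tx.hF b ≠ io tx.X tx.FL tx.hF (tx.X.cjX b) := by
    intro h
    have h2 := io_inj tx.X tx.FL tx.hF h
    exact b.2.2 (congrArg Subtype.val h2).symm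
  have hcc : (tx.X.cjX b).1 = cj tx.X.sig b.1 := rfl
  unfold TX.Kp
  rw [up_s tx.X tx.FL tx.hF b, Finset.sum_pair hne, pl_io, pl_io, hcc,
    (hJ _ b.1 hQ _ n1).1, b2_ord, b2_ord, b2_qr, b2_qr]
  obtain ⟨e1, e2⟩ := b2_b Ps hO h1 hb
  rcases hz (tx.X.shX b) with ⟨u1, u2⟩ | ⟨v1, v2, u⟩
  · rw [u1 b.1 hQ, u1 _ hQ', e2, mul_zero, add_zero, add_zero, min_eq_right e1, sub_zero,
      sub_zero, Int.cast_zero, zero_mul, add_zero]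
  · rw [v1 b.1 hQ, v1 _ hQ', Int.cast_zero, zero_mul]
    rw [b2_even _ (by
        rcases min_choice (0 + 2 * ord b.1 (z₁ : L)) (0 + 2 * ord (cj tx.X.sig b.1) (z₁ : L))
          with h | h <;> rw [h]
        · exact ⟨0, by ring⟩
        · exact ⟨ord b.1 (z₁ : L) - ord (cj tx.X.sig b.1) (z₁ : L), by ring⟩),
      b2_even _ (by
        rcases min_choice (0 + 2 * ord b.1 (z₁ : L)) (0 + 2 * ord (cj tx.X.sig b.1) (z₁ : L))
          with h | h <;> rw [h]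
        · exact ⟨ord (cj tx.X.sig b.1) (z₁ : L) - ord b.1 (z₁ : L), by ring⟩
        · exact ⟨0, by ring⟩), zero_mul, zero_mul, add_zero]

/-- the sum of the local terms -/
theorem b2_sum (hJ : SJj tx) (Ps : Set tx.X.PX) (hO : tx.Ori Ps) {l₁ l₂ z₁ z₂ : Lˣ}
    (h1 : tx.OO Ps l₁) (hz : ZZ tx l₁ l₂ z₁ z₂) (n1 : tx.Nz ((l₁ * z₁ ^ 2 : Lˣ) : L)) :
    ∑ᶠ p, tx.Kp p ((l₂ * z₂ ^ 2 : Lˣ) : L) ((l₁ * z₁ ^ 2 : Lˣ) : L) =
      tx.KP Ps (l₂ : L) (l₁ : L) := by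
  unfold TX.KP
  have hinj : Set.InjOn tx.X.shX Ps := by
    intro b hb b' hb' h
    rcases hi_fib tx.X b b' h with h2 | h2
    · exact h2.symm
    · exfalso
      rw [h2] at hb'
      exact (hO b).1 hb hb'
  rw [← finsum_mem_def (s := Ps)]
  have h3 : ∑ᶠ p, tx.Kp p ((l₂ * z₂ ^ 2 : Lˣ) : L) ((l₁ * z₁ ^ 2 : Lˣ) : L) =
      ∑ᶠ p ∈ tx.X.shX '' Ps, tx.Kp p ((l₂ * z₂ ^ 2 : Lˣ) : L) ((l₁ * z₁ ^ 2 : Lˣ) : L) := by
    rw [finsum_mem_def]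
    refine finsum_congr fun p => ?_
    rcases b2_case Ps hO p with h | ⟨b, hb, rfl⟩
    · rw [Set.indicator_of_notMem]
      · exact b2_k0 hJ h _ n1
      · rintro ⟨b, _, hb⟩
        exact h b hb
    · rw [Set.indicator_of_mem (Set.mem_image_of_mem _ hb)]
  rw [h3, finsum_mem_image hinj]
  exact finsum_mem_congr rfl fun b hb => b2_k1 hJ Ps hO h1 hz n1 hb

theorem b2_oo (Ps : Set tx.X.PX) {l₁ l₂ : Lˣ} (h1 : tx.OO Ps l₁) (h2 : tx.OO Ps l₂) :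
    tx.OO Ps (l₁ * l₂) := by
  have hm : ∀ Q : HeightOneSpectrum (𝓞 L), ord Q ((l₁ * l₂ : Lˣ) : L) =
      ord Q (l₁ : L) + ord Q (l₂ : L) := fun Q => by
    rw [Units.val_mul, ord_mul Q l₁.ne_zero l₂.ne_zero]
  refine ⟨fun v hv => ?_, fun Q hQ hc => ?_, fun b hb => ?_, fun b hb => ?_⟩
  · have a1 := h1.sq v hv
    have a2 := h2.sq v hv
    rw [Units.val_mul]
    cases v with
    | inl P => exact LocSq.mul a1 a2
    | inr φ =>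
      show 0 < φ ((l₁ : L) * l₂)
      rw [map_mul]
      exact mul_pos a1 a2
  · rw [hm, h1.inert Q hQ hc, h2.inert Q hQ hc, add_zero]
  · rw [hm, h1.neg b hb, h2.neg b hb, add_zero]
  · rw [hm]
    exact add_nonneg (h1.pos b hb) (h2.pos b hb)

end

/-- B2: the symbol of a product -/
theorem td_B2 {k : Type} [Field k] [NumberField k] {Fr : Frm k} {L : Type} [Field L]
    [NumberField L] [Algebra k L] (tx : TX Fr L) (hJ : SJj tx) (hA : SAdz tx) (hE : SEv tx)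
    (hW : SBw tx) (hM : STmG tx) (hU : SUm tx) (hR : SUr tx) : SBa tx := by
  classical
  intro N hN Ps l₁ l₂ hO h1 h2
  refine ⟨b2_oo Ps h1 h2, ?_⟩
  obtain ⟨z₁, a1, w1, -⟩ := hA N Ps l₁ h1 (b2_fin tx l₂).toFinset ∅
  obtain ⟨z₂, a2, w2, m2⟩ := hA N Ps l₂ h2 ((b2_fin tx l₁).toFinset ∪ (b2_fin tx z₁).toFinset)
    {l₁ * l₂ * z₁ ^ 2}
  have e12 : l₁ * l₂ * z₁ ^ 2 * z₂ ^ 2 = l₁ * z₁ ^ 2 * (l₂ * z₂ ^ 2) := by
    rw [mul_assoc (l₁ * l₂)]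
    exact mul_mul_mul_comm _ _ _ _
  have e12' : l₁ * l₂ * (z₁ * z₂) ^ 2 = l₁ * z₁ ^ 2 * (l₂ * z₂ ^ 2) := by
    rw [← e12, mul_pow, mul_assoc (l₁ * l₂)]
  have n12 : tx.Nz ((l₁ * z₁ ^ 2 * (l₂ * z₂ ^ 2) : Lˣ) : L) := by
    have h3 := (m2 _ (Finset.mem_singleton_self _)).2
    rwa [e12] at h3
  have n12' : tx.Nz (((l₁ * z₁ ^ 2 : Lˣ) : L) * ((l₂ * z₂ ^ 2 : Lˣ) : L)) := by
    rwa [← Units.val_mul]
  have hz : ZZ tx l₁ l₂ z₁ z₂ := by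
    intro p
    by_cases c1 : tx.Un p (l₁ : L)
    · by_cases c2 : tx.Un p (l₂ : L)
      · right
        refine ⟨c1, c2, ?_⟩
        by_cases c3 : tx.Un p (z₁ : L)
        · exact Or.inl c3
        · exact Or.inr (w2 p (Finset.mem_union_right _ ((Set.Finite.mem_toFinset _).2 c3)))
      · exact Or.inl ⟨w1 p ((Set.Finite.mem_toFinset _).2 c2), a2.un p c2⟩
    · exact Or.inl ⟨a1.un p c1,
        w2 p (Finset.mem_union_left _ ((Set.Finite.mem_toFinset _).2 c1))⟩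
  have hun : ∀ (p : Fr.sys.P) (x y : Lˣ), tx.Un p (x : L) → tx.Un p (y : L) →
      tx.Un p ((x * y : Lˣ) : L) := by
    intro p x y hx hy Q hQ
    rw [Units.val_mul, ord_mul Q x.ne_zero y.ne_zero, hx Q hQ, hy Q hQ, add_zero]
  have a12 : tx.Adz N (l₁ * l₂) (z₁ * z₂) := by
    refine ⟨?_, fun p hp => ?_, ?_⟩
    · rw [e12', Units.val_mul]
      exact (hU N hN _ _ a1.uu a2.uu).1
    · rcases hz p with ⟨u1, u2⟩ | ⟨v1, v2, -⟩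
      · exact hun p _ _ u1 u2
      · exact absurd (hun p _ _ v1 v2) hp
    · rw [e12']
      exact n12
  rw [hW N hN Ps (l₁ * l₂) (z₁ * z₂) hO (b2_oo Ps h1 h2) a12, hW N hN Ps l₁ z₁ hO h1 a1,
    hW N hN Ps l₂ z₂ hO h2 a2, e12', Units.val_mul,
    hM _ _ a1.nz a2.nz n12' (hE Ps l₁ hO h1 z₁ a1.un a1.nz) (hE Ps l₂ hO h2 z₂ a2.un a2.nz)
      (b2_nc hJ Ps hO h1 h2 hz a1.nz a2.nz n12'),
    hR N hN _ _ a1.uu a2.uu a1.nz a2.nz, add_zero, b2_sum hJ Ps hO h1 hz a1.nz]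

end Pool.Agent.SKT
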