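import Pool.Agent.SKT.Stm
import Pool.Agent.H98.MF.C.Bas
import Pool.Agent.H98.MF.L.Odd

/-!
# Malle's conjecture for 8T8 over number fields, (TD): generators
-/

set_option autoImplicit false

open scoped BigOperators
open NumberField IsDedekindDomain

namespace Pool.Agent.SKT

open Pool.Agent.H98.MF
open Pool.Agent.H32.MQ

section

variable {k : Type} [Field k] [NumberField k] {Fr : Frm k} {L : Type} [Field L]
  [NumberField L] [Algebra k L] (tx : TX Fr L)

open Classical in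
/-- exponents of the generators at the primes of the frame system -/
theorem b3_ord (G : Finset tx.X.PX) (P : tx.FL.sys.P) :
    ord (tx.FL.pl P) ((tx.gm 0 G : Lˣ) : L) =
      if P ∈ G.image (io tx.X tx.FL tx.hF) then 1 else 0 :=
  h_repO tx.FL (0, G.image (io tx.X tx.FL tx.hF)) P

open Classical in
theorem b3_mem (G : Finset tx.X.PX) (b : tx.X.PX) :
    io tx.X tx.FL tx.hF b ∈ G.image (io tx.X tx.FL tx.hF) ↔ b ∈ G := by
  rw [Finset.mem_image]
  constructor
  · rintro ⟨c, hc, h⟩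
    rwa [← io_inj tx.X tx.FL tx.hF h]
  · intro h
    exact ⟨b, h, rfl⟩

open Classical in
/-- exponents of the generators at the primes of degree one -/
theorem b3_ordX (G : Finset tx.X.PX) (b : tx.X.PX) :
    ord b.1 ((tx.gm 0 G : Lˣ) : L) = if b ∈ G then 1 else 0 := by
  have h1 := b3_ord tx G (io tx.X tx.FL tx.hF b)
  rw [pl_io] at h1
  rw [h1]
  by_cases h : b ∈ G
  · rw [if_pos ((b3_mem tx G b).2 h), if_pos h]
  · rw [if_neg (fun h' => h ((b3_mem tx G b).1 h')), if_neg h]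

theorem b3_ord_inert (G : Finset tx.X.PX) (Q : HeightOneSpectrum (𝓞 L)) (hQ : tx.X.Out Q)
    (hc : cj tx.X.sig Q = Q) : ord Q ((tx.gm 0 G : Lˣ) : L) = 0 := by
  classical
  obtain ⟨P, rfl⟩ := (tx.FL.pl_iff Q).2 ((qf_Out tx.X tx.FL tx.hF tx.hM).1 hQ)
  rw [b3_ord tx G P, if_neg]
  intro h
  obtain ⟨b, -, rfl⟩ := Finset.mem_image.1 h
  rw [pl_io] at hc
  exact b.2.2 hc

theorem b3_ord_mul (Q : HeightOneSpectrum (𝓞 L)) (x y : Lˣ) :
    ord Q ((x * y : Lˣ) : L) = ord Q (x : L) + ord Q (y : L) := by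
  rw [Units.val_mul]
  exact Pool.Agent.H98.MF.B.ord_mul _ x.ne_zero y.ne_zero

/-- the generators at the places of the frame -/
theorem b3_loc (G : Finset tx.X.PX) {v : Pl L} (hv : v ∈ pls tx.FL.S) :
    tx.gm 0 G * lrp tx.FL 0 (tx.ty G) ∈ LS v := by
  classical
  exact rep_lrp tx.FL hv (0, G.image (io tx.X tx.FL tx.hF))

/-- **Row B3.** -/
theorem td_B3 : SOg tx := by
  classical
  intro Ps G G' _ hG hG' hty
  refine ⟨?_, ?_, ?_, ?_⟩
  · intro v hv
    refine ((Pool.Agent.H98.MF.B.lin L).memLS v _).1 ?_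
    have h1 := b3_loc tx G hv
    have h2 := b3_loc tx G' hv
    rw [← hty] at h2
    have h3 := mul_mem h1 h2
    rw [mul_mul_mul_comm, ← pow_two] at h3
    exact (Subgroup.mul_mem_cancel_right _ (Pool.Agent.H98.MF.B.sq_mem_LS v _)).1 h3
  · intro Q hQ hc
    rw [b3_ord_mul, b3_ord_inert tx G Q hQ hc, b3_ord_inert tx G' Q hQ hc, add_zero]
  · intro b hb
    have h1 : b ∉ G := fun h => hb (hG h)
    have h2 : b ∉ G' := fun h => hb (hG' h)
    rw [b3_ord_mul, b3_ordX, b3_ordX, if_neg h1, if_neg h2, add_zero]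
  · intro b _
    rw [b3_ord_mul, b3_ordX, b3_ordX]
    split_ifs <;> norm_num

open Classical in
/-- the symbols of the generators -/
theorem b3_qr (G : Finset tx.X.PX) (b : tx.X.PX) (hb : b ∉ G) :
    qr ((tx.gm 0 G : Lˣ) : L) b.1 =
      ∑ q ∈ G, tx.FL.sys.J (io tx.X tx.FL tx.hF q) (io tx.X tx.FL tx.hF b) := by
  have h1 := h_repQ tx.FL (0, G.image (io tx.X tx.FL tx.hF)) (io tx.X tx.FL tx.hF b)
    (fun h => hb ((b3_mem tx G b).1 h))
  rw [pl_io] at h1
  have h2 : qr ((tx.gm 0 G : Lˣ) : L) b.1 = tx.FL.sys.ex (G.image (io tx.X tx.FL tx.hF)) 0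
      (io tx.X tx.FL tx.hF b) := h1
  rw [h2]
  unfold Sys.ex
  rw [zero_dotProduct, add_zero, Finset.sum_image fun _ _ _ _ h => io_inj tx.X tx.FL tx.hF h]

open Classical in
/-- the symbols of a product of two generators -/
theorem b3_qr2 (B B' : Finset tx.X.PX) (b : tx.X.PX) (hb : b ∉ B) (hb' : b ∉ B') :
    qr ((tx.gm 0 B * tx.gm 0 B' : Lˣ) : L) b.1 =
      ∑ q ∈ B, tx.FL.sys.J (io tx.X tx.FL tx.hF q) (io tx.X tx.FL tx.hF b) +
      ∑ q ∈ B', tx.FL.sys.J (io tx.X tx.FL tx.hF q) (io tx.X tx.FL tx.hF b) := by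
  have h2 : ord b.1 (2 : L) = 0 := by
    have h := hb_two tx.FL (io tx.X tx.FL tx.hF b)
    rwa [pl_io] at h
  rw [← b3_qr tx B b hb, ← b3_qr tx B' b hb', Units.val_mul]
  apply Pool.Agent.H98.MF.qr_mul h2 (Units.ne_zero _) (Units.ne_zero _)
  · rw [b3_ordX, if_neg hb]
    exact Even.zero
  · rw [b3_ordX, if_neg hb']
    exact Even.zero

/-- **Row B4.** -/
theorem td_B4 : SKg tx := by
  classical
  intro Ps A A' B B' hO hA hA' hB hB'
  set Sf : tx.X.PX → ZMod 2 := fun p =>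
    ∑ q ∈ B, tx.FL.sys.J (io tx.X tx.FL tx.hF q) (io tx.X tx.FL tx.hF (tx.X.cjX p)) +
      ∑ q ∈ B', tx.FL.sys.J (io tx.X tx.FL tx.hF q) (io tx.X tx.FL tx.hF (tx.X.cjX p)) with hSf
  show tx.KP Ps ((tx.gm 0 B * tx.gm 0 B' : Lˣ) : L) ((tx.gm 0 A * tx.gm 0 A' : Lˣ) : L) =
    ∑ p ∈ A, Sf p + ∑ p ∈ A', Sf p
  have h1 : ∀ b : tx.X.PX, Set.indicator Ps
      (fun b => ((ord b.1 ((tx.gm 0 A * tx.gm 0 A' : Lˣ) : L) : ℤ) : ZMod 2) *
        qr ((tx.gm 0 B * tx.gm 0 B' : Lˣ) : L) (tx.X.cjX b).1) b =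
      (if b ∈ A then Sf b else 0) + if b ∈ A' then Sf b else 0 := by
    intro b
    by_cases hb : b ∈ Ps
    · have hcb : tx.X.cjX b ∉ Ps := (hO b).1 hb
      rw [Set.indicator_of_mem hb, b3_qr2 tx B B' _ (fun h => hcb (hB h)) (fun h => hcb (hB' h)),
        b3_ord_mul, b3_ordX, b3_ordX]
      show _ * Sf b = _
      split_ifs <;> push_cast <;> ring
    · have h1 : b ∉ A := fun h => hb (hA h)
      have h2 : b ∉ A' := fun h => hb (hA' h)
      rw [Set.indicator_of_notMem hb, if_neg h1, if_neg h2, add_zero]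
  unfold TX.KP
  rw [finsum_congr h1, finsum_eq_sum_of_support_subset (s := A ∪ A')]
  · rw [Finset.sum_add_distrib, Finset.sum_ite_mem, Finset.sum_ite_mem,
      Finset.inter_eq_right.2 Finset.subset_union_left,
      Finset.inter_eq_right.2 Finset.subset_union_right]
  · intro b hb
    rw [Finset.mem_coe, Finset.mem_union]
    by_contra hn
    push Not at hn
    apply hb
    show (if b ∈ A then Sf b else 0) + (if b ∈ A' then Sf b else 0) = 0
    rw [if_neg hn.1, if_neg hn.2, add_zero]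

end

end Pool.Agent.SKT
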