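import Pool.Agent.SKT.Stm

/-!
# Malle's conjecture for 8T8 over number fields, (TD): coordinates
-/

set_option autoImplicit false

open scoped BigOperators
open NumberField IsDedekindDomain

namespace Pool.Agent.SKT

open Pool.Agent.H98.MF
open Pool.Agent.H32.MQ

section

variable {k : Type} [Field k] [NumberField k] {Fr : Frm k} {L : Type} [Field L]
  [NumberField L] [Algebra k L] (tx : TX Fr L)

include tx in
theorem c1_tr_map (x : k) : Algebra.trace k L (algebraMap k L x) = 2 * x := by
  rw [Algebra.trace_algebraMap, tx.X.qe.deg, nsmul_eq_mul, Nat.cast_ofNat]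

theorem c1_tr_α : Algebra.trace k L tx.X.α = 0 := by
  have h1 : Algebra.trace k L (tx.X.sig tx.X.α) = Algebra.trace k L tx.X.α :=
    Algebra.trace_eq_of_algEquiv tx.X.sig tx.X.α
  rw [tx.X.sig_α, map_neg] at h1
  have h2 : 2 * Algebra.trace k L tx.X.α = 0 := by linear_combination -h1
  exact (mul_eq_zero.1 h2).resolve_left two_ne_zero

theorem c1_tr (x y : k) :
    Algebra.trace k L (algebraMap k L x + algebraMap k L y * tx.X.α) = 2 * x := by
  rw [map_add, c1_tr_map tx, ← Algebra.smul_def, map_smul, c1_tr_α tx, smul_zero, add_zero]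

theorem c1_cx (x y : k) : tx.cx (algebraMap k L x + algebraMap k L y * tx.X.α) = x := by
  unfold TX.cx
  rw [c1_tr tx, ← mul_assoc, inv_mul_cancel₀ two_ne_zero, one_mul]

theorem c1_cy (x y : k) : tx.cy (algebraMap k L x + algebraMap k L y * tx.X.α) = y := by
  unfold TX.cy
  have h1 : (algebraMap k L x + algebraMap k L y * tx.X.α) * tx.X.α =
      algebraMap k L (tx.X.a * y) + algebraMap k L x * tx.X.α := by
    rw [map_mul]
    linear_combination algebraMap k L y * tx.X.qe.sq
  have h2 : (2 : k) * (tx.X.a : k) ≠ 0 := mul_ne_zero two_ne_zero tx.X.a.ne_zero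
  rw [h1, c1_tr tx, show 2 * ((tx.X.a : k) * y) = (2 * (tx.X.a : k)) * y by ring, ← mul_assoc,
    inv_mul_cancel₀ h2, one_mul]

theorem c1_repr (u : L) : u = algebraMap k L (tx.cx u) + algebraMap k L (tx.cy u) * tx.X.α := by
  obtain ⟨x, y, hxy⟩ := Pool.Agent.H98.MF.B.qe_repr tx.X.qe u
  have h1 : tx.cx u = x := by rw [hxy]; exact c1_cx tx x y
  have h2 : tx.cy u = y := by rw [hxy]; exact c1_cy tx x y
  rw [h1, h2]
  exact hxy

theorem c1_mul (x y x' y' : k) : (algebraMap k L x + algebraMap k L y * tx.X.α) *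
    (algebraMap k L x' + algebraMap k L y' * tx.X.α) =
    algebraMap k L (x * x' + tx.X.a * y * y') + algebraMap k L (x * y' + x' * y) * tx.X.α := by
  rw [map_add, map_add, map_mul, map_mul, map_mul, map_mul, map_mul]
  linear_combination algebraMap k L y * algebraMap k L y' * tx.X.qe.sq

theorem c1_sig (x y : k) : tx.X.sig (algebraMap k L x + algebraMap k L y * tx.X.α) =
    algebraMap k L x + algebraMap k L (-y) * tx.X.α := by
  rw [map_add, map_mul, tx.X.sig.commutes, tx.X.sig.commutes, tx.X.sig_α, map_neg]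
  ring

/-- **Row C1.** -/
theorem td_C1 : SCo tx where
  repr := c1_repr tx
  cx_mk := c1_cx tx
  cy_mk := c1_cy tx
  cx_mul := by
    intro u v
    conv_lhs => rw [c1_repr tx u, c1_repr tx v, c1_mul, c1_cx]
  cy_mul := by
    intro u v
    conv_lhs => rw [c1_repr tx u, c1_repr tx v, c1_mul, c1_cy]
  nn_eq := by
    intro u
    unfold TX.nn
    conv_lhs => rw [c1_repr tx u]
    exact Pool.Agent.H98.MF.B.qe_norm_form tx.X.qe _ _
  cx_sig := by
    intro u
    conv_lhs => rw [c1_repr tx u, c1_sig, c1_cx]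
  cy_sig := by
    intro u
    conv_lhs => rw [c1_repr tx u, c1_sig, c1_cy]
  tr := by
    intro u
    unfold TX.cx
    rw [← mul_assoc, mul_inv_cancel₀ two_ne_zero, one_mul]
  nn_ne := by
    intro u hu
    have h1 : FiniteDimensional ℚ L := inferInstance
    have h2 : FiniteDimensional k L := FiniteDimensional.right ℚ k L
    exact Algebra.norm_ne_zero_iff.2 hu
  nn_mul := fun u v => map_mul (Algebra.norm k) u v
  cx_lin := by
    intro c u
    unfold TX.cx
    rw [← Algebra.smul_def, map_smul, smul_eq_mul]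
    ring
  cy_lin := by
    intro c u
    unfold TX.cy
    rw [mul_assoc, ← Algebra.smul_def, map_smul, smul_eq_mul]
    ring

end

end Pool.Agent.SKT
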