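import Pool.Agent.SKT.Stm

/-!
# Malle's conjecture for 8T8 over number fields: the statement (TD), row C2: contents and
exponents
-/

set_option autoImplicit false

open scoped BigOperators
open NumberField IsDedekindDomain

namespace Pool.Agent.SKT

open Pool.Agent.H98.MF
open Pool.Agent.H32.MQ

section

variable {k : Type} [Field k] [NumberField k] {Fr : Frm k} {L : Type} [Field L]
  [NumberField L] [Algebra k L] (tx : TX Fr L)

include tx in
theorem tdc2_map {p : Fr.sys.P} {Q : HeightOneSpectrum (𝓞 L)} (hQ : Over (Fr.pl p) Q) (t : k) :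
    ord Q (algebraMap k L t) = ord (Fr.pl p) t :=
  Pool.Agent.H98.MF.B.qe_ord_of_even tx.X.qe hQ (hb_two Fr p)
    (by rw [tx.au p]; exact ⟨0, rfl⟩) t

theorem tdc2_alpha {p : Fr.sys.P} {Q : HeightOneSpectrum (𝓞 L)} (hQ : Over (Fr.pl p) Q) :
    ord Q tx.X.α = 0 := by
  have h1 := ord_pow Q tx.X.α 2
  rw [tx.X.qe.sq, tdc2_map tx hQ, tx.au p] at h1
  push_cast at h1
  omega

theorem tdc2_alpha_ne : tx.X.α ≠ 0 := Pool.Agent.H98.MF.B.qe_ne_zero tx.X.qe

theorem td_C2 (hC : SCo tx) : SJj tx := by
  intro p Q hQ u hu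
  obtain ⟨hx, hy⟩ := hu
  have hr := hC.repr u
  have hα0 := tdc2_alpha_ne tx
  have h20 : (2 : k) ≠ 0 := two_ne_zero
  have hu0 : u ≠ 0 := by
    rintro rfl
    apply hx
    have h1 := hC.cx_mk 0 0
    simpa using h1
  have hs0 : tx.X.sig u ≠ 0 := by
    simpa using hu0
  have hs : tx.X.sig u = algebraMap k L (tx.cx u) - algebraMap k L (tx.cy u) * tx.X.α := by
    have h1 : tx.X.sig (algebraMap k L (tx.cx u) + algebraMap k L (tx.cy u) * tx.X.α) =
        algebraMap k L (tx.cx u) - algebraMap k L (tx.cy u) * tx.X.α := by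
      rw [map_add, map_mul, tx.X.sig_α, AlgEquiv.commutes, AlgEquiv.commutes]
      ring
    rw [← hr] at h1
    exact h1
  have hx' : algebraMap k L (tx.cx u) ≠ 0 := by
    simpa using hx
  have hy' : algebraMap k L (tx.cy u) ≠ 0 := by
    simpa using hy
  have oy : ord Q (algebraMap k L (tx.cy u) * tx.X.α) = ord (Fr.pl p) (tx.cy u) := by
    rw [ord_mul Q hy' hα0, tdc2_map tx hQ, tdc2_alpha tx hQ, add_zero]
  rw [ord_cj]
  refine ⟨?_, ?_⟩
  · have h1 : tx.jj p u = min (ord (Fr.pl p) (tx.cx u)) (ord (Fr.pl p) (tx.cy u)) := rfl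
    rw [h1]
    apply le_antisymm
    · apply le_min
      · have h2 := le_ord_add Q (a := algebraMap k L (tx.cx u))
          (b := algebraMap k L (tx.cy u) * tx.X.α)
          (min (ord (Fr.pl p) (tx.cx u)) (ord (Fr.pl p) (tx.cy u)))
          (Or.inr (by rw [tdc2_map tx hQ]; exact min_le_left _ _))
          (Or.inr (by rw [oy]; exact min_le_right _ _))
        rw [← hr] at h2
        exact h2.resolve_left hu0
      · have h2 := le_ord_add Q (a := algebraMap k L (tx.cx u))
          (b := -(algebraMap k L (tx.cy u) * tx.X.α))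
          (min (ord (Fr.pl p) (tx.cx u)) (ord (Fr.pl p) (tx.cy u)))
          (Or.inr (by rw [tdc2_map tx hQ]; exact min_le_left _ _))
          (Or.inr (by rw [ord_neg, oy]; exact min_le_right _ _))
        rw [← sub_eq_add_neg, ← hs] at h2
        exact h2.resolve_left hs0
    · apply le_min
      · have h2 := le_ord_add Q (a := u) (b := tx.X.sig u)
          (min (ord Q u) (ord Q (tx.X.sig u)))
          (Or.inr (min_le_left _ _)) (Or.inr (min_le_right _ _))
        have e : u + tx.X.sig u = algebraMap k L (2 * tx.cx u) := by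
          rw [hs, map_mul, map_ofNat]
          nth_rewrite 1 [hr]
          ring
        rw [e] at h2
        have h3 : algebraMap k L (2 * tx.cx u) ≠ 0 := by
          simpa using hx
        have h4 := h2.resolve_left h3
        rw [tdc2_map tx hQ, ord_mul _ h20 hx, hb_two, zero_add] at h4
        exact h4
      · have h2 := le_ord_add Q (a := u) (b := -tx.X.sig u)
          (min (ord Q u) (ord Q (tx.X.sig u)))
          (Or.inr (min_le_left _ _)) (Or.inr (by rw [ord_neg]; exact min_le_right _ _))
        have e : u + -tx.X.sig u = algebraMap k L 2 * (algebraMap k L (tx.cy u) * tx.X.α) := by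
          rw [hs, map_ofNat]
          nth_rewrite 1 [hr]
          ring
        rw [e] at h2
        have h3 : algebraMap k L 2 ≠ 0 := by
          rw [map_ofNat]
          exact two_ne_zero
        have h4 := h2.resolve_left (mul_ne_zero h3 (mul_ne_zero hy' hα0))
        rw [ord_mul Q h3 (mul_ne_zero hy' hα0), tdc2_map tx hQ, hb_two, zero_add, oy] at h4
        exact h4
  · show ord (Fr.pl p) (Algebra.norm k u) = ord Q u + ord Q (tx.X.sig u)
    rw [← tdc2_map tx hQ, tx.X.nm_eq, ord_mul Q hu0 hs0]

end

end Pool.Agent.SKT
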