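import Pool.Agent.SKT.Stm
import Pool.Agent.H32.MQ.HQr
import Pool.Agent.H32.MQ.QfInst

/-!
# Malle's conjecture for 8T8 over number fields, the statement (TD), row C3a: the symbols at the
conjugate primes, normalised elements
-/

set_option autoImplicit false

open scoped BigOperators
open NumberField IsDedekindDomain

namespace Pool.Agent.SKT

open Pool.Agent.H98.MF
open Pool.Agent.H32.MQ

section

variable {k : Type} [Field k] [NumberField k] {Fr : Frm k} {L : Type} [Field L]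
  [NumberField L] [Algebra k L] (tx : TX Fr L)

theorem c3a_ne {u : L} (h : tx.Nz u) : u ≠ 0 := by
  intro h0
  apply h.1
  rw [h0]
  unfold TX.cx
  rw [map_zero, mul_zero]

variable {tx}

theorem c3a_two (hC : SCo tx) (u : L) :
    2 * algebraMap k L (tx.cx u) = tx.X.sig u + u := by
  have h1 := hC.repr u
  have h2 := hC.repr (tx.X.sig u)
  rw [hC.cx_sig, hC.cy_sig, map_neg] at h2
  linear_combination -h1 - h2

theorem c3a_key (hC : SCo tx) (b : tx.X.PX) {u₁ u₂ : L} (h1 : tx.Nz u₁) (h2 : tx.Nz u₂)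
    (h12 : tx.Nz (u₁ * u₂)) (ho1 : 0 < ord b.1 u₁) (ho1' : ord (cj tx.X.sig b.1) u₁ = 0)
    (ho2 : 0 ≤ ord b.1 u₂) (ho2' : ord (cj tx.X.sig b.1) u₂ = 0) :
    qr (tx.cx (u₁ * u₂)) (Fr.pl (tx.X.shX b)) =
      qr (tx.cx u₁) (Fr.pl (tx.X.shX b)) + qr u₂ (cj tx.X.sig b.1) := by
  have hO := h_ord tx.X _ _ (tx.X.shX_not b) (tx.X.shX_over b)
  have hn1 := c3a_ne tx h1
  have hn2 := c3a_ne tx h2
  have hs1 : tx.X.sig u₁ ≠ 0 := (map_ne_zero tx.X.sig).2 hn1
  have hs2 : tx.X.sig u₂ ≠ 0 := (map_ne_zero tx.X.sig).2 hn2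
  have os1 : ord b.1 (tx.X.sig u₁) = 0 := by rw [← ord_cj, ho1']
  have os2 : ord b.1 (tx.X.sig u₂) = 0 := by rw [← ord_cj, ho2']
  have h20 : (2 : L) ≠ 0 := two_ne_zero
  set x₁ : L := algebraMap k L (tx.cx u₁) with hx1
  set x : L := algebraMap k L (tx.cx (u₁ * u₂)) with hx
  have hx1n : x₁ ≠ 0 := (map_ne_zero (algebraMap k L)).2 h1.1
  have hxn : x ≠ 0 := (map_ne_zero (algebraMap k L)).2 h12.1
  have e1 : 2 * x₁ = tx.X.sig u₁ + u₁ := c3a_two hC u₁
  have e2 : 2 * x = tx.X.sig u₁ * tx.X.sig u₂ + u₁ * u₂ := by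
    rw [hx, c3a_two hC, map_mul]
  have ox1 : ord b.1 x₁ = 0 := by
    have h3 := (ord_add_eq b.1 hs1 (Or.inr (by rw [os1]; exact ho1)) :
      tx.X.sig u₁ + u₁ ≠ 0 ∧ _)
    have h4 := h3.2
    rw [← e1, ord_mul b.1 h20 hx1n, hO.1, os1, zero_add] at h4
    exact h4
  have hden : 2 * (x₁ * tx.X.sig u₂) ≠ 0 := mul_ne_zero h20 (mul_ne_zero hx1n hs2)
  have hd0 : ord b.1 (2 * (x₁ * tx.X.sig u₂)) = 0 := by
    rw [ord_mul b.1 h20 (mul_ne_zero hx1n hs2), ord_mul b.1 hx1n hs2, hO.1, ox1, os2]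
    norm_num
  set t : L := u₁ * (u₂ - tx.X.sig u₂) / (2 * (x₁ * tx.X.sig u₂)) with ht
  have ht1 : t = 0 ∨ 2 * ord b.1 (2 : L) + 1 ≤ ord b.1 t := by
    have h3 : u₂ - tx.X.sig u₂ = 0 ∨ 0 ≤ ord b.1 (u₂ - tx.X.sig u₂) := by
      rw [sub_eq_add_neg]
      refine le_ord_add b.1 0 (Or.inr ho2) (Or.inr ?_)
      rw [ord_neg, os2]
    by_cases h4 : u₂ - tx.X.sig u₂ = 0
    · left
      rw [ht, h4, mul_zero, zero_div]
    · right
      have h5 := h3.resolve_left h4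
      rw [ht, ord_div b.1 (mul_ne_zero hn1 h4) hden, ord_mul b.1 hn1 h4, hd0, hO.1]
      omega
  have hsq := locSq_one_add b.1 ht1
  have e3 : x * (x₁ * tx.X.sig u₂) = (1 + t) * (x₁ * tx.X.sig u₂) ^ 2 := by
    have h5 : t * (2 * (x₁ * tx.X.sig u₂)) = u₁ * (u₂ - tx.X.sig u₂) :=
      div_mul_cancel₀ _ hden
    have h6 : 2 * x = (1 + t) * (2 * (x₁ * tx.X.sig u₂)) := by
      linear_combination e2 - h5 - tx.X.sig u₂ * e1
    have h7 : x = (1 + t) * (x₁ * tx.X.sig u₂) := by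
      apply mul_left_cancel₀ h20
      linear_combination h6
    rw [h7]
    ring
  have hsq2 : LocSq b.1 (x * (x₁ * tx.X.sig u₂)) := by
    rw [e3, locSq_mul_sq b.1 (mul_ne_zero hx1n hs2)]
    exact hsq
  have ev1 : Even (ord b.1 (x₁ * tx.X.sig u₂)) := by
    rw [ord_mul b.1 hx1n hs2, ox1, os2]
    exact Even.zero
  have ev2 : Even (ord b.1 x) := by
    have h5 := hsq2.even
    rw [ord_mul b.1 hxn (mul_ne_zero hx1n hs2)] at h5
    exact (Int.even_add.1 h5).2 ev1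
  have h7 := (qr_eq_zero (x * (x₁ * tx.X.sig u₂))).2 hsq2
  rw [qr_mul hO.1 hxn (mul_ne_zero hx1n hs2) ev2 ev1,
    qr_mul hO.1 hx1n hs2 (by rw [ox1]; exact Even.zero) (by rw [os2]; exact Even.zero),
    hq_sig_qr] at h7
  have h8 : qr x b.1 = qr (tx.cx (u₁ * u₂)) (Fr.pl (tx.X.shX b)) :=
    h_qm tx.X (Units.mk0 _ h12.1) b (by
      rw [Units.val_mk0, ← hO.2]
      exact ev2)
  have h9 : qr x₁ b.1 = qr (tx.cx u₁) (Fr.pl (tx.X.shX b)) :=
    h_qm tx.X (Units.mk0 _ h1.1) b (by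
      rw [Units.val_mk0, ← hO.2]
      show Even (ord b.1 x₁)
      rw [ox1]
      exact Even.zero)
  rw [← h8, ← h9]
  have h10 : ∀ a c d : ZMod 2, a + (c + d) = 0 → a = c + d := by decide
  exact h10 _ _ _ h7

theorem c3a_min {a b c d : ℤ} (h1 : min a b = 0) (h2 : min c d = 0)
    (h3 : min (a + c) (b + d) = 0) (h4 : 0 < a) : b = 0 ∧ 0 ≤ c ∧ d = 0 := by
  omega

variable (tx)

/-- row C3a -/
theorem td_C3a (hC : SCo tx) (hJ : SJj tx) : SKp0 tx := by
  classical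
  intro p u₁ u₂ h1 h2 h12 j1 j2 j12
  have hn1 := c3a_ne tx h1
  have hn2 := c3a_ne tx h2
  by_cases hs : ∃ b : tx.X.PX, tx.X.shX b = p
  · obtain ⟨b, rfl⟩ := hs
    have hne : io tx.X tx.FL tx.hF b ≠ io tx.X tx.FL tx.hF (tx.X.cjX b) := by
      intro h
      have h3 := io_inj tx.X tx.FL tx.hF h
      exact b.2.2 (congrArg Subtype.val h3).symm
    have hcc : (tx.X.cjX b).1 = cj tx.X.sig b.1 := rfl
    have hov := tx.X.shX_over b
    have g1 := hJ _ _ hov u₁ h1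
    have g2 := hJ _ _ hov u₂ h2
    have g12 := hJ _ _ hov (u₁ * u₂) h12
    rw [j1] at g1
    rw [j2] at g2
    rw [j12, ord_mul _ hn1 hn2, ord_mul _ hn1 hn2] at g12
    unfold TX.Kp
    rw [up_s tx.X tx.FL tx.hF b, Finset.sum_pair hne, pl_io, pl_io, j1, sub_zero, sub_zero,
      hcc, tx.X.cj_cj', g1.2]
    have a1 := g1.1.symm
    have a2 := g2.1.symm
    have a12 := g12.1.symm
    rcases lt_trichotomy (ord b.1 u₁) 0 with h | h | h
    · exact absurd (min_le_left (ord b.1 u₁) (ord (cj tx.X.sig b.1) u₁)) (by omega)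
    · rcases lt_trichotomy (ord (cj tx.X.sig b.1) u₁) 0 with h' | h' | h'
      · exact absurd (min_le_right (ord b.1 u₁) (ord (cj tx.X.sig b.1) u₁)) (by omega)
      · rw [h, h', add_zero, Int.cast_zero, zero_mul, zero_mul, zero_mul, add_zero]
      · rw [min_comm] at a1 a2 a12
        obtain ⟨b1, b2, b3⟩ := c3a_min a1 a2 a12 h'
        have h5 : tx.X.shX (tx.X.cjX b) = tx.X.shX b := tx.X.shX_eq _ (hov.cj tx.X.sig)
        have h6 := c3a_key hC (tx.X.cjX b) h1 h2 h12 h' (by rw [hcc, tx.X.cj_cj', b1]) b2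
          (by rw [hcc, tx.X.cj_cj', b3])
        rw [hcc, tx.X.cj_cj', h5] at h6
        rw [h6, h, zero_add, Int.cast_zero, zero_mul, zero_add]
        congr 1
        have h10 : ∀ a c : ZMod 2, a = c + a + c := by decide
        exact h10 _ _
    · obtain ⟨b1, b2, b3⟩ := c3a_min a1 a2 a12 h
      have h6 := c3a_key hC b h1 h2 h12 h b1 b2 b3
      rw [h6, b1, add_zero, Int.cast_zero, zero_mul, add_zero]
      congr 1
      have h10 : ∀ a c : ZMod 2, a = c + a + c := by decide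
      exact h10 _ _
  · have hs' : ∀ b : tx.X.PX, tx.X.shX b ≠ p := fun b hb => hs ⟨b, hb⟩
    obtain ⟨P, hP, -⟩ := up_i tx.X tx.FL tx.hF tx.hM p hs'
    have hov : Over (Fr.pl p) (tx.FL.pl P) :=
      (mem_up tx.FL).1 (by rw [hP]; exact Finset.mem_singleton_self P)
    have hcj := qf_inert tx.X tx.hM hs' hov
    have g1 := hJ _ _ hov u₁ h1
    rw [j1, hcj, min_self] at g1
    unfold TX.Kp
    rw [hP, Finset.sum_singleton, j1, sub_zero, g1.2, ← g1.1, add_zero, Int.cast_zero,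
      zero_mul, zero_mul]

end

end Pool.Agent.SKT
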