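import Pool.Agent.SKT.Stm
import Pool.Agent.H98.MF.C.Bas

/-!
# Malle's conjecture for 8T8 over number fields, statement (TD): row C3b
(the multiplication law for normalised coordinates)
-/

set_option autoImplicit false

open scoped BigOperators
open NumberField IsDedekindDomain

namespace Pool.Agent.SKT

open Pool.Agent.H98.MF

namespace C3b

variable {k : Type} [Field k] [NumberField k] {P : HeightOneSpectrum (𝓞 k)}

/-- the class of the unit part with respect to the uniformiser `s` -/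
noncomputable def w (P : HeightOneSpectrum (𝓞 k)) (s : k) (a : k) : ZMod 2 :=
  qr (a * s ^ (-(ord P a))) P

theorem ord_zpow' (P : HeightOneSpectrum (𝓞 k)) (a : k) (n : ℤ) :
    ord P (a ^ n) = n * ord P a := Pool.Agent.H98.MF.B.ord_zpow P a n

theorem ord_w {s : k} (hs0 : s ≠ 0) (hs1 : ord P s = 1) {a : k} (ha : a ≠ 0) :
    ord P (a * s ^ (-(ord P a))) = 0 := by
  rw [ord_mul P ha (zpow_ne_zero _ hs0), ord_zpow', hs1]
  ring

theorem w_mul (h2 : ord P (2 : k) = 0) {s : k} (hs0 : s ≠ 0) (hs1 : ord P s = 1) {a b : k}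
    (ha : a ≠ 0) (hb : b ≠ 0) : w P s (a * b) = w P s a + w P s b := by
  unfold w
  have e : a * b * s ^ (-(ord P (a * b))) = (a * s ^ (-(ord P a))) * (b * s ^ (-(ord P b))) := by
    rw [ord_mul P ha hb, neg_add, zpow_add₀ hs0]
    ring
  rw [e]
  refine qr_mul h2 (mul_ne_zero ha (zpow_ne_zero _ hs0)) (mul_ne_zero hb (zpow_ne_zero _ hs0)) ?_ ?_
  · rw [ord_w hs0 hs1 ha]
    exact ⟨0, rfl⟩
  · rw [ord_w hs0 hs1 hb]
    exact ⟨0, rfl⟩

theorem w_even {s : k} (hs0 : s ≠ 0) {a : k}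
    (he : Even (ord P a)) : w P s a = qr a P := by
  obtain ⟨m, hm⟩ := he
  unfold w
  have e : a * s ^ (-(ord P a)) = a * (s ^ (-m)) ^ 2 := by
    rw [hm, ← zpow_natCast, ← zpow_mul]
    congr 2
    push_cast
    ring
  rw [e]
  unfold qr
  rw [locSq_mul_sq P (zpow_ne_zero _ hs0)]

theorem w_zero {s : k} {a : k} (hs0 : s ≠ 0)
    (he : ord P a = 0) : w P s a = qr a P := w_even hs0 (by rw [he]; exact ⟨0, rfl⟩)

theorem w_sq (h2 : ord P (2 : k) = 0) {s : k} (hs0 : s ≠ 0) (hs1 : ord P s = 1) {a : k}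
    (ha : a ≠ 0) : w P s (a ^ 2) = 0 := by
  rw [pow_two, w_mul h2 hs0 hs1 ha ha]
  exact CharTwo.add_self_eq_zero _

theorem w_congr (h2 : ord P (2 : k) = 0) {s : k} (hs0 : s ≠ 0) (hs1 : ord P s = 1) {a c : k}
    (ha : a ≠ 0) (hc : c = 0 ∨ ord P a < ord P c) :
    ord P (a + c) = ord P a ∧ w P s (a + c) = w P s a := by
  have h := ord_add_eq P ha hc
  refine ⟨h.2, ?_⟩
  have e : a + c = a * (1 + c / a) := by
    field_simp
  have hl : LocSq P (1 + c / a) := by
    refine locSq_one_add P ?_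
    rcases hc with hc | hc
    · left
      rw [hc, zero_div]
    · by_cases hc0 : c = 0
      · left
        rw [hc0, zero_div]
      · right
        rw [h2, ord_div P hc0 ha]
        omega
  have hn : (1 + c / a) ≠ 0 := hl.ne_zero
  have ho : Even (ord P (1 + c / a)) := hl.even
  rw [e, w_mul h2 hs0 hs1 ha hn, w_even hs0 ho, (qr_eq_zero _).2 hl, add_zero]

theorem cast_even {n : ℤ} (h : Even n) : ((n : ℤ) : ZMod 2) = 0 := by
  rw [ZMod.intCast_zmod_eq_zero_iff_dvd]
  exact h.two_dvd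

theorem cast_odd {n : ℤ} (h : Odd n) : ((n : ℤ) : ZMod 2) = 1 := by
  obtain ⟨m, rfl⟩ := h
  push_cast
  have : (2 : ZMod 2) = 0 := rfl
  rw [this]
  ring

theorem w_tame (h2 : ord P (2 : k) = 0) {s : k} (hs0 : s ≠ 0) (hs1 : ord P s = 1) {a b : k}
    (ha : a ≠ 0) (hb : b ≠ 0) :
    hs P a b = (ord P a : ZMod 2) * (ord P b : ZMod 2) * w P s (-1) + (ord P b : ZMod 2) * w P s a +
      (ord P a : ZMod 2) * w P s b := by
  by_cases h1 : Even (ord P a)
  · rw [hs_even h2 ha hb h1, cast_even h1, w_even hs0 h1]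
    ring
  · by_cases h3 : Even (ord P b)
    · rw [hs_symm P ha hb, hs_even h2 hb ha h3, cast_even h3, w_even hs0 h3]
      ring
    · rw [Int.not_even_iff_odd] at h1 h3
      have h4 : Even (ord P (-(a * b))) := by
        rw [ord_neg, ord_mul P ha hb]
        exact h1.add_odd h3
      have h5 : (-(a * b)) = (-1) * (a * b) := by ring
      rw [hs_odd_odd h2 ha hb h1 h3, cast_odd h1, cast_odd h3, ← w_even hs0 h4, h5,
        w_mul h2 hs0 hs1 (neg_ne_zero.2 one_ne_zero) (mul_ne_zero ha hb), w_mul h2 hs0 hs1 ha hb]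
      ring

theorem t0_eq {s : k} (hs0 : s ≠ 0) {x y : k}
    (h : min (ord P x) (ord P y) = 0) : T0 P x y = (ord P x : ZMod 2) * w P s y := by
  unfold T0
  split_ifs with h1
  · have h3 : ord P y = 0 := by omega
    rw [w_zero hs0 h3, h3, sub_zero]
  · have h3 : ord P x = 0 := by omega
    rw [h3]
    simp

theorem two0 : (2 : ZMod 2) = 0 := rfl

theorem idem (z : ZMod 2) : z * z = z := by
  revert z
  decide

theorem dbl (z : ZMod 2) : z + z = 0 := CharTwo.add_self_eq_zero z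

/-- the law -/
theorem main (h2 : ord P (2 : k) = 0) {d x₁ y₁ x₂ y₂ x y n : k} (hd0 : d ≠ 0) (hx1 : x₁ ≠ 0)
    (hy1 : y₁ ≠ 0) (hx2 : x₂ ≠ 0) (hy2 : y₂ ≠ 0) (hx0 : x ≠ 0) (hy0 : y ≠ 0) (hn0 : n ≠ 0)
    (hd : ord P d = 0) (hx : x = x₁ * x₂ + d * y₁ * y₂) (hy : y = x₁ * y₂ + x₂ * y₁)
    (hn : n = x₁ ^ 2 - d * y₁ ^ 2) (m1 : min (ord P x₁) (ord P y₁) = 0)
    (m2 : min (ord P x₂) (ord P y₂) = 0) (m3 : min (ord P x) (ord P y) = 0) :
    T0 P x y = T0 P x₁ y₁ + T0 P x₂ y₂ +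
      ((ord P n : ℤ) : ZMod 2) * (qr x P + qr x₁ P) +
      (hs P x (x₁ * y₂ * n) + hs P x₁ n + hs P (-1 : k) x₁ + hs P x₁ y₂ + hs P x₂ y₂) := by
  obtain ⟨s', hs'⟩ := exists_unif P
  obtain ⟨s, hs0, hs1⟩ : ∃ s : k, s ≠ 0 ∧ ord P s = 1 := by
    refine ⟨(s' : k), ?_, hs'⟩
    intro h
    rw [h, ord_zero] at hs'
    exact absurd hs' (by norm_num)
  have hm1 : (-1 : k) ≠ 0 := neg_ne_zero.2 one_ne_zero
  have hom1 : ord P (-1 : k) = 0 := by rw [ord_neg, ord_one]
  -- the values of the norm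
  have hX1 : 0 ≤ ord P x₁ := by omega
  have hY1 : 0 ≤ ord P y₁ := by omega
  have hX2 : 0 ≤ ord P x₂ := by omega
  have hY2 : 0 ≤ ord P y₂ := by omega
  have hX : 0 ≤ ord P x := by omega
  have hY : 0 ≤ ord P y := by omega
  have oxx : ord P (x₁ * x₂) = ord P x₁ + ord P x₂ := ord_mul P hx1 hx2
  have oyy : ord P (d * y₁ * y₂) = ord P y₁ + ord P y₂ := by
    rw [ord_mul P (mul_ne_zero hd0 hy1) hy2, ord_mul P hd0 hy1, hd, zero_add]
  have oxy : ord P (x₁ * y₂) = ord P x₁ + ord P y₂ := ord_mul P hx1 hy2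
  have oyx : ord P (x₂ * y₁) = ord P x₂ + ord P y₁ := ord_mul P hx2 hy1
  have wm : ∀ {a b : k}, a ≠ 0 → b ≠ 0 → w P s (a * b) = w P s a + w P s b :=
    fun ha hb => w_mul h2 hs0 hs1 ha hb
  have wyy : w P s (d * y₁ * y₂) = w P s d + w P s y₁ + w P s y₂ := by
    rw [wm (mul_ne_zero hd0 hy1) hy2, wm hd0 hy1]
  have osq1 : ord P (x₁ ^ 2) = 2 * ord P x₁ := by
    rw [ord_pow]
    push_cast
    ring
  have osq2 : ord P (-(d * y₁ ^ 2)) = 2 * ord P y₁ := by
    rw [ord_neg, ord_mul P hd0 (pow_ne_zero _ hy1), hd, ord_pow]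
    push_cast
    ring
  have hn' : n = -(d * y₁ ^ 2) + x₁ ^ 2 := by rw [hn]; ring
  -- case of a unit norm
  have hNc : 0 < ord P x₁ → ord P n = 0 ∧ w P s n = w P s (-1) + w P s d := by
    intro h
    have hy10 : ord P y₁ = 0 := by omega
    have h3 := w_congr h2 hs0 hs1 (a := -(d * y₁ ^ 2)) (c := x₁ ^ 2)
      (neg_ne_zero.2 (mul_ne_zero hd0 (pow_ne_zero _ hy1))) (Or.inr (by rw [osq1, osq2]; omega))
    rw [← hn'] at h3
    refine ⟨by rw [h3.1, osq2]; omega, ?_⟩
    have e : (-(d * y₁ ^ 2)) = (-1) * (d * y₁ ^ 2) := by ring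
    rw [h3.2, e, wm hm1 (mul_ne_zero hd0 (pow_ne_zero _ hy1)), wm hd0 (pow_ne_zero _ hy1),
      w_sq h2 hs0 hs1 hy1, add_zero]
  have hN : 0 ≤ ord P n := by
    have h3 := le_ord_add P (a := -(d * y₁ ^ 2)) (b := x₁ ^ 2) 0 (Or.inr (by rw [osq2]; omega))
      (Or.inr (by rw [osq1]; omega))
    rw [← hn'] at h3
    exact h3.resolve_left hn0
  -- expansion
  have tm : ∀ {a b : k}, a ≠ 0 → b ≠ 0 → hs P a b =
      (ord P a : ZMod 2) * (ord P b : ZMod 2) * w P s (-1) + (ord P b : ZMod 2) * w P s a +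
      (ord P a : ZMod 2) * w P s b := fun ha hb => w_tame h2 hs0 hs1 ha hb
  have hxy : x₁ * y₂ ≠ 0 := mul_ne_zero hx1 hy2
  rw [t0_eq hs0 m1, t0_eq hs0 m2, t0_eq hs0 m3, tm hx0 (mul_ne_zero hxy hn0), tm hx1 hn0,
    tm hm1 hx1, tm hx1 hy2, tm hx2 hy2, ord_mul P hxy hn0, oxy, wm hxy hn0, wm hx1 hy2, hom1]
  push_cast
  by_cases cX : ord P x = 0
  · by_cases cX1 : ord P x₁ = 0
    · rw [← w_zero hs0 cX, ← w_zero hs0 cX1, cX, cX1]
      by_cases cY2 : ord P y₂ = 0
      · rw [cY2]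
        push_cast
        linear_combination (-((ord P n : ℤ) : ZMod 2) * w P s x - (ord P n : ZMod 2) * w P s x₁ -
          (ord P x₂ : ZMod 2) * w P s y₂) * two0
      · have cX2 : ord P x₂ = 0 := by omega
        have h3 := w_congr h2 hs0 hs1 (a := x₁ * x₂) (c := d * y₁ * y₂) (mul_ne_zero hx1 hx2)
          (Or.inr (by rw [oxx, oyy]; omega))
        rw [← hx] at h3
        rw [cX2, h3.2, wm hx1 hx2]
        push_cast
        linear_combination (-((ord P n : ℤ) : ZMod 2) * (2 * w P s x₁ + w P s x₂) -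
          (ord P y₂ : ZMod 2) * (w P s x₁ + w P s x₂)) * two0
    · have cX1' : 0 < ord P x₁ := by omega
      obtain ⟨hn1, hn2⟩ := hNc cX1'
      have cY1 : ord P y₁ = 0 := by omega
      have cY2 : ord P y₂ = 0 := by
        by_contra hcon
        have h3 := le_ord_add P (a := x₁ * x₂) (b := d * y₁ * y₂) 1 (Or.inr (by rw [oxx]; omega))
          (Or.inr (by rw [oyy]; omega))
        rw [← hx] at h3
        have := h3.resolve_left hx0
        omega
      have h3 := w_congr h2 hs0 hs1 (a := d * y₁ * y₂) (c := x₁ * x₂)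
        (mul_ne_zero (mul_ne_zero hd0 hy1) hy2) (Or.inr (by rw [oxx, oyy]; omega))
      rw [add_comm, ← hx] at h3
      rw [cX, cY2, hn1, hn2, h3.2, wyy]
      push_cast
      linear_combination (-(ord P x₁ : ZMod 2) * (w P s (-1) + w P s d + w P s y₁ + w P s y₂) -
        (ord P x₂ : ZMod 2) * w P s y₂) * two0
  · have cX' : 0 < ord P x := by omega
    have cY : ord P y = 0 := by omega
    by_cases cX1 : ord P x₁ = 0
    · have hid : x₁ * y = y₂ * n + x * y₁ := by
        rw [hx, hy, hn]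
        ring
      have o1 : ord P (x₁ * y) = 0 := by rw [ord_mul P hx1 hy0]; omega
      have o2 : ord P (y₂ * n) = ord P y₂ + ord P n := ord_mul P hy2 hn0
      have o3 : ord P (x * y₁) = ord P x + ord P y₁ := ord_mul P hx0 hy1
      have o4 : ord P (y₂ * n) = 0 := by
        by_contra hcon
        have h3 := le_ord_add P (a := y₂ * n) (b := x * y₁) 1 (Or.inr (by omega))
          (Or.inr (by omega))
        rw [← hid, o1] at h3
        have := h3.resolve_left (mul_ne_zero hx1 hy0)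
        omega
      have cY2 : ord P y₂ = 0 := by omega
      have cN : ord P n = 0 := by omega
      have h3 := w_congr h2 hs0 hs1 (a := y₂ * n) (c := x * y₁) (mul_ne_zero hy2 hn0)
          (Or.inr (by omega))
      rw [← hid, wm hx1 hy0, wm hy2 hn0] at h3
      have h4 := h3.2
      rw [cX1, cY2, cN]
      push_cast
      linear_combination (ord P x : ZMod 2) * h4 - ((ord P x : ZMod 2) * w P s x₁ +
        (ord P x₂ : ZMod 2) * w P s y₂) * two0
    · have cX1' : 0 < ord P x₁ := by omega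
      obtain ⟨hn1, hn2⟩ := hNc cX1'
      have cY1 : ord P y₁ = 0 := by omega
      have cY2 : 0 < ord P y₂ := by
        by_contra hcon
        have h3 := w_congr h2 hs0 hs1 (a := d * y₁ * y₂) (c := x₁ * x₂)
          (mul_ne_zero (mul_ne_zero hd0 hy1) hy2) (Or.inr (by rw [oxx, oyy]; omega))
        rw [add_comm, ← hx] at h3
        omega
      have cX2 : ord P x₂ = 0 := by omega
      have h3 := w_congr h2 hs0 hs1 (a := x₂ * y₁) (c := x₁ * y₂) (mul_ne_zero hx2 hy1)
        (Or.inr (by rw [oxy, oyx]; omega))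
      rw [add_comm, ← hy, wm hx2 hy1] at h3
      have h4 := h3.2
      -- the Steinberg relation
      have hA : x₁ * x₂ / x ≠ 0 := div_ne_zero (mul_ne_zero hx1 hx2) hx0
      have hB : d * y₁ * y₂ / x ≠ 0 := div_ne_zero (mul_ne_zero (mul_ne_zero hd0 hy1) hy2) hx0
      have e1 : (1 : k) ^ 2 - x₁ * x₂ / x * 1 ^ 2 = d * y₁ * y₂ / x := by
        have hxx : x * 1 = x₁ * x₂ + d * y₁ * y₂ := by rw [mul_one]; exact hx
        field_simp
        linear_combination hxx
      have hst : hs P (x₁ * x₂ / x) (d * y₁ * y₂ / x) = 0 := by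
        have h5 := hs_norm P (a := x₁ * x₂ / x) (x := 1) (y := 1) (by rw [e1]; exact hB)
        rwa [e1] at h5
      have wd : ∀ {a : k}, a ≠ 0 → w P s (a / x) = w P s a + w P s x := by
        intro a ha
        have h5 := wm (div_ne_zero ha hx0) hx0
        rw [div_mul_cancel₀ a hx0] at h5
        rw [h5, add_assoc, dbl, add_zero]
      rw [tm hA hB, wd (mul_ne_zero hx1 hx2), wd (mul_ne_zero (mul_ne_zero hd0 hy1) hy2), wyy,
        wm hx1 hx2, ord_div P (mul_ne_zero hx1 hx2) hx0,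
        ord_div P (mul_ne_zero (mul_ne_zero hd0 hy1) hy2) hx0, oxx, oyy, cX2, cY1] at hst
      push_cast at hst
      rw [hn1, hn2, h4, cX2]
      push_cast
      generalize ((ord P x : ℤ) : ZMod 2) = X at *
      generalize ((ord P x₁ : ℤ) : ZMod 2) = X1 at *
      generalize ((ord P y₂ : ℤ) : ZMod 2) = Y2 at *
      generalize w P s (-1) = v at *
      generalize w P s d = δ at *
      generalize w P s x = a at *
      generalize w P s x₁ = a1 at *
      generalize w P s x₂ = a2 at *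
      generalize w P s y₁ = b1 at *
      generalize w P s y₂ = b2 at *
      have hXX := idem X
      linear_combination hst - v * hXX + (X * a2 + X * b1 - X1 * b1 - X1 * a - Y2 * a - X1 * v -
        X1 * δ - X1 * Y2 * v - Y2 * a1 - X1 * b2 - Y2 * a2 + X * a - X * v) * two0

end C3b

/-- row TD-C3b -/
theorem td_C3b (K : Type) [Field K] [NumberField K] : STm0 K := by
  intro P d x₁ y₁ x₂ y₂ x y n h2 hd hx hy hn m1 m2 m3
  exact C3b.main h2 d.ne_zero x₁.ne_zero y₁.ne_zero x₂.ne_zero y₂.ne_zero x.ne_zero y.ne_zero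
    n.ne_zero hd hx hy hn m1 m2 m3

end Pool.Agent.SKT
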