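import Pool.Agent.SKT.Stm

/-!
# Malle's conjecture for 8T8 over number fields, (TD), row C3c (helper21):
the multiplication law at a prime outside the frame, from normalised elements
-/

set_option autoImplicit false

open scoped BigOperators
open NumberField IsDedekindDomain

namespace Pool.Agent.SKT

open Pool.Agent.H98.MF
open Pool.Agent.H98.MK (sg)
open Pool.Agent.H32.MQ

namespace C3c

theorem qr_sq_mul {K : Type} [Field K] [NumberField K] (P : HeightOneSpectrum (𝓞 K)) {c : K}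
    (hc : c ≠ 0) (a : K) : qr (c ^ 2 * a) P = qr a P := by
  have h := (locSq_sq P hc).mul_iff a
  unfold qr
  by_cases h1 : LocSq P a
  · rw [if_pos h1, if_pos (h.2 h1)]
  · rw [if_neg h1, if_neg (fun h2 => h1 (h.1 h2))]

theorem hs_sq_mul {K : Type} [Field K] [NumberField K] (P : HeightOneSpectrum (𝓞 K)) {c e : K}
    (hc : c ≠ 0) (he : e ≠ 0) {a b : K} (ha : a ≠ 0) (hb : b ≠ 0) :
    hs P (c ^ 2 * a) (e ^ 2 * b) = hs P a b := by
  refine hs_congr ?_ ?_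
  · have h : c ^ 2 * a * a = (c * a) ^ 2 := by ring
    rw [h]
    exact locSq_sq P (mul_ne_zero hc ha)
  · have h : e ^ 2 * b * b = (e * b) ^ 2 := by ring
    rw [h]
    exact locSq_sq P (mul_ne_zero he hb)

theorem ord_sq_mul {K : Type} [Field K] [NumberField K] (P : HeightOneSpectrum (𝓞 K)) {c a : K}
    (hc : c ≠ 0) (ha : a ≠ 0) : ord P (c ^ 2 * a) = 2 * ord P c + ord P a := by
  rw [ord_mul P (pow_ne_zero 2 hc) ha, ord_pow]
  push_cast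
  ring

/-- the local symbol after scaling -/
theorem T0_sq_mul {K : Type} [Field K] [NumberField K] (P : HeightOneSpectrum (𝓞 K)) {c x y : K}
    (hc : c ≠ 0) (hx : x ≠ 0) (hy : y ≠ 0) : T0 P (c ^ 2 * x) (c ^ 2 * y) = T0 P x y := by
  unfold T0
  rw [ord_sq_mul P hc hx, ord_sq_mul P hc hy, qr_sq_mul P hc]
  by_cases h : ord P y < ord P x
  · rw [if_pos h, if_pos (by linarith), add_sub_add_left_eq_sub]
  · rw [if_neg h, if_neg (by linarith)]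

end C3c

section

variable {k : Type} [Field k] [NumberField k] {Fr : Frm k} {L : Type} [Field L]
  [NumberField L] [Algebra k L] (tx : TX Fr L)

/-- the multiplication law at a prime outside the frame -/
theorem td_C3c (hC : SCo tx) (hJ : SJj tx) (h0 : STm0 k) (ha : SKp0 tx) : STm tx := by
  intro p u₁ u₂ hz1 hz2 hz12 he1 he2 hnc
  set P := Fr.pl p with hP
  obtain ⟨π, hπ⟩ := exists_unif P
  have hπ0 : (π : k) ≠ 0 := by
    intro h
    rw [h, ord_zero] at hπ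
    exact zero_ne_one hπ
  obtain ⟨s1, hs1⟩ := he1
  obtain ⟨s2, hs2⟩ := he2
  have hord : ∀ s : ℤ, ord P ((π : k) ^ s) = s := by
    intro s
    rw [Pool.Agent.H98.MF.B.ord_zpow, hπ, mul_one]
  -- the scaled elements
  set c1 : k := (π : k) ^ (-s1) with hc1
  set c2 : k := (π : k) ^ (-s2) with hc2
  have hc10 : c1 ≠ 0 := zpow_ne_zero _ hπ0
  have hc20 : c2 ≠ 0 := zpow_ne_zero _ hπ0
  set v₁ : L := algebraMap k L (c1 ^ 2) * u₁ with hv1
  set v₂ : L := algebraMap k L (c2 ^ 2) * u₂ with hv2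
  have hv12 : v₁ * v₂ = algebraMap k L ((c1 * c2) ^ 2) * (u₁ * u₂) := by
    rw [hv1, hv2, mul_pow, map_mul]
    ring
  have hc120 : c1 * c2 ≠ 0 := mul_ne_zero hc10 hc20
  have x1 : tx.cx v₁ = c1 ^ 2 * tx.cx u₁ := hC.cx_lin _ _
  have y1 : tx.cy v₁ = c1 ^ 2 * tx.cy u₁ := hC.cy_lin _ _
  have x2 : tx.cx v₂ = c2 ^ 2 * tx.cx u₂ := hC.cx_lin _ _
  have y2 : tx.cy v₂ = c2 ^ 2 * tx.cy u₂ := hC.cy_lin _ _
  have x12 : tx.cx (v₁ * v₂) = (c1 * c2) ^ 2 * tx.cx (u₁ * u₂) := by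
    rw [hv12]; exact hC.cx_lin _ _
  have y12 : tx.cy (v₁ * v₂) = (c1 * c2) ^ 2 * tx.cy (u₁ * u₂) := by
    rw [hv12]; exact hC.cy_lin _ _
  have hn1 : tx.nn v₁ = (c1 ^ 2) ^ 2 * tx.nn u₁ := by
    rw [hC.nn_eq, hC.nn_eq, x1, y1]
    ring
  have hjs : ∀ (c : k) (u v : L), c ≠ 0 → tx.Nz u → tx.cx v = c ^ 2 * tx.cx u →
      tx.cy v = c ^ 2 * tx.cy u → tx.jj p v = 2 * ord P c + tx.jj p u := by
    intro c u v hc hz hx hy
    unfold TX.jj
    rw [hx, hy, ← hP, C3c.ord_sq_mul P hc hz.1, C3c.ord_sq_mul P hc hz.2, min_add_add_left]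
  have hj1 : tx.jj p v₁ = 0 := by
    rw [hjs c1 u₁ v₁ hc10 hz1 x1 y1, hc1, hord, hs1]
    ring
  have hj2 : tx.jj p v₂ = 0 := by
    rw [hjs c2 u₂ v₂ hc20 hz2 x2 y2, hc2, hord, hs2]
    ring
  have hj12 : tx.jj p (v₁ * v₂) = 0 := by
    rw [hjs (c1 * c2) (u₁ * u₂) (v₁ * v₂) hc120 hz12 x12 y12, ord_mul P hc10 hc20, hc1, hc2,
      hord, hord, hnc, hs1, hs2]
    ring
  have hw1 : tx.Nz v₁ := ⟨by rw [x1]; exact mul_ne_zero (pow_ne_zero 2 hc10) hz1.1,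
    by rw [y1]; exact mul_ne_zero (pow_ne_zero 2 hc10) hz1.2⟩
  have hw2 : tx.Nz v₂ := ⟨by rw [x2]; exact mul_ne_zero (pow_ne_zero 2 hc20) hz2.1,
    by rw [y2]; exact mul_ne_zero (pow_ne_zero 2 hc20) hz2.2⟩
  have hw12 : tx.Nz (v₁ * v₂) := ⟨by rw [x12]; exact mul_ne_zero (pow_ne_zero 2 hc120) hz12.1,
    by rw [y12]; exact mul_ne_zero (pow_ne_zero 2 hc120) hz12.2⟩
  have hu10 : u₁ ≠ 0 := by
    rintro rfl
    apply hz1.1
    unfold TX.cx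
    rw [map_zero, mul_zero]
  have hu20 : u₂ ≠ 0 := by
    rintro rfl
    apply hz2.1
    unfold TX.cx
    rw [map_zero, mul_zero]
  have hnn : tx.nn u₁ ≠ 0 := hC.nn_ne u₁ hu10
  have hnv : tx.nn v₁ ≠ 0 := by
    rw [hn1]
    exact mul_ne_zero (pow_ne_zero 2 (pow_ne_zero 2 hc10)) hnn
  have h2 : ord P (2 : k) = 0 := by
    have hPS : P ∉ Fr.S := (Fr.pl_iff P).1 ⟨p, rfl⟩
    have h4 : ¬ 0 < ord P (2 : k) := fun h4 => hPS (Fr.adm.two P h4)
    have h5 : 0 ≤ ord P (2 : k) := by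
      have := Pool.Agent.H98.MF.B.ord_alg_nonneg P (2 : 𝓞 k)
      rwa [map_ofNat] at this
    omega
  -- the law for the scaled elements
  have hT := h0 P tx.X.a (Units.mk0 _ hw1.1) (Units.mk0 _ hw1.2) (Units.mk0 _ hw2.1)
    (Units.mk0 _ hw2.2) (Units.mk0 _ hw12.1) (Units.mk0 _ hw12.2) (Units.mk0 _ hnv) h2
    (tx.au p) (hC.cx_mul v₁ v₂) (hC.cy_mul v₁ v₂) (hC.nn_eq v₁) hj1 hj2 hj12
  simp only [Units.val_mk0] at hT
  have hKv := ha p v₁ v₂ hw1 hw2 hw12 hj1 hj2 hj12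
  rw [← hP] at hKv
  rw [← hKv] at hT
  -- the symbols of the elements
  have htp : ∀ (c : k) (u v : L), c ≠ 0 → tx.Nz u → tx.cx v = c ^ 2 * tx.cx u →
      tx.cy v = c ^ 2 * tx.cy u → tx.tp p u =
        ((tx.jj p u / 2 : ℤ) : ZMod 2) * qr (tx.X.a : k) P + T0 P (tx.cx v) (tx.cy v) := by
    intro c u v hc hz hx hy
    rw [hx, hy, C3c.T0_sq_mul P hc hz.1 hz.2]
    rfl
  have hT1 := htp c1 u₁ v₁ hc10 hz1 x1 y1
  have hT2 := htp c2 u₂ v₂ hc20 hz2 x2 y2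
  have hT12 := htp (c1 * c2) (u₁ * u₂) (v₁ * v₂) hc120 hz12 x12 y12
  have hd1 : tx.jj p u₁ / 2 = s1 := by omega
  have hd2 : tx.jj p u₂ / 2 = s2 := by omega
  have hd12 : tx.jj p (u₁ * u₂) / 2 = s1 + s2 := by
    have h3 : tx.jj p (u₁ * u₂) = tx.jj p u₁ + tx.jj p u₂ := hnc
    omega
  rw [hd1] at hT1
  rw [hd2] at hT2
  rw [hd12] at hT12
  -- the symbols at the conjugate primes
  have hK : tx.Kp p u₂ u₁ = tx.Kp p v₂ v₁ := by
    unfold TX.Kp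
    refine Finset.sum_congr rfl fun P' _ => ?_
    have hA1 : algebraMap k L c1 ≠ 0 := (map_ne_zero _).2 hc10
    have hA2 : algebraMap k L c2 ≠ 0 := (map_ne_zero _).2 hc20
    have h3 : qr v₂ (cj tx.X.sig (tx.FL.pl P')) = qr u₂ (cj tx.X.sig (tx.FL.pl P')) := by
      rw [hv2, map_pow]
      exact C3c.qr_sq_mul _ hA2 _
    have h4 : ord (tx.FL.pl P') v₁ = 2 * ord (tx.FL.pl P') (algebraMap k L c1) +
        ord (tx.FL.pl P') u₁ := by
      rw [hv1, map_pow]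
      exact C3c.ord_sq_mul _ hA1 hu10
    have h5 : tx.jj p v₁ = 2 * ord P c1 + tx.jj p u₁ := hjs c1 u₁ v₁ hc10 hz1 x1 y1
    rw [h3, h4, h5]
    congr 1
    have h6 : (2 : ZMod 2) = 0 := rfl
    push_cast
    rw [h6]
    ring
  -- the Hilbert symbols
  have hR : tx.Rv (Sum.inl P) u₁ u₂ =
      (hs P (tx.cx (v₁ * v₂)) (tx.cx v₁ * tx.cy v₂ * tx.nn v₁) + hs P (tx.cx v₁) (tx.nn v₁) +
        hs P (-1 : k) (tx.cx v₁) + hs P (tx.cx v₁) (tx.cy v₂) + hs P (tx.cx v₂) (tx.cy v₂)) := by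
    have r1 : hs P (tx.cx (v₁ * v₂)) (tx.cx v₁ * tx.cy v₂ * tx.nn v₁) =
        hs P (tx.cx (u₁ * u₂)) (tx.cx u₁ * tx.cy u₂ * tx.nn u₁) := by
      have h3 : tx.cx v₁ * tx.cy v₂ * tx.nn v₁ =
          (c1 * c2 * c1 ^ 2) ^ 2 * (tx.cx u₁ * tx.cy u₂ * tx.nn u₁) := by
        rw [x1, y2, hn1]
        ring
      rw [x12, h3]
      exact C3c.hs_sq_mul P hc120 (mul_ne_zero hc120 (pow_ne_zero 2 hc10)) hz12.1
        (mul_ne_zero (mul_ne_zero hz1.1 hz2.2) hnn)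
    have r2 : hs P (tx.cx v₁) (tx.nn v₁) = hs P (tx.cx u₁) (tx.nn u₁) := by
      rw [x1, hn1]
      exact C3c.hs_sq_mul P hc10 (pow_ne_zero 2 hc10) hz1.1 hnn
    have r3 : hs P (-1 : k) (tx.cx v₁) = hs P (-1 : k) (tx.cx u₁) := by
      have h3 := C3c.hs_sq_mul P (one_ne_zero (α := k)) hc10
        (neg_ne_zero.2 (one_ne_zero (α := k))) hz1.1
      rw [one_pow, one_mul] at h3
      rw [x1]
      exact h3
    have r4 : hs P (tx.cx v₁) (tx.cy v₂) = hs P (tx.cx u₁) (tx.cy u₂) := by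
      rw [x1, y2]
      exact C3c.hs_sq_mul P hc10 hc20 hz1.1 hz2.2
    have r5 : hs P (tx.cx v₂) (tx.cy v₂) = hs P (tx.cx u₂) (tx.cy u₂) := by
      rw [x2, y2]
      exact C3c.hs_sq_mul P hc20 hc20 hz2.1 hz2.2
    rw [r1, r2, r3, r4, r5]
    rfl
  rw [hT1, hT2, hT12, hK, hR]
  push_cast
  linear_combination hT

end

end Pool.Agent.SKT
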