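import Pool.Agent.SKT.Stm
import Pool.Agent.H98.MF.L.Odd
import Pool.Agent.H32.MQ.HBase

/-!
# Malle's conjecture for 8T8 over number fields, (TD), row C4: squares at a prime
-/

set_option autoImplicit false

open scoped BigOperators
open NumberField IsDedekindDomain

namespace Pool.Agent.SKT

open Pool.Agent.H98.MF
open Pool.Agent.H32.MQ

section

variable {k : Type} [Field k] [NumberField k]

private theorem c4_two (z : ZMod 2) : z + z = 0 := CharTwo.add_self_eq_zero z

theorem c4_loc (P : HeightOneSpectrum (𝓞 k)) (h2 : ord P (2 : k) = 0) {a X Y : k}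
    (ha : a ≠ 0) (ha' : ord P a = 0) (hX : X ≠ 0) (hY : Y ≠ 0) (hx : X ^ 2 + a * Y ^ 2 ≠ 0) :
    ((min (ord P (X ^ 2 + a * Y ^ 2)) (ord P (2 * (X * Y))) / 2 : ℤ) : ZMod 2) * qr a P +
      (if ord P (2 * (X * Y)) < ord P (X ^ 2 + a * Y ^ 2) then
        ((ord P (X ^ 2 + a * Y ^ 2) - ord P (2 * (X * Y)) : ℤ) : ZMod 2) *
          qr (2 * (X * Y)) P else 0) =
      hs P a X + hs P (X ^ 2 + a * Y ^ 2) (2 * (X * Y)) := by
  have hXY : X * Y ≠ 0 := mul_ne_zero hX hY
  have h20 : (2 : k) ≠ 0 := two_ne_zero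
  have hy0 : 2 * (X * Y) ≠ 0 := mul_ne_zero h20 hXY
  have hy : ord P (2 * (X * Y)) = ord P X + ord P Y := by
    rw [ord_mul P h20 hXY, ord_mul P hX hY, h2, zero_add]
  have oX : ord P (X ^ 2) = 2 * ord P X := by
    rw [ord_pow]
    norm_num
  have oY : ord P (a * Y ^ 2) = 2 * ord P Y := by
    rw [ord_mul P ha (pow_ne_zero 2 hY), ord_pow, ha']
    norm_num
  have hX2 : X ^ 2 ≠ 0 := pow_ne_zero 2 hX
  have hY2 : Y ^ 2 ≠ 0 := pow_ne_zero 2 hY
  have haY : a * Y ^ 2 ≠ 0 := mul_ne_zero ha hY2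
  have hs1 : hs P a X = (ord P X : ZMod 2) * qr a P :=
    hs_even h2 ha hX (by rw [ha']; exact Even.zero)
  rw [hs1]
  rcases lt_trichotomy (ord P X) (ord P Y) with h | h | h
  · have e1 : ord P (X ^ 2 + a * Y ^ 2) = 2 * ord P X := by
      rw [(ord_add_eq P hX2 (Or.inr (by rw [oX, oY]; omega))).2, oX]
    have e2 : LocSq P (X ^ 2 + a * Y ^ 2) := by
      have h3 : X ^ 2 + a * Y ^ 2 = (1 + a * Y ^ 2 / X ^ 2) * X ^ 2 := by
        field_simp
      rw [h3, locSq_mul_sq P hX]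
      refine locSq_one_add P (Or.inr ?_)
      rw [ord_div P haY hX2, oX, oY, h2]
      omega
    rw [e2.hs_left hy0, add_zero, hy, e1, if_neg (by omega), add_zero]
    have e3 : min (2 * ord P X) (ord P X + ord P Y) / 2 = ord P X := by
      rw [min_eq_left (by omega)]
      omega
    rw [e3]
  · have e1 : 2 * ord P X ≤ ord P (X ^ 2 + a * Y ^ 2) := by
      have h3 := le_ord_add P (2 * ord P X) (Or.inr (le_of_eq oX.symm) : X ^ 2 = 0 ∨ _)
        (Or.inr (by rw [oY, h]) : a * Y ^ 2 = 0 ∨ _)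
      rcases h3 with h3 | h3
      · exact absurd h3 hx
      · exact h3
    have hy1 : ord P (2 * (X * Y)) = 2 * ord P X := by
      rw [hy, ← h]
      ring
    have e2 : hs P (X ^ 2 + a * Y ^ 2) (2 * (X * Y)) =
        (ord P (X ^ 2 + a * Y ^ 2) : ZMod 2) * qr (2 * (X * Y)) P := by
      rw [hs_symm P hx hy0]
      exact hs_even h2 hy0 hx (by rw [hy1]; exact even_two_mul _)
    have e3 : min (ord P (X ^ 2 + a * Y ^ 2)) (2 * ord P X) / 2 = ord P X := by
      rw [min_eq_right e1]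
      omega
    have e4 : ((2 * ord P X : ℤ) : ZMod 2) = 0 := by
      push_cast
      rw [show (2 : ZMod 2) = 0 by decide, zero_mul]
    rw [e2, hy1, e3]
    split_ifs with h4
    · rw [Int.cast_sub, e4, sub_zero]
    · have h5 : ord P (X ^ 2 + a * Y ^ 2) = 2 * ord P X := by omega
      rw [h5, e4, zero_mul]
  · have e1 : ord P (X ^ 2 + a * Y ^ 2) = 2 * ord P Y := by
      rw [add_comm, (ord_add_eq P haY (Or.inr (by rw [oX, oY]; omega))).2, oY]
    have e2 : LocSq P ((X ^ 2 + a * Y ^ 2) * a) := by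
      have h3 : (X ^ 2 + a * Y ^ 2) * a = (1 + X ^ 2 / (a * Y ^ 2)) * (a * Y) ^ 2 := by
        field_simp
        ring
      rw [h3, locSq_mul_sq P (mul_ne_zero ha hY)]
      refine locSq_one_add P (Or.inr ?_)
      rw [ord_div P hX2 haY, oX, oY, h2]
      omega
    have e3 : LocSq P (2 * (X * Y) * (2 * (X * Y))) := by
      rw [← pow_two]
      exact locSq_sq P hy0
    rw [hs_congr e2 e3, hs_even h2 ha hy0 (by rw [ha']; exact Even.zero), hy, e1,
      if_neg (by omega), add_zero]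
    have e4 : min (2 * ord P Y) (ord P X + ord P Y) / 2 = ord P Y := by
      rw [min_eq_left (by omega)]
      omega
    rw [e4, Int.cast_add]
    have h5 := c4_two ((ord P X : ZMod 2) * qr a P)
    linear_combination -h5

end

/-- C4: squares at a prime outside the frame -/
theorem td_C4 {k : Type} [Field k] [NumberField k] {Fr : Frm k} {L : Type} [Field L]
    [NumberField L] [Algebra k L] (tx : TX Fr L) (hC : SCo tx) : SSq tx := by
  intro p w hw hx
  have e1 : tx.cx (w ^ 2) = tx.cx w ^ 2 + (tx.X.a : k) * tx.cy w ^ 2 := by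
    rw [pow_two, hC.cx_mul]
    ring
  have e2 : tx.cy (w ^ 2) = 2 * (tx.cx w * tx.cy w) := by
    rw [pow_two, hC.cy_mul]
    ring
  rw [e1] at hx
  have h := c4_loc (Fr.pl p) (hb_two Fr p) tx.X.a.ne_zero (tx.au p) hw.1 hw.2 hx
  unfold TX.tp TX.jj
  rw [e1, e2]
  exact h

end Pool.Agent.SKT
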