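import Pool.Agent.SKT.Stm
import Pool.Agent.H98.MF.C.Bas

/-!
# Malle's conjecture for 8T8 over number fields, (TD): almost all local terms vanish
-/

set_option autoImplicit false

open scoped BigOperators
open NumberField IsDedekindDomain

namespace Pool.Agent.SKT

open Pool.Agent.H98.MF
open Pool.Agent.H32.MQ

section

variable {k : Type} [Field k] [NumberField k] {Fr : Frm k} {L : Type} [Field L]
  [NumberField L] [Algebra k L] (tx : TX Fr L)


theorem c5_fin (Fr : Frm k) {x : k} (hx : x ≠ 0) : {p | ord (Fr.pl p) x ≠ 0}.Finite :=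
  (Pool.Agent.H98.MF.B.ord_finite x hx).preimage Fr.pl_inj.injOn

/-- **Row C5.** -/
theorem td_C5 (hC : SCo tx) (hJ : SJj tx) : SFt tx := by
  refine ⟨?_, ?_⟩
  · intro u hu
    refine ((c5_fin Fr hu.1).union (c5_fin Fr hu.2)).subset fun p hp => ?_
    by_contra hn
    apply hp
    have hn1 : ord (Fr.pl p) (tx.cx u) = 0 := by
      by_contra h
      exact hn (Or.inl h)
    have hn2 : ord (Fr.pl p) (tx.cy u) = 0 := by
      by_contra h
      exact hn (Or.inr h)
    unfold TX.tp TX.jj
    rw [hn1, hn2]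
    simp
  · intro u v hu _
    have hu0 : u ≠ 0 := by
      rintro rfl
      apply hu.1
      unfold TX.cx
      rw [map_zero, mul_zero]
    refine (((c5_fin Fr hu.1).union (c5_fin Fr hu.2)).union (c5_fin Fr (hC.nn_ne u hu0))).subset
      fun p hp => ?_
    by_contra hn
    apply hp
    have hn1 : ord (Fr.pl p) (tx.cx u) = 0 := by
      by_contra h
      exact hn (Or.inl (Or.inl h))
    have hn2 : ord (Fr.pl p) (tx.cy u) = 0 := by
      by_contra h
      exact hn (Or.inl (Or.inr h))
    have hn3 : ord (Fr.pl p) (tx.nn u) = 0 := by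
      by_contra h
      exact hn (Or.inr h)
    have hj : tx.jj p u = 0 := by
      unfold TX.jj
      rw [hn1, hn2, min_self]
    unfold TX.Kp
    refine Finset.sum_eq_zero fun P hP => ?_
    obtain ⟨h1, h2⟩ := hJ p (tx.FL.pl P) ((mem_up tx.FL).1 hP) u hu
    rw [hj] at h1
    rw [hn3] at h2
    have h3 : ord (tx.FL.pl P) u = 0 := by
      have h4 := min_le_left (ord (tx.FL.pl P) u) (ord (cj tx.X.sig (tx.FL.pl P)) u)
      have h5 := min_le_right (ord (tx.FL.pl P) u) (ord (cj tx.X.sig (tx.FL.pl P)) u)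
      rw [← h1] at h4 h5
      omega
    rw [h3, hj, sub_zero, Int.cast_zero, zero_mul]

end

end Pool.Agent.SKT
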