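import Pool.Agent.SKT.Stm

/-!
# Malle's conjecture for 8T8 over number fields, part (TD): the global multiplication law (row C7)
-/

set_option autoImplicit false

open scoped BigOperators
open NumberField IsDedekindDomain

namespace Pool.Agent.SKT

open Pool.Agent.H98.MF
open Pool.Agent.H98.MK (sg)
open Pool.Agent.H32.MQ

section

variable {k : Type} [Field k] [NumberField k] {Fr : Frm k} {L : Type} [Field L]
  [NumberField L] [Algebra k L] (tx : TX Fr L)

/-- C7: the multiplication law -/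
theorem td_C7 (hC : SCo tx) (hT : STm tx) (hF : SFt tx) (hR : SRc Fr) : STmG tx := by
  intro u₁ u₂ h1 h2 h12 e1 e2 hnc
  have hu1 : u₁ ≠ 0 := by
    rintro rfl
    exact h1.1 (by simp [TX.cx])
  have hn : tx.nn u₁ ≠ 0 := hC.nn_ne u₁ hu1
  have hm1 : (-1 : k) ≠ 0 := neg_ne_zero.2 one_ne_zero
  have hx12 := h12.1
  have hx1 := h1.1
  have hx2 := h2.1
  have hy2 := h2.2
  obtain ⟨f1, g1⟩ := hR (tx.cx (u₁ * u₂)) (tx.cx u₁ * tx.cy u₂ * tx.nn u₁) hx12
    (mul_ne_zero (mul_ne_zero hx1 hy2) hn)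
  obtain ⟨f2, g2⟩ := hR (tx.cx u₁) (tx.nn u₁) hx1 hn
  obtain ⟨f3, g3⟩ := hR (-1 : k) (tx.cx u₁) hm1 hx1
  obtain ⟨f4, g4⟩ := hR (tx.cx u₁) (tx.cy u₂) hx1 hy2
  obtain ⟨f5, g5⟩ := hR (tx.cx u₂) (tx.cy u₂) hx2 hy2
  have k12 : (Function.support fun p : Fr.sys.P =>
      hv (Sum.inl (Fr.pl p) : Pl k) (tx.cx (u₁ * u₂)) (tx.cx u₁ * tx.cy u₂ * tx.nn u₁) +
        hv (Sum.inl (Fr.pl p) : Pl k) (tx.cx u₁) (tx.nn u₁)).Finite :=
    (f1.union f2).subset (Function.support_add _ _)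
  have k123 := (k12.union f3).subset (Function.support_add _ _)
  have k1234 := (k123.union f4).subset (Function.support_add _ _)
  have k12345 := (k1234.union f5).subset (Function.support_add _ _)
  have hRS : tx.RS u₁ u₂ = ∑ᶠ p : Fr.sys.P, tx.Rv (Sum.inl (Fr.pl p)) u₁ u₂ := by
    unfold TX.RS TX.Rv
    rw [Finset.sum_add_distrib, Finset.sum_add_distrib, Finset.sum_add_distrib,
      Finset.sum_add_distrib, g1, g2, g3, g4, g5]
    rw [finsum_add_distrib k1234 f5, finsum_add_distrib k123 f4, finsum_add_distrib k12 f3,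
      finsum_add_distrib f1 f2]
  have hRf : (Function.support fun p : Fr.sys.P =>
      tx.Rv (Sum.inl (Fr.pl p)) u₁ u₂).Finite := k12345
  rw [hRS]
  unfold TX.tt
  rw [finsum_congr fun p => hT p u₁ u₂ h1 h2 h12 (e1 p) (e2 p) (hnc p)]
  have ft1 := hF.1 u₁ h1
  have ft2 := hF.1 u₂ h2
  have fk := hF.2 u₁ u₂ h1 h2
  have m12 : (Function.support fun p : Fr.sys.P => tx.tp p u₁ + tx.tp p u₂).Finite :=
    (ft1.union ft2).subset (Function.support_add _ _)
  have m123 : (Function.support fun p : Fr.sys.P =>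
      tx.tp p u₁ + tx.tp p u₂ + tx.Kp p u₂ u₁).Finite :=
    (m12.union fk).subset (Function.support_add _ _)
  rw [finsum_add_distrib m123 hRf, finsum_add_distrib m12 fk, finsum_add_distrib ft1 ft2]

end

end Pool.Agent.SKT
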