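import Pool.Agent.SKT.Stm3
import Pool.Agent.H98.MF.C.Main
import Pool.Agent.H98.MF.L.ChiB

/-!
# Malle's conjecture for 8T8 over number fields, (TD), row X1: from the relation at `S` to `DD`
-/

set_option autoImplicit false

open scoped BigOperators
open NumberField IsDedekindDomain

namespace Pool.Agent.SKT

open Pool.Agent.H98.MF
open Pool.Agent.H32.MQ
open Pool.Agent.H32.MA (SD)
open Pool.Agent.SK

private theorem x1_u : ∀ u : ZMod 8, u * u = 1 → u = 1 ∨ u = 3 ∨ u = 5 ∨ u = 7 := by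
  decide

private theorem x1_7 (g : SD) : au 7 g = au 3 (au 5 g) := by
  rw [au_mul]
  rfl

section

variable {k : Type} [Field k] [NumberField k] {Fr : Frm k} {L : Type} [Field L]
  [NumberField L] [Algebra k L] (tx : TX Fr L)

private theorem x1_aa (v : Pl k) : hv v (tx.X.a : k) (tx.X.a : k) = 0 := by
  have h1 := (B.lin k).mulR v tx.X.a (-1) (-tx.X.a)
  have h2 : ((-1 * -tx.X.a : kˣ) : k) = (tx.X.a : k) := by
    rw [neg_one_mul, neg_neg]
  have h3 : hv v (tx.X.a : k) ((-tx.X.a : kˣ) : k) = 0 := by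
    refine (B.lin k).nm v tx.X.a (-tx.X.a) 0 1 ?_
    rw [Units.val_neg]
    ring
  have h4 : hv v (tx.X.a : k) ((-1 : kˣ) : k) = 0 := by
    rw [Units.val_neg, Units.val_one]
    exact tx.neg v
  rw [h2, h3, h4, add_zero] at h1
  exact h1

private theorem x1_loc (ρ ρ' : Gm k →* SD) (c : kˣ)
    (hρ : ∀ σ, (ρ σ).pd = chi (tx.X.a : k) σ) (v : Pl k) (u : ZMod 8) (hu : u * u = 1)
    (h : ∀ σ ∈ DecP v, ρ' σ = au u (twS ρ c σ)) :
    ∃ (e : ZMod 2) (c' : kˣ), (∀ σ ∈ DecP v, ρ' σ =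
      (if e = 0 then ρ σ else SD.ss * ρ σ * SD.ss⁻¹) * SD.zz (chi (c' : k) σ)) ∧
      hv v (tx.X.a : k) (c' : k) = hv v (tx.X.a : k) (c : k) := by
  have hz5 : ∀ σ : Gm k, au 5 (twS ρ c σ) = ρ σ * SD.zz (chi ((c * tx.X.a : kˣ) : k) σ) := by
    intro σ
    rw [twS_apply, map_mul, au_zz 5 _ (by decide), au_five, hρ, mul_assoc, ← SD.zz_add,
      Units.val_mul, chi_mul c.ne_zero tx.X.a.ne_zero, add_comm]
  have hca : hv v (tx.X.a : k) ((c * tx.X.a : kˣ) : k) = hv v (tx.X.a : k) (c : k) := by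
    rw [(B.lin k).mulR, x1_aa, add_zero]
  rcases x1_u u hu with rfl | rfl | rfl | rfl
  · refine ⟨0, c, fun σ hσ => ?_, rfl⟩
    rw [h σ hσ, au_one, if_pos rfl, twS_apply]
  · refine ⟨1, c, fun σ hσ => ?_, rfl⟩
    rw [h σ hσ, if_neg one_ne_zero, twS_apply, map_mul, au_zz 3 _ (by decide), au_three]
  · refine ⟨0, c * tx.X.a, fun σ hσ => ?_, hca⟩
    rw [h σ hσ, if_pos rfl, hz5]
  · refine ⟨1, c * tx.X.a, fun σ hσ => ?_, hca⟩
    rw [h σ hσ, if_neg one_ne_zero, x1_7, hz5, map_mul, au_zz 3 _ (by decide), au_three]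

/-- X1: from the relation `EqS` to `DD` -/
theorem td_X1 : SXd tx := by
  intro ρ ρ' c hρ h
  have h1 : ∀ v ∈ pls Fr.S, ∃ (e : ZMod 2) (c' : kˣ), (∀ σ ∈ DecP v, ρ' σ =
      (if e = 0 then ρ σ else SD.ss * ρ σ * SD.ss⁻¹) * SD.zz (chi (c' : k) σ)) ∧
      hv v (tx.X.a : k) (c' : k) = hv v (tx.X.a : k) (c : k) := by
    intro v hv
    obtain ⟨u, hu, h2⟩ := h v hv
    exact x1_loc tx ρ ρ' c hρ v u hu h2
  choose! e c' h2 using h1
  exact ⟨e, c', fun v hv => (h2 v hv).1, Finset.sum_congr rfl fun v hv => (h2 v hv).2.symm⟩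

end

end Pool.Agent.SKT
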