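import Pool.Agent.SKT.Stm3
import Pool.Agent.SKT.C1
import Pool.Agent.SK.AAct
import Pool.Agent.SK.AFTwo

/-!
# Malle's conjecture for 8T8 over number fields, (TD): the homomorphisms attached to a class, in
terms of its representative
-/

set_option autoImplicit false

open scoped BigOperators
open NumberField IsDedekindDomain

namespace Pool.Agent.SKT

open Pool.Agent.H98.MF
open Pool.Agent.H98.MK (sg)
open Pool.Agent.H32.MQ
open Pool.Agent.H32.MA (SD)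
open Pool.Agent.D8 (RxF)
open Pool.Agent.SK

section

variable {k : Type} [Field k] [NumberField k] {Fr : Frm k} {L : Type} [Field L]
  [NumberField L] [Algebra k L] (tx : TX Fr L)

theorem x2_j (j : L →ₐ[k] Om k) (hj : j tx.X.α = Pool.Agent.H98.MF.sq (tx.X.a : k)) (u : L) :
    j u = algebraMap k (Om k) (tx.cx u) +
      algebraMap k (Om k) (tx.cy u) * Pool.Agent.H98.MF.sq (tx.X.a : k) := by
  conv_lhs => rw [c1_repr tx u]
  rw [map_add, map_mul, j.commutes, j.commutes, hj]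

theorem x2_jsig (j : L →ₐ[k] Om k) (hj : j tx.X.α = Pool.Agent.H98.MF.sq (tx.X.a : k))
    (u : L) : j (tx.X.sig u) = algebraMap k (Om k) (tx.cx u) -
      algebraMap k (Om k) (tx.cy u) * Pool.Agent.H98.MF.sq (tx.X.a : k) := by
  conv_lhs => rw [c1_repr tx u, c1_sig]
  rw [map_add, map_mul, j.commutes, j.commutes, hj, map_neg]
  ring

/-- from `IsF` to `IsTh` -/
theorem x2_isTh (j : L →ₐ[k] Om k) (hj : j tx.X.α = Pool.Agent.H98.MF.sq (tx.X.a : k))
    (u : Lˣ) (f : Gm k → ZMod 2) (h : (qk tx.X).IsF j u f) :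
    Pool.Agent.D8.IsTh tx.X.a (tx.cx (u : L)) (tx.cy (u : L)) f := by
  obtain ⟨θ, θ', h1, h2, h3, h4⟩ := h
  refine ⟨θ, θ', ?_, ?_, h3, h4⟩
  · rw [h1, x2_j tx j hj]
  · rw [h2]
    exact x2_jsig tx j hj (u : L)

/-- **Row X2.** -/
theorem td_X2 (Rk : RxF k) (hTy : ∀ j : L →ₐ[k] Om k, ATy Rk.toRx tx.X j) : SXa tx Rk := by
  classical
  intro j hj t g hg ρ hρ
  have hcl := hρ.2
  obtain ⟨y, hy⟩ := HX.out_mk (tx.gm t g)
  have hy' : HX.out (elX tx.X tx.FL tx.hF t g) = tx.gm t g * y ^ 2 := hy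
  have hF : (qk tx.X).IsF j (tx.gm t g) (fun σ => (ρ σ).pf) := by
    have h1 := hcl.pf
    rw [hy'] at h1
    have h2 := aFSq (qk tx.X) j (aAct (qk tx.X) j) (tx.gm t g * y ^ 2) y⁻¹ _ h1
    have h3 : tx.gm t g * y ^ 2 * y⁻¹ ^ 2 = tx.gm t g := by
      rw [mul_assoc, ← mul_pow, mul_inv_cancel, one_pow, mul_one]
    rwa [h3] at h2
  have hB : elX tx.X tx.FL tx.hF t g ∈ tx.X.Bs g := by
    rw [← hi_mem tx.X (h_cardB tx.X)]
    exact (mem_BX tx.X tx.FL tx.hF tx.hM g _).2 ⟨t, rfl⟩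
  refine ⟨⟨hcl.lc, hcl.pd, x2_isTh tx j hj _ _ hF⟩, ?_⟩
  intro p hp
  refine (hTy j g hg _ hB ρ hρ p (qf_p tx.X tx.hM p)).2 ?_
  intro h
  obtain ⟨b, hb, hbp⟩ := Finset.mem_image.1 h
  exact hp b hb hbp

end

end Pool.Agent.SKT
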