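import Pool.Agent.SKT.Stm3

/-!
# Malle's conjecture for 8T8 over number fields, the statement (TD), row X4: the coefficients of
two classes
-/

set_option autoImplicit false

open scoped BigOperators
open NumberField IsDedekindDomain

namespace Pool.Agent.SKT

open Pool.Agent.H98.MF
open Pool.Agent.H98.MK (sg)
open Pool.Agent.H32.MQ
open Pool.Agent.H32.MA (SD)
open Pool.Agent.D8 (RxF)
open Pool.Agent.SK

section

variable {k : Type} [Field k] [NumberField k] {Fr : Frm k} {L : Type} [Field L]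
  [NumberField L] [Algebra k L]

private theorem x4_lrp (Fr : Frm k) (b : Fr.sys.T) : lrp Fr b 0 = rep Fr (b, ∅) := by
  unfold lrp rep
  simp

/-- `b` is orthogonal to the types of the split primes -/
private theorem x4_ty (X : HX Fr L) {b : Fr.sys.T} (hb : IsSquare (X.a * lrp Fr b 0))
    (c : X.PX) : b ⬝ᵥ Fr.sys.ty (X.shX c) = 0 := by
  have h1 : co Fr X.a = (b, ∅) := by
    rw [x4_lrp] at hb
    rw [co_congr Fr hb, co_rep]
  have h2 := (h_split X (X.shX c) (X.shX_not c)).1 ⟨c, rfl⟩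
  rw [h1] at h2
  unfold Sys.ex at h2
  rwa [Finset.sum_empty, zero_add] at h2

private theorem x4_tys (X : HX Fr L) {b : Fr.sys.T} (hb : IsSquare (X.a * lrp Fr b 0))
    (g : Finset X.PX) {x : Finset Fr.sys.P} (hx : x ⊆ (Qof X).shd g) :
    b ⬝ᵥ Fr.sys.tys x = 0 := by
  classical
  have h1 : Fr.sys.tys x = ∑ p ∈ x, Fr.sys.ty p := rfl
  rw [h1, dotProduct_sum]
  refine Finset.sum_eq_zero fun p hp => ?_
  have h2 := hx hp
  unfold Qd.shd at h2
  obtain ⟨c, -, rfl⟩ := Finset.mem_image.1 h2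
  exact x4_ty X hb c

/-- the sum of the symbols at the frame -/
private theorem x4_sum (hDual : ADual Fr) {a : kˣ} {b : Fr.sys.T}
    (hb : IsSquare (a * lrp Fr b 0)) (c : Fr.sys.T × Fr.sys.T) :
    ∑ v ∈ pls Fr.S, hv v (a : k) (lrp Fr c.1 c.2 : k) = b ⬝ᵥ c.2 := by
  rw [← hDual b c.1 c.2]
  refine Finset.sum_congr rfl fun v _ => ?_
  have hs : ∀ x : kˣ, IsSquare x → x ∈ LS v := by
    rintro x ⟨y, rfl⟩
    rw [← pow_two]
    exact Pool.Agent.H98.MF.B.sq_mem_LS v y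
  exact hv_congr (hs _ hb) (hs _ ⟨_, rfl⟩)

/-- X4: the coefficients of two classes -/
theorem td_X4 (tx : TX Fr L) (Rk : RxF k) (hX1 : SXd tx)
    (hEq : ∀ j : L →ₐ[k] Om k, AEq Rk.toRx tx.X j tx.FL) (hTwi : ATwi Fr) (hDual : ADual Fr)
    (hTau : ∀ j : L →ₐ[k] Om k, FTau Rk.toRx tx.X j) : SXt tx Rk := by
  classical
  intro j w hw b hb t g g' hg hg' _ _ hty ρ ρ' hρ hρ'
  have hco : coL tx.FL (elX tx.X tx.FL tx.hF t g') = coL tx.FL (elX tx.X tx.FL tx.hF t g) := by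
    unfold coL coX
    rw [co_out_el, co_out_el]
    exact Prod.ext rfl hty.symm
  obtain ⟨c, hc⟩ := hEq j tx.hF _ _ hco ρ' hρ' ρ hρ
  have hpd : ∀ σ, (ρ' σ).pd = chi (tx.X.a : k) σ := hρ'.1.2.1
  refine ⟨b ⬝ᵥ c.2, ?_, ?_⟩
  · have h1 := hX1 ρ' ρ (lrp Fr c.1 c.2) hpd hc
    rwa [x4_sum hDual hb c] at h1
  · have hB : ∀ f : Finset tx.X.PX, elX tx.X tx.FL tx.hF t f ∈ (Qof tx.X).B f := fun f =>
      (mem_BX tx.X tx.FL tx.hF tx.hM f _).2 ⟨t, rfl⟩
    obtain ⟨x, hx, h1⟩ := hTau j tx.hM w hw g hg _ (hB g) ρ hρ b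
    obtain ⟨x', hx', h1'⟩ := hTau j tx.hM w hw g' hg' _ (hB g') ρ' hρ' b
    have h2 := hTwi w hw ρ' hρ'.1.1 ρ hρ.1.1 b c hc
    rw [h1, h1', x4_tys tx.X hb g hx, x4_tys tx.X hb g' hx', h2]
    have h3 : ((sg (0 : ZMod 2) : ℤ) : ℝ) = 1 := by simp [sg]
    rw [h3, one_mul, one_mul]

end

end Pool.Agent.SKT
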