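import Pool.Agent.SKT.Stm3

/-!
# Malle's conjecture for 8T8 over number fields, the statement (TD), row X5: the slices
-/

set_option autoImplicit false

open scoped BigOperators
open NumberField IsDedekindDomain

namespace Pool.Agent.SKT

open Pool.Agent.H98.MF
open Pool.Agent.H98.MK (sg)
open Pool.Agent.H32.MQ
open Pool.Agent.H32.MA (SD)
open Pool.Agent.D8 (RxF)
open Pool.Agent.SK

section

variable {k : Type} [Field k] [NumberField k] {Fr : Frm k} {L : Type} [Field L]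
  [NumberField L] [Algebra k L] (tx : TX Fr L) (Rk : RxF k)

/-- orientations exist -/
theorem x5_ori : ∃ Ps : Set tx.X.PX, tx.Ori Ps ∧ tx.Ori Psᶜ := by
  obtain ⟨Ps, hPs⟩ : ∃ Ps : Set tx.X.PX, Ps = {b | WellOrderingRel b (tx.X.cjX b)} := ⟨_, rfl⟩
  have hcc : ∀ b : tx.X.PX, tx.X.cjX (tx.X.cjX b) = b := fun b =>
    Subtype.ext (tx.X.cj_cj' b.1)
  have hO : tx.Ori Ps := by
    intro b
    have hne : b ≠ tx.X.cjX b := fun h => b.2.2 (congrArg Subtype.val h).symm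
    rw [hPs]
    show WellOrderingRel b (tx.X.cjX b) ↔ ¬ WellOrderingRel (tx.X.cjX b) (tx.X.cjX (tx.X.cjX b))
    rw [hcc]
    constructor
    · intro h h'
      exact asymm_of WellOrderingRel h h'
    · intro h
      rcases trichotomous_of WellOrderingRel b (tx.X.cjX b) with h1 | h1 | h1
      · exact h1
      · exact absurd h1 hne
      · exact absurd h1 h
  refine ⟨Ps, hO, fun b => ?_⟩
  have h1 := hO b
  rw [Set.mem_compl_iff, Set.mem_compl_iff, not_not, h1, not_not]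

open Classical in
theorem x5_uT {S SF : Sys} (F : Qc S SF) (R : Finset F.Q.P) (P : Fin 3 → F.Q.P) (x : F.Q.P) :
    x ∈ uT F R P ↔ x ∈ R ∨ ∃ i, P i = x := by
  unfold uT
  rw [Finset.mem_union, Finset.mem_image]
  simp

theorem x5_gd {S SF : Sys} (F : Qc S SF) {Pp : Set F.Q.P} {R : Finset F.Q.P} (hR : F.Q.Gd R)
    {P : Fin 3 → F.Q.P} (hT : Tri F Pp R P) : F.Q.Gd (uT F R P) := by
  intro x hx y hy hxy
  rw [x5_uT] at hx hy
  rcases hx with hx | ⟨i, rfl⟩
  · rcases hy with hy | ⟨j, rfl⟩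
    · exact hR x hx y hy hxy
    · exact absurd hxy (hT.out j x hx)
  · rcases hy with hy | ⟨j, rfl⟩
    · exact absurd hxy.symm (hT.out i y hy)
    · by_contra hne
      exact hT.ne i j (fun h => hne (by rw [h])) hxy

theorem x5_inj {S SF : Sys} (F : Qc S SF) {Pp : Set F.Q.P} {R : Finset F.Q.P}
    {P : Fin 3 → F.Q.P} (hT : Tri F Pp R P) : Function.Injective P := by
  intro i j h
  by_contra hne
  exact hT.ne i j hne (by rw [h])

theorem x5_out {S SF : Sys} (F : Qc S SF) {Pp : Set F.Q.P} {R : Finset F.Q.P}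
    {P : Fin 3 → F.Q.P} (hT : Tri F Pp R P) (i : Fin 3) : P i ∉ R := fun h =>
  hT.out i (P i) h rfl

theorem x5_typ {S SF : Sys} (F : Qc S SF) {Pp : Set F.Q.P} {R : Finset F.Q.P}
    {P : Fin 3 → F.Q.P} (hT : Tri F Pp R P) :
    typ F (uT F R P) = typ F R + ∑ i, SF.ty (F.io (P i)) := by
  classical
  have h1 : ∀ g : Finset F.Q.P, typ F g = ∑ p ∈ g, SF.ty (F.io p) := by
    intro g
    unfold typ Sys.tys
    rw [Finset.sum_image F.io_inj.injOn]
  rw [h1, h1]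
  have h2 : uT F R P = R ∪ Finset.univ.image P := by
    ext x
    rw [x5_uT, Finset.mem_union, Finset.mem_image]
    simp
  rw [h2, Finset.sum_union, Finset.sum_image (x5_inj F hT).injOn]
  rw [Finset.disjoint_right]
  intro x hx
  obtain ⟨i, -, rfl⟩ := Finset.mem_image.1 hx
  exact x5_out F hT i

theorem x5_prc {S SF : Sys} (F : Qc S SF) (γ : F.Q.G) (g : Finset F.Q.P) :
    ((∀ p ∈ g, F.Q.sy γ (F.Q.cj p) = 0) ∧ prc F.Q γ g = 2 ^ g.card) ∨ prc F.Q γ g = 0 := by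
  by_cases h : ∀ p ∈ g, F.Q.sy γ (F.Q.cj p) = 0
  · refine Or.inl ⟨h, ?_⟩
    unfold prc
    rw [Finset.prod_congr rfl fun p hp => by rw [h p hp, sg_zero], Finset.prod_const]
    norm_num
  · push Not at h
    obtain ⟨p, hp, hne⟩ := h
    refine Or.inr ?_
    unfold prc
    refine Finset.prod_eq_zero hp ?_
    rw [(zm2 _).resolve_left hne, sg_one]
    norm_num

theorem x5_prc1 {S : Sys} (Q : Qd S) (γ : Q.G) (g : Finset Q.P)
    (h : ∀ p ∈ g, Q.sy γ (Q.cj p) = 0) : prc Q γ g = 2 ^ g.card := by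
  unfold prc
  rw [Finset.prod_congr rfl fun p hp => by rw [h p hp, sg_zero], Finset.prod_const]
  norm_num

/-- the twisted sums are bounded -/
theorem x5_twi (w : (Gm k →* SD) → ℝ) (A : ℝ) (hw : ∀ ρ, |w ρ| ≤ A) (b : Fr.sys.T)
    (ρ : Gm k →* SD) : |twi (Fr := Fr) w b ρ| ≤ 4 ^ Fr.sys.m * A := by
  unfold twi
  refine (Finset.abs_sum_le_sum_abs _ _).trans ?_
  have h1 : ∀ c ∈ (Finset.univ : Finset (Fr.sys.T × Fr.sys.T)),
      |((sg (b ⬝ᵥ c.2) : ℤ) : ℝ) * w (twS ρ (lrp Fr c.1 c.2))| ≤ A := by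
    intro c _
    rw [abs_mul, abs_sgr, one_mul]
    exact hw _
  refine (Finset.sum_le_sum h1).trans (le_of_eq ?_)
  rw [Finset.sum_const, Finset.card_univ, nsmul_eq_mul]
  have h2 : Fintype.card (Fr.sys.T × Fr.sys.T) = 4 ^ Fr.sys.m := by
    have h3 : Fintype.card Fr.sys.T = 2 ^ Fr.sys.m := by simp [Sys.T, ZMod.card]
    rw [Fintype.card_prod, h3, ← mul_pow]
    norm_num
  rw [h2]
  push_cast
  rfl

theorem x5_tau (X : HX Fr L) (j : L →ₐ[k] Om k) (w : (Gm k →* SD) → ℝ) (A : ℝ)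
    (hw : ∀ ρ, |w ρ| ≤ A) (b : Fr.sys.T) (γ : HX.GX L) :
    |tauW Rk.toRx X j w b γ| ≤ 4 ^ Fr.sys.m * A := by
  unfold tauW
  split_ifs with h
  · exact x5_twi w A hw b _
  · rw [abs_zero]
    have h1 := hw 1
    have h2 : 0 ≤ A := le_trans (abs_nonneg _) h1
    positivity

/-- the class belongs to the good set -/
theorem x5_Bs (a : tx.FL.sys.T) (g : Finset tx.X.PX) (hg : tx.Gd g) :
    elX tx.X tx.FL tx.hF a g ∈ tx.X.Bs g := by
  classical
  have h1 := (Qcof tx.X tx.FL tx.hF tx.hM).B_eq g hg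
  have h2 : (Qcof tx.X tx.FL tx.hF tx.hM).el a g ∈ (Qcof tx.X tx.FL tx.hF tx.hM).Q.B g := by
    rw [h1]
    exact Finset.mem_image_of_mem _ (Finset.mem_univ a)
  exact (hi_mem tx.X (h_cardB tx.X)).1 h2

/-- the union of `R` and three primes -/
noncomputable def x5U (R : Finset tx.X.PX) (P : Fin 3 → tx.X.PX) : Finset tx.X.PX :=
  uT (Qcof tx.X tx.FL tx.hF tx.hM) R P

theorem x5_m (R : Finset tx.X.PX) (P : Fin 3 → tx.X.PX) (x : tx.X.PX) :
    x ∈ x5U tx R P ↔ x ∈ R ∨ ∃ i, P i = x :=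
  x5_uT (Qcof tx.X tx.FL tx.hF tx.hM) R P x

theorem x5_u [DecidableEq tx.X.PX] (R : Finset tx.X.PX) (P : Fin 3 → tx.X.PX) :
    R ∪ Finset.univ.image P = x5U tx R P := by
  ext x
  rw [x5_m, Finset.mem_union, Finset.mem_image]
  simp

/-- X5: the slices for one orientation -/
theorem x5_slc (hS : SSld tx Rk) (hX2 : SXa tx Rk) (hX4 : SXt tx Rk)
    (hQz : ∀ j : L →ₐ[k] Om k, AQz tx.X j) (hLf : ∀ j : L →ₐ[k] Om k, ALf Rk.toRx tx.X j)
    (hKS : AKapS tx.X tx.FL) (hHL : ∀ j : L →ₐ[k] Om k, AHasL (qk tx.X) j)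
    (hCV : ∀ j : L →ₐ[k] Om k, ACritV (qk tx.X) j)
    (j : L →ₐ[k] Om k) (hj : j tx.X.α = Pool.Agent.H98.MF.sq (tx.X.a : k))
    (w : (Gm k →* SD) → ℝ) (A : ℝ) (hw : ∀ ρ, |w ρ| ≤ A) (hl : SLoc Fr w) (b : Fr.sys.T)
    (hb : IsSquare (tx.X.a * lrp Fr b 0)) (Ps : Set tx.X.PX) (hO : tx.Ori Ps) :
    Slc (Qcof tx.X tx.FL tx.hF tx.hM) Ps (tauW Rk.toRx tx.X j w b) (4 ^ Fr.sys.m * A) := by
  classical
  have hA : 0 ≤ A := le_trans (abs_nonneg _) (hw 1)
  intro a R' hR t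
  obtain ⟨R, hRR⟩ : ∃ R : Finset tx.X.PX, R = R' := ⟨R', rfl⟩
  subst hRR
  by_cases hP0 : ∃ P0 : Fin 3 → tx.X.PX, Tri (Qcof tx.X tx.FL tx.hF tx.hM) Ps R P0 ∧
      (∀ i, tx.FL.sys.ty (io tx.X tx.FL tx.hF (P0 i)) = t i) ∧
      ∃ ρ, ρ ∈ Hc Rk.toRx tx.X j (elX tx.X tx.FL tx.hF a (x5U tx R P0))
  · obtain ⟨P0, hT0, ht0, ρ', hρ'⟩ := hP0
    obtain ⟨g0, hg0⟩ : ∃ g0 : Finset tx.X.PX, g0 = x5U tx R P0 := ⟨_, rfl⟩
    have hgd0 : tx.Gd g0 := by rw [hg0]; exact x5_gd _ hR hT0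
    obtain ⟨hAt', hNor'⟩ := hX2 j hj a g0 hgd0 ρ' (by rw [hg0]; exact hρ')
    obtain ⟨D0, α, hα⟩ := hS Ps a R P0 hO (fun i => hT0.mem i) ρ'
      (by rw [x5_u tx R P0, ← hg0]; exact hAt') (by rw [x5_u tx R P0, ← hg0]; exact hNor')
      (by rw [x5_u tx R P0, ← hg0]; exact hgd0) (x5_inj _ hT0) (fun i => x5_out _ hT0 i)
    have htau0 := x5_tau Rk tx.X j w A hw b (elX tx.X tx.FL tx.hF a g0)
    refine ⟨tauW Rk.toRx tx.X j w b (elX tx.X tx.FL tx.hF a g0) * ((sg D0 : ℤ) : ℝ),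
      fun i p => ((sg (α i p) : ℤ) : ℝ), ?_, fun i p => (abs_sgr _).le, ?_⟩
    · rw [abs_mul, abs_sgr, mul_one]
      exact htau0
    · intro P hT htP
      obtain ⟨g, hg⟩ : ∃ g : Finset tx.X.PX, g = x5U tx R P := ⟨_, rfl⟩
      have hgd : tx.Gd g := by rw [hg]; exact x5_gd _ hR hT
      have hne : g.Nonempty := ⟨P 0, by rw [hg, x5_m]; exact Or.inr ⟨0, rfl⟩⟩
      have hne0 : g0.Nonempty := ⟨P0 0, by rw [hg0, x5_m]; exact Or.inr ⟨0, rfl⟩⟩
      have htyp : typ (Qcof tx.X tx.FL tx.hF tx.hM) g = typ (Qcof tx.X tx.FL tx.hF tx.hM) g0 := by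
        have e1 := x5_typ (Qcof tx.X tx.FL tx.hF tx.hM) hT
        have e2 := x5_typ (Qcof tx.X tx.FL tx.hF tx.hM) hT0
        have e3 : ∑ i, tx.FL.sys.ty ((Qcof tx.X tx.FL tx.hF tx.hM).io (P i)) =
            ∑ i, tx.FL.sys.ty ((Qcof tx.X tx.FL tx.hF tx.hM).io (P0 i)) :=
          Finset.sum_congr rfl fun i _ => (htP i).trans (ht0 i).symm
        rw [hg, hg0]
        exact e1.trans ((congrArg _ e3).trans e2.symm)
      have hty : tx.ty g = tx.ty g0 := htyp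
      have hgoal : (2 : ℝ) ^ g.card * tauW Rk.toRx tx.X j w b (elX tx.X tx.FL tx.hF a g) =
          tauW Rk.toRx tx.X j w b (elX tx.X tx.FL tx.hF a g0) * ((sg D0 : ℤ) : ℝ) *
          prc (Qof tx.X) (elX tx.X tx.FL tx.hF a g) g *
          (∏ i, ((sg (α i (P i)) : ℤ) : ℝ)) * kT (Qcof tx.X tx.FL tx.hF tx.hM) P := by
        by_cases hρ : ∃ ρ, ρ ∈ Hc Rk.toRx tx.X j (elX tx.X tx.FL tx.hF a g)
        · obtain ⟨ρ, hρ⟩ := hρ
          obtain ⟨hAt, hNor⟩ := hX2 j hj a g hgd ρ hρ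
          obtain ⟨D, hDD, htau⟩ := hX4 j w hl b hb a g g0 hgd hgd0 hne hne0 hty ρ ρ' hρ
            (by rw [hg0]; exact hρ')
          have hD := hα P (fun i => hT.mem i) (x5_inj _ hT) (fun i => x5_out _ hT i)
            (by rw [x5_u tx R P, ← hg]; exact hgd) (fun i => by
              unfold TX.ty
              rw [Finset.image_singleton, Finset.image_singleton]
              unfold Sys.tys
              rw [Finset.sum_singleton, Finset.sum_singleton]
              exact (htP i).trans (ht0 i).symm) ρ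
            (by rw [x5_u tx R P, ← hg]; exact hAt) (by rw [x5_u tx R P, ← hg]; exact hNor) D hDD
          have hz := hQz j g hgd (elX tx.X tx.FL tx.hF a g) (x5_Bs tx a g hgd) ρ hρ.2
          have hp : prc (Qof tx.X) (elX tx.X tx.FL tx.hF a g) g = 2 ^ g.card :=
            x5_prc1 (Qof tx.X) (elX tx.X tx.FL tx.hF a g) g fun p hp => hz p hp
          rw [hp, htau, hD, sg_add, sg_add, sg_sum]
          have hk : kT (Qcof tx.X tx.FL tx.hF tx.hM) P =
              ((sg (tx.FL.sys.J (io tx.X tx.FL tx.hF (P 0))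
                (io tx.X tx.FL tx.hF (tx.X.cjX (P 1))) +
              tx.FL.sys.J (io tx.X tx.FL tx.hF (P 0)) (io tx.X tx.FL tx.hF (tx.X.cjX (P 2))) +
              tx.FL.sys.J (io tx.X tx.FL tx.hF (P 1))
                (io tx.X tx.FL tx.hF (tx.X.cjX (P 2)))) : ℤ) : ℝ) := rfl
          rw [hk]
          push_cast
          ring
        · have h1 : tauW Rk.toRx tx.X j w b (elX tx.X tx.FL tx.hF a g) = 0 := by
            unfold tauW
            rw [dif_neg hρ]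
          rcases x5_prc (Qcof tx.X tx.FL tx.hF tx.hM) (elX tx.X tx.FL tx.hF a g) g with
            h2 | h2
          · exfalso
            refine hρ (hLf j tx.hM g hgd hne _ (x5_Bs tx a g hgd) (fun v hv => ?_)
              fun Q hQ => h2.1 Q hQ)
            have hco : coL tx.FL (elX tx.X tx.FL tx.hF a g) =
                coL tx.FL (elX tx.X tx.FL tx.hF a g0) := by
              have e1 := (Qcof tx.X tx.FL tx.hF tx.hM).co_el a g hgd
              have e2 := (Qcof tx.X tx.FL tx.hF tx.hM).co_el a g0 hgd0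
              have e3 : (Qcof tx.X tx.FL tx.hF tx.hM).co
                  ((Qcof tx.X tx.FL tx.hF tx.hM).el a g) =
                  (Qcof tx.X tx.FL tx.hF tx.hM).co
                  ((Qcof tx.X tx.FL tx.hF tx.hM).el a g0) := by
                rw [e1, e2]
                exact Prod.ext rfl htyp
              exact e3
            rw [hKS tx.hF _ _ hco v hv]
            have hcl : (qk tx.X).Cl j (HX.out (elX tx.X tx.FL tx.hF a g0)) ρ' := by
              rw [hg0]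
              exact hρ'.2
            exact (hCV j v _ _ hcl.pf).1 ((hHL j).2 (DecP v) _ ρ' hcl)
          · have h3 : prc (Qof tx.X) (elX tx.X tx.FL tx.hF a g) g = 0 := h2
            rw [h1, h3]
            ring
      rw [hg] at hgoal
      exact hgoal
  · refine ⟨0, fun _ _ => 0, ?_, fun _ _ => ?_, ?_⟩
    · rw [abs_zero]
      positivity
    · rw [abs_zero]
      norm_num
    · intro P hT htP
      have h1 : tauW Rk.toRx tx.X j w b (elX tx.X tx.FL tx.hF a (x5U tx R P)) = 0 := by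
        unfold tauW
        rw [dif_neg fun h => hP0 ⟨P, hT, htP, h⟩]
      have h2 : tauW Rk.toRx tx.X j w b ((Qcof tx.X tx.FL tx.hF tx.hM).el a
          (uT (Qcof tx.X tx.FL tx.hF tx.hM) R P)) = 0 := h1
      rw [h2]
      ring

end

/-- X5: the slices -/
theorem td_X5 {k : Type} [Field k] [NumberField k] {Fr : Frm k} {L : Type} [Field L]
    [NumberField L] [Algebra k L] (tx : TX Fr L) (Rk : RxF k) (hS : SSld tx Rk)
    (hX2 : SXa tx Rk) (hX4 : SXt tx Rk)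
    (hQz : ∀ j : L →ₐ[k] Om k, AQz tx.X j) (hLf : ∀ j : L →ₐ[k] Om k, ALf Rk.toRx tx.X j)
    (hKS : AKapS tx.X tx.FL) (hHL : ∀ j : L →ₐ[k] Om k, AHasL (qk tx.X) j)
    (hCV : ∀ j : L →ₐ[k] Om k, ACritV (qk tx.X) j) : SXs tx Rk := by
  intro j hj w A hw hl b hb
  obtain ⟨Ps, hO, hO'⟩ := x5_ori tx
  have hA : 0 ≤ A := le_trans (abs_nonneg _) (hw 1)
  exact ⟨Ps, 4 ^ Fr.sys.m * A, by positivity,
    x5_slc tx Rk hS hX2 hX4 hQz hLf hKS hHL hCV j hj w A hw hl b hb Ps hO,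
    x5_slc tx Rk hS hX2 hX4 hQz hLf hKS hHL hCV j hj w A hw hl b hb Psᶜ hO'⟩

end Pool.Agent.SKT
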