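import Pool.Agent.SKT.Stm3
import Pool.Agent.H32.MQ.HQr
import Pool.Agent.H32.MQ.HBase

/-!
# Malle's conjecture for 8T8 over number fields, the statement (TD), row X6: the conjugates of the
generators
-/

set_option autoImplicit false

open scoped BigOperators
open NumberField IsDedekindDomain

namespace Pool.Agent.SKT

open Pool.Agent.H98.MF
open Pool.Agent.H32.MQ
open Pool.Agent.SK

section

variable {k : Type} [Field k] [NumberField k] {Fr : Frm k} {L : Type} [Field L]
  [NumberField L] [Algebra k L] (X : HX Fr L) (FL : Frm L) (hF : Ovr Fr.S FL.S)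

/-- the product of the conjugate of a generator and of the generator of the conjugate has even
exponents outside the frame -/
theorem x6_even (q : X.PX) (P : FL.sys.P) :
    Even (ord (FL.pl P) (((Units.map (X.sig : L →* L) (FL.pi (io X FL hF q)) *
      FL.pi (io X FL hF (X.cjX q)) : Lˣ)) : L)) := by
  have hs : X.sig ((FL.pi (io X FL hF q) : Lˣ) : L) ≠ 0 :=
    (map_ne_zero X.sig).2 (Units.ne_zero _)
  have e0 : ((Units.map (X.sig : L →* L) (FL.pi (io X FL hF q)) : Lˣ) : L) =
      X.sig ((FL.pi (io X FL hF q) : Lˣ) : L) := rfl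
  rw [Units.val_mul, e0, ord_mul _ hs (Units.ne_zero _), ← ord_cj]
  obtain ⟨p, hp⟩ := qf_below (Fr := Fr) FL hF (hb_notMem FL P)
  obtain ⟨P', hP'⟩ := (FL.pl_iff _).2 (qf_notMem FL hF (hp.cj X.sig))
  rw [← hP']
  by_cases h : P = io X FL hF (X.cjX q)
  · have h1 : P' = io X FL hF q := by
      apply FL.pl_inj
      rw [hP', h, pl_io, pl_io]
      exact X.cj_cj' q.1
    rw [h1, h, FL.pi_self, FL.pi_self]
    decide
  · have h1 : P' ≠ io X FL hF q := by
      intro h2
      apply h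
      apply FL.pl_inj
      rw [h2, pl_io] at hP'
      rw [pl_io]
      show FL.pl P = cj X.sig q.1
      rw [hP', X.cj_cj']
    rw [FL.pi_other _ _ h1, FL.pi_other _ _ h, add_zero]
    exact Even.zero

/-- the relation between the symbols of the generators -/
theorem x6_key (q p : X.PX) (hqp : X.shX q ≠ X.shX p) (c : FL.sys.T)
    (hc : IsSquare (Units.map (X.sig : L →* L) (FL.pi (io X FL hF q)) *
      FL.pi (io X FL hF (X.cjX q)) * ∏ j, FL.u j ^ (c j).val)) :
    FL.sys.J (io X FL hF q) (io X FL hF (X.cjX p)) =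
      FL.sys.J (io X FL hF (X.cjX q)) (io X FL hF p) + c ⬝ᵥ FL.sys.ty (io X FL hF p) := by
  have hshc : ∀ b : X.PX, X.shX (X.cjX b) = X.shX b := fun b =>
    X.shX_eq _ ((X.shX_over b).cj X.sig)
  have hne1 : io X FL hF q ≠ io X FL hF (X.cjX p) := by
    intro h
    have h1 := io_inj X FL hF h
    apply hqp
    rw [h1, hshc]
  have hne2 : io X FL hF (X.cjX q) ≠ io X FL hF p := by
    intro h
    have h1 := io_inj X FL hF h
    apply hqp
    rw [← hshc q, h1]
  have hne3 : io X FL hF p ≠ io X FL hF (X.cjX q) := fun h => hne2 h.symm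
  have hs : X.sig ((FL.pi (io X FL hF q) : Lˣ) : L) ≠ 0 :=
    (map_ne_zero X.sig).2 (Units.ne_zero _)
  have e0 : ((Units.map (X.sig : L →* L) (FL.pi (io X FL hF q)) : Lˣ) : L) =
      X.sig ((FL.pi (io X FL hF q) : Lˣ) : L) := rfl
  have hcp : (X.cjX p).1 = cj X.sig p.1 := rfl
  have h1 := hb_qr_sq hc (FL.pl (io X FL hF p))
  have hsp : Even (ord (FL.pl (io X FL hF p)) (X.sig ((FL.pi (io X FL hF q) : Lˣ) : L))) := by
    rw [← ord_cj, pl_io, ← hcp, ← pl_io X FL hF (X.cjX p), FL.pi_other _ _ hne1.symm]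
    exact Even.zero
  rw [hb_qr_U, Units.val_mul, e0,
    Pool.Agent.H98.MF.qr_mul (hb_two FL _) hs (Units.ne_zero _) hsp
      (by rw [FL.pi_other _ _ hne3]; exact Even.zero), hq_sig_qr, pl_io, ← hcp,
      ← pl_io X FL hF (X.cjX p), ← FL.J_eq _ _ hne1] at h1
  rw [FL.J_eq _ _ hne2, pl_io]
  have h10 : ∀ a b d : ZMod 2, a + b = d → a = b + d := by decide
  exact h10 _ _ _ h1

end

section

variable {k : Type} [Field k] [NumberField k] {Fr : Frm k} {L : Type} [Field L]
  [NumberField L] [Algebra k L] (tx : TX Fr L)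

/-- row X6 -/
theorem td_X6 : SXc tx := by
  have h1 : ∀ q : tx.X.PX, ∃ c : tx.FL.sys.T,
      IsSquare (Units.map (tx.X.sig : L →* L) (tx.FL.pi (io tx.X tx.FL tx.hF q)) *
        tx.FL.pi (io tx.X tx.FL tx.hF (tx.X.cjX q)) * ∏ j, tx.FL.u j ^ (c j).val) := fun q =>
    hb_even tx.FL _ (x6_even tx.X tx.FL tx.hF q)
  choose c hc using h1
  exact ⟨c, fun q p hqp => x6_key tx.X tx.FL tx.hF q p hqp (c q) (hc q)⟩

end

end Pool.Agent.SKT
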