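import Pool.Agent.SKT.Main2
import Pool.Agent.SKT.X1
import Pool.Agent.SKT.X2
import Pool.Agent.SKT.X4
import Pool.Agent.SKT.X5
import Pool.Agent.SKT.X6

/-!
# Malle's conjecture for 8T8 over number fields: the slices and the conjugates of the generators,
in the form of the analytic part
-/

set_option autoImplicit false

open scoped BigOperators
open NumberField IsDedekindDomain

namespace Pool.Agent.SKT

open Pool.Agent.H98.MF
open Pool.Agent.H32.MQ
open Pool.Agent.SK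
open Pool.Agent.SK.TP (SpIsF SpOd SpFin)
open Pool.Agent.D8 (RxF)

/-- the results of block A used for (TD) -/
structure BA {k : Type} [Field k] [NumberField k] {Fr : Frm k} {L : Type} [Field L]
    [NumberField L] [Algebra k L] (Rk : RxF k) (X : HX Fr L) (FL : Frm L) : Prop where
  hasL : ∀ j : L →ₐ[k] Om k, AHasL (qk X) j
  crit : ∀ j : L →ₐ[k] Om k, ACritV (qk X) j
  qz : ∀ j : L →ₐ[k] Om k, AQz X j
  lf : ∀ j : L →ₐ[k] Om k, ALf Rk.toRx X j
  ks : AKapS X FL
  eq : ∀ j : L →ₐ[k] Om k, AEq Rk.toRx X j FL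
  twi : ATwi Fr
  dual : ADual Fr
  tau : ∀ j : L →ₐ[k] Om k, FTau Rk.toRx X j
  ty : ∀ j : L →ₐ[k] Om k, ATy Rk.toRx X j

section

variable {k L : Type} [Field k] [NumberField k] [Field L] [NumberField L] [Algebra k L]
  (F : FrP k L) (Rk : RxF k) (X : HX F.Fr L) (hM : X.M = ∅)

/-- the data -/
def txOf (hau : ∀ p : F.Fr.sys.P, ord (F.Fr.pl p) (X.a : k) = 0)
    (hbig : ∀ p : F.Fr.sys.P, 7 ≤ F.Fr.sys.N p)
    (hneg : ∀ v : Pl k, hv v (X.a : k) ((-1 : kˣ) : k) = 0) : TX F.Fr L where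
  X := X
  FL := F.FL
  hF := F.ov
  hM := hM
  au := hau
  neg := fun v => by
    have h := hneg v
    rwa [Units.val_neg, Units.val_one] at h
  big := hbig

/-- the slices -/
theorem slc (j : L →ₐ[k] Om k) (hau : ∀ p : F.Fr.sys.P, ord (F.Fr.pl p) (X.a : k) = 0)
    (hbig : ∀ p : F.Fr.sys.P, 7 ≤ F.Fr.sys.N p)
    (hj : j X.α = Pool.Agent.H98.MF.sq (X.a : k)) (hIs : SpIsF k) (hOd : SpOd k)
    (hFin : SpFin k) (hB : BA Rk X F.FL) : StSlc F Rk.toRx X hM j := by
  intro w A hw hl b hb hneg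
  have h := td_X5 (txOf F X hM hau hbig hneg) Rk
    (m_SL (txOf F X hM hau hbig hneg) Rk hIs hOd hFin hB.hasL hB.crit j (hB.qz j))
    (td_X2 (txOf F X hM hau hbig hneg) Rk hB.ty)
    (td_X4 (txOf F X hM hau hbig hneg) Rk (td_X1 (txOf F X hM hau hbig hneg)) hB.eq hB.twi
      hB.dual hB.tau) hB.qz hB.lf hB.ks hB.hasL hB.crit
  exact h j hj w A hw hl b hb

/-- the conjugates of the generators -/
theorem cjs : StCjs F X hM := by
  have h1 : ∀ q : X.PX, ∃ c : F.FL.sys.T,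
      IsSquare (Units.map (X.sig : L →* L) (F.FL.pi (io X F.FL F.ov q)) *
        F.FL.pi (io X F.FL F.ov (X.cjX q)) * ∏ j, F.FL.u j ^ (c j).val) := fun q =>
    hb_even F.FL _ (x6_even X F.FL F.ov q)
  choose c hc using h1
  exact ⟨c, fun q p hqp => x6_key X F.FL F.ov q p hqp (c q) (hc q)⟩

end

end Pool.Agent.SKT
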