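import Pool.Agent.SKT.Fin
import Pool.Agent.SK.AEnd
import Pool.Agent.SK.TPb
import Pool.Agent.SK.TP14

/-!
# Malle's conjecture for 8T8 over number fields: the slices, with the results of block A
-/

set_option autoImplicit false

open scoped BigOperators
open NumberField IsDedekindDomain

namespace Pool.Agent.SKT

open Pool.Agent.H98.MF
open Pool.Agent.H32.MQ
open Pool.Agent.SK
open Pool.Agent.SK.TP (SpIsF SpOd SpFin)
open Pool.Agent.D8 (RxF)

section

variable {k L : Type} [Field k] [NumberField k] [Field L] [NumberField L] [Algebra k L]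
  (F : FrP k L) (Rk : RxF k) (X : HX F.Fr L) (hM : X.M = ∅)

theorem m_BA (hR : RxI Rk.toRx) (j : L →ₐ[k] Om k) : BA Rk X F.FL where
  hasL := fun j => eHasL (qk X) j
  crit := fun j => eCritV (qk X) j
  qz := fun j => eQz Rk.toRx X j
  lf := fun j => eLf Rk.toRx hR X j
  ks := eKapS X j F.FL
  eq := fun j => eEq Rk.toRx X j F.FL
  twi := eTwi F.Fr
  dual := aDual F.Fr
  tau := fun j => eFTau Rk.toRx hR X j
  ty := fun j => eTy Rk.toRx hR X j

theorem m_Fin (k : Type) [Field k] [NumberField k] : SpFin k :=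
  Pool.Agent.SK.TP.spFin k (Pool.Agent.SK.TP.spCmp k (Pool.Agent.SK.TP.spUn k))
    (Pool.Agent.SK.TP.spIsF k) (m_Pa k) (Pool.Agent.D8.achr k)

/-- the slices -/
theorem slc2 (j : L →ₐ[k] Om k) (hau : ∀ p : F.Fr.sys.P, ord (F.Fr.pl p) (X.a : k) = 0)
    (hbig : ∀ p : F.Fr.sys.P, 7 ≤ F.Fr.sys.N p)
    (hj : j X.α = Pool.Agent.H98.MF.sq (X.a : k)) (hOd : SpOd k) (hR : RxI Rk.toRx) :
    StSlc F Rk.toRx X hM j :=
  slc F Rk X hM j hau hbig hj (Pool.Agent.SK.TP.spIsF k) hOd (m_Fin k) (m_BA F Rk X hR j)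

end

end Pool.Agent.SKT
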