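import Pool.Agent.SKT.Stm3

/-!
# Malle's conjecture for 8T8 over number fields: the tame generators (X3)
-/

set_option autoImplicit false

open scoped BigOperators
open NumberField IsDedekindDomain

namespace Pool.Agent.SKT

open Pool.Agent.H98.MF
open Pool.Agent.H32.MQ
open Pool.Agent.D8 (RxF)
open Pool.Agent.SK

/-- X3: the tame generators act trivially modulo the prime, on extensions of two-power degree -/
theorem td_X3 (k : Type) [Field k] [NumberField k] : SXi k := by
  intro Rk P h2 U hU hopen hidx x hx
  have hfix : ∀ σ ∈ U, σ • x = x := fun σ hσ => Subtype.ext (hx σ hσ)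
  refine ⟨Rk.tau P • x - x, (Rk.tf P h2).ine x ⟨U, hU, hopen, hidx, hfix⟩, rfl⟩

end Pool.Agent.SKT
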