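import Pool.Agent.SKT.Fin2
import Pool.Agent.SKT.X3
import Pool.Agent.SK.TP

/-!
# Malle's conjecture for 8T8 over number fields: the slices, up to the trace
-/

set_option autoImplicit false

open scoped BigOperators
open NumberField IsDedekindDomain

namespace Pool.Agent.SKT

open Pool.Agent.H98.MF
open Pool.Agent.H32.MQ
open Pool.Agent.SK
open Pool.Agent.SK.TP (SpOd)
open Pool.Agent.D8 (RxF)

variable {k : Type} [Field k] [NumberField k]

/-- the tame generators act trivially modulo the prime -/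
theorem rxI (Rk : RxF k) : RxI Rk.toRx := td_X3 k Rk

/-- the slices -/
theorem slc3 {L : Type} [Field L] [NumberField L] [Algebra k L]
    (F : FrP k L) (Rk : RxF k) (X : HX F.Fr L) (hM : X.M = ∅) (j : L →ₐ[k] Om k)
    (hau : ∀ p : F.Fr.sys.P, ord (F.Fr.pl p) (X.a : k) = 0)
    (hbig : ∀ p : F.Fr.sys.P, 7 ≤ F.Fr.sys.N p)
    (hj : j X.α = Pool.Agent.H98.MF.sq (X.a : k)) (hOd : SpOd k) :
    StSlc F Rk.toRx X hM j := slc2 F Rk X hM j hau hbig hj hOd (rxI Rk)

end Pool.Agent.SKT
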