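import Pool.Agent.SKT.Stm

/-!
# Malle's conjecture for 8T8 over number fields: the statement (TD), row H1: close elements at the
finite places
-/

set_option autoImplicit false

open scoped BigOperators
open NumberField IsDedekindDomain

namespace Pool.Agent.SKT

open Pool.Agent.H98.MF
open Pool.Agent.H32.MQ

section prim

variable {K : Type} [Field K] [NumberField K]

theorem tdh1_mono {P : HeightOneSpectrum (𝓞 K)} {m n : ℤ} {x c : K} (h : Nr P n x c)
    (hmn : m ≤ n) : Nr P m x c := by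
  rcases h with h | h
  · exact Or.inl h
  · exact Or.inr (hmn.trans h)

theorem tdh1_two (P : HeightOneSpectrum (𝓞 K)) : 0 ≤ ord P (2 : K) := by
  have h1 := ord_int_nonneg P (2 : 𝓞 K)
  have h2 : ((2 : 𝓞 K) : K) = 2 := map_ofNat (algebraMap (𝓞 K) K) 2
  rwa [h2] at h1

/-- a factor close to one -/
theorem tdh1_core (P : HeightOneSpectrum (𝓞 K)) (x c : K) (hx : x ≠ 0) :
    ∃ N : ℤ, ∀ s r : K, Nr P N s 1 → Nr P N r 0 → LocSq P ((x * s + c * r) * x) := by
  refine ⟨max (2 * ord P (2 : K) + 1) (2 * ord P (2 : K) + 1 - ord P (c / x)), ?_⟩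
  intro s r hs hr
  have e : (x * s + c * r) * x = (1 + ((s - 1) + c / x * r)) * x ^ 2 := by
    field_simp
    ring
  rw [e, locSq_mul_sq P hx]
  apply locSq_one_add
  apply le_ord_add
  · rcases hs with hs | hs
    · left
      rw [hs, sub_self]
    · right
      exact (le_max_left _ _).trans hs
  · by_cases hc : c / x = 0
    · left
      rw [hc, zero_mul]
    rcases hr with hr | hr
    · left
      rw [hr, mul_zero]
    · by_cases hr0 : r = 0
      · left
        rw [hr0, mul_zero]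
      right
      rw [ord_mul P hc hr0]
      rw [sub_zero] at hr
      have h1 := (le_max_right (2 * ord P (2 : K) + 1)
        (2 * ord P (2 : K) + 1 - ord P (c / x))).trans hr
      omega

theorem tdh1_sq_one {P : HeightOneSpectrum (𝓞 K)} {N : ℤ} (hN : 0 ≤ N) {s : K}
    (hs : Nr P N s 1) : Nr P N (s ^ 2) 1 := by
  rcases hs with hs | hs
  · left
    rw [hs, one_pow]
  · by_cases h1 : s - 1 = 0
    · left
      have h2 : s = 1 := by linear_combination h1
      rw [h2, one_pow]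
    by_cases h2 : s + 1 = 0
    · left
      have h3 : s = -1 := by linear_combination h2
      rw [h3]
      norm_num
    right
    have e : s ^ 2 - 1 = (s - 1) * (s + 1) := by ring
    rw [e, ord_mul P h1 h2]
    have h3 : (s - 1) + 2 = 0 ∨ 0 ≤ ord P ((s - 1) + 2) :=
      le_ord_add P 0 (Or.inr (hN.trans hs)) (Or.inr (tdh1_two P))
    have h4 : (s - 1) + 2 = s + 1 := by ring
    rw [h4] at h3
    have h5 := h3.resolve_left h2
    omega

theorem tdh1_sq_zero {P : HeightOneSpectrum (𝓞 K)} {N : ℤ} (hN : 0 ≤ N) {r : K}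
    (hr : Nr P N r 0) : Nr P N (r ^ 2) 0 := by
  rcases hr with hr | hr
  · left
    rw [hr]
    norm_num
  · right
    rw [sub_zero] at hr ⊢
    rw [ord_pow]
    push_cast
    omega

end prim

section

variable {k : Type} [Field k] [NumberField k] {Fr : Frm k} {L : Type} [Field L]
  [NumberField L] [Algebra k L] (tx : TX Fr L)

theorem tdh1_alpha : tx.X.α ≠ 0 := Pool.Agent.H98.MF.B.qe_ne_zero tx.X.qe

/-- the coordinates of an element close to one -/
theorem tdh1_coord (hC : SCo tx) (P : HeightOneSpectrum (𝓞 k)) (hP : P ∈ Fr.S) (N : ℤ) :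
    ∃ n : ℕ, ∀ m : ℤ, (n : ℤ) ≤ m → ∀ u : L, (∀ Q ∈ tx.FL.S, Nr Q m u 1) →
      Nr P N (tx.cx u) 1 ∧ Nr P N (tx.cy u) 0 := by
  obtain ⟨Q, hQ⟩ := exists_over (L := L) P
  have hα0 := tdh1_alpha tx
  have h20 : (2 : L) ≠ 0 := two_ne_zero
  have h2α0 : (2 : L) * tx.X.α ≠ 0 := mul_ne_zero h20 hα0
  have hQS : Q ∈ tx.FL.S := (tx.hF Q).2 ⟨P, hP, hQ⟩
  have hQS' : cj tx.X.sig Q ∈ tx.FL.S := (tx.hF _).2 ⟨P, hP, hQ.cj tx.X.sig⟩
  have he := hQ.ram_pos
  have hm := fun x : k => hQ.ord_map x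
  generalize P.asIdeal.ramificationIdx' Q.asIdeal = e at he hm
  refine ⟨(|(e : ℤ) * N| + |ord Q (2 : L)| + |ord Q ((2 : L) * tx.X.α)|).toNat, ?_⟩
  intro m hnm u hu
  have hnm' : |(e : ℤ) * N| + |ord Q (2 : L)| + |ord Q ((2 : L) * tx.X.α)| ≤ m := by
    have h1 := Int.self_le_toNat (|(e : ℤ) * N| + |ord Q (2 : L)| + |ord Q ((2 : L) * tx.X.α)|)
    exact h1.trans hnm
  have a1 : (e : ℤ) * N ≤ |(e : ℤ) * N| := le_abs_self _
  have a2 : ord Q (2 : L) ≤ |ord Q (2 : L)| := le_abs_self _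
  have a2' := abs_nonneg (ord Q (2 : L))
  have a3 : ord Q ((2 : L) * tx.X.α) ≤ |ord Q ((2 : L) * tx.X.α)| := le_abs_self _
  have a3' := abs_nonneg (ord Q ((2 : L) * tx.X.α))
  have hr := hC.repr u
  have hs : tx.X.sig u = algebraMap k L (tx.cx u) - algebraMap k L (tx.cy u) * tx.X.α := by
    have h1 : tx.X.sig (algebraMap k L (tx.cx u) + algebraMap k L (tx.cy u) * tx.X.α) =
        algebraMap k L (tx.cx u) - algebraMap k L (tx.cy u) * tx.X.α := by
      rw [map_add, map_mul, tx.X.sig_α, AlgEquiv.commutes, AlgEquiv.commutes]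
      ring
    rw [← hr] at h1
    exact h1
  have ht1 : u - 1 = 0 ∨ m ≤ ord Q (u - 1) := by
    rcases hu Q hQS with h | h
    · left
      rw [h, sub_self]
    · exact Or.inr h
  have ht2 : tx.X.sig (u - 1) = 0 ∨ m ≤ ord Q (tx.X.sig (u - 1)) := by
    rcases hu _ hQS' with h | h
    · left
      rw [h, sub_self, map_zero]
    · right
      rw [← ord_cj]
      exact h
  have key : ∀ (d : L) (z : k), d ≠ 0 → (d * algebraMap k L z = 0 ∨
      m ≤ ord Q (d * algebraMap k L z)) → (e : ℤ) * N + ord Q d ≤ m → z = 0 ∨ N ≤ ord P z := by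
    intro d z hd hz hdm
    by_cases hz0 : z = 0
    · exact Or.inl hz0
    right
    have hz1 : algebraMap k L z ≠ 0 := by simpa using hz0
    have h1 := hz.resolve_left (mul_ne_zero hd hz1)
    rw [ord_mul Q hd hz1, hm] at h1
    have h2 : (e : ℤ) * N ≤ (e : ℤ) * ord P z := by omega
    have h3 : (0 : ℤ) < e := by exact_mod_cast he
    exact le_of_mul_le_mul_left h2 h3
  constructor
  · have h1 : tx.cx u - 1 = 0 ∨ N ≤ ord P (tx.cx u - 1) := by
      refine key 2 (tx.cx u - 1) h20 ?_ (by omega)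
      have h2 := le_ord_add Q m ht1 ht2
      have h3 : u - 1 + tx.X.sig (u - 1) = 2 * algebraMap k L (tx.cx u - 1) := by
        rw [map_sub, map_one, hs, map_sub, map_one]
        nth_rewrite 1 [hr]
        ring
      rwa [h3] at h2
    rcases h1 with h1 | h1
    · left
      linear_combination h1
    · exact Or.inr h1
  · have h1 : tx.cy u = 0 ∨ N ≤ ord P (tx.cy u) := by
      refine key (2 * tx.X.α) (tx.cy u) h2α0 ?_ (by omega)
      have ht3 : -tx.X.sig (u - 1) = 0 ∨ m ≤ ord Q (-tx.X.sig (u - 1)) := by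
        rw [ord_neg, neg_eq_zero]
        exact ht2
      have h2 := le_ord_add Q m ht1 ht3
      have h3 : u - 1 + -tx.X.sig (u - 1) = 2 * tx.X.α * algebraMap k L (tx.cy u) := by
        rw [map_sub, map_one, hs]
        nth_rewrite 1 [hr]
        ring
      rwa [h3] at h2
    rcases h1 with h1 | h1
    · exact Or.inl h1
    · right
      rw [sub_zero]
      exact h1

theorem td_H1 (hC : SCo tx) : SHf tx := by
  intro b hb hb2
  obtain ⟨hbx, hby⟩ := hb
  set B : L := ((b ^ 2 : Lˣ) : L) with hBdef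
  have hB0 : B ≠ 0 := (b ^ 2 : Lˣ).ne_zero
  have hb0 : (b : L) ≠ 0 := b.ne_zero
  have hnb : tx.nn (b : L) ≠ 0 := hC.nn_ne _ hb0
  have hnB : tx.nn B ≠ 0 := hC.nn_ne _ hB0
  have loc : ∀ P ∈ Fr.S, ∃ n : ℕ, ∀ m : ℤ, (n : ℤ) ≤ m → ∀ u : L,
      (∀ Q ∈ tx.FL.S, Nr Q m u 1) →
      LocSq P (tx.cx ((b : L) * u) * tx.cx (b : L)) ∧
      LocSq P (tx.cy ((b : L) * u) * tx.cy (b : L)) ∧
      LocSq P (tx.nn ((b : L) * u) * tx.nn (b : L)) ∧
      LocSq P (tx.cx (B * u) * tx.cx B) ∧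
      LocSq P (tx.nn (B * u) * tx.nn B) := by
    intro P hP
    obtain ⟨N1, h1⟩ := tdh1_core P (tx.cx (b : L)) ((tx.X.a : k) * tx.cy (b : L)) hbx
    obtain ⟨N2, h2⟩ := tdh1_core P (tx.cy (b : L)) (tx.cx (b : L)) hby
    obtain ⟨N3, h3⟩ := tdh1_core P (1 : k) (-(tx.X.a : k)) one_ne_zero
    obtain ⟨N4, h4⟩ := tdh1_core P (tx.cx B) ((tx.X.a : k) * tx.cy B) hb2
    obtain ⟨n, hn⟩ := tdh1_coord tx hC P hP (|N1| + |N2| + |N3| + |N4|)
    have b1 := le_abs_self N1
    have b2 := le_abs_self N2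
    have b3 := le_abs_self N3
    have b4 := le_abs_self N4
    have c1 := abs_nonneg N1
    have c2 := abs_nonneg N2
    have c3 := abs_nonneg N3
    have c4 := abs_nonneg N4
    refine ⟨n, ?_⟩
    intro m hm u hu
    obtain ⟨hx, hy⟩ := hn m hm u hu
    have hnu : LocSq P (tx.nn u) := by
      have h5 := h3 (tx.cx u ^ 2) (tx.cy u ^ 2)
        (tdh1_mono (tdh1_sq_one (by omega) hx) (by omega))
        (tdh1_mono (tdh1_sq_zero (by omega) hy) (by omega))
      rw [hC.nn_eq]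
      have e : (1 * tx.cx u ^ 2 + -(tx.X.a : k) * tx.cy u ^ 2) * 1 =
          tx.cx u ^ 2 - (tx.X.a : k) * tx.cy u ^ 2 := by ring
      rwa [e] at h5
    have hnn : ∀ w : L, tx.nn w ≠ 0 → LocSq P (tx.nn (w * u) * tx.nn w) := by
      intro w hw
      rw [hC.nn_mul, show tx.nn w * tx.nn u * tx.nn w = tx.nn u * tx.nn w ^ 2 by ring,
        locSq_mul_sq P hw]
      exact hnu
    refine ⟨?_, ?_, hnn _ hnb, ?_, hnn _ hnB⟩
    · rw [hC.cx_mul]
      exact h1 _ _ (tdh1_mono hx (by omega)) (tdh1_mono hy (by omega))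
    · rw [hC.cy_mul, show tx.cx (b : L) * tx.cy u + tx.cx u * tx.cy (b : L) =
        tx.cy (b : L) * tx.cx u + tx.cx (b : L) * tx.cy u by ring]
      exact h2 _ _ (tdh1_mono hx (by omega)) (tdh1_mono hy (by omega))
    · rw [hC.cx_mul]
      exact h4 _ _ (tdh1_mono hx (by omega)) (tdh1_mono hy (by omega))
  choose! f hf using loc
  refine ⟨Fr.S.sup f, ?_⟩
  intro b' hcl _ _ P hP
  have hle : f P ≤ Fr.S.sup f := Finset.le_sup hP
  have h1 := hf P hP ((Fr.S.sup f : ℕ) : ℤ) (by exact_mod_cast hle) _ hcl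
  have e1 : (b : L) * ((b' / b : Lˣ) : L) = (b' : L) := by
    rw [← Units.val_mul, mul_div_cancel]
  have e2 : B * ((b' / b : Lˣ) : L) = ((b' * b : Lˣ) : L) := by
    rw [hBdef, ← Units.val_mul]
    congr 1
    rw [pow_two, mul_assoc, mul_div_cancel, mul_comm]
  rw [e1, e2] at h1
  exact h1

end

end Pool.Agent.SKT
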