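import Pool.Agent.SKT.Stm

/-!
# Malle's conjecture for 8T8 over number fields, (TD), row H2: the real places
-/

set_option autoImplicit false
set_option linter.unusedSectionVars false

open scoped BigOperators
open NumberField IsDedekindDomain

namespace Pool.Agent.SKT

open Pool.Agent.H98.MF
open Pool.Agent.H98.MK (sg)
open Pool.Agent.H32.MQ

section

variable {k : Type} [Field k] [NumberField k] {Fr : Frm k} {L : Type} [Field L]
  [NumberField L] [Algebra k L] (tx : TX Fr L)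


private theorem h2_left (φ : k →+* ℝ) (a b : k) (h : 0 < φ a) : hv (Sum.inr φ) a b = 0 := by
  show hsR φ a b = 0
  unfold hsR
  rw [if_neg]
  rintro ⟨h1, -⟩
  linarith


private theorem h2_right (φ : k →+* ℝ) (a b : k) (h : 0 < φ b) : hv (Sum.inr φ) a b = 0 := by
  show hsR φ a b = 0
  unfold hsR
  rw [if_neg]
  rintro ⟨-, h1⟩
  linarith


private theorem h2_congr (φ : k →+* ℝ) (a b b' : k) (h : 0 < φ b' * φ b) :
    hv (Sum.inr φ) a b' = hv (Sum.inr φ) a b := by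
  show hsR φ a b' = hsR φ a b
  unfold hsR
  have h1 : φ b' < 0 ↔ φ b < 0 := by
    constructor
    · intro h2
      by_contra h3
      nlinarith
    · intro h2
      by_contra h3
      nlinarith
  simp only [h1]

/-- the real places -/
theorem td_H2 (hC : SCo tx) (hR : SRe tx) : SHr tx := by
  intro φ b b' z hb hb' hcx hpos hbb hb2 hz2
  obtain ⟨ha, ψ, ψ', hψ⟩ := hR φ
  -- totally positive elements have positive first coordinates
  have hcp : ∀ u : L, 0 < ψ u → 0 < ψ' u → 0 < φ (tx.cx u) := by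
    intro u h1 h2
    rw [(hψ u).1] at h1
    rw [(hψ u).2] at h2
    linarith
  have hne : ∀ (χ : L →+* ℝ) (u : Lˣ), χ (u : L) ≠ 0 := fun χ u => (map_ne_zero χ).2 u.ne_zero
  have hsq : ∀ (χ : L →+* ℝ) (u : Lˣ), 0 < χ ((u ^ 2 : Lˣ) : L) := by
    intro χ u
    rw [Units.val_pow_eq_pow_val, map_pow]
    exact pow_pos_of_ne χ u
  have hbbp : ∀ χ : L →+* ℝ, 0 < χ ((b' * b : Lˣ) : L) := by
    intro χ
    have h1 : (b' * b : Lˣ) = (b' / b) * b ^ 2 := by
      rw [div_mul_eq_mul_div, pow_two, ← mul_assoc, mul_div_cancel_right]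
    rw [h1, Units.val_mul, map_mul]
    exact mul_pos (hpos χ) (hsq χ b)
  have hc1 : 0 < φ (tx.cx ((b' * b : Lˣ) : L)) := hcp _ (hbbp ψ) (hbbp ψ')
  have hc2 : 0 < φ (tx.cx ((b ^ 2 : Lˣ) : L)) := hcp _ (hsq ψ b) (hsq ψ' b)
  have hc3 : 0 < φ (tx.cx ((z ^ 2 : Lˣ) : L)) := hcp _ (hsq ψ z) (hsq ψ' z)
  -- the norms
  have hnn : ∀ u : L, φ (tx.nn u) = ψ u * ψ' u := by
    intro u
    rw [(hψ u).1, (hψ u).2, hC.nn_eq, map_sub, map_mul, map_pow, map_pow]
    have hs := Real.mul_self_sqrt ha.le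
    linear_combination (φ (tx.cy u)) ^ 2 * hs
  have hnp : 0 < φ (tx.nn (b' : L)) * φ (tx.nn (b : L)) := by
    rw [hnn, hnn]
    have h1 := hbbp ψ
    have h2 := hbbp ψ'
    rw [Units.val_mul, map_mul] at h1 h2
    nlinarith [mul_pos h1 h2]
  refine ⟨?_, ?_, ?_⟩
  · unfold TX.Rv
    have e1 : hv (Sum.inr φ) (tx.cx ((b' : L) * (b : L)))
        (tx.cx (b' : L) * tx.cy (b : L) * tx.nn (b' : L)) = 0 := by
      apply h2_left
      rw [← Units.val_mul]
      exact hc1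
    have e2 : hv (Sum.inr φ) (tx.cx ((b : L) * (b : L)))
        (tx.cx (b : L) * tx.cy (b : L) * tx.nn (b : L)) = 0 := by
      apply h2_left
      rw [← pow_two, ← Units.val_pow_eq_pow_val]
      exact hc2
    rw [e1, e2, ← hcx, h2_congr φ _ _ _ hnp]
  · unfold TX.Rv
    rw [h2_left φ (tx.cx ((b' * b : Lˣ) : L)) _ hc1, h2_left φ (tx.cx ((b' * b : Lˣ) : L)) _ hc1,
      h2_right φ (-1 : k) _ hc1, h2_left φ (tx.cx ((z ^ 2 : Lˣ) : L)) _ hc3, h2_left]
    · simp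
    · apply hcp
      · rw [map_mul]; exact mul_pos (hbbp ψ) (hsq ψ z)
      · rw [map_mul]; exact mul_pos (hbbp ψ') (hsq ψ' z)
  · unfold TX.Rv
    rw [h2_left φ (tx.cx ((b ^ 2 : Lˣ) : L)) _ hc2, h2_left φ (tx.cx ((b ^ 2 : Lˣ) : L)) _ hc2,
      h2_right φ (-1 : k) _ hc2, h2_left φ (tx.cx ((z ^ 2 : Lˣ) : L)) _ hc3, h2_left]
    · simp
    · apply hcp
      · rw [map_mul]; exact mul_pos (hsq ψ b) (hsq ψ z)
      · rw [map_mul]; exact mul_pos (hsq ψ' b) (hsq ψ' z)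
where
  pow_pos_of_ne (χ : L →+* ℝ) (u : Lˣ) : 0 < (χ (u : L)) ^ 2 := by
    have h : χ (u : L) ≠ 0 := (map_ne_zero χ).2 u.ne_zero
    positivity

end

end Pool.Agent.SKT
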