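import Pool.Agent.SKT.Stm

/-!
# The statement (TD): from close elements with the same trace to the symbol of the product of
generators (H4)
-/

set_option autoImplicit false

open scoped BigOperators
open NumberField IsDedekindDomain

namespace Pool.Agent.SKT

open Pool.Agent.H98.MF
open Pool.Agent.H98.MK (sg)
open Pool.Agent.H32.MQ

section

variable {k : Type} [Field k] [NumberField k] {Fr : Frm k} {L : Type} [Field L]
  [NumberField L] [Algebra k L] (tx : TX Fr L)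

/-! ### exponents of the representatives -/

open Classical in
/-- the exponent of the representative at a prime outside the frame -/
theorem h4_gm (t : tx.FL.sys.T) (g : Finset tx.X.PX) (P : tx.FL.sys.P) :
    ord (tx.FL.pl P) ((tx.gm t g : Lˣ) : L) =
      if P ∈ g.image (io tx.X tx.FL tx.hF) then 1 else 0 := by
  unfold TX.gm
  exact h_repO tx.FL _ P

theorem h4_gm1 (t : tx.FL.sys.T) (g : Finset tx.X.PX) (b : tx.X.PX) (hb : b ∈ g) :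
    ord b.1 ((tx.gm t g : Lˣ) : L) = 1 := by
  classical
  have h := h4_gm tx t g (io tx.X tx.FL tx.hF b)
  rw [pl_io, if_pos (Finset.mem_image_of_mem _ hb)] at h
  exact h

/-- exponents of a representative: zero, or one at a prime of the set -/
theorem h4_gm2 (t : tx.FL.sys.T) (g : Finset tx.X.PX) {p : Fr.sys.P}
    {Q : HeightOneSpectrum (𝓞 L)} (hQ : Over (Fr.pl p) Q) :
    ord Q ((tx.gm t g : Lˣ) : L) = 0 ∨
      (∃ b ∈ g, b.1 = Q ∧ tx.X.shX b = p) ∧ ord Q ((tx.gm t g : Lˣ) : L) = 1 := by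
  classical
  obtain ⟨P, rfl⟩ := (tx.FL.pl_iff Q).2 (qf_notMem tx.FL tx.hF hQ)
  have h := h4_gm tx t g P
  split_ifs at h with hP
  · right
    obtain ⟨b, hb, rfl⟩ := Finset.mem_image.1 hP
    refine ⟨⟨b, hb, (pl_io _ _ _ _).symm, ?_⟩, h⟩
    apply tx.X.shX_eq
    rw [← pl_io tx.X tx.FL tx.hF b]
    exact hQ
  · exact Or.inl h

open Classical in
/-- a representative of a disjoint union -/
theorem h4_union (t : tx.FL.sys.T) {R G : Finset tx.X.PX} (h : Disjoint R G) :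
    tx.gm t (R ∪ G) = tx.gm t R * tx.gm 0 G := by
  unfold TX.gm rep
  have h1 : (∏ j, tx.FL.u j ^ ((0 : tx.FL.sys.T) j).val) = 1 :=
    Finset.prod_eq_one fun j _ => by
      rw [Pi.zero_apply, ZMod.val_zero, pow_zero]
  have h2 : Disjoint (R.image (io tx.X tx.FL tx.hF)) (G.image (io tx.X tx.FL tx.hF)) := by
    rw [Finset.disjoint_image (io_inj tx.X tx.FL tx.hF)]
    exact h
  dsimp only
  rw [h1, one_mul, Finset.image_union, Finset.prod_union h2, mul_assoc]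

/-! ### contents -/

/-- the exponent of a representative times a square -/
theorem h4_ordb (t : tx.FL.sys.T) (g : Finset tx.X.PX) (z : Lˣ) (Q : HeightOneSpectrum (𝓞 L)) :
    ord Q ((tx.gm t g * z ^ 2 : Lˣ) : L) = ord Q ((tx.gm t g : Lˣ) : L) + 2 * ord Q (z : L) := by
  rw [Units.val_mul, B.ord_mul Q (Units.ne_zero _) (Units.ne_zero _), Units.val_pow_eq_pow_val,
    B.ord_pow]
  push_cast
  rfl

theorem h4_cjcj {p : Fr.sys.P} {Q Q' : HeightOneSpectrum (𝓞 L)} (h : Over (Fr.pl p) Q)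
    (h' : Over (Fr.pl p) Q') : Q' = Q ∨ Q' = cj tx.X.sig Q :=
  B.qe_over tx.X.qe tx.X.sig tx.X.sig_α h h'

/-- at most one of the two exponents of a representative of a good set is one -/
theorem h4_good (t : tx.FL.sys.T) (g : Finset tx.X.PX) (hg : tx.Gd g) {p : Fr.sys.P}
    {Q : HeightOneSpectrum (𝓞 L)} (hQ : Over (Fr.pl p) Q) :
    ord Q ((tx.gm t g : Lˣ) : L) = 0 ∨ ord (cj tx.X.sig Q) ((tx.gm t g : Lˣ) : L) = 0 := by
  rcases h4_gm2 tx t g hQ with h | ⟨⟨b, hb, hbQ, hbp⟩, -⟩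
  · exact Or.inl h
  · rcases h4_gm2 tx t g (hQ.cj tx.X.sig) with h | ⟨⟨b', hb', hbQ', hbp'⟩, -⟩
    · exact Or.inr h
    · exfalso
      have h1 := hg b hb b' hb' (hbp.trans hbp'.symm)
      apply b.2.2
      rw [hbQ, ← hbQ', ← h1, hbQ]

theorem h4_nonneg (t : tx.FL.sys.T) (g : Finset tx.X.PX) {p : Fr.sys.P}
    {Q : HeightOneSpectrum (𝓞 L)} (hQ : Over (Fr.pl p) Q) :
    0 ≤ ord Q ((tx.gm t g : Lˣ) : L) := by
  rcases h4_gm2 tx t g hQ with h | ⟨-, h⟩ <;> rw [h]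
  exact zero_le_one

/-- the exponents of a representative vanish or `p` is the shadow of an element of the set -/
theorem h4_sh (t : tx.FL.sys.T) (g : Finset tx.X.PX) (p : Fr.sys.P) :
    tx.Un p ((tx.gm t g : Lˣ) : L) ∨ ∃ b ∈ g, tx.X.shX b = p := by
  by_cases h : ∃ b ∈ g, tx.X.shX b = p
  · exact Or.inr h
  · left
    intro Q hQ
    rcases h4_gm2 tx t g hQ with h1 | ⟨⟨b, hb, -, hbp⟩, -⟩
    · exact h1
    · exact absurd ⟨b, hb, hbp⟩ h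

/-- even contents -/
theorem h4_ev (hJ : SJj tx) (t : tx.FL.sys.T) (g : Finset tx.X.PX) (hg : tx.Gd g) (z : Lˣ)
    (hz : ∀ b ∈ g, tx.Un (tx.X.shX b) (z : L)) (hn : tx.Nz ((tx.gm t g * z ^ 2 : Lˣ) : L))
    (p : Fr.sys.P) : tx.Ev p ((tx.gm t g * z ^ 2 : Lˣ) : L) := by
  obtain ⟨Q, hQ⟩ := exists_over (L := L) (Fr.pl p)
  unfold TX.Ev
  rw [(hJ p Q hQ _ hn).1, h4_ordb, h4_ordb]
  have hQ' := hQ.cj tx.X.sig
  rcases h4_sh tx t g p with h | ⟨b, hb, rfl⟩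
  · rw [h Q hQ, h _ hQ', zero_add, zero_add]
    rcases le_total (2 * ord Q (z : L)) (2 * ord (cj tx.X.sig Q) (z : L)) with h1 | h1
    · rw [min_eq_left h1]
      exact even_two_mul _
    · rw [min_eq_right h1]
      exact even_two_mul _
  · rw [hz b hb Q hQ, hz b hb _ hQ', mul_zero, add_zero, add_zero]
    have h1 := h4_nonneg tx t g hQ
    have h2 := h4_nonneg tx t g hQ'
    rcases h4_good tx t g hg hQ with h3 | h3
    · rw [h3, min_eq_left h2]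
      exact Even.zero
    · rw [h3, min_eq_right h1]
      exact Even.zero

/-- the content of a square is even -/
theorem h4_evsq (hJ : SJj tx) (z : Lˣ) (hn : tx.Nz ((z ^ 2 : Lˣ) : L)) (p : Fr.sys.P) :
    tx.Ev p ((z ^ 2 : Lˣ) : L) := by
  obtain ⟨Q, hQ⟩ := exists_over (L := L) (Fr.pl p)
  unfold TX.Ev
  rw [(hJ p Q hQ _ hn).1, Units.val_pow_eq_pow_val, B.ord_pow, B.ord_pow]
  rcases le_total (((2 : ℕ) : ℤ) * ord Q (z : L)) (((2 : ℕ) : ℤ) * ord (cj tx.X.sig Q) (z : L))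
    with h1 | h1
  · rw [min_eq_left h1]
    push_cast
    exact even_two_mul _
  · rw [min_eq_right h1]
    push_cast
    exact even_two_mul _

/-- no conflict if the second element is a unit above `p` -/
theorem h4_ncr (hJ : SJj tx) {u v : Lˣ} (hu : tx.Nz (u : L)) (hv : tx.Nz (v : L))
    (huv : tx.Nz ((u * v : Lˣ) : L)) {p : Fr.sys.P} (h : tx.Un p (v : L)) :
    tx.Nc p (u : L) (v : L) := by
  obtain ⟨Q, hQ⟩ := exists_over (L := L) (Fr.pl p)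
  have hQ' := hQ.cj tx.X.sig
  unfold TX.Nc
  rw [Units.val_mul] at huv
  rw [(hJ p Q hQ _ hu).1, (hJ p Q hQ _ hv).1, (hJ p Q hQ _ huv).1,
    B.ord_mul Q (Units.ne_zero _) (Units.ne_zero _), B.ord_mul _ (Units.ne_zero _) (Units.ne_zero _),
    h Q hQ, h _ hQ', add_zero, add_zero, min_self, add_zero]

/-- no conflict if the first element is a unit above `p` -/
theorem h4_ncl (hJ : SJj tx) {u v : Lˣ} (hu : tx.Nz (u : L)) (hv : tx.Nz (v : L))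
    (huv : tx.Nz ((u * v : Lˣ) : L)) {p : Fr.sys.P} (h : tx.Un p (u : L)) :
    tx.Nc p (u : L) (v : L) := by
  have h1 := h4_ncr tx hJ hv hu (by rw [mul_comm]; exact huv) h
  unfold TX.Nc at h1 ⊢
  rw [mul_comm, h1, add_comm]

/-- no conflict for a square -/
theorem h4_ncs (hJ : SJj tx) {u : Lˣ} (hu : tx.Nz (u : L)) (huv : tx.Nz ((u * u : Lˣ) : L))
    (p : Fr.sys.P) : tx.Nc p (u : L) (u : L) := by
  obtain ⟨Q, hQ⟩ := exists_over (L := L) (Fr.pl p)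
  unfold TX.Nc
  rw [Units.val_mul] at huv
  rw [(hJ p Q hQ _ hu).1, (hJ p Q hQ _ huv).1,
    B.ord_mul Q (Units.ne_zero _) (Units.ne_zero _), B.ord_mul _ (Units.ne_zero _) (Units.ne_zero _)]
  rcases le_total (ord Q (u : L)) (ord (cj tx.X.sig Q) (u : L)) with h1 | h1
  · rw [min_eq_left h1, min_eq_left (add_le_add h1 h1)]
  · rw [min_eq_right h1, min_eq_right (add_le_add h1 h1)]

/-- no conflict for two representatives times squares -/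
theorem h4_nc12 (hJ : SJj tx) {Ps : Set tx.X.PX} {t : tx.FL.sys.T} {g₁ g₂ : Finset tx.X.PX}
    {z₁ z₂ : Lˣ} (h₁ : tx.Gd g₁) (h₂ : tx.Gd g₂)
    (hc : ∀ b ∈ g₁, tx.X.cjX b ∉ g₂)
    (hz₁ : ∀ b, b ∈ g₁ ∨ b ∈ g₂ → tx.Un (tx.X.shX b) (z₁ : L))
    (hz₂ : ∀ b, b ∈ g₁ ∨ b ∈ g₂ → tx.Un (tx.X.shX b) (z₂ : L))
    (hu : ∀ p, tx.Un p (z₁ : L) ∨ tx.Un p (z₂ : L))
    (hn₁ : tx.Nz ((tx.gm t g₁ * z₁ ^ 2 : Lˣ) : L)) (hn₂ : tx.Nz ((tx.gm t g₂ * z₂ ^ 2 : Lˣ) : L))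
    (hn : tx.Nz (((tx.gm t g₁ * z₁ ^ 2) * (tx.gm t g₂ * z₂ ^ 2) : Lˣ) : L)) (p : Fr.sys.P) :
    tx.Nc p ((tx.gm t g₁ * z₁ ^ 2 : Lˣ) : L) ((tx.gm t g₂ * z₂ ^ 2 : Lˣ) : L) := by
  have key : ∀ b, b ∈ g₁ ∨ b ∈ g₂ → tx.X.shX b = p →
      tx.Nc p ((tx.gm t g₁ * z₁ ^ 2 : Lˣ) : L) ((tx.gm t g₂ * z₂ ^ 2 : Lˣ) : L) := by
    rintro b hb rfl
    obtain ⟨Q, hQ⟩ := exists_over (L := L) (Fr.pl (tx.X.shX b))
    have hQ' := hQ.cj tx.X.sig
    have hn' := hn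
    rw [Units.val_mul] at hn'
    unfold TX.Nc
    rw [(hJ _ Q hQ _ hn₁).1, (hJ _ Q hQ _ hn₂).1, (hJ _ Q hQ _ hn').1,
      B.ord_mul Q (Units.ne_zero _) (Units.ne_zero _),
      B.ord_mul _ (Units.ne_zero _) (Units.ne_zero _), h4_ordb, h4_ordb, h4_ordb, h4_ordb,
      hz₁ b hb Q hQ, hz₁ b hb _ hQ', hz₂ b hb Q hQ, hz₂ b hb _ hQ']
    simp only [mul_zero, add_zero]
    have e1 := h4_nonneg tx t g₁ hQ
    have e2 := h4_nonneg tx t g₁ hQ'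
    have e3 := h4_nonneg tx t g₂ hQ
    have e4 := h4_nonneg tx t g₂ hQ'
    have c1 : ord Q ((tx.gm t g₁ : Lˣ) : L) = 0 ∨
        ord (cj tx.X.sig Q) ((tx.gm t g₂ : Lˣ) : L) = 0 := by
      rcases h4_gm2 tx t g₁ hQ with h | ⟨⟨c, hc1, hc2, -⟩, -⟩
      · exact Or.inl h
      · rcases h4_gm2 tx t g₂ hQ' with h | ⟨⟨d, hd1, hd2, -⟩, -⟩
        · exact Or.inr h
        · exfalso
          apply hc c hc1
          have : tx.X.cjX c = d := Subtype.ext (by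
            rw [hd2, ← hc2]
            rfl)
          rw [this]
          exact hd1
    have c2 : ord (cj tx.X.sig Q) ((tx.gm t g₁ : Lˣ) : L) = 0 ∨
        ord Q ((tx.gm t g₂ : Lˣ) : L) = 0 := by
      rcases h4_gm2 tx t g₁ hQ' with h | ⟨⟨c, hc1, hc2, -⟩, -⟩
      · exact Or.inl h
      · rcases h4_gm2 tx t g₂ hQ with h | ⟨⟨d, hd1, hd2, -⟩, -⟩
        · exact Or.inr h
        · exfalso
          apply hc c hc1
          have : tx.X.cjX c = d := Subtype.ext (by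
            rw [hd2, ← tx.X.cj_cj' Q, ← hc2]
            rfl)
          rw [this]
          exact hd1
    have c3 := h4_good tx t g₁ h₁ hQ
    have c4 := h4_good tx t g₂ h₂ hQ
    rcases c3 with c3 | c3 <;> rcases c4 with c4 | c4 <;> rcases c1 with c1 | c1 <;>
      rcases c2 with c2 | c2 <;> simp only [c1, c2, c3, c4, zero_add, add_zero, min_self,
        min_eq_left e1, min_eq_left e2, min_eq_left e3, min_eq_left e4, min_eq_right e1,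
        min_eq_right e2, min_eq_right e3, min_eq_right e4] <;>
      first
        | rfl
        | exact min_eq_left (add_nonneg ‹_› ‹_›)
        | exact min_eq_right (add_nonneg ‹_› ‹_›)
  rcases h4_sh tx t g₁ p with h | ⟨b, hb, hbp⟩
  · rcases h4_sh tx t g₂ p with h' | ⟨b, hb, hbp⟩
    · rcases hu p with h3 | h3
      · refine h4_ncl tx hJ hn₁ hn₂ hn fun Q hQ => ?_
        rw [h4_ordb, h Q hQ, h3 Q hQ, mul_zero, add_zero]
      · refine h4_ncr tx hJ hn₁ hn₂ hn fun Q hQ => ?_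
        rw [h4_ordb, h' Q hQ, h3 Q hQ, mul_zero, add_zero]
    · exact key b (Or.inr hb) hbp
  · exact key b (Or.inl hb) hbp

/-! ### the sum of the symbols at the conjugate primes -/

theorem h4_qr_one {K : Type} [Field K] [NumberField K] (P : HeightOneSpectrum (𝓞 K)) (z : Kˣ) :
    qr ((z ^ 2 : Kˣ) : K) P = 0 := by
  rw [qr_eq_zero, Units.val_pow_eq_pow_val]
  exact locSq_sq P z.ne_zero

/-- the symbols of a square -/
theorem h4_kpsq (z : Lˣ) (u : L) (p : Fr.sys.P) : tx.Kp p ((z ^ 2 : Lˣ) : L) u = 0 := by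
  unfold TX.Kp
  exact Finset.sum_eq_zero fun P _ => by rw [h4_qr_one, mul_zero]

theorem h4_qrb {x z : Lˣ} (P : HeightOneSpectrum (𝓞 L)) :
    qr ((x * z ^ 2 : Lˣ) : L) P = qr (x : L) P := by
  refine hb_qr_sq ⟨x * z, ?_⟩ P
  rw [pow_two]
  simp only [mul_assoc, mul_left_comm, mul_comm]

open Classical in
/-- the local sum for two representatives -/
theorem h4_kp (t : tx.FL.sys.T) (g g' : Finset tx.X.PX) (z z' : Lˣ) (p : Fr.sys.P)
    (hE : tx.Ev p ((tx.gm t g * z ^ 2 : Lˣ) : L)) :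
    tx.Kp p ((tx.gm t g' * z' ^ 2 : Lˣ) : L) ((tx.gm t g * z ^ 2 : Lˣ) : L) =
      ∑ b ∈ g, if tx.X.shX b = p then qr ((tx.gm t g' : Lˣ) : L) (tx.X.cjX b).1 else 0 := by
  unfold TX.Kp
  have h1 : ∀ P ∈ up tx.FL Fr p,
      ((ord (tx.FL.pl P) ((tx.gm t g * z ^ 2 : Lˣ) : L) -
        tx.jj p ((tx.gm t g * z ^ 2 : Lˣ) : L) : ℤ) : ZMod 2) *
        qr ((tx.gm t g' * z' ^ 2 : Lˣ) : L) (cj tx.X.sig (tx.FL.pl P)) =
      if P ∈ g.image (io tx.X tx.FL tx.hF) then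
        qr ((tx.gm t g' : Lˣ) : L) (cj tx.X.sig (tx.FL.pl P)) else 0 := by
    intro P _
    rw [h4_qrb, h4_ordb, h4_gm]
    obtain ⟨m, hm⟩ := hE
    rw [hm]
    split_ifs
    · push_cast
      have e : ∀ a b c : ZMod 2, (1 + 2 * a - (b + b)) * c = c := by decide
      exact e _ _ _
    · push_cast
      have e : ∀ a b c : ZMod 2, (0 + 2 * a - (b + b)) * c = 0 := by decide
      exact e _ _ _
  rw [Finset.sum_congr rfl h1, Finset.sum_ite_mem, Finset.inter_comm, ← Finset.sum_ite_mem,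
    Finset.sum_image fun a _ b _ h => io_inj tx.X tx.FL tx.hF h]
  refine Finset.sum_congr rfl fun b _ => ?_
  have h2 : io tx.X tx.FL tx.hF b ∈ up tx.FL Fr p ↔ tx.X.shX b = p := by
    rw [mem_up, pl_io]
    constructor
    · intro h
      exact tx.X.shX_eq b h
    · rintro rfl
      exact tx.X.shX_over b
  have h3 : cj tx.X.sig (tx.FL.pl (io tx.X tx.FL tx.hF b)) = (tx.X.cjX b).1 := by
    rw [pl_io]
    rfl
  rw [h3]
  by_cases h : tx.X.shX b = p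
  · rw [if_pos h, if_pos (h2.2 h)]
  · rw [if_neg h, if_neg (fun h' => h (h2.1 h'))]

/-- the sum for two representatives -/
theorem h4_kps (t : tx.FL.sys.T) (g g' : Finset tx.X.PX) (z z' : Lˣ)
    (hE : ∀ p, tx.Ev p ((tx.gm t g * z ^ 2 : Lˣ) : L)) :
    ∑ᶠ p, tx.Kp p ((tx.gm t g' * z' ^ 2 : Lˣ) : L) ((tx.gm t g * z ^ 2 : Lˣ) : L) =
      ∑ b ∈ g, qr ((tx.gm t g' : Lˣ) : L) (tx.X.cjX b).1 := by
  classical
  rw [finsum_congr fun p => h4_kp tx t g g' z z' p (hE p)]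
  rw [finsum_eq_sum_of_support_subset (s := g.image tx.X.shX), Finset.sum_comm]
  · refine Finset.sum_congr rfl fun b hb => ?_
    rw [Finset.sum_ite_eq, if_pos (Finset.mem_image_of_mem _ hb)]
  · intro p hp
    by_contra h
    apply hp
    refine Finset.sum_eq_zero fun b hb => ?_
    rw [if_neg]
    rintro rfl
    exact h (by
      rw [Finset.mem_coe]
      exact Finset.mem_image_of_mem _ hb)

/-! ### the symbols at the frame -/

theorem h4_sqLS (v : Pl k) (y : kˣ) : y * y ∈ LS v := by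
  rw [← pow_two]
  exact B.sq_mem_LS v y

/-- the local terms depend on the local classes only -/
theorem h4_E {v : Pl k} {c c' x x' n n' : kˣ} (y w : kˣ) (hc : c * c' ∈ LS v)
    (hx : x * x' ∈ LS v) (hn : n * n' ∈ LS v) :
    hv v (c : k) ((x : k) * y * n) + hv v (x : k) (n : k) + hv v (-1 : k) (x : k) +
      hv v (x : k) (y : k) + hv v (w : k) (y : k) =
    hv v (c' : k) ((x' : k) * y * n') + hv v (x' : k) (n' : k) + hv v (-1 : k) (x' : k) +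
      hv v (x' : k) (y : k) + hv v (w : k) (y : k) := by
  have e0 : (x * y * n) * (x' * y * n') ∈ LS v := by
    have e : (x * y * n) * (x' * y * n') = (x * x') * (n * n') * (y * y) := by
      simp only [mul_assoc, mul_left_comm, mul_comm]
    rw [e]
    exact mul_mem (mul_mem hx hn) (h4_sqLS v y)
  have e1 := hv_congr hc e0
  have e2 := hv_congr hx hn
  have e3 := hv_congr (h4_sqLS v (-1 : kˣ)) hx
  have e4 := hv_congr hx (h4_sqLS v y)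
  simp only [Units.val_mul, Units.val_neg, Units.val_one] at e1 e2 e3 e4
  rw [e1, e2, e3, e4]

/-- the same for elements of `L` -/
theorem h4_rv {P : HeightOneSpectrum (𝓞 k)} {u u' v : Lˣ} (hu : tx.Nz (u : L))
    (hu' : tx.Nz (u' : L)) (hv' : tx.Nz (v : L)) (h1 : tx.nn (u : L) ≠ 0)
    (h1' : tx.nn (u' : L) ≠ 0) (hc : tx.cx ((u * v : Lˣ) : L) ≠ 0)
    (hc' : tx.cx ((u' * v : Lˣ) : L) ≠ 0)
    (lc : LocSq P (tx.cx ((u * v : Lˣ) : L) * tx.cx ((u' * v : Lˣ) : L)))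
    (lx : LocSq P (tx.cx (u : L) * tx.cx (u' : L)))
    (ln : LocSq P (tx.nn (u : L) * tx.nn (u' : L))) :
    tx.Rv (Sum.inl P) (u : L) (v : L) = tx.Rv (Sum.inl P) (u' : L) (v : L) := by
  have h := h4_E (v := (Sum.inl P : Pl k)) (c := Units.mk0 _ hc) (c' := Units.mk0 _ hc')
    (x := Units.mk0 _ hu.1) (x' := Units.mk0 _ hu'.1) (n := Units.mk0 _ h1)
    (n' := Units.mk0 _ h1') (Units.mk0 _ hv'.2) (Units.mk0 _ hv'.1)
    (Subgroup.subset_closure lc) (Subgroup.subset_closure lx) (Subgroup.subset_closure ln)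
  simp only [Units.val_mk0, Units.val_mul] at h
  unfold TX.Rv
  exact h

/-! ### the auxiliary element -/

theorem h4_ord1 {K : Type} [Field K] [NumberField K] {Q : HeightOneSpectrum (𝓞 K)} {n : ℕ}
    (hn : 1 ≤ n) {x : K} (h : Nr Q (n : ℤ) x 1) : ord Q x = 0 := by
  rcases h with rfl | h
  · exact B.ord_one Q
  · have h1 := (ord_add_eq Q (a := 1) (b := x - 1) one_ne_zero (Or.inr (by
      rw [B.ord_one]
      have : (1 : ℤ) ≤ n := by exact_mod_cast hn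
      linarith))).2
    rw [add_sub_cancel, B.ord_one] at h1
    exact h1

theorem h4_z3 (hA : SApx tx) (N : ℤ) (n : ℕ) (hn : ∀ u : L, (∀ Q ∈ tx.FL.S, Nr Q (n : ℤ) u 1) →
    (∀ ψ : L →+* ℝ, 0 < ψ u) → tx.UU N u) (b₁ b₂ : Lˣ) :
    ∃ z : Lˣ, tx.UU N ((b₂ * z : Lˣ) : L) ∧
      (∀ p, ¬ tx.Un p (b₁ : L) ∨ ¬ tx.Un p (b₂ : L) → tx.Un p (z : L)) ∧
      tx.Nz ((z ^ 2 : Lˣ) : L) ∧ tx.Nz ((b₂ * z : Lˣ) : L) ∧
      tx.Nz ((b₁ * b₂ * z ^ 2 : Lˣ) : L) ∧ tx.Nz ((b₂ ^ 2 * z ^ 2 : Lˣ) : L) := by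
  classical
  set B₀ : Finset (HeightOneSpectrum (𝓞 L)) := (B.ord_finite (b₁ : L) b₁.ne_zero).toFinset ∪
    (B.ord_finite (b₂ : L) b₂.ne_zero).toFinset with hB₀
  obtain ⟨z, ha, hb, hc⟩ := hA (tx.FL.S ∪ (B₀ ∪ B₀.image (cj tx.X.sig)))
    (fun Q => if Q ∈ tx.FL.S then b₂⁻¹ else 1) (max n 1) (fun ψ => 0 < ψ (b₂ : L))
    {1, b₂, b₁ * b₂, b₂ ^ 2}
  have c1 := (hc 1 (by simp)).2
  have c2 := (hc b₂ (by simp)).1
  have c3 := (hc (b₁ * b₂) (by simp)).2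
  have c4 := (hc (b₂ ^ 2) (by simp)).2
  rw [one_mul] at c1
  refine ⟨z, hn _ ?_ ?_, ?_, c1, c2, c3, c4⟩
  · intro Q hQ
    have h := ha Q (Finset.mem_union_left _ hQ)
    simp only [if_pos hQ, div_inv_eq_mul] at h
    rw [mul_comm]
    rcases h with h | h
    · exact Or.inl h
    · right
      refine le_trans ?_ h
      exact_mod_cast le_max_left n 1
  · intro ψ
    rw [Units.val_mul, map_mul]
    have h1 : ψ (b₂ : L) ≠ 0 := (map_ne_zero ψ).2 b₂.ne_zero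
    have h2 : ψ (z : L) ≠ 0 := (map_ne_zero ψ).2 z.ne_zero
    rcases lt_or_gt_of_ne h1 with h | h
    · have h3 : ¬ 0 < ψ (z : L) := fun h4 => absurd ((hb ψ).1 h4) (not_lt.2 h.le)
      exact mul_pos_of_neg_of_neg h (lt_of_le_of_ne (not_lt.1 h3) h2)
    · exact mul_pos h ((hb ψ).2 h)
  · intro p hp Q hQ
    have h1 : ∃ Q', Over (Fr.pl p) Q' ∧ Q' ∈ B₀ := by
      rcases hp with h | h
      · unfold TX.Un at h
        push Not at h
        obtain ⟨Q', h1, h2⟩ := h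
        exact ⟨Q', h1, Finset.mem_union_left _ ((Set.Finite.mem_toFinset _).2 h2)⟩
      · unfold TX.Un at h
        push Not at h
        obtain ⟨Q', h1, h2⟩ := h
        exact ⟨Q', h1, Finset.mem_union_right _ ((Set.Finite.mem_toFinset _).2 h2)⟩
    obtain ⟨Q', h1, h2⟩ := h1
    have h3 : Q ∈ tx.FL.S ∪ (B₀ ∪ B₀.image (cj tx.X.sig)) := by
      apply Finset.mem_union_right
      rcases h4_cjcj tx h1 hQ with h | h
      · rw [h]
        exact Finset.mem_union_left _ h2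
      · rw [h]
        exact Finset.mem_union_right _ (Finset.mem_image_of_mem _ h2)
    have h4 := ha Q h3
    have h5 : Q ∉ tx.FL.S := qf_notMem tx.FL tx.hF hQ
    simp only [if_neg h5, div_one] at h4
    exact h4_ord1 (le_max_right n 1) h4

/-! ### the multiplication law for units -/

theorem h4_T (hT : STmG tx) {u v : Lˣ} (hu : tx.Nz (u : L)) (hv' : tx.Nz (v : L))
    (huv : tx.Nz ((u * v : Lˣ) : L)) (eu : ∀ p, tx.Ev p (u : L)) (ev : ∀ p, tx.Ev p (v : L))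
    (nc : ∀ p, tx.Nc p (u : L) (v : L)) :
    tx.tt ((u * v : Lˣ) : L) = tx.tt (u : L) + tx.tt (v : L) +
      ∑ᶠ p, tx.Kp p (v : L) (u : L) + tx.RS (u : L) (v : L) := by
  rw [Units.val_mul] at huv ⊢
  exact hT _ _ hu hv' huv eu ev nc

theorem h4_evm {u v : Lˣ} {p : Fr.sys.P} (eu : tx.Ev p (u : L)) (ev : tx.Ev p (v : L))
    (nc : tx.Nc p (u : L) (v : L)) : tx.Ev p ((u * v : Lˣ) : L) := by
  unfold TX.Ev TX.Nc at *
  rw [Units.val_mul, nc]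
  exact eu.add ev

/-! ### the row H4 -/

theorem td_H4 (h1 : SCo tx) (hJ : SJj tx) (hT : STmG tx) (hUm : SUm tx) (hUl : SUl tx)
    (hUs : SUs tx) (hA : SApx tx) (hNr : SNr tx) (hBw : SBw tx) (hOg : SOg tx) (hf : SHf tx)
    (hr : SHr tx) : SHm tx := by
  classical
  intro N hN Ps t R G₁ G₂ hPs hG₁ hG₂ hR₁ hR₂ hd₁ hd₂ hty hLf c z₂ hz₂ hcx
  have hshc : ∀ b : tx.X.PX, tx.X.shX (tx.X.cjX b) = tx.X.shX b := fun b =>
    tx.X.shX_eq _ ((tx.X.shX_over b).cj tx.X.sig)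
  have hcne : ∀ b : tx.X.PX, tx.X.cjX b ≠ b := fun b h => b.2.2 (congrArg Subtype.val h)
  have hc : ∀ b ∈ R ∪ G₁, tx.X.cjX b ∉ R ∪ G₂ := by
    intro b hb hcb
    by_cases h1 : b ∈ R
    · exact hcne b (hd₂ _ hcb _ (Finset.mem_union_left _ h1) (hshc b))
    · have h2 : b ∈ G₁ := (Finset.mem_union.1 hb).resolve_left h1
      by_cases h3 : tx.X.cjX b ∈ R
      · exact hcne b (hd₁ _ (Finset.mem_union_left _ h3) _ hb (hshc b))
      · have h4 : tx.X.cjX b ∈ G₂ := (Finset.mem_union.1 hcb).resolve_left h3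
        exact (hPs b).1 (hG₁ h2) (hG₂ h4)
  have hmem : ∀ b : tx.X.PX, b ∈ R ∪ G₁ ∨ b ∈ R ∪ G₂ →
      tx.X.shX b ∈ (R ∪ G₁).image tx.X.shX ∪ (R ∪ G₂).image tx.X.shX := by
    rintro b (hb | hb)
    · exact Finset.mem_union_left _ (Finset.mem_image_of_mem _ hb)
    · exact Finset.mem_union_right _ (Finset.mem_image_of_mem _ hb)
  have hcxc : ∀ u : L, Algebra.trace k L u = (c : k) → tx.cx u = (2 : k)⁻¹ * (c : k) := by
    intro u hu
    unfold TX.cx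
    rw [hu]
  have hc0 : (2 : k)⁻¹ * (c : k) ≠ 0 := mul_ne_zero (inv_ne_zero two_ne_zero) c.ne_zero
  have hn₂ : tx.Nz ((tx.gm t (R ∪ G₂) * z₂ ^ 2 : Lˣ) : L) := by
    refine ⟨?_, hz₂.nz⟩
    rw [hcxc _ hz₂.tr]
    exact hc0
  have hn22 : tx.Nz (((tx.gm t (R ∪ G₂) * z₂ ^ 2) ^ 2 : Lˣ) : L) := by
    refine ⟨hcx, ?_⟩
    rw [pow_two, Units.val_mul, h1.cy_mul]
    have e : ∀ x y : k, x * y + x * y = 2 * (x * y) := fun x y => by ring
    rw [e]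
    exact mul_ne_zero two_ne_zero (mul_ne_zero hn₂.1 hn₂.2)
  obtain ⟨M₁, hM₁⟩ := hf _ hn₂ hcx
  obtain ⟨n, hn⟩ := hNr N
  refine ⟨max M₁ n, fun z₁ hz₁ hu hnr hps hn12 => ?_⟩
  have hn₁ : tx.Nz ((tx.gm t (R ∪ G₁) * z₁ ^ 2 : Lˣ) : L) := by
    refine ⟨?_, hz₁.nz⟩
    rw [hcxc _ hz₁.tr]
    exact hc0
  have hcx12 : tx.cx ((tx.gm t (R ∪ G₂) * z₂ ^ 2 : Lˣ) : L) =
      tx.cx ((tx.gm t (R ∪ G₁) * z₁ ^ 2 : Lˣ) : L) := by
    rw [hcxc _ hz₁.tr, hcxc _ hz₂.tr]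
  have hs₁ : ∀ b, b ∈ R ∪ G₁ ∨ b ∈ R ∪ G₂ → tx.Un (tx.X.shX b) (z₁ : L) :=
    fun b hb => hz₁.sh _ (hmem b hb)
  have hs₂ : ∀ b, b ∈ R ∪ G₁ ∨ b ∈ R ∪ G₂ → tx.Un (tx.X.shX b) (z₂ : L) :=
    fun b hb => hz₂.sh _ (hmem b hb)
  -- contents
  have ev₁ := h4_ev tx hJ t (R ∪ G₁) hd₁ z₁ (fun b hb => hs₁ b (Or.inl hb)) hn₁
  have ev₂ := h4_ev tx hJ t (R ∪ G₂) hd₂ z₂ (fun b hb => hs₂ b (Or.inr hb)) hn₂
  have nc12 := h4_nc12 tx hJ (Ps := Ps) (t := t) hd₁ hd₂ hc hs₁ hs₂ hu hn₁ hn₂ hn12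
  -- the sums of the symbols
  have k12 := h4_kps tx t (R ∪ G₁) (R ∪ G₂) z₁ z₂ ev₁
  have k22 := h4_kps tx t (R ∪ G₂) (R ∪ G₂) z₂ z₂ ev₂
  rw [Finset.sum_eq_zero fun b hb => hLf b hb] at k22
  -- the auxiliary element
  obtain ⟨z₃, hz3u, hz3W, hz3a, hz3b, hz3c, hz3d⟩ := h4_z3 tx hA N n hn
    (tx.gm t (R ∪ G₁) * z₁ ^ 2) (tx.gm t (R ∪ G₂) * z₂ ^ 2)
  -- the product of the two elements and the square of `z₃`
  have hlm : (tx.gm t (R ∪ G₁) * z₁ ^ 2) * (tx.gm t (R ∪ G₂) * z₂ ^ 2) * z₃ ^ 2 =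
      (tx.gm 0 G₁ * tx.gm 0 G₂) * (tx.gm t R * z₁ * z₂ * z₃) ^ 2 := by
    rw [h4_union tx t hR₁, h4_union tx t hR₂]
    apply Units.ext
    push_cast
    ring
  have hw1 : ∀ b ∈ R ∪ G₁, ¬ tx.Un (tx.X.shX b) ((tx.gm t (R ∪ G₁) * z₁ ^ 2 : Lˣ) : L) := by
    intro b hb h
    have e := h b.1 (tx.X.shX_over b)
    rw [h4_ordb, h4_gm1 tx t _ b hb, hs₁ b (Or.inl hb) b.1 (tx.X.shX_over b)] at e
    norm_num at e
  have hw2 : ∀ b ∈ R ∪ G₂, ¬ tx.Un (tx.X.shX b) ((tx.gm t (R ∪ G₂) * z₂ ^ 2 : Lˣ) : L) := by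
    intro b hb h
    have e := h b.1 (tx.X.shX_over b)
    rw [h4_ordb, h4_gm1 tx t _ b hb, hs₂ b (Or.inr hb) b.1 (tx.X.shX_over b)] at e
    norm_num at e
  have hgmR : ∀ b, b ∈ G₁ ∨ b ∈ G₂ → tx.Un (tx.X.shX b) ((tx.gm t R : Lˣ) : L) := by
    intro b hb
    rcases h4_sh tx t R (tx.X.shX b) with h | ⟨b', hb', he⟩
    · exact h
    · exfalso
      rcases hb with hb | hb
      · have e := hd₁ b' (Finset.mem_union_left _ hb') b (Finset.mem_union_right _ hb) he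
        exact Finset.disjoint_left.1 hR₁ hb' (e ▸ hb)
      · have e := hd₂ b' (Finset.mem_union_left _ hb') b (Finset.mem_union_right _ hb) he
        exact Finset.disjoint_left.1 hR₂ hb' (e ▸ hb)
  have hUnmul : ∀ (p : Fr.sys.P) (x y : Lˣ), tx.Un p (x : L) → tx.Un p (y : L) →
      tx.Un p ((x * y : Lˣ) : L) := by
    intro p x y hx hy Q hQ
    rw [Units.val_mul, B.ord_mul Q x.ne_zero y.ne_zero, hx Q hQ, hy Q hQ, add_zero]
  have hUnpow : ∀ (p : Fr.sys.P) (x : Lˣ), tx.Un p (x : L) → tx.Un p ((x ^ 2 : Lˣ) : L) := by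
    intro p x hx
    rw [pow_two]
    exact hUnmul p x x hx hx
  have hun : ∀ p, ¬ tx.Un p ((tx.gm 0 G₁ * tx.gm 0 G₂ : Lˣ) : L) →
      tx.Un p ((tx.gm t R * z₁ * z₂ * z₃ : Lˣ) : L) := by
    intro p hp
    have key : ∀ b, b ∈ G₁ ∨ b ∈ G₂ → tx.X.shX b = p →
        tx.Un p ((tx.gm t R * z₁ * z₂ * z₃ : Lˣ) : L) := by
      rintro b hb rfl
      have hb' : b ∈ R ∪ G₁ ∨ b ∈ R ∪ G₂ := by
        rcases hb with hb | hb
        · exact Or.inl (Finset.mem_union_right _ hb)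
        · exact Or.inr (Finset.mem_union_right _ hb)
      refine hUnmul _ _ _ (hUnmul _ _ _ (hUnmul _ _ _ (hgmR b hb) (hs₁ b hb')) (hs₂ b hb')) ?_
      apply hz3W
      rcases hb' with hb' | hb'
      · exact Or.inl (hw1 b hb')
      · exact Or.inr (hw2 b hb')
    rcases h4_sh tx 0 G₁ p with h | ⟨b, hb, he⟩
    · rcases h4_sh tx 0 G₂ p with h' | ⟨b, hb, he⟩
      · exact absurd (hUnmul p _ _ h h') hp
      · exact key b (Or.inr hb) he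
    · exact key b (Or.inl hb) he
  -- the group of elements close to one
  have u3 : tx.UU N (((tx.gm t (R ∪ G₂) * z₂ ^ 2) ^ 2 * z₃ ^ 2 : Lˣ) : L) := by
    have e := (hUm N hN _ _ hz3u hz3u).1
    rw [← Units.val_mul, ← pow_two, mul_pow] at e
    exact e
  have u12 : tx.UU N (((tx.gm t (R ∪ G₁) * z₁ ^ 2) / (tx.gm t (R ∪ G₂) * z₂ ^ 2) : Lˣ) : L) := by
    refine hn _ (fun Q hQ => ?_) hps
    rcases hnr Q hQ with h | h
    · exact Or.inl h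
    · right
      refine le_trans ?_ h
      exact_mod_cast le_max_right M₁ n
  have u4 : tx.UU N (((tx.gm t (R ∪ G₁) * z₁ ^ 2) * (tx.gm t (R ∪ G₂) * z₂ ^ 2) * z₃ ^ 2 : Lˣ) : L)
      := by
    have e := (hUm N hN _ _ u12 u3).1
    rw [← Units.val_mul] at e
    have e2 : ∀ x y z : Lˣ, x / y * (y ^ 2 * z) = x * y * z := by
      intro x y z
      rw [div_eq_mul_inv, pow_two]
      simp only [mul_assoc, inv_mul_cancel_left]
    rw [e2] at e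
    exact e
  -- the symbol of the product of the generators
  have hbr : tx.br N (tx.gm 0 G₁ * tx.gm 0 G₂) =
      tx.tt (((tx.gm t (R ∪ G₁) * z₁ ^ 2) * (tx.gm t (R ∪ G₂) * z₂ ^ 2) * z₃ ^ 2 : Lˣ) : L) := by
    rw [hlm]
    refine hBw N hN Ps _ _ hPs (hOg Ps G₁ G₂ hPs hG₁ hG₂ hty) ⟨?_, hun, ?_⟩
    · rw [← hlm]
      exact u4
    · rw [← hlm]
      exact hz3c
  -- the square
  have hsq : tx.tt (((tx.gm t (R ∪ G₂) * z₂ ^ 2) ^ 2 * z₃ ^ 2 : Lˣ) : L) = 0 := by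
    have e : (((tx.gm t (R ∪ G₂) * z₂ ^ 2) ^ 2 * z₃ ^ 2 : Lˣ) : L) =
        ((tx.gm t (R ∪ G₂) * z₂ ^ 2 * z₃ : Lˣ) : L) ^ 2 := by
      rw [← Units.val_pow_eq_pow_val, ← mul_pow]
    rw [e]
    rw [e] at u3
    exact hUs N hN _ u3 hz3b
  -- the four multiplication laws
  have hn22' := hn22
  rw [pow_two] at hn22'
  have ev12 : ∀ p, tx.Ev p (((tx.gm t (R ∪ G₁) * z₁ ^ 2) * (tx.gm t (R ∪ G₂) * z₂ ^ 2) : Lˣ) : L) :=
    fun p => h4_evm tx (ev₁ p) (ev₂ p) (nc12 p)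
  have nc22 := h4_ncs tx hJ hn₂ hn22'
  have ev22 : ∀ p, tx.Ev p (((tx.gm t (R ∪ G₂) * z₂ ^ 2) ^ 2 : Lˣ) : L) := by
    intro p
    rw [pow_two]
    exact h4_evm tx (ev₂ p) (ev₂ p) (nc22 p)
  have evz := h4_evsq tx hJ z₃ hz3a
  have lA := h4_T tx hT hn₁ hn₂ hn12 ev₁ ev₂ nc12
  have lC := h4_T tx hT hn₂ hn₂ hn22' ev₂ ev₂ nc22
  have lB := h4_T tx hT hn12 hz3a hz3c ev12 evz (fun p => by
    by_cases hp : tx.Un p ((tx.gm t (R ∪ G₁) * z₁ ^ 2 : Lˣ) : L) ∧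
        tx.Un p ((tx.gm t (R ∪ G₂) * z₂ ^ 2 : Lˣ) : L)
    · exact h4_ncl tx hJ hn12 hz3a hz3c (hUnmul p _ _ hp.1 hp.2)
    · exact h4_ncr tx hJ hn12 hz3a hz3c (hUnpow p _ (hz3W p (not_and_or.1 hp))))
  have lD := h4_T tx hT hn22 hz3a hz3d ev22 evz (fun p => by
    by_cases hp : tx.Un p ((tx.gm t (R ∪ G₂) * z₂ ^ 2 : Lˣ) : L)
    · exact h4_ncl tx hJ hn22 hz3a hz3d (hUnpow p _ hp)
    · exact h4_ncr tx hJ hn22 hz3a hz3d (hUnpow p _ (hz3W p (Or.inr hp))))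
  -- the symbols at the frame
  have hRv : ∀ v ∈ pls Fr.S,
      tx.Rv v ((tx.gm t (R ∪ G₁) * z₁ ^ 2 : Lˣ) : L) ((tx.gm t (R ∪ G₂) * z₂ ^ 2 : Lˣ) : L) =
        tx.Rv v ((tx.gm t (R ∪ G₂) * z₂ ^ 2 : Lˣ) : L) ((tx.gm t (R ∪ G₂) * z₂ ^ 2 : Lˣ) : L) ∧
      tx.Rv v (((tx.gm t (R ∪ G₁) * z₁ ^ 2) * (tx.gm t (R ∪ G₂) * z₂ ^ 2) : Lˣ) : L)
          ((z₃ ^ 2 : Lˣ) : L) =
        tx.Rv v (((tx.gm t (R ∪ G₂) * z₂ ^ 2) ^ 2 : Lˣ) : L) ((z₃ ^ 2 : Lˣ) : L) := by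
    intro v hv'
    rcases v with P | φ
    · have hP : P ∈ Fr.S := B.inl_mem_pls.1 hv'
      obtain ⟨s1, s2, s3, s4, s5⟩ := hM₁ (tx.gm t (R ∪ G₁) * z₁ ^ 2) (fun Q hQ => by
        rcases hnr Q hQ with h | h
        · exact Or.inl h
        · right
          refine le_trans ?_ h
          exact_mod_cast le_max_left M₁ n) hn₁ hn12 P hP
      refine ⟨?_, ?_⟩
      · refine h4_rv tx hn₁ hn₂ hn₂ (h1.nn_ne _ (Units.ne_zero _)) (h1.nn_ne _ (Units.ne_zero _))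
          hn12.1 hn22'.1 ?_ s1 s3
        rw [← pow_two (tx.gm t (R ∪ G₂) * z₂ ^ 2)]
        exact s4
      · refine h4_rv tx hn12 hn22 hz3a (h1.nn_ne _ (Units.ne_zero _))
          (h1.nn_ne _ (Units.ne_zero _)) hz3c.1 hz3d.1 ?_ s4 s5
        exact LocSq.mul (hUl N hN _ u4 _ hv').1 (hUl N hN _ u3 _ hv').1
    · obtain ⟨r1, r2, r3⟩ := hr φ (tx.gm t (R ∪ G₂) * z₂ ^ 2) (tx.gm t (R ∪ G₁) * z₁ ^ 2) z₃ hn₂
        hn₁ hcx12 hps hn12 hn22 hz3a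
      exact ⟨r1, r2.trans r3.symm⟩
  have rA : tx.RS ((tx.gm t (R ∪ G₁) * z₁ ^ 2 : Lˣ) : L) ((tx.gm t (R ∪ G₂) * z₂ ^ 2 : Lˣ) : L) =
      tx.RS ((tx.gm t (R ∪ G₂) * z₂ ^ 2 : Lˣ) : L) ((tx.gm t (R ∪ G₂) * z₂ ^ 2 : Lˣ) : L) :=
    Finset.sum_congr rfl fun v hv' => (hRv v hv').1
  have rB : tx.RS (((tx.gm t (R ∪ G₁) * z₁ ^ 2) * (tx.gm t (R ∪ G₂) * z₂ ^ 2) : Lˣ) : L)
      ((z₃ ^ 2 : Lˣ) : L) =
      tx.RS (((tx.gm t (R ∪ G₂) * z₂ ^ 2) ^ 2 : Lˣ) : L) ((z₃ ^ 2 : Lˣ) : L) :=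
    Finset.sum_congr rfl fun v hv' => (hRv v hv').2
  -- the symbols of the square of `z₃`
  have kB : ∀ u : L, ∑ᶠ p, tx.Kp p ((z₃ ^ 2 : Lˣ) : L) u = 0 := by
    intro u
    rw [finsum_congr fun p => h4_kpsq tx z₃ u p, finsum_zero]
  rw [kB] at lB lD
  rw [hsq] at lD
  rw [← pow_two, k22] at lC
  rw [k12, rA] at lA
  rw [rB] at lB
  rw [hbr, lB, lA]
  rw [lC] at lD
  generalize tx.tt ((tx.gm t (R ∪ G₁) * z₁ ^ 2 : Lˣ) : L) = t₁ at *
  generalize tx.tt ((tx.gm t (R ∪ G₂) * z₂ ^ 2 : Lˣ) : L) = t₂ at *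
  generalize tx.tt ((z₃ ^ 2 : Lˣ) : L) = t₃ at *
  generalize tx.RS (((tx.gm t (R ∪ G₂) * z₂ ^ 2) ^ 2 : Lˣ) : L) ((z₃ ^ 2 : Lˣ) : L) = r₁ at *
  generalize tx.RS ((tx.gm t (R ∪ G₂) * z₂ ^ 2 : Lˣ) : L)
    ((tx.gm t (R ∪ G₂) * z₂ ^ 2 : Lˣ) : L) = r₂ at *
  generalize (∑ b ∈ R ∪ G₁, qr ((tx.gm t (R ∪ G₂) : Lˣ) : L) (tx.X.cjX b).1) = κ at *
  have key : ∀ a b c d e f : ZMod 2, 0 = b + b + 0 + e + c + 0 + d →
      a + b = a + b + f + e + c + 0 + d + f := by decide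
  exact key t₁ t₂ t₃ r₁ r₂ κ lD

end

end Pool.Agent.SKT
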