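import Pool.Agent.SKT.Stm
import Pool.Agent.H98.MF.C.Main
import Pool.Agent.H98.MF.NNin

/-!
# Malle's conjecture for 8T8 over number fields, part (TD), row C6: the product formula for a frame
-/

set_option autoImplicit false

open scoped BigOperators
open NumberField IsDedekindDomain

namespace Pool.Agent.SKT

open Pool.Agent.H98.MF

section

variable {K : Type} [Field K] [NumberField K]

theorem rc_z2 (x y : ZMod 2) (h : x + y = 0) : x = y := by
  revert x y; decide

/-- the symbol of two units at an odd prime -/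
theorem rc_unit (P : HeightOneSpectrum (𝓞 K)) (h2 : ord P (2 : K) = 0) (a b : Kˣ)
    (ha : ord P (a : K) = 0) (hb : ord P (b : K) = 0) : hs P (a : K) (b : K) = 0 := by
  rw [(B.lin K).unt P h2 a b ha, hb, Int.cast_zero, zero_mul]

theorem rc_units (F : Frm K) (a b : Kˣ) :
    {p : F.sys.P | hv (Sum.inl (F.pl p) : Pl K) (a : K) (b : K) ≠ 0}.Finite ∧
      ∑ v ∈ pls F.S, hv v (a : K) (b : K) =
        ∑ᶠ p : F.sys.P, hv (Sum.inl (F.pl p)) (a : K) (b : K) := by
  classical
  have hf : {p : F.sys.P | ord (F.pl p) (a : K) ≠ 0 ∨ ord (F.pl p) (b : K) ≠ 0}.Finite := by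
    have h1 := (B.ord_finite (a : K) a.ne_zero).preimage F.pl_inj.injOn
    have h2 := (B.ord_finite (b : K) b.ne_zero).preimage F.pl_inj.injOn
    refine (h1.union h2).subset ?_
    rintro p (h | h)
    · exact Or.inl h
    · exact Or.inr h
  set Bs : Finset F.sys.P := hf.toFinset with hBs
  have hmem : ∀ p, p ∈ Bs ↔ ord (F.pl p) (a : K) ≠ 0 ∨ ord (F.pl p) (b : K) ≠ 0 := by
    intro p
    rw [hBs, Set.Finite.mem_toFinset]
    rfl
  have h2 : ∀ p, ord (F.pl p) (2 : K) = 0 := fun p =>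
    B.ord_two_eq F.adm ((F.pl_iff _).1 ⟨p, rfl⟩)
  have hz : ∀ p, p ∉ Bs → hv (Sum.inl (F.pl p) : Pl K) (a : K) (b : K) = 0 := by
    intro p hp
    rw [hmem] at hp
    push Not at hp
    exact rc_unit (F.pl p) (h2 p) a b hp.1 hp.2
  have hsub : {p : F.sys.P | hv (Sum.inl (F.pl p) : Pl K) (a : K) (b : K) ≠ 0} ⊆ ↑Bs := by
    intro p hp
    by_contra h
    exact hp (hz p h)
  refine ⟨(Finset.finite_toSet Bs).subset hsub, ?_⟩
  rw [finsum_eq_sum_of_support_subset _ (s := Bs) hsub]
  set S' : Finset (HeightOneSpectrum (𝓞 K)) := F.S ∪ Bs.image F.pl with hS'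
  have hU : ∀ x : Kˣ, (∀ p, p ∉ Bs → ord (F.pl p) (x : K) = 0) → x ∈ US S' := by
    intro x hx
    rw [B.mem_US]
    intro Q hQ
    rw [hS', Finset.mem_union, not_or] at hQ
    obtain ⟨p, rfl⟩ := (F.pl_iff Q).2 hQ.1
    exact hx p fun h => hQ.2 (Finset.mem_image_of_mem _ h)
  have hrec := B.recSt (nin K) S' (fun P hP => by
    rw [hS', Finset.mem_union]
    left
    by_contra h
    rw [B.ord_two_eq F.adm h] at hP
    exact lt_irrefl _ hP) a (hU a fun p hp => by
      rw [hmem] at hp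
      push Not at hp
      exact hp.1) b (hU b fun p hp => by
      rw [hmem] at hp
      push Not at hp
      exact hp.2)
  have hdis : Disjoint F.S (Bs.image F.pl) := by
    rw [Finset.disjoint_left]
    intro P hP hP'
    obtain ⟨p, _, rfl⟩ := Finset.mem_image.1 hP'
    exact (F.pl_iff _).1 ⟨p, rfl⟩ hP
  have h3 : ∀ S : Finset (HeightOneSpectrum (𝓞 K)), ∑ v ∈ pls S, hv v (a : K) (b : K) =
      ∑ P ∈ S, hv (Sum.inl P : Pl K) (a : K) (b : K) +
        ∑ φ : K →+* ℝ, hv (Sum.inr φ : Pl K) (a : K) (b : K) := by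
    intro S
    unfold pls
    rw [Finset.sum_disjSum]
  rw [h3, hS', Finset.sum_union hdis, Finset.sum_image fun p _ q _ h => F.pl_inj h] at hrec
  rw [h3]
  apply rc_z2
  rw [← hrec]
  ring

end

/-- C6: the product formula for Hilbert symbols, for a frame -/
theorem sRc {K : Type} [Field K] [NumberField K] (F : Frm K) : SRc F := by
  intro x y hx hy
  exact rc_units F (Units.mk0 x hx) (Units.mk0 y hy)

end Pool.Agent.SKT
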