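import Pool.Agent.SKT.Stm

/-!
# Malle's conjecture for 8T8 over number fields, part (TD), row C8: squares
-/

set_option autoImplicit false

open scoped BigOperators
open NumberField IsDedekindDomain

namespace Pool.Agent.SKT

open Pool.Agent.H98.MF
open Pool.Agent.H32.MQ

/-- C8: squares -/
theorem sSqG {k : Type} [Field k] [NumberField k] {Fr : Frm k} {L : Type} [Field L]
    [NumberField L] [Algebra k L] (tx : TX Fr L) (h0 : SCo tx) (h1 : SSq tx) (h2 : SRc Fr) :
    SSqG tx := by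
  intro w hw hx
  have ha : (tx.X.a : k) ≠ 0 := tx.X.a.ne_zero
  have hy : tx.cy (w ^ 2) ≠ 0 := by
    rw [pow_two, h0.cy_mul]
    have h3 : tx.cx w * tx.cy w + tx.cx w * tx.cy w = 2 * (tx.cx w * tx.cy w) := by ring
    rw [h3]
    exact mul_ne_zero two_ne_zero (mul_ne_zero hw.1 hw.2)
  obtain ⟨f1, e1⟩ := h2 (tx.X.a : k) (tx.cx w) ha hw.1
  obtain ⟨f2, e2⟩ := h2 (tx.cx (w ^ 2)) (tx.cy (w ^ 2)) hx hy
  rw [Finset.sum_add_distrib, e1, e2, ← finsum_add_distrib f1 f2]
  exact finsum_congr fun p => h1 p w hw hx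

end Pool.Agent.SKT
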