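import Pool.Agent.SKT.Stm
import Pool.Agent.H98.MF.C.Lin

/-!
# Malle's conjecture for 8T8 over number fields: the statement (TD), rows U1-U4 and H3: the group
of elements close to one
-/

set_option autoImplicit false

open scoped BigOperators
open NumberField IsDedekindDomain

namespace Pool.Agent.SKT

open Pool.Agent.H98.MF
open Pool.Agent.H32.MQ

/-! ### local computations -/

section

variable {K : Type} [Field K] [NumberField K] {P : HeightOneSpectrum (𝓞 K)}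

theorem tdu_nr {n : ℤ} {x c : K} : Nr P n x c ↔ (x - c = 0 ∨ n ≤ ord P (x - c)) := by
  unfold Nr
  rw [sub_eq_zero]

theorem tdu_nr0 {n : ℤ} {x : K} : Nr P n x 0 ↔ (x = 0 ∨ n ≤ ord P x) := by
  unfold Nr
  rw [sub_zero]

theorem tdu_neg {n : ℤ} {x : K} (h : x = 0 ∨ n ≤ ord P x) : -x = 0 ∨ n ≤ ord P (-x) := by
  rw [neg_eq_zero, ord_neg]
  exact h

theorem tdu_sub {n : ℤ} {x y : K} (h : x = 0 ∨ n ≤ ord P x) (h' : y = 0 ∨ n ≤ ord P y) :
    x - y = 0 ∨ n ≤ ord P (x - y) := by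
  rw [sub_eq_add_neg]
  exact le_ord_add P n h (tdu_neg h')

theorem tdu_int {N : ℤ} (hN : 0 ≤ N) {x : K} (h : x - 1 = 0 ∨ N ≤ ord P (x - 1)) :
    x = 0 ∨ 0 ≤ ord P x := by
  have h1 := le_ord_add P (a := x - 1) (b := 1) 0 (sqr_mono P hN h) (Or.inr (by rw [ord_one]))
  rwa [sub_add_cancel] at h1

theorem tdu_two : 0 ≤ ord P (2 : K) := by
  have e0 : ((2 : 𝓞 K) : K) = 2 := map_ofNat (algebraMap (𝓞 K) K) 2
  have h1 := ord_int_nonneg P (2 : 𝓞 K)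
  rwa [e0] at h1

/-- a factor of order at least `- N` in front of an element of order at least `N` -/
theorem tdu_mulA {N : ℤ} {a y : K} (hA : 0 ≤ N + ord P a) (hy : y = 0 ∨ N ≤ ord P y) :
    a * y = 0 ∨ 0 ≤ ord P (a * y) := by
  have h := sqr_prod P (x := a) (y := y) (n := ord P a) (m := N) (Or.inr le_rfl) hy
  exact sqr_mono P (by omega) h

theorem tdu_cx {N : ℤ} (hN : 0 ≤ N) {a x y x' y' : K} (hA : 0 ≤ N + ord P a)
    (hx : x - 1 = 0 ∨ N ≤ ord P (x - 1)) (hx' : x' - 1 = 0 ∨ N ≤ ord P (x' - 1))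
    (hy : y = 0 ∨ N ≤ ord P y) (hy' : y' = 0 ∨ N ≤ ord P y') :
    x * x' + a * y * y' - 1 = 0 ∨ N ≤ ord P (x * x' + a * y * y' - 1) := by
  have h1 := sqr_prod P hx (tdu_int hN hx')
  rw [add_zero] at h1
  have h2 := sqr_prod P (tdu_mulA hA hy) hy'
  rw [zero_add] at h2
  have h3 := le_ord_add P N (le_ord_add P N h1 hx') h2
  have e : (x - 1) * x' + (x' - 1) + a * y * y' = x * x' + a * y * y' - 1 := by ring
  rwa [e] at h3

theorem tdu_cy {N : ℤ} (hN : 0 ≤ N) {x y x' y' : K}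
    (hx : x - 1 = 0 ∨ N ≤ ord P (x - 1)) (hx' : x' - 1 = 0 ∨ N ≤ ord P (x' - 1))
    (hy : y = 0 ∨ N ≤ ord P y) (hy' : y' = 0 ∨ N ≤ ord P y') :
    x * y' + x' * y = 0 ∨ N ≤ ord P (x * y' + x' * y) := by
  have h1 := sqr_prod P (tdu_int hN hx) hy'
  have h2 := sqr_prod P (tdu_int hN hx') hy
  rw [zero_add] at h1 h2
  exact le_ord_add P N h1 h2

theorem tdu_nn {N : ℤ} (hN : 0 ≤ N) {a x y : K} (hA : 0 ≤ N + ord P a)
    (hx : x - 1 = 0 ∨ N ≤ ord P (x - 1)) (hy : y = 0 ∨ N ≤ ord P y) :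
    x ^ 2 - a * y ^ 2 - 1 = 0 ∨ N ≤ ord P (x ^ 2 - a * y ^ 2 - 1) := by
  have h := tdu_cx hN hA hx hx hy (tdu_neg hy)
  have e : x * x + a * y * -y - 1 = x ^ 2 - a * y ^ 2 - 1 := by ring
  rwa [e] at h

theorem tdu_inv {N : ℤ} (hN : 0 < N) {a x y : K} (hA : 0 ≤ N + ord P a)
    (hx : x - 1 = 0 ∨ N ≤ ord P (x - 1)) (hy : y = 0 ∨ N ≤ ord P y) :
    ((x ^ 2 - a * y ^ 2)⁻¹ * x - 1 = 0 ∨ N ≤ ord P ((x ^ 2 - a * y ^ 2)⁻¹ * x - 1)) ∧
      ((x ^ 2 - a * y ^ 2)⁻¹ * -y = 0 ∨ N ≤ ord P ((x ^ 2 - a * y ^ 2)⁻¹ * -y)) := by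
  have h := tdu_nn hN.le hA hx hy
  obtain ⟨h0, h1⟩ := sqr_unit P hN ((sqr_iff P _ N).2 h)
  generalize x ^ 2 - a * y ^ 2 = n at h h0 h1 ⊢
  have h2 : n⁻¹ = 0 ∨ 0 ≤ ord P n⁻¹ := Or.inr (by rw [ord_inv, h1, neg_zero])
  constructor
  · have h3 := sqr_prod P h2 (tdu_sub hx h)
    rw [zero_add] at h3
    have e : n⁻¹ * (x - 1 - (n - 1)) = n⁻¹ * x - 1 := by
      field_simp
      ring
    rwa [e] at h3
  · have h3 := sqr_prod P h2 (tdu_neg hy)
    rwa [zero_add] at h3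

/-- elements close to one are local squares -/
theorem tdu_sq {N : ℤ} (hN : 2 * ord P (2 : K) + 1 ≤ N) {x : K}
    (hx : x - 1 = 0 ∨ N ≤ ord P (x - 1)) : LocSq P x := by
  have h := locSq_one_add P (t := x - 1) (sqr_mono P hN hx)
  rwa [add_sub_cancel] at h

end

/-! ### the rows -/

section

variable {k : Type} [Field k] [NumberField k] {Fr : Frm k} {L : Type} [Field L]
  [NumberField L] [Algebra k L] (tx : TX Fr L)

theorem td_U1 : SBig tx := by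
  classical
  obtain ⟨M, hM⟩ := (Fr.S.image fun P => 20 * (ord P (2 : k) + |ord P (tx.X.a : k)| + 1)).exists_le
  exact ⟨M, fun P hP => hM _ (Finset.mem_image_of_mem _ hP)⟩

/-- consequences of the choice of the precision -/
theorem tdu_big {N : ℤ} (hN : tx.Big N) {P : HeightOneSpectrum (𝓞 k)} (hP : P ∈ Fr.S) :
    0 < N ∧ 0 ≤ N + ord P (tx.X.a : k) ∧ 2 * ord P (2 : k) + 1 ≤ N := by
  have h1 := hN P hP
  have h2 : 0 ≤ ord P (2 : k) := tdu_two
  have h3 := neg_abs_le (ord P (tx.X.a : k))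
  have h4 := abs_nonneg (ord P (tx.X.a : k))
  refine ⟨?_, ?_, ?_⟩ <;> linarith

theorem td_U2 (hC : SCo tx) : SUm tx := by
  intro N hN u v hu hv
  have hu' : ∀ P ∈ Fr.S, (tx.cx u - 1 = 0 ∨ N ≤ ord P (tx.cx u - 1)) ∧
      (tx.cy u = 0 ∨ N ≤ ord P (tx.cy u)) := fun P hP =>
    ⟨tdu_nr.1 (hu.x P hP), tdu_nr0.1 (hu.y P hP)⟩
  have hv' : ∀ P ∈ Fr.S, (tx.cx v - 1 = 0 ∨ N ≤ ord P (tx.cx v - 1)) ∧
      (tx.cy v = 0 ∨ N ≤ ord P (tx.cy v)) := fun P hP =>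
    ⟨tdu_nr.1 (hv.x P hP), tdu_nr0.1 (hv.y P hP)⟩
  refine ⟨⟨?_, ?_, ?_⟩, ?_⟩
  · intro P hP
    obtain ⟨h0, h1, -⟩ := tdu_big tx hN hP
    rw [tdu_nr, hC.cx_mul]
    exact tdu_cx h0.le h1 (hu' P hP).1 (hv' P hP).1 (hu' P hP).2 (hv' P hP).2
  · intro P hP
    obtain ⟨h0, h1, -⟩ := tdu_big tx hN hP
    rw [tdu_nr0, hC.cy_mul]
    exact tdu_cy h0.le (hu' P hP).1 (hv' P hP).1 (hu' P hP).2 (hv' P hP).2
  · intro ψ
    rw [map_mul]
    exact mul_pos (hu.pos ψ) (hv.pos ψ)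
  · by_cases hu0 : u = 0
    · rw [hu0, inv_zero, ← hu0]
      exact hu
    have hn : tx.nn u ≠ 0 := hC.nn_ne u hu0
    have e1 : u⁻¹ = algebraMap k L (tx.nn u)⁻¹ * tx.X.sig u := by
      rw [map_inv₀]
      have h1 : algebraMap k L (tx.nn u) = u * tx.X.sig u := tx.X.nm_eq u
      have h2 : tx.X.sig u ≠ 0 := by
        simpa using hu0
      rw [h1, mul_inv, mul_assoc, inv_mul_cancel₀ h2, mul_one]
    have ex : tx.cx u⁻¹ = (tx.nn u)⁻¹ * tx.cx u := by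
      rw [e1, hC.cx_lin, hC.cx_sig]
    have ey : tx.cy u⁻¹ = (tx.nn u)⁻¹ * -tx.cy u := by
      rw [e1, hC.cy_lin, hC.cy_sig]
    refine ⟨?_, ?_, ?_⟩
    · intro P hP
      obtain ⟨h0, h1, -⟩ := tdu_big tx hN hP
      rw [tdu_nr, ex, hC.nn_eq]
      exact (tdu_inv h0 h1 (hu' P hP).1 (hu' P hP).2).1
    · intro P hP
      obtain ⟨h0, h1, -⟩ := tdu_big tx hN hP
      rw [tdu_nr0, ey, hC.nn_eq]
      exact (tdu_inv h0 h1 (hu' P hP).1 (hu' P hP).2).2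
    · intro ψ
      rw [map_inv₀]
      exact inv_pos.2 (hu.pos ψ)

theorem td_H3 (hC : SCo tx) : SRe tx := by
  intro φ
  have h1 : 0 < φ (tx.X.a : k) := by
    have h2 : hsR φ (tx.X.a : k) (-1 : k) = 0 := tx.neg (Sum.inr φ)
    have h3 : φ (tx.X.a : k) ≠ 0 := by
      rw [Ne, map_eq_zero]
      exact tx.X.a.ne_zero
    by_contra h4
    have h5 : φ (tx.X.a : k) < 0 := lt_of_le_of_ne (not_lt.1 h4) h3
    unfold hsR at h2
    rw [if_pos ⟨h5, by rw [map_neg, map_one]; norm_num⟩] at h2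
    exact one_ne_zero h2
  refine ⟨h1, ?_⟩
  have hadd : ∀ u v : L, tx.cx (u + v) = tx.cx u + tx.cx v ∧
      tx.cy (u + v) = tx.cy u + tx.cy v := by
    intro u v
    constructor
    · unfold TX.cx
      rw [map_add, mul_add]
    · unfold TX.cy
      rw [add_mul, map_add, mul_add]
  have h10 : tx.cx (1 : L) = 1 ∧ tx.cy (1 : L) = 0 := by
    have e : (1 : L) = algebraMap k L 1 + algebraMap k L 0 * tx.X.α := by
      rw [map_one, map_zero, zero_mul, add_zero]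
    constructor
    · conv_lhs => rw [e]
      exact hC.cx_mk 1 0
    · conv_lhs => rw [e]
      exact hC.cy_mk 1 0
  have h00 : tx.cx (0 : L) = 0 ∧ tx.cy (0 : L) = 0 := by
    constructor
    · unfold TX.cx
      rw [map_zero, mul_zero]
    · unfold TX.cy
      rw [zero_mul, map_zero, mul_zero]
  have key : ∀ s : ℝ, s ^ 2 = φ (tx.X.a : k) → ∃ ψ : L →+* ℝ, ∀ u : L,
      ψ u = φ (tx.cx u) + φ (tx.cy u) * s := by
    intro s hs
    refine ⟨{ toFun := fun u => φ (tx.cx u) + φ (tx.cy u) * s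
              map_one' := ?_, map_mul' := ?_, map_zero' := ?_, map_add' := ?_ }, fun u => rfl⟩
    · rw [h10.1, h10.2, map_one, map_zero, zero_mul, add_zero]
    · intro u v
      rw [hC.cx_mul, hC.cy_mul]
      simp only [map_add, map_mul]
      rw [← hs]
      ring
    · rw [h00.1, h00.2, map_zero, zero_mul, add_zero]
    · intro u v
      rw [(hadd u v).1, (hadd u v).2, map_add, map_add]
      ring
  obtain ⟨ψ, hψ⟩ := key (Real.sqrt (φ (tx.X.a : k))) (Real.sq_sqrt h1.le)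
  obtain ⟨ψ', hψ'⟩ := key (-Real.sqrt (φ (tx.X.a : k))) (by rw [neg_sq]; exact Real.sq_sqrt h1.le)
  refine ⟨ψ, ψ', fun u => ⟨hψ u, ?_⟩⟩
  rw [hψ' u]
  ring

theorem td_U3 (hC : SCo tx) (hH : SRe tx) : SUl tx := by
  intro N hN u hu v hv
  rcases v with P | φ
  · have hP : P ∈ Fr.S := by
      rwa [Pool.Agent.H98.MF.B.inl_mem_pls] at hv
    obtain ⟨h0, h1, h2⟩ := tdu_big tx hN hP
    refine ⟨tdu_sq h2 (tdu_nr.1 (hu.x P hP)), ?_⟩
    show LocSq P (tx.nn u)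
    rw [hC.nn_eq]
    exact tdu_sq h2 (tdu_nn h0.le h1 (tdu_nr.1 (hu.x P hP)) (tdu_nr0.1 (hu.y P hP)))
  · obtain ⟨ha, ψ, ψ', hψ⟩ := hH φ
    have h1 := hu.pos ψ
    have h2 := hu.pos ψ'
    rw [(hψ u).1] at h1
    rw [(hψ u).2] at h2
    constructor
    · show 0 < φ (tx.cx u)
      linarith
    · show 0 < φ (tx.nn u)
      rw [hC.nn_eq]
      have h3 := mul_pos h1 h2
      have h4 : Real.sqrt (φ (tx.X.a : k)) ^ 2 = φ (tx.X.a : k) := Real.sq_sqrt ha.le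
      have e : (φ (tx.cx u) + φ (tx.cy u) * Real.sqrt (φ (tx.X.a : k))) *
          (φ (tx.cx u) - φ (tx.cy u) * Real.sqrt (φ (tx.X.a : k))) =
          φ (tx.cx u ^ 2 - (tx.X.a : k) * tx.cy u ^ 2) := by
        simp only [map_sub, map_mul, map_pow]
        linear_combination (-(φ (tx.cy u)) ^ 2) * h4
      rwa [e] at h3

/-- local squares are not zero -/
theorem tdu_locP_ne {v : Pl k} {x : k} (h : LocP v x) : x ≠ 0 := by
  rcases v with P | φ
  · exact LocSq.ne_zero h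
  · have h1 : 0 < φ x := h
    rintro rfl
    rw [map_zero] at h1
    exact lt_irrefl _ h1

/-- the symbol of a local square, on the left -/
theorem tdu_hvl {v : Pl k} {x y : k} (h : LocP v x) (hy : y ≠ 0) : hv v x y = 0 := by
  have hx := tdu_locP_ne h
  have h1 := ((Pool.Agent.H98.MF.B.lin k).nd v (Units.mk0 x hx)).2 h (Units.mk0 y hy)
  exact h1

/-- the symbol of a local square, on the right -/
theorem tdu_hvr {v : Pl k} {x y : k} (h : LocP v x) (hy : y ≠ 0) : hv v y x = 0 := by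
  have hx := tdu_locP_ne h
  have h1 := (Pool.Agent.H98.MF.B.lin k).symm v (Units.mk0 y hy) (Units.mk0 x hx)
  have h2 : hv v y x = hv v x y := h1
  rw [h2]
  exact tdu_hvl h hy

theorem td_U4 (_hC : SCo tx) (hM : SUm tx) (hL : SUl tx) : SUr tx := by
  intro N hN u v hu hv' nu nv
  unfold TX.RS
  refine Finset.sum_eq_zero fun w hw => ?_
  have l1 := (hL N hN u hu w hw).1
  have l2 := (hL N hN u hu w hw).2
  have l3 := (hL N hN v hv' w hw).1
  have l4 := (hL N hN (u * v) (hM N hN u v hu hv').1 w hw).1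
  have n1 := nu.1
  have n2 := nv.1
  have n3 := nv.2
  have n4 : tx.nn u ≠ 0 := tdu_locP_ne l2
  unfold TX.Rv
  rw [tdu_hvl l4 (mul_ne_zero (mul_ne_zero n1 n3) n4), tdu_hvl l1 n4,
    tdu_hvr l1 (neg_ne_zero.2 one_ne_zero), tdu_hvl l1 n3, tdu_hvl l3 n3]
  norm_num

end

end Pool.Agent.SKT
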