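import Pool.Agent.SKT.Stm

/-!
# Malle's conjecture for 8T8 over number fields, statement (TD): elements close to one (row U7)
-/

set_option autoImplicit false

open scoped BigOperators
open NumberField IsDedekindDomain

namespace Pool.Agent.SKT

open Pool.Agent.H98.MF
open Pool.Agent.H32.MQ

section

variable {k : Type} [Field k] [NumberField k] {Fr : Frm k} {L : Type} [Field L]
  [NumberField L] [Algebra k L] (tx : TX Fr L)

private theorem u7_le {e t s : ℤ} (he : 1 ≤ e) (h : e * s ≤ e * t) : s ≤ t :=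
  le_of_mul_le_mul_left h (by omega)

/-- U7: elements close to one at the primes of `L` above the frame -/
theorem td_U7 (hC : SCo tx) : SNr tx := by
  classical
  intro N
  have hex : ∀ P : HeightOneSpectrum (𝓞 k), ∃ Q : HeightOneSpectrum (𝓞 L), Over P Q :=
    fun P => exists_over P
  choose q hq using hex
  set e : HeightOneSpectrum (𝓞 k) → ℤ :=
    fun P => ((P.asIdeal.ramificationIdx' (q P).asIdeal : ℕ) : ℤ) with he
  have he1 : ∀ P, 1 ≤ e P := fun P => by
    have := (hq P).ram_pos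
    simp only [he]
    exact_mod_cast this
  have hmap : ∀ P (x : k), ord (q P) (algebraMap k L x) = e P * ord P x :=
    fun P x => (hq P).ord_map x
  set f : HeightOneSpectrum (𝓞 k) → ℕ := fun P =>
    (e P * (|N| + |ord P (2 : k)|) + |ord (q P) tx.X.α|).toNat with hf
  refine ⟨∑ P ∈ Fr.S, f P, fun u hu hpos => ?_⟩
  have hα0 : tx.X.α ≠ 0 := by
    intro h
    have h1 := tx.X.qe.sq
    rw [h, zero_pow two_ne_zero] at h1
    exact tx.X.a.ne_zero ((map_eq_zero (algebraMap k L)).1 h1.symm)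
  have hn : ∀ P ∈ Fr.S, e P * (|N| + |ord P (2 : k)|) + |ord (q P) tx.X.α| ≤
      ((∑ P ∈ Fr.S, f P : ℕ) : ℤ) := by
    intro P hP
    have h1 : f P ≤ ∑ P ∈ Fr.S, f P := Finset.single_le_sum (fun _ _ => Nat.zero_le _) hP
    have h2 : e P * (|N| + |ord P (2 : k)|) + |ord (q P) tx.X.α| ≤ (f P : ℤ) :=
      Int.self_le_toNat _
    exact h2.trans (by exact_mod_cast h1)
  have hA : u = algebraMap k L (tx.cx u) + algebraMap k L (tx.cy u) * tx.X.α := hC.repr u
  have hB : tx.X.sig u = algebraMap k L (tx.cx u) - algebraMap k L (tx.cy u) * tx.X.α := by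
    conv_lhs => rw [hA]
    rw [map_add, map_mul, AlgEquiv.commutes, AlgEquiv.commutes, tx.X.sig_α]
    ring
  -- both conjugates are small at the chosen primes
  have hv : ∀ P ∈ Fr.S, (u - 1 = 0 ∨ ((∑ P ∈ Fr.S, f P : ℕ) : ℤ) ≤ ord (q P) (u - 1)) ∧
      (tx.X.sig u - 1 = 0 ∨ ((∑ P ∈ Fr.S, f P : ℕ) : ℤ) ≤ ord (q P) (tx.X.sig u - 1)) := by
    intro P hP
    have h1 : q P ∈ tx.FL.S := (tx.hF (q P)).2 ⟨P, hP, hq P⟩
    have h2 : cj tx.X.sig (q P) ∈ tx.FL.S :=
      (tx.hF _).2 ⟨P, hP, (hq P).cj tx.X.sig⟩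
    constructor
    · rcases hu _ h1 with h | h
      · exact Or.inl (sub_eq_zero.2 h)
      · exact Or.inr h
    · rcases hu _ h2 with h | h
      · left
        rw [h, map_one, sub_self]
      · right
        rw [ord_cj, map_sub, map_one] at h
        exact h
  refine ⟨fun P hP => ?_, fun P hP => ?_, hpos⟩
  · by_cases h0 : tx.cx u - 1 = 0
    · exact Or.inl (sub_eq_zero.1 h0)
    right
    have h1 := le_ord_add (q P) _ (hv P hP).1 (hv P hP).2
    have h2 : u - 1 + (tx.X.sig u - 1) = algebraMap k L (2 * (tx.cx u - 1)) := by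
      rw [hB, map_mul, map_sub, map_ofNat, map_one]
      linear_combination hA
    rw [h2] at h1
    have h3 : (2 : k) * (tx.cx u - 1) ≠ 0 := mul_ne_zero two_ne_zero h0
    have h4 := h1.resolve_left (fun h => h3 ((map_eq_zero (algebraMap k L)).1 h))
    rw [hmap, ord_mul P two_ne_zero h0] at h4
    have h5 := (hn P hP).trans h4
    have h6 := abs_nonneg (ord (q P) tx.X.α)
    have h7 := u7_le (he1 P) (by linarith :
      e P * (|N| + |ord P (2 : k)|) ≤ e P * (ord P (2 : k) + ord P (tx.cx u - 1)))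
    have h8 := le_abs_self N
    have h9 := le_abs_self (ord P (2 : k))
    linarith
  · by_cases h0 : tx.cy u = 0
    · exact Or.inl h0
    right
    rw [sub_zero]
    have hneg : -(tx.X.sig u - 1) = 0 ∨
        ((∑ P ∈ Fr.S, f P : ℕ) : ℤ) ≤ ord (q P) (-(tx.X.sig u - 1)) := by
      rw [ord_neg, neg_eq_zero]
      exact (hv P hP).2
    have h1 := le_ord_add (q P) _ (hv P hP).1 hneg
    have h2 : u - 1 + -(tx.X.sig u - 1) = algebraMap k L (2 * tx.cy u) * tx.X.α := by
      rw [hB, map_mul, map_ofNat]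
      linear_combination hA
    rw [h2] at h1
    have h3 : (2 : k) * tx.cy u ≠ 0 := mul_ne_zero two_ne_zero h0
    have h3' : algebraMap k L (2 * tx.cy u) ≠ 0 := fun h =>
      h3 ((map_eq_zero (algebraMap k L)).1 h)
    have h4 := h1.resolve_left (mul_ne_zero h3' hα0)
    rw [ord_mul _ h3' hα0, hmap, ord_mul P two_ne_zero h0] at h4
    have h5 := (hn P hP).trans h4
    have h6 := le_abs_self (ord (q P) tx.X.α)
    have h7 := u7_le (he1 P) (by linarith :
      e P * (|N| + |ord P (2 : k)|) ≤ e P * (ord P (2 : k) + ord P (tx.cy u)))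
    have h8 := le_abs_self N
    have h9 := le_abs_self (ord P (2 : k))
    linarith

end

end Pool.Agent.SKT
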