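import Pool.Agent.SKT.Stm

/-!
# Malle's conjecture for 8T8 over number fields, (TD), row U8: admissible elements exist
-/

set_option autoImplicit false

open scoped BigOperators
open NumberField IsDedekindDomain

namespace Pool.Agent.SKT

open Pool.Agent.H98.MF
open Pool.Agent.H32.MQ

section

variable {K : Type} [Field K] [NumberField K] (P : HeightOneSpectrum (𝓞 K))

private theorem u8_nr {n : ℤ} {x c : K} : Nr P n x c ↔ x - c = 0 ∨ n ≤ ord P (x - c) := by
  unfold Nr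
  rw [sub_eq_zero]

private theorem u8_zmul {n m : ℤ} {a b : K} (ha : a = 0 ∨ n ≤ ord P a)
    (hb : b = 0 ∨ m ≤ ord P b) : a * b = 0 ∨ n + m ≤ ord P (a * b) := by
  by_cases ha0 : a = 0
  · left
    rw [ha0, zero_mul]
  by_cases hb0 : b = 0
  · left
    rw [hb0, mul_zero]
  right
  rw [ord_mul P ha0 hb0]
  exact add_le_add (ha.resolve_left ha0) (hb.resolve_left hb0)

private theorem u8_int {n : ℤ} (hn : 0 ≤ n) {y : K} (hy : Nr P n y 1) :
    y = 0 ∨ 0 ≤ ord P y := by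
  have h1 := (u8_nr P).1 hy
  have h2 : (1 : K) = 0 ∨ (0 : ℤ) ≤ ord P (1 : K) := Or.inr (by rw [ord_one])
  have h3 := le_ord_add P 0 (h1.imp_right fun h => hn.trans h) h2
  rwa [sub_add_cancel] at h3

private theorem u8_mul {n : ℤ} (hn : 0 ≤ n) {x y : K} (hx : Nr P n x 1) (hy : Nr P n y 1) :
    Nr P n (x * y) 1 := by
  rw [u8_nr]
  have h1 := u8_zmul P ((u8_nr P).1 hx) (u8_int P hn hy)
  rw [add_zero] at h1
  have h2 := le_ord_add P n h1 ((u8_nr P).1 hy)
  have h3 : (x - 1) * y + (y - 1) = x * y - 1 := by ring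
  rwa [h3] at h2

private theorem u8_mono {n m : ℤ} (h : n ≤ m) {x c : K} (hx : Nr P m x c) : Nr P n x c :=
  hx.imp_right fun h1 => h.trans h1

/-- elements close to one are units -/
private theorem u8_unit {n : ℤ} (hn : 1 ≤ n) {y : K} (hy : Nr P n y 1) : ord P y = 0 := by
  have h1 := (u8_nr P).1 hy
  have h2 := (ord_add_eq P (a := (1 : K)) (b := y - 1) one_ne_zero
    (h1.imp_right fun h => by rw [ord_one]; linarith)).2
  rwa [add_sub_cancel, ord_one] at h2

end

/-- row U8 -/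
theorem td_U8 {k : Type} [Field k] [NumberField k] {Fr : Frm k} {L : Type} [Field L]
    [NumberField L] [Algebra k L] (tx : TX Fr L) (hC : SCo tx) (hA : SApx tx) (hN : SNr tx) :
    SAdz tx := by
  classical
  have _ := hC
  intro N Ps l hl W m
  obtain ⟨n, hn⟩ := hN N
  -- approximate square roots of `l` at the frame
  have hsq : ∀ Q : HeightOneSpectrum (𝓞 L), ∃ c : Lˣ, Q ∈ tx.FL.S →
      Nr Q ((n + 1 : ℕ) : ℤ) ((l * c ^ 2 : Lˣ) : L) 1 := by
    intro Q
    by_cases hQ : Q ∈ tx.FL.S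
    · have h1 : LocSq Q (l : L) := hl.sq (Sum.inl Q) (B.inl_mem_pls.2 hQ)
      obtain ⟨c, hc⟩ := h1 (n + 1)
      have hc0 : c ≠ 0 := by
        rintro rfl
        have h2 : (l : L) * (0 : L) ^ 2 = 0 := by ring
        rw [h2] at hc
        rcases hc with hc | hc
        · exact zero_ne_one hc
        · rw [zero_sub, ord_neg, ord_one] at hc
          push_cast at hc
          linarith [(Nat.cast_nonneg n : (0 : ℤ) ≤ (n : ℤ))]
      refine ⟨Units.mk0 c hc0, fun _ => ?_⟩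
      exact hc
    · exact ⟨1, fun h => absurd h hQ⟩
  choose c hc using hsq
  -- the exceptional primes outside the frame
  have hfin : {Q : HeightOneSpectrum (𝓞 L) | ∃ p : Fr.sys.P,
      (p ∈ W ∨ ¬ tx.Un p (l : L)) ∧ Over (Fr.pl p) Q}.Finite := by
    have h1 : {p : Fr.sys.P | ¬ tx.Un p (l : L)}.Finite := by
      have h2 : {Q : HeightOneSpectrum (𝓞 L) | ord Q (l : L) ≠ 0}.Finite :=
        ord_finite l.ne_zero
      have h3 : {p : Fr.sys.P | ¬ tx.Un p (l : L)} ⊆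
          ⋃ Q ∈ {Q : HeightOneSpectrum (𝓞 L) | ord Q (l : L) ≠ 0},
            {p : Fr.sys.P | Over (Fr.pl p) Q} := by
        intro p hp
        have hp1 : ¬ ∀ Q : HeightOneSpectrum (𝓞 L), Over (Fr.pl p) Q → ord Q (l : L) = 0 := hp
        push Not at hp1
        obtain ⟨Q, hQ1, hQ2⟩ := hp1
        exact Set.mem_biUnion hQ2 hQ1
      refine (h2.biUnion fun Q _ => ?_).subset h3
      exact Set.Subsingleton.finite fun p hp q hq => HX.over_inj hp hq
    have h4 : {Q : HeightOneSpectrum (𝓞 L) | ∃ p : Fr.sys.P,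
        (p ∈ W ∨ ¬ tx.Un p (l : L)) ∧ Over (Fr.pl p) Q} ⊆
        ⋃ p ∈ (↑W ∪ {p : Fr.sys.P | ¬ tx.Un p (l : L)} : Set Fr.sys.P),
          {Q : HeightOneSpectrum (𝓞 L) | Over (Fr.pl p) Q} := by
      rintro Q ⟨p, hp, hQ⟩
      exact Set.mem_biUnion hp hQ
    exact ((W.finite_toSet.union h1).biUnion fun p _ => B.c3c_above_finite (L := L) (Fr.pl p)).subset h4
  set T : Finset (HeightOneSpectrum (𝓞 L)) := tx.FL.S ∪ hfin.toFinset with hT
  obtain ⟨z, hz1, hz2, hz3⟩ := hA T (fun Q => if Q ∈ tx.FL.S then c Q else 1) (n + 1)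
    (fun _ => True) (insert l m)
  have hz4 : ∀ ψ : L →+* ℝ, 0 < ψ (z : L) := fun ψ => (hz2 ψ).2 trivial
  have hun : ∀ p : Fr.sys.P, (p ∈ W ∨ ¬ tx.Un p (l : L)) → tx.Un p (z : L) := by
    intro p hp Q hQ
    have h1 : Q ∉ tx.FL.S := qf_notMem tx.FL tx.hF hQ
    have h2 := hz1 Q (Finset.mem_union_right _ (hfin.mem_toFinset.2 ⟨p, hp, hQ⟩))
    simp only [if_neg h1, div_one] at h2
    refine u8_unit Q ?_ h2
    push_cast
    linarith [(Nat.cast_nonneg n : (0 : ℤ) ≤ (n : ℤ))]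
  refine ⟨z, ⟨?_, fun p hp => hun p (Or.inr hp), ?_⟩, fun p hp => hun p (Or.inl hp),
    fun u hu => hz3 u (Finset.mem_insert_of_mem hu)⟩
  · refine hn _ (fun Q hQ => ?_) fun ψ => ?_
    · have h1 := hc Q hQ
      have h2 := hz1 Q (Finset.mem_union_left _ hQ)
      simp only [if_pos hQ] at h2
      have h0 : (0 : ℤ) ≤ ((n + 1 : ℕ) : ℤ) := Nat.cast_nonneg _
      have h3 := u8_mul Q h0 h1 (u8_mul Q h0 h2 h2)
      have h4 : ((l * z ^ 2 : Lˣ) : L) = ((l * c Q ^ 2 : Lˣ) : L) *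
          (((z / c Q : Lˣ) : L) * ((z / c Q : Lˣ) : L)) := by
        rw [← Units.val_mul, ← Units.val_mul]
        congr 1
        rw [div_eq_mul_inv, pow_two, pow_two]
        have h5 : l * (c Q * c Q) * (z * (c Q)⁻¹ * (z * (c Q)⁻¹)) =
            l * (z * z) * (c Q * (c Q)⁻¹) * (c Q * (c Q)⁻¹) := by
          simp only [mul_assoc, mul_left_comm, mul_comm]
        rw [h5, mul_inv_cancel, mul_one, mul_one]
      rw [← h4] at h3
      exact u8_mono Q (by push_cast; linarith) h3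
    · have h1 : 0 < ψ (l : L) := hl.sq (Sum.inr ψ) (B.inr_mem_pls _ _)
      rw [Units.val_mul, Units.val_pow_eq_pow_val, map_mul, map_pow]
      exact mul_pos h1 (pow_pos (hz4 ψ) 2)
  · exact (hz3 l (Finset.mem_insert_self _ _)).2

end Pool.Agent.SKT
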