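import Pool.Agent.SKT.Stm
import Pool.Agent.H98.MF.C.Main

/-!
# Malle's conjecture for 8T8 over number fields, part (TD), row U5: the symbol of a square close
to one
-/

set_option autoImplicit false

open scoped BigOperators
open NumberField IsDedekindDomain

namespace Pool.Agent.SKT

open Pool.Agent.H98.MF
open Pool.Agent.H32.MQ

section

variable {K : Type} [Field K] [NumberField K]

theorem us_two (P : HeightOneSpectrum (𝓞 K)) : 0 ≤ ord P (2 : K) := by
  have e0 : ((2 : 𝓞 K) : K) = 2 := map_ofNat (algebraMap (𝓞 K) K) 2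
  have h1 := ord_int_nonneg P (2 : 𝓞 K)
  rwa [e0] at h1

theorem us_neg (P : HeightOneSpectrum (𝓞 K)) {x : K} {n : ℤ} (h : x = 0 ∨ n ≤ ord P x) :
    -x = 0 ∨ n ≤ ord P (-x) := by
  rw [ord_neg, neg_eq_zero]
  exact h

theorem us_four (P : HeightOneSpectrum (𝓞 K)) :
    ((4 : K)⁻¹ : K) = 0 ∨ -(2 * ord P (2 : K)) ≤ ord P ((4 : K)⁻¹) := by
  right
  have e3 : (4 : K) = 2 ^ 2 := by norm_num
  rw [ord_inv, e3, ord_pow]
  push_cast
  exact le_refl _

/-- there is a prime above two -/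
theorem us_prime (K : Type) [Field K] [NumberField K] :
    ∃ P : HeightOneSpectrum (𝓞 K), 0 < ord P (2 : K) := by
  have h1 : ¬ IsUnit (2 : 𝓞 K) := by
    intro h
    have h2 : IsUnit (Algebra.norm ℤ (2 : 𝓞 K)) := h.map (Algebra.norm ℤ)
    have h3 : (2 : 𝓞 K) = algebraMap ℤ (𝓞 K) 2 := by simp
    rw [h3, Algebra.norm_algebraMap, isUnit_pow_iff Module.finrank_pos.ne', Int.isUnit_iff] at h2
    omega
  obtain ⟨M, hM, h2⟩ := exists_max_ideal_of_mem_nonunits (show (2 : 𝓞 K) ∈ nonunits (𝓞 K) from h1)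
  have h20 : (2 : 𝓞 K) ≠ 0 := two_ne_zero
  refine ⟨⟨M, hM.isPrime, fun h => h20 (by rw [h] at h2; exact h2)⟩, ?_⟩
  have h3 := (le_ord_iff ⟨M, hM.isPrime, fun h => h20 (by rw [h] at h2; exact h2)⟩
    (2 : 𝓞 K) 1).2 (by rw [pow_one]; exact h2)
  have e0 : ((2 : 𝓞 K) : K) = 2 := map_ofNat (algebraMap (𝓞 K) K) 2
  rcases h3 with h3 | h3
  · exact absurd h3 h20
  · rw [e0] at h3
    push_cast at h3
    omega

/-- `x ^ 2` and `a y ^ 2` with sum close to one and small product -/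
theorem us_loc (P : HeightOneSpectrum (𝓞 K)) (a x y : K) (N : ℤ) (ha : a ≠ 0) (hx : x ≠ 0)
    (hy : y ≠ 0) (hN : 20 * (ord P (2 : K) + |ord P a| + 1) ≤ N)
    (h1 : x ^ 2 + a * y ^ 2 = 1 ∨ N ≤ ord P (x ^ 2 + a * y ^ 2 - 1))
    (h2 : 2 * x * y = 0 ∨ N ≤ ord P (2 * x * y)) :
    LocSq P a ∨ LocSq P x ∨ LocSq P (-x) := by
  have he := us_two (K := K) P
  have hA := abs_nonneg (ord P a)
  have hA1 := neg_abs_le (ord P a)
  have hs0 : x ^ 2 ≠ 0 := pow_ne_zero 2 hx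
  have ht0 : a * y ^ 2 ≠ 0 := mul_ne_zero ha (pow_ne_zero 2 hy)
  obtain ⟨hst0, hst⟩ := sqr_unit P (by omega) h1
  have h1' := (sqr_iff P _ N).1 h1
  -- the product is small
  have h3 : x ^ 2 * (a * y ^ 2) = 0 ∨ ord P a + (N + N) + -(2 * ord P (2 : K)) ≤
      ord P (x ^ 2 * (a * y ^ 2)) := by
    have h4 := sqr_prod P (sqr_prod P (Or.inr (le_refl (ord P a)) : a = 0 ∨ _)
      (sqr_prod P h2 h2)) (us_four P)
    have h5 : a * (2 * x * y * (2 * x * y)) * (4 : K)⁻¹ = x ^ 2 * (a * y ^ 2) := by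
      field_simp
      ring
    rw [h5] at h4
    exact h4
  have h6 : N ≤ ord P (x ^ 2) + ord P (a * y ^ 2) := by
    rcases h3 with h3 | h3
    · exact absurd h3 (mul_ne_zero hs0 ht0)
    · rw [ord_mul P hs0 ht0] at h3
      omega
  rcases lt_trichotomy (ord P (x ^ 2)) (ord P (a * y ^ 2)) with h7 | h7 | h7
  · right
    obtain ⟨-, h8⟩ := ord_add_eq P hs0 (Or.inr h7 : a * y ^ 2 = 0 ∨ _)
    rw [hst] at h8
    have h9 : x ^ 2 - 1 = 0 ∨ N ≤ ord P (x ^ 2 - 1) := by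
      have h10 := le_ord_add P N h1' (us_neg P (Or.inr (by omega) :
        a * y ^ 2 = 0 ∨ N ≤ ord P (a * y ^ 2)))
      have h11 : x ^ 2 + a * y ^ 2 - 1 + -(a * y ^ 2) = x ^ 2 - 1 := by ring
      rw [h11] at h10
      exact h10
    by_cases hx1 : x = 1
    · left
      rw [hx1]
      exact locSq_of_prec P 1 (Or.inl (by ring))
    by_cases hx2 : x = -1
    · right
      rw [hx2]
      exact locSq_of_prec P 1 (Or.inl (by ring))
    have hm : x - 1 ≠ 0 := sub_ne_zero.2 hx1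
    have hp : x + 1 ≠ 0 := fun h => hx2 (eq_neg_of_add_eq_zero_left h)
    have h12 : N ≤ ord P (x - 1) + ord P (x + 1) := by
      have h13 : x ^ 2 - 1 = (x - 1) * (x + 1) := by ring
      rw [h13, ord_mul P hm hp] at h9
      rcases h9 with h9 | h9
      · exact absurd h9 (mul_ne_zero hm hp)
      · exact h9
    by_cases h14 : 2 * ord P (2 : K) + 1 ≤ ord P (x - 1)
    · left
      refine locSq_of_prec P 1 (Or.inr ?_)
      rw [one_pow, mul_one]
      exact h14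
    by_cases h15 : 2 * ord P (2 : K) + 1 ≤ ord P (x + 1)
    · right
      refine locSq_of_prec P 1 (Or.inr ?_)
      have h16 : -x * 1 ^ 2 - 1 = -(x + 1) := by ring
      rw [h16, ord_neg]
      exact h15
    exfalso
    omega
  · exfalso
    have h8 := le_ord_add P 1 (Or.inr (by omega) : x ^ 2 = 0 ∨ 1 ≤ ord P (x ^ 2))
      (Or.inr (by omega) : a * y ^ 2 = 0 ∨ 1 ≤ ord P (a * y ^ 2))
    rcases h8 with h8 | h8
    · exact hst0 h8
    · omega
  · left
    obtain ⟨-, h8⟩ := ord_add_eq P ht0 (Or.inr h7 : x ^ 2 = 0 ∨ _)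
    rw [add_comm, hst] at h8
    have h9 : a * y ^ 2 - 1 = 0 ∨ N ≤ ord P (a * y ^ 2 - 1) := by
      have h10 := le_ord_add P N h1' (us_neg P (Or.inr (by omega) :
        x ^ 2 = 0 ∨ N ≤ ord P (x ^ 2)))
      have h11 : x ^ 2 + a * y ^ 2 - 1 + -(x ^ 2) = a * y ^ 2 - 1 := by ring
      rw [h11] at h10
      exact h10
    refine locSq_of_prec P y ?_
    rcases h9 with h9 | h9
    · exact Or.inl (sub_eq_zero.1 h9)
    · exact Or.inr (by omega)

end

/-- U5: the symbol of a square close to one vanishes -/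
theorem sUs {k : Type} [Field k] [NumberField k] {Fr : Frm k} {L : Type} [Field L]
    [NumberField L] [Algebra k L] (tx : TX Fr L) (h0 : SCo tx) (hG : SSqG tx) (hl : SUl tx)
    (hR : SRe tx) : SUs tx := by
  intro N hN w hw hnz
  have ha : (tx.X.a : k) ≠ 0 := tx.X.a.ne_zero
  have hX : tx.cx (w ^ 2) = tx.cx w ^ 2 + (tx.X.a : k) * tx.cy w ^ 2 := by
    rw [pow_two w, h0.cx_mul]; ring
  have hY : tx.cy (w ^ 2) = 2 * tx.cx w * tx.cy w := by
    rw [pow_two w, h0.cy_mul]; ring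
  have hY0 : tx.cy (w ^ 2) ≠ 0 := by
    rw [hY]
    exact mul_ne_zero (mul_ne_zero two_ne_zero hnz.1) hnz.2
  obtain ⟨P0, hP0⟩ : Fr.S.Nonempty := by
    obtain ⟨P, hP⟩ := us_prime k
    exact ⟨P, Fr.adm.two P hP⟩
  have hX0 : tx.cx (w ^ 2) ≠ 0 := by
    have h1 := hw.x P0 hP0
    exact (sqr_unit P0 (by
      have h2 := hN P0 hP0
      have h3 := us_two (K := k) P0
      have h4 := abs_nonneg (ord P0 (tx.X.a : k))
      omega) h1).1
  rw [hG w hnz hX0]
  refine Finset.sum_eq_zero fun v hv' => ?_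
  have hz2 : hv v (tx.cx (w ^ 2)) (tx.cy (w ^ 2)) = 0 := by
    have h1 := (hl N hN _ hw v hv').1
    have h2 := ((B.lin k).nd v (Units.mk0 _ hX0)).2 h1 (Units.mk0 _ hY0)
    exact h2
  rw [hz2, add_zero]
  cases v with
  | inr φ =>
    have h1 : LocP (Sum.inr φ : Pl k) (tx.X.a : k) := (hR φ).1
    exact ((B.lin k).nd (Sum.inr φ) tx.X.a).2 h1 (Units.mk0 _ hnz.1)
  | inl P =>
    have hP : P ∈ Fr.S := by
      unfold pls at hv'
      exact Finset.inl_mem_disjSum.1 hv'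
    have h1 := hw.x P hP
    have h2 := hw.y P hP
    rw [hX] at h1
    rw [hY] at h2
    have h3 : 2 * tx.cx w * tx.cy w = 0 ∨ N ≤ ord P (2 * tx.cx w * tx.cy w) := by
      rcases h2 with h2 | h2
      · exact Or.inl h2
      · rw [sub_zero] at h2
        exact Or.inr h2
    rcases us_loc P (tx.X.a : k) (tx.cx w) (tx.cy w) N ha hnz.1 hnz.2 (hN P hP) h1 h3 with
      h4 | h4 | h4
    · exact ((B.lin k).nd (Sum.inl P) tx.X.a).2 h4 (Units.mk0 _ hnz.1)
    · have h5 := ((B.lin k).nd (Sum.inl P) (Units.mk0 _ hnz.1)).2 h4 tx.X.a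
      rw [(B.lin k).symm] at h5
      exact h5
    · have hmx : -tx.cx w ≠ 0 := neg_ne_zero.2 hnz.1
      have h5 := ((B.lin k).nd (Sum.inl P) (Units.mk0 _ hmx)).2 h4 tx.X.a
      rw [(B.lin k).symm] at h5
      have h6 := (B.lin k).mulR (Sum.inl P) tx.X.a (-1 : kˣ) (Units.mk0 _ hmx)
      have h7 : (((-1 : kˣ) * Units.mk0 _ hmx : kˣ) : k) = tx.cx w := by
        rw [Units.val_mul, Units.val_neg, Units.val_one, Units.val_mk0]; ring
      have h8 : (((-1 : kˣ) : k)) = -1 := by rw [Units.val_neg, Units.val_one]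
      rw [h7, h5, h8, tx.neg, add_zero] at h6
      exact h6

end Pool.Agent.SKT
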