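import Pool.Agent.SKT.C1
import Pool.Agent.SKT.C2
import Pool.Agent.SKT.C3a
import Pool.Agent.SKT.C3b
import Pool.Agent.SKT.C3c
import Pool.Agent.SKT.C4
import Pool.Agent.SKT.C5
import Pool.Agent.SKT.Rc
import Pool.Agent.SKT.C7
import Pool.Agent.SKT.SqG
import Pool.Agent.SKT.U1
import Pool.Agent.SKT.Us
import Pool.Agent.SKT.Apx
import Pool.Agent.SKT.U7
import Pool.Agent.SKT.U8
import Pool.Agent.SKT.B0
import Pool.Agent.SKT.B1
import Pool.Agent.SKT.B2
import Pool.Agent.SKT.B3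
import Pool.Agent.SKT.H1
import Pool.Agent.SKT.H2
import Pool.Agent.SKT.H4

/-!
# Malle's conjecture for 8T8 over number fields: the statement (TD), the additive calculus
(assembly)
-/

set_option autoImplicit false

open NumberField IsDedekindDomain

namespace Pool.Agent.SKT

open Pool.Agent.H98.MF

section

variable {k : Type} [Field k] [NumberField k] {Fr : Frm k} {L : Type} [Field L]
  [NumberField L] [Algebra k L] (tx : TX Fr L)

theorem m_co : SCo tx := td_C1 tx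

theorem m_jj : SJj tx := td_C2 tx (m_co tx)

theorem m_tm : STm tx := td_C3c tx (m_co tx) (m_jj tx) (td_C3b k) (td_C3a tx (m_co tx) (m_jj tx))

theorem m_sq : SSq tx := td_C4 tx (m_co tx)

theorem m_ft : SFt tx := td_C5 tx (m_co tx) (m_jj tx)

theorem m_tmG : STmG tx := td_C7 tx (m_co tx) (m_tm tx) (m_ft tx) (sRc Fr)

theorem m_sqG : SSqG tx := sSqG tx (m_co tx) (m_sq tx) (sRc Fr)

theorem m_big : SBig tx := td_U1 tx

theorem m_um : SUm tx := td_U2 tx (m_co tx)

theorem m_re : SRe tx := td_H3 tx (m_co tx)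

theorem m_ul : SUl tx := td_U3 tx (m_co tx) (m_re tx)

theorem m_ur : SUr tx := td_U4 tx (m_co tx) (m_um tx) (m_ul tx)

theorem m_us : SUs tx := sUs tx (m_co tx) (m_sqG tx) (m_ul tx) (m_re tx)

theorem m_apx : SApx tx := sApx tx (m_co tx)

theorem m_nr : SNr tx := td_U7 tx (m_co tx)

theorem m_adz : SAdz tx := td_U8 tx (m_co tx) (m_apx tx) (m_nr tx)

theorem m_ev : SEv tx := td_B0 tx (m_jj tx)

theorem m_bw : SBw tx := td_B1 tx (m_jj tx) (m_tmG tx) (m_ev tx) (m_um tx) (m_ur tx) (m_us tx)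
  (m_apx tx) (m_nr tx) (m_adz tx)

theorem m_og : SOg tx := td_B3 tx

theorem m_kg : SKg tx := td_B4 tx

theorem m_hf : SHf tx := td_H1 tx (m_co tx)

theorem m_hr : SHr tx := td_H2 tx (m_co tx) (m_re tx)

theorem m_ba : SBa tx := td_B2 tx (m_jj tx) (m_adz tx) (m_ev tx) (m_bw tx) (m_tmG tx) (m_um tx)
  (m_ur tx)

theorem m_hm : SHm tx := td_H4 tx (m_co tx) (m_jj tx) (m_tmG tx) (m_um tx) (m_ul tx) (m_us tx)
  (m_apx tx) (m_nr tx) (m_bw tx) (m_og tx) (m_hf tx) (m_hr tx)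

end

end Pool.Agent.SKT
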