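import Pool.Agent.SKT.PStm
import Pool.Agent.D8.ATh

/-!
# Malle's conjecture for 8T8 over number fields, (TD): homomorphisms attached to `u z ^ 2`
-/

set_option autoImplicit false

open scoped BigOperators
open NumberField IsDedekindDomain

namespace Pool.Agent.SKT

open Pool.Agent.H98.MF
open Pool.Agent.H32.MQ
open Pool.Agent.H32.MA (SD)
open Pool.Agent.D8 (IsTh so ath_z2 ath_so_zero ath_so_one ath_so_add ath_so_sq ath_so_inj
  ath_map_so ath_apply_sq ath_root)
open Pool.Agent.SK.TP (Att OutC Clo)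

section

variable {k : Type} [Field k] [NumberField k]

/-- the multiplication law of a second bit -/
theorem pat_hom {a b : kˣ} {x y : k} {f : Gm k → ZMod 2} (hab : (a : k) = x ^ 2 - b * y ^ 2)
    (hf : IsTh b x y f) (σ τ : Gm k) :
    f (σ * τ) = f σ + f τ + chi (a : k) σ * chi (b : k) τ := by
  obtain ⟨θ, θ', hθ, hθ', h0, h1⟩ := hf
  obtain ⟨s, hs⟩ : ∃ s : Om k, s = Pool.Agent.H98.MF.sq (b : k) := ⟨_, rfl⟩
  rw [← hs] at hθ hθ'
  have hs2 : s ^ 2 = algebraMap k (Om k) (b : k) := by rw [hs, sq_sq]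
  have hprod : (θ * θ') ^ 2 = algebraMap k (Om k) (a : k) := by
    rw [mul_pow, hθ, hθ', hab, map_sub, map_mul, map_pow, map_pow, ← hs2]
    ring
  have ha0 : algebraMap k (Om k) (a : k) ≠ 0 := by
    rw [Ne, map_eq_zero_iff _ (algebraMap k (Om k)).injective]
    exact a.ne_zero
  have hne : θ * θ' ≠ 0 := by
    intro h
    rw [h] at hprod
    apply ha0
    rw [← hprod]
    ring
  have hθ0 : θ ≠ 0 := left_ne_zero_of_mul hne
  have hθ'0 : θ' ≠ 0 := right_ne_zero_of_mul hne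
  obtain ⟨T, hT⟩ : ∃ T : ZMod 2 → Om k, T = fun c => if c = 0 then θ else θ' := ⟨_, rfl⟩
  have hT0 : T 0 = θ := by rw [hT]; exact if_pos rfl
  have hT1 : T 1 = θ' := by rw [hT]; exact if_neg (by decide)
  have hTne : ∀ c, T c ≠ 0 := by
    intro c
    rcases ath_z2 c with rfl | rfl
    · rw [hT0]; exact hθ0
    · rw [hT1]; exact hθ'0
  have hfT : ∀ σ : Gm k, σ θ = so (f σ) * T (chi (b : k) σ) := by
    intro σ
    rcases ath_z2 (chi (b : k) σ) with h | h
    · rw [h, hT0, h0 σ h]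
    · rw [h, hT1, h1 σ h]
  have hfT' : ∀ σ : Gm k, σ θ' = so (chi (a : k) σ + f σ) * T (chi (b : k) σ + 1) := by
    intro σ
    have h1 := ath_root a (θ * θ') hprod σ
    rw [map_mul, hfT σ] at h1
    have h2 : T (chi (b : k) σ) * T (chi (b : k) σ + 1) = θ * θ' := by
      have h11 : (1 : ZMod 2) + 1 = 0 := by decide
      rcases ath_z2 (chi (b : k) σ) with h | h
      · rw [h, zero_add, hT0, hT1]
      · rw [h, h11, hT0, hT1, mul_comm]
    apply mul_left_cancel₀ (hTne (chi (b : k) σ))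
    have h3 : T (chi (b : k) σ) * σ θ' = so (f σ) * (so (f σ) * T (chi (b : k) σ) * σ θ') := by
      rw [← mul_assoc, ← mul_assoc, ath_so_sq, one_mul]
    rw [h3, h1, ath_so_add, ← h2]
    ring
  have h0 := hfT (σ * τ)
  rw [AlgEquiv.mul_apply, hfT τ, map_mul, ath_map_so, chi_hom] at h0
  rcases ath_z2 (chi (b : k) τ) with h | h
  · rw [h, hT0, hfT σ, add_zero, ← mul_assoc, ← ath_so_add] at h0
    rw [h, mul_zero, add_zero, ← ath_so_inj (mul_right_cancel₀ (hTne _) h0), add_comm]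
  · rw [h, hT1, hfT' σ, ← mul_assoc, ← ath_so_add] at h0
    rw [h, mul_one, ← ath_so_inj (mul_right_cancel₀ (hTne _) h0)]
    ring

/-- multiplication by a square -/
theorem pat_sq {a : kˣ} {x y A B : k} {f : Gm k → ZMod 2} (hf : IsTh a x y f) :
    IsTh a (x * (A * A + a * B * B) + a * y * (A * B + A * B))
      (x * (A * B + A * B) + (A * A + a * B * B) * y) f := by
  obtain ⟨θ, θ', hθ, hθ', h0, h1⟩ := hf
  have hs2 := sq_sq (a : k)
  have hσ : ∀ σ : Gm k, σ (Pool.Agent.H98.MF.sq (a : k)) =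
      so (chi (a : k) σ) * Pool.Agent.H98.MF.sq (a : k) := ath_apply_sq a
  refine ⟨θ * (algebraMap k (Om k) A + algebraMap k (Om k) B * Pool.Agent.H98.MF.sq (a : k)),
    θ' * (algebraMap k (Om k) A - algebraMap k (Om k) B * Pool.Agent.H98.MF.sq (a : k)),
    ?_, ?_, ?_, ?_⟩
  · rw [mul_pow, hθ]
    simp only [map_add, map_mul]
    linear_combination (algebraMap k (Om k) x * algebraMap k (Om k) B ^ 2 +
      2 * algebraMap k (Om k) y * algebraMap k (Om k) A * algebraMap k (Om k) B +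
      algebraMap k (Om k) y * algebraMap k (Om k) B ^ 2 * Pool.Agent.H98.MF.sq (a : k)) * hs2
  · rw [mul_pow, hθ']
    simp only [map_add, map_mul]
    linear_combination (algebraMap k (Om k) x * algebraMap k (Om k) B ^ 2 +
      2 * algebraMap k (Om k) y * algebraMap k (Om k) A * algebraMap k (Om k) B -
      algebraMap k (Om k) y * algebraMap k (Om k) B ^ 2 * Pool.Agent.H98.MF.sq (a : k)) * hs2
  · intro σ h
    rw [map_mul, h0 σ h, map_add, map_mul, AlgEquiv.commutes, AlgEquiv.commutes, hσ, h,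
      ath_so_zero]
    ring
  · intro σ h
    rw [map_mul, h1 σ h, map_add, map_mul, AlgEquiv.commutes, AlgEquiv.commutes, hσ, h,
      ath_so_one]
    ring

variable {Fr : Frm k} {L : Type} [Field L] [NumberField L] [Algebra k L] (tx : TX Fr L)

/-- P1: a homomorphism attached to `u` is attached to `u z ^ 2` -/
theorem sPAt (hC : SCo tx) : SPAt tx := by
  intro u z ρ hρ c n hc hn
  have e0 : ((u * z ^ 2 : Lˣ) : L) = (u : L) * ((z : L) * (z : L)) := by
    rw [Units.val_mul, Units.val_pow_eq_pow_val, pow_two]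
  have ex : tx.cx ((u * z ^ 2 : Lˣ) : L) =
      tx.cx (u : L) * (tx.cx (z : L) * tx.cx (z : L) + tx.X.a * tx.cy (z : L) * tx.cy (z : L)) +
      tx.X.a * tx.cy (u : L) *
        (tx.cx (z : L) * tx.cy (z : L) + tx.cx (z : L) * tx.cy (z : L)) := by
    rw [e0, hC.cx_mul, hC.cx_mul, hC.cy_mul]
  have ey : tx.cy ((u * z ^ 2 : Lˣ) : L) =
      tx.cx (u : L) * (tx.cx (z : L) * tx.cy (z : L) + tx.cx (z : L) * tx.cy (z : L)) +
      (tx.cx (z : L) * tx.cx (z : L) + tx.X.a * tx.cy (z : L) * tx.cy (z : L)) *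
        tx.cy (u : L) := by
    rw [e0, hC.cy_mul, hC.cx_mul, hC.cy_mul]
  have ec : (c : k) / 2 = tx.cx ((u * z ^ 2 : Lˣ) : L) := by
    rw [← hc, hC.tr, mul_div_cancel_left₀ _ (two_ne_zero)]
  have hN0 : tx.nn (u : L) ≠ 0 := hC.nn_ne _ u.ne_zero
  have hZ0 : tx.nn (z : L) ≠ 0 := hC.nn_ne _ z.ne_zero
  have en : (n : k) = tx.nn (u : L) * tx.nn (z : L) ^ 2 := by
    rw [← hn, e0, hC.nn_mul, hC.nn_mul, pow_two]
  have hchi : ∀ σ, chi (n : k) σ = chi (tx.nn (u : L)) σ := by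
    intro σ
    rw [en, chi_mul hN0 (pow_ne_zero 2 hZ0), chi_sq, add_zero]
  obtain ⟨τ, hτ⟩ : ∃ τ : Gm k, chi (tx.X.a : k) τ = 1 := by
    by_contra hcon
    apply B.qe_ns tx.X.qe
    apply chi_isSquare
    intro σ
    rcases ath_z2 (chi (tx.X.a : k) σ) with h | h
    · exact h
    · exact absurd ⟨σ, h⟩ hcon
  have hN : ((Units.mk0 _ hN0 : kˣ) : k) =
      tx.cx (u : L) ^ 2 - tx.X.a * tx.cy (u : L) ^ 2 := by
    rw [Units.val_mk0, hC.nn_eq]
  refine ⟨hρ.lc, ?_, hρ.pd, ?_, ?_⟩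
  · rw [ec, ← hn, hC.nn_eq]
  · intro σ
    have h1 := pat_hom hN hρ.pf σ τ
    rw [Units.val_mk0, hτ, mul_one] at h1
    have h2 := SD.pf_mul (ρ σ) (ρ τ)
    rw [← map_mul, hρ.pd τ, hρ.pd σ, hτ, mul_one, h1] at h2
    rw [hchi]
    have key : ∀ f1 f2 c1 a1 c2 : ZMod 2, f1 + f2 + c1 = f1 + f2 + (a1 + c2) →
        a1 = c2 + c1 := by decide
    exact key _ _ _ _ _ h2
  · rw [ec, ex, ey]
    exact pat_sq hρ.pf

end

end Pool.Agent.SKT
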