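import Pool.Agent.SKT.PStm
import Pool.Agent.SK.TC14
import Pool.Agent.SK.TC3

/-!
# Malle's conjecture for 8T8 over number fields, row TP18: close elements with the same first
coordinate
-/

set_option autoImplicit false

open scoped BigOperators
open NumberField IsDedekindDomain

namespace Pool.Agent.SKT

open Pool.Agent.H98.MF
open Pool.Agent.H32.MQ
open Pool.Agent.SK.TP (Clo)
open Pool.Agent.SK.TC (exists_bd ram_le_two)

section

variable {k : Type} [Field k] [NumberField k] {Fr : Frm k} {L : Type} [Field L]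
  [NumberField L] [Algebra k L] (tx : TX Fr L)

/-- TP18: close elements with the same first coordinate -/
theorem sPCl (hC : SCo tx) : SPCl tx := by
  intro b₂ B
  have hα0 : tx.X.α ≠ 0 := Pool.Agent.H98.MF.B.qe_ne_zero tx.X.qe
  obtain ⟨M, hM⟩ := exists_bd tx.FL.S fun Q => 2 * |B| - ord Q ((b₂ : L) / tx.X.α)
  refine ⟨M, fun b₁ hb hx P hP => ?_⟩
  by_cases hy : tx.cy (b₁ : L) = tx.cy (b₂ : L)
  · exact Or.inl hy
  right
  obtain ⟨Q, hQ⟩ := exists_over (L := L) P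
  have hQS : Q ∈ tx.FL.S := (tx.hF Q).2 ⟨P, hP, hQ⟩
  have h1 := hb Q hQS
  have e1 : algebraMap k L (tx.cy (b₁ : L) - tx.cy (b₂ : L)) =
      (b₂ : L) / tx.X.α * (((b₁ / b₂ : Lˣ) : L) - 1) := by
    have r1 := hC.repr (b₁ : L)
    have r2 := hC.repr (b₂ : L)
    rw [hx] at r1
    have h2 : (b₁ : L) - b₂ = algebraMap k L (tx.cy (b₁ : L) - tx.cy (b₂ : L)) * tx.X.α := by
      rw [map_sub]
      linear_combination r1 - r2
    have h3 := b₂.ne_zero
    rw [Units.val_div_eq_div_val]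
    field_simp
    rw [h2]
  have h2 : algebraMap k L (tx.cy (b₁ : L) - tx.cy (b₂ : L)) ≠ 0 := by
    rw [Ne, map_eq_zero]
    exact sub_ne_zero.2 hy
  have h3 : ((b₁ / b₂ : Lˣ) : L) - 1 ≠ 0 := by
    intro h
    rw [h, mul_zero] at e1
    exact h2 e1
  have h4 : (M : ℤ) ≤ ord Q (((b₁ / b₂ : Lˣ) : L) - 1) := by
    rcases h1 with h1 | h1
    · exact absurd (sub_eq_zero.2 h1) h3
    · exact h1
  have h5 : ord Q (algebraMap k L (tx.cy (b₁ : L) - tx.cy (b₂ : L))) =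
      ord Q ((b₂ : L) / tx.X.α) + ord Q (((b₁ / b₂ : Lˣ) : L) - 1) := by
    rw [e1, ord_mul Q (div_ne_zero b₂.ne_zero hα0) h3]
  have h6 := hM Q hQS
  rw [hQ.ord_map] at h5
  have h7 : (P.asIdeal.ramificationIdx' Q.asIdeal : ℤ) ≤ 2 := by
    exact_mod_cast ram_le_two tx.X.qe.deg hQ
  have h8 : (1 : ℤ) ≤ (P.asIdeal.ramificationIdx' Q.asIdeal : ℤ) := by exact_mod_cast hQ.ram_pos
  have h9 : 2 * |B| ≤ (P.asIdeal.ramificationIdx' Q.asIdeal : ℤ) *
      ord P (tx.cy (b₁ : L) - tx.cy (b₂ : L)) := by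
    rw [h5]
    linarith
  have h10 := abs_nonneg B
  have h11 := le_abs_self B
  by_contra h12
  rw [not_le] at h12
  have h13 : ord P (tx.cy (b₁ : L) - tx.cy (b₂ : L)) < |B| := lt_of_lt_of_le h12 h11
  rcases le_or_gt 0 (ord P (tx.cy (b₁ : L) - tx.cy (b₂ : L))) with h14 | h14
  · nlinarith
  · nlinarith

end

end Pool.Agent.SKT
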