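import Pool.Agent.SKT.PStm

/-!
# Malle's conjecture for 8T8 over number fields: the statement (TD), the comparison of two
homomorphisms in terms of the quadratic extension, the assembly
-/

set_option autoImplicit false

open scoped BigOperators
open NumberField IsDedekindDomain

namespace Pool.Agent.SKT

open Pool.Agent.H98.MF
open Pool.Agent.H98.MK (sg)
open Pool.Agent.H32.MQ
open Pool.Agent.H32.MA (SD)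
open Pool.Agent.D8 (RxF)
open Pool.Agent.SK.TP (Att OutC Clo)

section

variable {k : Type} [Field k] [NumberField k] {Fr : Frm k} {L : Type} [Field L]
  [NumberField L] [Algebra k L] (tx : TX Fr L)

theorem pd_cx (hC : SCo tx) {G : Finset Fr.sys.P} {c : kˣ} {u z : Lˣ} (h : CT tx G c u z) :
    tx.cx ((u * z ^ 2 : Lˣ) : L) = (c : k) / 2 := by
  have h1 := hC.tr ((u * z ^ 2 : Lˣ) : L)
  rw [h.tr] at h1
  rw [h1, mul_div_cancel_left₀ _ (two_ne_zero (α := k))]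

theorem pd_nz (hC : SCo tx) {G : Finset Fr.sys.P} {c : kˣ} {u z : Lˣ} (h : CT tx G c u z) :
    tx.Nz ((u * z ^ 2 : Lˣ) : L) := by
  refine ⟨?_, h.nz⟩
  rw [pd_cx tx hC h]
  exact div_ne_zero c.ne_zero two_ne_zero

theorem pd_tt (hC : SCo tx) (hF : SFt tx) {G : Finset Fr.sys.P} {c : kˣ} {u₁ z₁ u₂ z₂ : Lˣ}
    (h₁ : CT tx G c u₁ z₁) (h₂ : CT tx G c u₂ z₂) :
    ∑ᶠ p, (Pool.Agent.SK.TP.tp (Fr.pl p) tx.X.a ((c : k) / 2) (tx.cy ((u₁ * z₁ ^ 2 : Lˣ) : L)) +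
      Pool.Agent.SK.TP.tp (Fr.pl p) tx.X.a ((c : k) / 2) (tx.cy ((u₂ * z₂ ^ 2 : Lˣ) : L))) =
      tx.tt ((u₁ * z₁ ^ 2 : Lˣ) : L) + tx.tt ((u₂ * z₂ ^ 2 : Lˣ) : L) := by
  have e₁ : (fun p => Pool.Agent.SK.TP.tp (Fr.pl p) tx.X.a ((c : k) / 2)
      (tx.cy ((u₁ * z₁ ^ 2 : Lˣ) : L))) = fun p => tx.tp p ((u₁ * z₁ ^ 2 : Lˣ) : L) := by
    funext p
    rw [← pd_cx tx hC h₁]
    rfl
  have e₂ : (fun p => Pool.Agent.SK.TP.tp (Fr.pl p) tx.X.a ((c : k) / 2)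
      (tx.cy ((u₂ * z₂ ^ 2 : Lˣ) : L))) = fun p => tx.tp p ((u₂ * z₂ ^ 2 : Lˣ) : L) := by
    funext p
    rw [← pd_cx tx hC h₂]
    rfl
  have s₁ := hF.1 _ (pd_nz tx hC h₁)
  have s₂ := hF.1 _ (pd_nz tx hC h₂)
  unfold TX.tt
  rw [← finsum_add_distrib s₁ s₂]
  exact finsum_congr fun p => congrArg₂ (· + ·) (congrFun e₁ p) (congrFun e₂ p)

open Classical in
/-- **Row TP21.** -/
theorem sPD (hD : Pool.Agent.SK.TP.SpD k) (hC : SCo tx) (hF : SFt tx) (h1 : SPAt tx)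
    (h2 : SPCl tx) (h3 : SPRe tx) (h4 : SPOu tx) : SPD tx := by
  intro Rk t g₁ g₂ hg₁ hg₂ c z₂ hc hz₂
  have hnn : ∀ u : Lˣ, ∃ n : kˣ, tx.nn (u : L) = (n : k) := fun u =>
    ⟨Units.mk0 (tx.nn (u : L)) (hC.nn_ne _ u.ne_zero), rfl⟩
  obtain ⟨n₂, hn₂⟩ := hnn (tx.gm t g₂ * z₂ ^ 2)
  obtain ⟨B, hB⟩ := hD Fr Rk tx.X.a c n₂ (tx.cy ((tx.gm t g₂ * z₂ ^ 2 : Lˣ) : L))
  obtain ⟨M, hM⟩ := h2 (tx.gm t g₂ * z₂ ^ 2) B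
  refine ⟨M, ?_⟩
  intro z₁ hz₁ hnear hpos ρ₁ ρ₂ D hA₁ hA₂ hN₁ hN₂ hDD
  obtain ⟨n₁, hn₁⟩ := hnn (tx.gm t g₁ * z₁ ^ 2)
  obtain ⟨e, cv, hcv, hDe⟩ := hDD
  have hx₁ := pd_cx tx hC hz₁
  have hx₂ := pd_cx tx hC hz₂
  have hclo := hM (tx.gm t g₁ * z₁ ^ 2) hnear (hx₁.trans hx₂.symm)
  have hre := h3 (tx.gm t g₁ * z₁ ^ 2) (tx.gm t g₂ * z₂ ^ 2) hpos
  rw [hx₁, hx₂] at hre
  rw [hDe, ← pd_tt tx hC hF hz₁ hz₂]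
  refine hB n₁ _ ρ₁ ρ₂ cv (h1 _ _ _ hA₁ c n₁ hz₁.tr hn₁) (h1 _ _ _ hA₂ c n₂ hz₂.tr hn₂)
    tx.neg tx.au hz₁.nz hz₂.nz hclo hre
    (h4 Rk t g₁ g₂ c z₁ z₂ ρ₁ ρ₂ hg₁ hg₂ hc hz₁ hz₂ hN₁ hN₂) ?_
  intro v hv
  by_cases hev : e v = 0
  · refine ⟨1, one_mul 1, fun σ hσ => ?_⟩
    have h5 := hcv v hv σ hσ
    rw [if_pos hev] at h5
    rw [Pool.Agent.SK.au_one, Pool.Agent.SK.twS_apply, h5]
  · refine ⟨3, by decide, fun σ hσ => ?_⟩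
    have h5 := hcv v hv σ hσ
    rw [if_neg hev] at h5
    rw [Pool.Agent.SK.twS_apply, map_mul, Pool.Agent.SK.au_zz 3 _ (by decide),
      Pool.Agent.SK.au_three, h5]

end

end Pool.Agent.SKT
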