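import Pool.Agent.SKT.PStm
import Pool.Agent.SKT.C2
import Pool.Agent.SK.TC15

/-!
# Malle's conjecture for 8T8 over number fields, row TP20: the conditions outside the frame
-/

set_option autoImplicit false

open scoped BigOperators
open NumberField IsDedekindDomain

namespace Pool.Agent.SKT

open Pool.Agent.H98.MF
open Pool.Agent.H32.MQ
open Pool.Agent.H32.MA (SD)
open Pool.Agent.D8 (RxF)
open Pool.Agent.SK.TP (OutC)
open Pool.Agent.SK.TC (gm_ord)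

section

variable {k : Type} [Field k] [NumberField k] {Fr : Frm k} {L : Type} [Field L]
  [NumberField L] [Algebra k L] (tx : TX Fr L)

theorem pou_ord (t : tx.FL.sys.T) (g : Finset tx.X.PX) {z : Lˣ} {p : Fr.sys.P}
    (hz : tx.Un p (z : L)) {Q : HeightOneSpectrum (𝓞 L)} (hQ : Over (Fr.pl p) Q) :
    0 ≤ ord Q ((tx.gm t g * z ^ 2 : Lˣ) : L) ∧ ((∀ b ∈ g, tx.X.shX b ≠ p) →
      ord Q ((tx.gm t g * z ^ 2 : Lˣ) : L) = 0) := by
  classical
  have h1 : ord Q ((tx.gm t g * z ^ 2 : Lˣ) : L) = ord Q (tx.gm t g : L) := by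
    rw [Units.val_mul, Units.val_pow_eq_pow_val, ord_mul Q (tx.gm t g).ne_zero
      (pow_ne_zero 2 z.ne_zero), ord_pow, hz Q hQ, mul_zero, add_zero]
  rw [h1]
  obtain ⟨P, rfl⟩ := (tx.FL.pl_iff Q).2 (qf_notMem tx.FL tx.hF hQ)
  rw [gm_ord]
  constructor
  · split_ifs
    · exact zero_le_one
    · exact le_rfl
  · intro h2
    rw [if_neg]
    intro h3
    obtain ⟨b, hb, rfl⟩ := Finset.mem_image.1 h3
    rw [pl_io] at hQ
    exact h2 b hb (tx.X.shX_eq b hQ)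

/-- TP20: the conditions outside the frame -/
theorem sPOu (hC : SCo tx) (hJ : SJj tx) : SPOu tx := by
  classical
  intro Rk t g₁ g₂ c z₁ z₂ ρ₁ ρ₂ hg₁ hg₂ hc C₁ C₂ N₁ N₂ p
  obtain ⟨Q, hQ⟩ := exists_over (L := L) (Fr.pl p)
  have hQ' : Over (Fr.pl p) (cj tx.X.sig Q) := hQ.cj tx.X.sig
  have h20 : (2 : k) ≠ 0 := two_ne_zero
  have hcx : ∀ (g : Finset tx.X.PX) (z : Lˣ),
      CT tx (g₁.image tx.X.shX ∪ g₂.image tx.X.shX) c (tx.gm t g) z →
      2 * tx.cx ((tx.gm t g * z ^ 2 : Lˣ) : L) = c ∧ tx.Nz ((tx.gm t g * z ^ 2 : Lˣ) : L) := by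
    intro g z hCT
    have h1 := hC.tr ((tx.gm t g * z ^ 2 : Lˣ) : L)
    rw [hCT.tr] at h1
    refine ⟨h1.symm, ?_, hCT.nz⟩
    intro h2
    rw [h2, mul_zero] at h1
    exact c.ne_zero h1
  by_cases hp : p ∈ g₁.image tx.X.shX ∪ g₂.image tx.X.shX
  · left
    have hint : ∀ (g : Finset tx.X.PX) (z : Lˣ),
        CT tx (g₁.image tx.X.shX ∪ g₂.image tx.X.shX) c (tx.gm t g) z →
        0 ≤ ord (Fr.pl p) (tx.cy ((tx.gm t g * z ^ 2 : Lˣ) : L)) := by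
      intro g z hCT
      have h1 := (hJ p Q hQ _ (hcx g z hCT).2).1
      have h2 := (pou_ord tx t g (hCT.sh p hp) hQ).1
      have h3 := (pou_ord tx t g (hCT.sh p hp) hQ').1
      have h4 : 0 ≤ tx.jj p ((tx.gm t g * z ^ 2 : Lˣ) : L) := by
        rw [h1]
        exact le_min h2 h3
      exact h4.trans (min_le_right _ _)
    refine ⟨?_, (qr_eq_zero _).1 (hc p hp).2, (hc p hp).1, hint g₁ z₁ C₁, hint g₂ z₂ C₂⟩
    obtain ⟨b, hb⟩ : ∃ b : tx.X.PX, tx.X.shX b = p := by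
      rcases Finset.mem_union.1 hp with h | h
      · obtain ⟨b, -, hb⟩ := Finset.mem_image.1 h
        exact ⟨b, hb⟩
      · obtain ⟨b, -, hb⟩ := Finset.mem_image.1 h
        exact ⟨b, hb⟩
    have h1 := tx.X.shX_over b
    rw [hb] at h1
    exact (Pool.Agent.H98.MF.B.qe_split_iff tx.X.qe tx.X.sig tx.X.sig_α h1).2 b.2.2
  · right
    have n1 : ∀ b ∈ g₁, tx.X.shX b ≠ p := fun b hb h =>
      hp (Finset.mem_union_left _ (Finset.mem_image.2 ⟨b, hb, h⟩))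
    have n2 : ∀ b ∈ g₂, tx.X.shX b ≠ p := fun b hb h =>
      hp (Finset.mem_union_right _ (Finset.mem_image.2 ⟨b, hb, h⟩))
    refine ⟨N₁ p n1, N₂ p n2, ?_⟩
    by_cases hc0 : ord (Fr.pl p) (c : k) = 0
    · exact Or.inl hc0
    right
    have hun : ∀ (g : Finset tx.X.PX) (z : Lˣ), (∀ b ∈ g, tx.X.shX b ≠ p) →
        CT tx (g₁.image tx.X.shX ∪ g₂.image tx.X.shX) c (tx.gm t g) z →
        0 < ord (Fr.pl p) (c : k) ∧
          ord (Fr.pl p) (tx.cy ((tx.gm t g * z ^ 2 : Lˣ) : L)) = 0 := by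
      intro g z hn hCT
      have hx := hcx g z hCT
      have h1 := (hJ p Q hQ _ hx.2).1
      rw [(pou_ord tx t g (hCT.cu p hc0) hQ).2 hn, (pou_ord tx t g (hCT.cu p hc0) hQ').2 hn,
        min_self] at h1
      unfold TX.jj at h1
      have h2 : ord (Fr.pl p) (c : k) =
          ord (Fr.pl p) (tx.cx ((tx.gm t g * z ^ 2 : Lˣ) : L)) := by
        rw [← hx.1, ord_mul _ h20 hx.2.1, hb_two Fr p, zero_add]
      have h3 := min_le_left (ord (Fr.pl p) (tx.cx ((tx.gm t g * z ^ 2 : Lˣ) : L)))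
        (ord (Fr.pl p) (tx.cy ((tx.gm t g * z ^ 2 : Lˣ) : L)))
      rw [h1, ← h2] at h3
      rw [← h2] at h1
      rcases min_choice (ord (Fr.pl p) (c : k))
        (ord (Fr.pl p) (tx.cy ((tx.gm t g * z ^ 2 : Lˣ) : L))) with h4 | h4
      · exact absurd (h4.symm.trans h1) hc0
      · exact ⟨lt_of_le_of_ne h3 (Ne.symm hc0), h4.symm.trans h1⟩
    exact ⟨(hun g₁ z₁ n1 C₁).1, (hun g₁ z₁ n1 C₁).2, (hun g₂ z₂ n2 C₂).2⟩

end

end Pool.Agent.SKT
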