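import Pool.Agent.SKT.PStm

/-!
# Malle's conjecture for 8T8 over number fields, (TD): the signs at the real places
-/

set_option autoImplicit false

open scoped BigOperators
open NumberField IsDedekindDomain

namespace Pool.Agent.SKT

open Pool.Agent.H98.MF
open Pool.Agent.H32.MQ

section

variable {k : Type} [Field k] [NumberField k] {Fr : Frm k} {L : Type} [Field L]
  [NumberField L] [Algebra k L] (tx : TX Fr L)

/-- the embedding of `L` with `α ↦ s` -/
noncomputable def preHom (hC : SCo tx) (ψ : k →+* ℝ) (s : ℝ) (hs : s ^ 2 = ψ (tx.X.a : k)) :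
    L →+* ℝ where
  toFun u := ψ (tx.cx u) + ψ (tx.cy u) * s
  map_one' := by
    have h1 := hC.cx_mk 1 0
    have h2 := hC.cy_mk 1 0
    rw [map_one, map_zero, zero_mul, add_zero] at h1 h2
    rw [h1, h2, map_one, map_zero, zero_mul, add_zero]
  map_mul' u v := by
    rw [hC.cx_mul, hC.cy_mul]
    simp only [map_add, map_mul]
    linear_combination (-(ψ (tx.cy u) * ψ (tx.cy v))) * hs
  map_zero' := by
    have h1 := hC.cx_mk 0 0
    have h2 := hC.cy_mk 0 0
    rw [map_zero, zero_mul, add_zero] at h1 h2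
    rw [h1, h2, map_zero, zero_mul, add_zero]
  map_add' u v := by
    have h1 : tx.cx (u + v) = tx.cx u + tx.cx v := by
      unfold TX.cx
      rw [map_add, mul_add]
    have h2 : tx.cy (u + v) = tx.cy u + tx.cy v := by
      unfold TX.cy
      rw [add_mul, map_add, mul_add]
    rw [h1, h2, map_add, map_add]
    ring

/-- P3 -/
theorem sPRe (hC : SCo tx) : SPRe tx := by
  intro b₁ b₂ h ψ s hs
  have h1 := h (preHom tx hC ψ s hs)
  have h2 : preHom tx hC ψ s hs (b₂ : L) ≠ 0 := by
    rw [map_ne_zero]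
    exact b₂.ne_zero
  rw [Units.val_div_eq_div_val, map_div₀] at h1
  have h3 : preHom tx hC ψ s hs (b₁ : L) * preHom tx hC ψ s hs (b₂ : L) =
      preHom tx hC ψ s hs (b₁ : L) / preHom tx hC ψ s hs (b₂ : L) *
        (preHom tx hC ψ s hs (b₂ : L) * preHom tx hC ψ s hs (b₂ : L)) := by
    field_simp
  change 0 < preHom tx hC ψ s hs (b₁ : L) * preHom tx hC ψ s hs (b₂ : L)
  rw [h3]
  exact mul_pos h1 (mul_self_pos.2 h2)

end

end Pool.Agent.SKT
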