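import Pool.Agent.SKT.Stm2
import Pool.Agent.SK.AStm
import Pool.Agent.SK.AAct
import Pool.Agent.SK.AFTwo

/-!
# Malle's conjecture for 8T8 over number fields, (TD), row TP24: a class with a lift has no
obstruction
-/

set_option autoImplicit false

open scoped BigOperators
open NumberField IsDedekindDomain

namespace Pool.Agent.SKT

open Pool.Agent.H98.MF
open Pool.Agent.H32.MQ
open Pool.Agent.H32.MA (SD)
open Pool.Agent.SK (QK qk AHasL ACritV AAct AFSq aAct aFSq)

section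

variable {k : Type} [Field k] [NumberField k] {Fr : Frm k} {L : Type} [Field L]
  [NumberField L] [Algebra k L] (tx : TX Fr L)

/-- an embedding of `L` that sends `α` to the chosen root of `a` -/
theorem pk_emb : ∃ j : L →ₐ[k] Om k, j tx.X.α = Pool.Agent.H98.MF.sq (tx.X.a : k) := by
  have halg : Algebra.IsAlgebraic k L := Algebra.IsAlgebraic.of_finite k L
  let j : L →ₐ[k] Om k := IsAlgClosed.lift
  have h1 : (j tx.X.α) ^ 2 = (Pool.Agent.H98.MF.sq (tx.X.a : k)) ^ 2 := by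
    rw [← map_pow, tx.X.qe.sq, j.commutes, sq_sq]
  rcases sq_eq_sq_iff_eq_or_eq_neg.1 h1 with h2 | h2
  · exact ⟨j, h2⟩
  · refine ⟨j.comp (tx.X.sig : L →ₐ[k] L), ?_⟩
    show j (tx.X.sig tx.X.α) = _
    rw [tx.X.sig_α, map_neg, h2, neg_neg]

/-- a homomorphism attached to `u` in the two senses -/
theorem pk_cl (hC : SCo tx) (j : L →ₐ[k] Om k)
    (hj : j tx.X.α = Pool.Agent.H98.MF.sq (tx.X.a : k)) (u : Lˣ) (ρ : Gm k →* SD)
    (h : tx.At u ρ) : (qk tx.X).Cl j u ρ := by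
  refine ⟨h.lc, h.pd, ?_⟩
  obtain ⟨θ, θ', h1, h2, h3, h4⟩ := h.pf
  refine ⟨θ, θ', ?_, ?_, h3, h4⟩
  · rw [h1]
    conv_rhs => rw [hC.repr (u : L)]
    rw [map_add, map_mul, j.commutes, j.commutes, hj]
  · rw [h2]
    show _ = j (tx.X.sig (u : L))
    conv_rhs => rw [hC.repr (u : L)]
    rw [map_add, map_mul, tx.X.sig.commutes, tx.X.sig.commutes, tx.X.sig_α, map_add, map_mul,
      j.commutes, j.commutes, map_neg, hj]
    ring

/-- **Row TP24.** -/
theorem sPk (hC : SCo tx) (hH : ∀ j : L →ₐ[k] Om k, AHasL (qk tx.X) j)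
    (hV : ∀ j : L →ₐ[k] Om k, ACritV (qk tx.X) j) : SPk tx := by
  intro u ρ hρ z hz v
  obtain ⟨j, hj⟩ := pk_emb tx
  have hcl := pk_cl tx hC j hj u ρ hρ
  set b : Lˣ := u * z ^ 2 with hb
  have hclb : (qk tx.X).Cl j b ρ :=
    ⟨hcl.lc, hcl.pd, aFSq (qk tx.X) j (aAct (qk tx.X) j) u z _ hcl.pf⟩
  have h1 := (hH j).2 (DecP v) b ρ hclb
  have h2 := (hV j v b _ hclb.pf).1 h1
  have htr : Algebra.trace k L (b : L) = 2 * tx.cx (b : L) := hC.tr (b : L)
  have htr0 : Algebra.trace k L (b : L) ≠ 0 := by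
    rw [htr]
    exact mul_ne_zero two_ne_zero hz
  have hn0 : tx.nn (b : L) ≠ 0 := hC.nn_ne (b : L) b.ne_zero
  have hL : LIn k := B.lin k
  have h3 : (qk tx.X).kap v b = hv v (tx.X.a : k) (2 * (tx.X.a : k) * tx.nn (b : L)) +
      hv v (2 * tx.cx (b : L)) (-((tx.X.a : k) * tx.nn (b : L))) := by
    unfold QK.kap
    rw [if_neg htr0, htr]
    rfl
  rw [h2] at h3
  set a : kˣ := tx.X.a with ha
  set n : kˣ := Units.mk0 _ hn0 with hn
  set t : kˣ := Units.mk0 (2 : k) two_ne_zero with ht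
  have h4 : hv v (a : k) (2 * (a : k) * tx.nn (b : L)) =
      hv v (a : k) ((t * a * n : kˣ) : k) := rfl
  have h5 : hv v (a : k) (a : k) = 0 := by
    have e1 := hL.mulR v a (-1) (-a)
    have e2 : (-1 : kˣ) * (-a) = a := by rw [neg_mul_neg, one_mul]
    have e3 : hv v (a : k) ((-a : kˣ) : k) = 0 := by
      refine hL.nm v a (-a) 0 1 ?_
      rw [Units.val_neg]
      ring
    have e4 : hv v (a : k) ((-1 : kˣ) : k) = 0 := by
      rw [Units.val_neg, Units.val_one]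
      exact tx.neg v
    rw [e2, e3, e4, add_zero] at e1
    exact e1
  have h6 : hv v (a : k) (n : k) = 0 := by
    refine hL.nm v a n (tx.cx (b : L)) (tx.cy (b : L)) ?_
    exact hC.nn_eq (b : L)
  rw [h4, hL.mulR v a (t * a) n, hL.mulR v a t a, h5, h6, add_zero, add_zero] at h3
  have h7 : hv v (2 * tx.cx (b : L)) (-((a : k) * tx.nn (b : L))) = hv v (a : k) (t : k) := by
    have e : ∀ x y : ZMod 2, 0 = x + y → y = x := by decide
    exact e _ _ h3
  rw [h7, hL.symm v a t]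
  rfl

end

end Pool.Agent.SKT
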