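import Pool.Agent.SKT.Stm2
import Pool.Agent.SK.AAct
import Pool.Agent.SK.AFTwo

/-!
# Malle's conjecture for 8T8 over number fields: the statement (TD), row TP25: the symbols at the
conjugate primes of a class with a lift vanish (note 5328)
-/

set_option autoImplicit false

open scoped BigOperators
open NumberField IsDedekindDomain

namespace Pool.Agent.SKT

open Pool.Agent.H98.MF
open Pool.Agent.H32.MQ
open Pool.Agent.H32.MA (SD)
open Pool.Agent.SK (qk aAct aFSq)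

section

variable {k : Type} [Field k] [NumberField k] {Fr : Frm k} {L : Type} [Field L]
  [NumberField L] [Algebra k L] (tx : TX Fr L)

private theorem pl_sq (j : L →ₐ[k] Om k) :
    (j tx.X.α) ^ 2 = algebraMap k (Om k) (tx.X.a : k) := by
  rw [← map_pow, tx.X.qe.sq, j.commutes]

private theorem pl_sig (hC : SCo tx) (u : L) : tx.X.sig u =
    algebraMap k L (tx.cx u) - algebraMap k L (tx.cy u) * tx.X.α := by
  have h := hC.repr (tx.X.sig u)
  rw [hC.cx_sig, hC.cy_sig, map_neg] at h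
  rw [h]
  ring

private theorem pl_ju (hC : SCo tx) (j : L →ₐ[k] Om k) (u : L) : j u =
    algebraMap k (Om k) (tx.cx u) + algebraMap k (Om k) (tx.cy u) * j tx.X.α := by
  conv_lhs => rw [hC.repr u]
  rw [map_add, map_mul, j.commutes, j.commutes]

private theorem pl_js (hC : SCo tx) (j : L →ₐ[k] Om k) (u : L) : j (tx.X.sig u) =
    algebraMap k (Om k) (tx.cx u) - algebraMap k (Om k) (tx.cy u) * j tx.X.α := by
  rw [pl_sig tx hC, map_sub, map_mul, j.commutes, j.commutes]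

private theorem pl_pd (s g : SD) : (s⁻¹ * g * s⁻¹⁻¹).pd = g.pd := by
  rw [inv_inv, SD.pd_mul, SD.pd_mul, add_right_comm, ← SD.pd_mul, inv_mul_cancel]
  show (0 : ZMod 2) + _ = _
  rw [zero_add]

/-- a class with an attached homomorphism has an attached homomorphism for every embedding -/
theorem pl_cl (hC : SCo tx) (j : L →ₐ[k] Om k) (u : Lˣ) (ρ : Gm k →* SD) (h : tx.At u ρ) :
    ∃ ρ' : Gm k →* SD, (qk tx.X).Cl j u ρ' := by
  obtain ⟨hl, hp, θ, θ', h1, h2, h3, h4⟩ := h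
  have e1 := pl_ju tx hC j (u : L)
  have e2 := pl_js tx hC j (u : L)
  have hj : j tx.X.α = H98.MF.sq (tx.X.a : k) ∨ j tx.X.α = -H98.MF.sq (tx.X.a : k) := by
    refine sq_eq_sq_iff_eq_or_eq_neg.mp ?_
    rw [pl_sq, sq_sq]
  rcases hj with hj | hj
  · rw [hj] at e1 e2
    exact ⟨ρ, hl, hp, θ, θ', h1.trans e1.symm, h2.trans e2.symm, h3, h4⟩
  · rw [hj] at e1 e2
    obtain ⟨τ, hτ⟩ : ∃ τ : Gm k, chi (tx.X.a : k) τ = 1 := by
      by_contra hc
      push Not at hc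
      have h0 : ∀ x : ZMod 2, x ≠ 1 → x = 0 := by decide
      exact B.qe_ns tx.X.qe (chi_isSquare fun σ => h0 _ (hc σ))
    have hs : τ (H98.MF.sq (tx.X.a : k)) = -H98.MF.sq (tx.X.a : k) :=
      (chi_eq_one_iff tx.X.a.ne_zero (sq_sq _) τ).1 hτ
    have hcj : ∀ σ : Gm k, chi (tx.X.a : k) (τ⁻¹ * σ * τ) = chi (tx.X.a : k) σ := by
      intro σ
      rw [chi_hom, chi_hom, chi_inv, hτ]
      have h0 : ∀ x : ZMod 2, 1 + x + 1 = x := by decide
      exact h0 _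
    have hf : ∀ σ : Gm k, (MulAut.conj (ρ τ)⁻¹).toMonoidHom.comp ρ σ = ρ (τ⁻¹ * σ * τ) := by
      intro σ
      show (ρ τ)⁻¹ * ρ σ * (ρ τ)⁻¹⁻¹ = _
      rw [map_mul, map_mul, map_inv, inv_inv]
    have ha : ∀ (σ : Gm k) (x : Om k), σ (τ x) = τ ((τ⁻¹ * σ * τ) x) := by
      intro σ x
      rw [← AlgEquiv.mul_apply, ← AlgEquiv.mul_apply]
      congr 1
      group
    have ht : ∀ x : ZMod 2, τ (Pool.Agent.D8.so x) = Pool.Agent.D8.so x := by
      intro x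
      unfold Pool.Agent.D8.so
      split_ifs
      · exact map_one τ
      · rw [map_neg, map_one]
    refine ⟨(MulAut.conj (ρ τ)⁻¹).toMonoidHom.comp ρ, ?_, ?_, τ θ, τ θ', ?_, ?_, ?_, ?_⟩
    · exact hl.comp (MulAut.conj (ρ τ)⁻¹)
    · intro σ
      show ((ρ τ)⁻¹ * ρ σ * (ρ τ)⁻¹⁻¹).pd = _
      rw [pl_pd]
      exact hp σ
    · rw [← map_pow, h1, map_add, map_mul, τ.commutes, τ.commutes, hs, e1]
    · rw [← map_pow, h2, map_sub, map_mul, τ.commutes, τ.commutes, hs]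
      exact e2.symm
    · intro σ hσ
      have h5 := h3 (τ⁻¹ * σ * τ) ((hcj σ).trans hσ)
      show σ (τ θ) = Pool.Agent.D8.so ((MulAut.conj (ρ τ)⁻¹).toMonoidHom.comp ρ σ).pf * τ θ
      rw [ha, h5, map_mul, ht, hf]
    · intro σ hσ
      have h5 := h4 (τ⁻¹ * σ * τ) ((hcj σ).trans hσ)
      show σ (τ θ) = Pool.Agent.D8.so ((MulAut.conj (ρ τ)⁻¹).toMonoidHom.comp ρ σ).pf * τ θ'
      rw [ha, h5, map_mul, ht, hf]

/-- **Row TP25.** The symbols at the conjugate primes of a class with a lift vanish. -/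
theorem sPl (j : L →ₐ[k] Om k) (hQ : Pool.Agent.SK.AQz tx.X j) (hC : SCo tx) : SPl tx := by
  classical
  intro t g ρ hg hρ b hb
  have hγ : elX tx.X tx.FL tx.hF t g ∈ tx.X.Bs g := by
    intro Q hQ
    obtain ⟨P, rfl⟩ := (tx.FL.pl_iff Q).2 ((qf_Out tx.X tx.FL tx.hF tx.hM).1 hQ)
    rw [odd_el tx.X tx.FL tx.hF t g P, Finset.mem_image]
    constructor
    · rintro ⟨b, hb, rfl⟩
      exact ⟨b, hb, (pl_io tx.X tx.FL tx.hF b).symm⟩
    · rintro ⟨b, hb, h2⟩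
      refine ⟨b, hb, tx.FL.pl_inj ?_⟩
      rw [pl_io, h2]
  obtain ⟨ρ', hρ'⟩ := pl_cl tx hC j _ ρ hρ
  obtain ⟨y, hy⟩ := HX.out_mk (tx.gm t g)
  have h1 : (qk tx.X).Cl j (HX.out (elX tx.X tx.FL tx.hF t g)) ρ' := by
    refine ⟨hρ'.lc, hρ'.pd, ?_⟩
    have h2 := aFSq (qk tx.X) j (aAct _ _) _ y _ hρ'.pf
    have h3 : HX.out (elX tx.X tx.FL tx.hF t g) = tx.gm t g * y ^ 2 := hy
    rw [h3]
    exact h2
  have h4 := hQ g hg _ hγ ρ' h1 b hb
  rw [← h4]
  have h5 := out_sq (tx.gm t g)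
  rw [mul_comm] at h5
  exact hb_qr_sq h5 _

end

end Pool.Agent.SKT
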