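import Pool.Agent.SKT.ST

/-!
# Malle's conjecture for 8T8 over number fields: the structure theorem for three primes
-/

set_option autoImplicit false

open scoped BigOperators
open NumberField IsDedekindDomain

namespace Pool.Agent.SKT

open Pool.Agent.H98.MF
open Pool.Agent.H98.MK (sg)
open Pool.Agent.H32.MQ
open Pool.Agent.H32.MA (SD)
open Pool.Agent.D8 (RxF)

section

variable {k : Type} [Field k] [NumberField k] {Fr : Frm k} {L : Type} [Field L]
  [NumberField L] [Algebra k L] (tx : TX Fr L)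

open Classical in
theorem gm_zero (G : Finset tx.X.PX) :
    tx.gm 0 G = ∏ b ∈ G, tx.FL.pi (io tx.X tx.FL tx.hF b) := by
  unfold TX.gm rep
  rw [Finset.prod_image fun a _ b _ h => io_inj tx.X tx.FL tx.hF h]
  simp

theorem gm_single (b : tx.X.PX) : tx.gm 0 {b} = tx.FL.pi (io tx.X tx.FL tx.hF b) := by
  rw [gm_zero, Finset.prod_singleton]

/-- the symbol of two primes -/
noncomputable def Jc (x y : tx.X.PX) : ZMod 2 :=
  tx.FL.sys.J (io tx.X tx.FL tx.hF x) (io tx.X tx.FL tx.hF (tx.X.cjX y))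

open Classical in
theorem image3 {A : Type} (p : Fin 3 → A) :
    (Finset.univ.image p : Finset A) = {p 0, p 1, p 2} := by
  ext x
  simp only [Finset.mem_image, Finset.mem_univ, true_and, Finset.mem_insert,
    Finset.mem_singleton]
  constructor
  · rintro ⟨i, rfl⟩
    fin_cases i
    · exact Or.inl rfl
    · exact Or.inr (Or.inl rfl)
    · exact Or.inr (Or.inr rfl)
  · rintro (rfl | rfl | rfl)
    · exact ⟨0, rfl⟩
    · exact ⟨1, rfl⟩
    · exact ⟨2, rfl⟩

theorem ssl (Rk : RxF k) (hbig : SBig tx) (hst : SSTd tx Rk) (hba : SBa tx) (hog : SOg tx)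
    (hkg : SKg tx) : SSld tx Rk := by
  classical
  obtain ⟨N, hN⟩ := hbig
  intro Ps t R q hori hq ρ' ha' ho' hg' hinj' hR'
  set γ : L := ((tx.gm t (R ∪ Finset.univ.image q) : Lˣ) : L) with hγ
  refine ⟨∑ b ∈ R, qr γ (tx.X.cjX b).1 + (Jc tx (q 0) (q 1) + Jc tx (q 0) (q 2) +
      Jc tx (q 1) (q 2)),
    ![fun x => tx.br N (tx.gm 0 {x} * tx.gm 0 {q 0}) + qr γ (tx.X.cjX x).1 +
        (Jc tx x (q 1) + Jc tx x (q 2)),
      fun x => tx.br N (tx.gm 0 {x} * tx.gm 0 {q 1}) + qr γ (tx.X.cjX x).1 +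
        (Jc tx (q 0) x + Jc tx x (q 2)),
      fun x => tx.br N (tx.gm 0 {x} * tx.gm 0 {q 2}) + qr γ (tx.X.cjX x).1 +
        (Jc tx (q 0) x + Jc tx (q 1) x)], ?_⟩
  intro p hp hinj hR hg hty ρ ha ho D hD
  have hsub : ∀ r : Fin 3 → tx.X.PX, (∀ i, r i ∈ Ps) →
      ((Finset.univ.image r : Finset tx.X.PX) : Set tx.X.PX) ⊆ Ps := by
    intro r hr x hx
    obtain ⟨i, -, rfl⟩ := Finset.mem_image.1 (Finset.mem_coe.1 hx)
    exact hr i
  have hdj : ∀ r : Fin 3 → tx.X.PX, (∀ i, r i ∉ R) → Disjoint R (Finset.univ.image r) := by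
    intro r hr
    rw [Finset.disjoint_left]
    intro x hx hx'
    obtain ⟨i, -, rfl⟩ := Finset.mem_image.1 hx'
    exact hr i hx
  have hprod : ∀ r : Fin 3 → tx.X.PX, Function.Injective r →
      tx.gm 0 (Finset.univ.image r) = tx.gm 0 {r 2} * (tx.gm 0 {r 1} * tx.gm 0 {r 0}) := by
    intro r hr
    rw [gm_zero, Finset.prod_image fun a _ b _ h => hr h, Fin.prod_univ_three, gm_single,
      gm_single, gm_single]
    simp only [mul_assoc, mul_comm]
  have hpair : ∀ r : Fin 3 → tx.X.PX, Function.Injective r →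
      tx.gm 0 {r 0, r 1} = tx.gm 0 {r 1} * tx.gm 0 {r 0} := by
    intro r hr
    have h01 : r 0 ≠ r 1 := fun h => by
      have := hr h
      exact absurd this (by decide)
    rw [gm_zero, Finset.prod_pair h01, gm_single, gm_single, mul_comm]
  have htyp : ∀ r : Fin 3 → tx.X.PX, Function.Injective r →
      tx.ty (Finset.univ.image r) = ∑ i, tx.ty {r i} := by
    intro r hr
    unfold TX.ty Sys.tys
    rw [Finset.image_image, Finset.sum_image (g := io tx.X tx.FL tx.hF ∘ r)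
      fun a _ b _ h => hr (io_inj tx.X tx.FL tx.hF h)]
    refine Finset.sum_congr rfl fun i _ => ?_
    rw [Finset.image_singleton, Finset.sum_singleton]
    rfl
  have htyG : tx.ty (Finset.univ.image p) = tx.ty (Finset.univ.image q) := by
    rw [htyp p hinj, htyp q hinj']
    exact Finset.sum_congr rfl fun i _ => hty i
  have hne : ∀ r : Fin 3 → tx.X.PX, (R ∪ Finset.univ.image r).Nonempty := fun r =>
    ⟨r 0, Finset.mem_union_right _ (Finset.mem_image_of_mem r (Finset.mem_univ 0))⟩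
  have hmain := hst N hN Ps t R (Finset.univ.image p) (Finset.univ.image q) hori (hsub p hp)
    (hsub q hq) (hdj p hR) (hdj q hR') hg hg' (hne p) (hne q) htyG ρ ρ' ha ha' ho ho' D hD
  rw [hmain, ← hγ]
  -- the three elements
  have hs1 : ∀ i, ((({p i} : Finset tx.X.PX)) : Set tx.X.PX) ⊆ Ps := by
    intro i x hx
    rw [Finset.mem_coe, Finset.mem_singleton] at hx
    rw [hx]
    exact hp i
  have hs2 : ∀ i, ((({q i} : Finset tx.X.PX)) : Set tx.X.PX) ⊆ Ps := by
    intro i x hx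
    rw [Finset.mem_coe, Finset.mem_singleton] at hx
    rw [hx]
    exact hq i
  have hs3 : ((({p 0, p 1} : Finset tx.X.PX)) : Set tx.X.PX) ⊆ Ps := by
    intro x hx
    rw [Finset.mem_coe, Finset.mem_insert, Finset.mem_singleton] at hx
    rcases hx with rfl | rfl
    · exact hp 0
    · exact hp 1
  have hs4 : ((({q 0, q 1} : Finset tx.X.PX)) : Set tx.X.PX) ⊆ Ps := by
    intro x hx
    rw [Finset.mem_coe, Finset.mem_insert, Finset.mem_singleton] at hx
    rcases hx with rfl | rfl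
    · exact hq 0
    · exact hq 1
  have hO : ∀ i, tx.OO Ps (tx.gm 0 {p i} * tx.gm 0 {q i}) := fun i =>
    hog Ps {p i} {q i} hori (hs1 i) (hs2 i) (hty i)
  obtain ⟨hO01, hb01⟩ := hba N hN Ps _ _ hori (hO 1) (hO 0)
  obtain ⟨-, hb012⟩ := hba N hN Ps _ _ hori (hO 2) hO01
  have hp01 : p 0 ≠ p 1 := fun h => absurd (hinj h) (by decide)
  have hq01 : q 0 ≠ q 1 := fun h => absurd (hinj' h) (by decide)
  have e1 : tx.gm 0 (Finset.univ.image p) * tx.gm 0 (Finset.univ.image q) =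
      tx.gm 0 {p 2} * tx.gm 0 {q 2} *
        (tx.gm 0 {p 1} * tx.gm 0 {q 1} * (tx.gm 0 {p 0} * tx.gm 0 {q 0})) := by
    rw [hprod p hinj, hprod q hinj']
    simp only [mul_assoc, mul_left_comm, mul_comm]
  have e2 : tx.gm 0 {p 1} * tx.gm 0 {q 1} * (tx.gm 0 {p 0} * tx.gm 0 {q 0}) =
      tx.gm 0 {p 0, p 1} * tx.gm 0 {q 0, q 1} := by
    rw [hpair p hinj, hpair q hinj']
    simp only [mul_assoc, mul_left_comm, mul_comm]
  have k1 := hkg Ps {p 1} {q 1} {p 0} {q 0} hori (hs1 1) (hs2 1) (hs1 0) (hs2 0)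
  have k2 := hkg Ps {p 2} {q 2} {p 0, p 1} {q 0, q 1} hori (hs1 2) (hs2 2) hs3 hs4
  rw [e1, hb012, e2, k2, ← e2, hb01, k1]
  rw [Finset.sum_union (hdj p hR), Finset.sum_image fun a _ b _ h => hinj h]
  simp only [Finset.sum_singleton, Finset.sum_pair hp01, Finset.sum_pair hq01]
  rw [Fin.sum_univ_three, Fin.sum_univ_three]
  show _ = _ + (_ + _ + _) + (Jc tx (p 0) (p 1) + Jc tx (p 0) (p 2) + Jc tx (p 1) (p 2))
  simp only [Matrix.cons_val_zero, Matrix.cons_val_one, Matrix.cons_val]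
  unfold Jc
  ring

end

end Pool.Agent.SKT
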