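import Pool.Agent.SKT.Main1
import Pool.Agent.SKT.SL
import Pool.Agent.SKT.PD
import Pool.Agent.SKT.PAt
import Pool.Agent.SKT.PCl
import Pool.Agent.SKT.PRe
import Pool.Agent.SKT.POu
import Pool.Agent.SKT.Pk
import Pool.Agent.SKT.Pl
import Pool.Agent.SK.TPa
import Pool.Agent.SK.TPc
import Pool.Agent.SK.TPd
import Pool.Agent.SK.TPe
import Pool.Agent.SK.TPf
import Pool.Agent.SK.TPg
import Pool.Agent.SK.TPi
import Pool.Agent.SK.TPj
import Pool.Agent.SK.TPk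
import Pool.Agent.SK.TPl
import Pool.Agent.SK.TPm
import Pool.Agent.SK.TPo
import Pool.Agent.SK.TPp
import Pool.Agent.SK.TCF
import Pool.Agent.D8.AObF
import Pool.Agent.D8.AObN
import Pool.Agent.D8.AOb
import Pool.Agent.D8.AKum
import Pool.Agent.D8.ATh
import Pool.Agent.D8.ATriv
import Pool.Agent.D8.ACoc
import Pool.Agent.D8.ARx

/-!
# Malle's conjecture for 8T8 over number fields: the statement (TD), assembly of the Galois part
-/

set_option autoImplicit false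

open NumberField IsDedekindDomain

namespace Pool.Agent.SKT

open Pool.Agent.H98.MF
open Pool.Agent.SK.TP
open Pool.Agent.SK (AHasL ACritV AQz qk)
open Pool.Agent.D8 (RxF)

section

variable (k : Type) [Field k] [NumberField k]

theorem m_Ob : Pool.Agent.D8.SaOb k :=
  Pool.Agent.D8.aob k (Pool.Agent.D8.atriv k (Pool.Agent.D8.ath k) (Pool.Agent.D8.acoc k))

theorem m_ObT : Pool.Agent.D8.SaObT k :=
  Pool.Agent.D8.aobT k (Pool.Agent.D8.ath k) (Pool.Agent.D8.arep k) (Pool.Agent.D8.aku k)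
    (Pool.Agent.D8.asl k (Pool.Agent.D8.ath k)) (m_Ob k)

theorem m_ObS : Pool.Agent.D8.SaObS k :=
  Pool.Agent.D8.aobS k (Pool.Agent.D8.ath k) (Pool.Agent.D8.arep k) (Pool.Agent.D8.aku k)
    (Pool.Agent.D8.asl k (Pool.Agent.D8.ath k)) (m_Ob k)

theorem m_ObN : Pool.Agent.D8.SaObN k :=
  Pool.Agent.D8.aobN k (Pool.Agent.D8.ath k) (Pool.Agent.D8.arep k) (Pool.Agent.D8.aku k)
    (Pool.Agent.D8.asl k (Pool.Agent.D8.ath k)) (m_Ob k) (Pool.Agent.D8.achr k)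
    (Pool.Agent.D8.aobH k)

theorem m_Pa : SpPa k := spPa (Pool.Agent.D8.aobH k)

theorem m_Pb : SpPb k := spPb (Pool.Agent.D8.aobH k) (Pool.Agent.D8.achr k)

theorem m_Pc : SpPc k := spPc (m_ObN k) (m_ObT k)

theorem m_Pf : SpPf k := spPf (m_ObS k) (m_ObN k) (Pool.Agent.D8.arx k)

theorem m_D (hIs : SpIsF k) (hOd : SpOd k) (hFin : SpFin k) : SpD k :=
  spD (spEx k) hIs (m_Pf k) (spOut hIs (m_Pa k) (m_Pb k) (m_Pc k) (spOb k) (spOc k) hOd
    (Pool.Agent.D8.achr k)) spSq (spNear k (spVa k) (spUn k)) hFin (spRe k hIs (m_Pa k))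

end

section

variable {k : Type} [Field k] [NumberField k] {Fr : Frm k} {L : Type} [Field L]
  [NumberField L] [Algebra k L] (tx : TX Fr L)

theorem m_PD (hIs : SpIsF k) (hOd : SpOd k) (hFin : SpFin k) : SPD tx :=
  sPD tx (m_D k hIs hOd hFin) (m_co tx) (m_ft tx) (sPAt tx (m_co tx)) (sPCl tx (m_co tx))
    (sPRe tx (m_co tx)) (sPOu tx (m_co tx) (m_jj tx))

theorem m_ST (Rk : RxF k) (hIs : SpIsF k) (hOd : SpOd k) (hFin : SpFin k)
    (hH : ∀ j : L →ₐ[k] Om k, AHasL (qk tx.X) j) (hV : ∀ j : L →ₐ[k] Om k, ACritV (qk tx.X) j)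
    (j : L →ₐ[k] Om k) (hQ : AQz tx.X j) : SSTd tx Rk :=
  sst tx Rk (Pool.Agent.SK.TC.stctAll tx) (m_PD tx hIs hOd hFin) (m_hm tx)
    (sPk tx (m_co tx) hH hV) (sPl tx j hQ (m_co tx))

theorem m_SL (Rk : RxF k) (hIs : SpIsF k) (hOd : SpOd k) (hFin : SpFin k)
    (hH : ∀ j : L →ₐ[k] Om k, AHasL (qk tx.X) j) (hV : ∀ j : L →ₐ[k] Om k, ACritV (qk tx.X) j)
    (j : L →ₐ[k] Om k) (hQ : AQz tx.X j) : SSld tx Rk :=
  ssl tx Rk (m_big tx) (m_ST tx Rk hIs hOd hFin hH hV j hQ) (m_ba tx) (m_og tx) (m_kg tx)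

end

end Pool.Agent.SKT
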