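import Pool.Agent.SKT.Stm
import Pool.Agent.SK.TP

/-!
# Malle's conjecture for 8T8 over number fields: the statement (TD), the comparison of two
homomorphisms in terms of the quadratic extension (note 5328)
-/

set_option autoImplicit false

open scoped BigOperators
open NumberField IsDedekindDomain

namespace Pool.Agent.SKT

open Pool.Agent.H98.MF
open Pool.Agent.H98.MK (sg)
open Pool.Agent.H32.MQ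
open Pool.Agent.H32.MA (SD)
open Pool.Agent.D8 (RxF)
open Pool.Agent.SK.TP (Att OutC Clo)

section

variable {k : Type} [Field k] [NumberField k] {Fr : Frm k} {L : Type} [Field L]
  [NumberField L] [Algebra k L] (tx : TX Fr L)

/-- P1: a homomorphism attached to `u` is attached to `u z ^ 2` -/
def SPAt : Prop := ∀ (u z : Lˣ) (ρ : Gm k →* SD), tx.At u ρ → ∀ c n : kˣ,
  Algebra.trace k L ((u * z ^ 2 : Lˣ) : L) = (c : k) → tx.nn ((u * z ^ 2 : Lˣ) : L) = (n : k) →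
    Att tx.X.a c n (tx.cy ((u * z ^ 2 : Lˣ) : L)) ρ

/-- P2: close elements with the same first coordinate -/
def SPCl : Prop := ∀ (b₂ : Lˣ) (B : ℤ), ∃ M : ℕ, ∀ b₁ : Lˣ,
  (∀ Q ∈ tx.FL.S, Nr Q (M : ℤ) ((b₁ / b₂ : Lˣ) : L) 1) →
    tx.cx (b₁ : L) = tx.cx (b₂ : L) → ∀ P ∈ Fr.S, Clo P B (tx.cy (b₁ : L)) (tx.cy (b₂ : L))

/-- P3: the signs at the real places -/
def SPRe : Prop := ∀ b₁ b₂ : Lˣ, (∀ ψ : L →+* ℝ, 0 < ψ ((b₁ / b₂ : Lˣ) : L)) →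
  ∀ (ψ : k →+* ℝ) (s : ℝ), s ^ 2 = ψ (tx.X.a : k) →
    0 < (ψ (tx.cx (b₁ : L)) + ψ (tx.cy (b₁ : L)) * s) *
      (ψ (tx.cx (b₂ : L)) + ψ (tx.cy (b₂ : L)) * s)

open Classical in
/-- P4: the conditions at the primes outside the frame -/
def SPOu : Prop := ∀ (Rk : RxF k) (t : tx.FL.sys.T) (g₁ g₂ : Finset tx.X.PX) (c : kˣ)
  (z₁ z₂ : Lˣ) (ρ₁ ρ₂ : Gm k →* SD), tx.Gd g₁ → tx.Gd g₂ →
  (∀ p ∈ g₁.image tx.X.shX ∪ g₂.image tx.X.shX, ord (Fr.pl p) (c : k) = 0 ∧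
    qr (c : k) (Fr.pl p) = 0) →
  CT tx (g₁.image tx.X.shX ∪ g₂.image tx.X.shX) c (tx.gm t g₁) z₁ →
  CT tx (g₁.image tx.X.shX ∪ g₂.image tx.X.shX) c (tx.gm t g₂) z₂ →
  tx.Nor Rk g₁ ρ₁ → tx.Nor Rk g₂ ρ₂ → ∀ p, OutC (Fr.pl p) (Rk.tau (Fr.pl p)) tx.X.a c
    (tx.cy ((tx.gm t g₁ * z₁ ^ 2 : Lˣ) : L)) (tx.cy ((tx.gm t g₂ * z₂ ^ 2 : Lˣ) : L)) ρ₁ ρ₂

open Classical in
/-- P5: the comparison -/
def SPD : Prop := ∀ (Rk : RxF k) (t : tx.FL.sys.T) (g₁ g₂ : Finset tx.X.PX), tx.Gd g₁ →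
  tx.Gd g₂ → ∀ (c : kˣ) (z₂ : Lˣ),
  (∀ p ∈ g₁.image tx.X.shX ∪ g₂.image tx.X.shX, ord (Fr.pl p) (c : k) = 0 ∧
    qr (c : k) (Fr.pl p) = 0) →
  CT tx (g₁.image tx.X.shX ∪ g₂.image tx.X.shX) c (tx.gm t g₂) z₂ →
  ∃ M : ℕ, ∀ z₁ : Lˣ,
    CT tx (g₁.image tx.X.shX ∪ g₂.image tx.X.shX) c (tx.gm t g₁) z₁ →
    (∀ Q ∈ tx.FL.S, Nr Q (M : ℤ)
      (((tx.gm t g₁ * z₁ ^ 2) / (tx.gm t g₂ * z₂ ^ 2) : Lˣ) : L) 1) →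
    (∀ ψ : L →+* ℝ, 0 < ψ (((tx.gm t g₁ * z₁ ^ 2) / (tx.gm t g₂ * z₂ ^ 2) : Lˣ) : L)) →
    ∀ (ρ₁ ρ₂ : Gm k →* SD) (D : ZMod 2), tx.At (tx.gm t g₁) ρ₁ → tx.At (tx.gm t g₂) ρ₂ →
      tx.Nor Rk g₁ ρ₁ → tx.Nor Rk g₂ ρ₂ → tx.DD ρ₁ ρ₂ D →
        D = tx.tt ((tx.gm t g₁ * z₁ ^ 2 : Lˣ) : L) + tx.tt ((tx.gm t g₂ * z₂ ^ 2 : Lˣ) : L)

end

end Pool.Agent.SKT
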