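import Pool.Agent.SKT.Stm2
import Pool.Agent.SKT.PStm
import Pool.Agent.SK.TP2

/-!
# Malle's conjecture for 8T8 over number fields, (TD): the target of part 2
-/

set_option autoImplicit false

open scoped BigOperators
open NumberField IsDedekindDomain

namespace Pool.Agent.SKT

open Pool.Agent.H98.MF
open Pool.Agent.H98.MK (sg)
open Pool.Agent.H32.MQ
open Pool.Agent.H32.MA (SD)
open Pool.Agent.D8 (RxF)

section

variable {k : Type} [Field k] [NumberField k] {Fr : Frm k} {L : Type} [Field L]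
  [NumberField L] [Algebra k L] (tx : TX Fr L)

/-- **Row TP23.** The target of part 2. -/
theorem sPc (Rk : RxF k) (hx : Pool.Agent.SK.TP.SpDx k) (hD : SPD tx) (_hC : SCo tx)
    (h1 : SPAt tx) (h2 : SPCl tx) (h3 : SPRe tx) : SPc tx Rk := by
  classical
  intro t g₁ g₂ hg1 hg2 _ _ _ ρ₁ ρ₂ hA1 hA2 hN1 hN2 c z₂ hc hCT2
  set b₂ : Lˣ := tx.gm t g₂ * z₂ ^ 2 with hb2
  obtain ⟨B, hB⟩ := hx Fr tx.X.a c (HX.nrX (k := k) b₂) (tx.cy (b₂ : L))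
  obtain ⟨M1, hM1⟩ := hD Rk t g₁ g₂ hg1 hg2 c z₂ hc hCT2
  obtain ⟨M2, hM2⟩ := h2 b₂ B
  refine ⟨max M1 M2, ?_⟩
  intro z₁ hCT1 _ hcl hpos
  set b₁ : Lˣ := tx.gm t g₁ * z₁ ^ 2 with hb1
  have hcl1 : ∀ Q ∈ tx.FL.S, Nr Q (M1 : ℤ) ((b₁ / b₂ : Lˣ) : L) 1 := by
    intro Q hQ
    rcases hcl Q hQ with h | h
    · exact Or.inl h
    · right
      have h4 : (M1 : ℤ) ≤ ((max M1 M2 : ℕ) : ℤ) := by exact_mod_cast le_max_left M1 M2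
      exact h4.trans h
  have hcl2 : ∀ Q ∈ tx.FL.S, Nr Q (M2 : ℤ) ((b₁ / b₂ : Lˣ) : L) 1 := by
    intro Q hQ
    rcases hcl Q hQ with h | h
    · exact Or.inl h
    · right
      have h4 : (M2 : ℤ) ≤ ((max M1 M2 : ℕ) : ℤ) := by exact_mod_cast le_max_right M1 M2
      exact h4.trans h
  have hx1 : tx.cx (b₁ : L) = (c : k) / 2 := by
    unfold TX.cx
    rw [hCT1.tr]
    ring
  have hx2 : tx.cx (b₂ : L) = (c : k) / 2 := by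
    unfold TX.cx
    rw [hCT2.tr]
    ring
  have hT1 := h1 (tx.gm t g₁) z₁ ρ₁ hA1 c (HX.nrX (k := k) b₁) hCT1.tr rfl
  have hT2 := h1 (tx.gm t g₂) z₂ ρ₂ hA2 c (HX.nrX (k := k) b₂) hCT2.tr rfl
  obtain ⟨e, cv, hcv⟩ := hB (HX.nrX (k := k) b₁) (tx.cy (b₁ : L)) ρ₁ ρ₂ hT1 hT2 tx.neg
    (hM2 b₁ hcl2 (by rw [hx1, hx2])) (by
      intro ψ s hs
      have h5 := h3 b₁ b₂ hpos ψ s hs
      rwa [hx1, hx2] at h5)
  have hDD : tx.DD ρ₁ ρ₂ (∑ v ∈ pls Fr.S, hv v (tx.X.a : k) (cv v : k)) :=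
    ⟨e, cv, hcv, rfl⟩
  have h6 := hM1 z₁ hCT1 hcl1 hpos ρ₁ ρ₂ _ hA1 hA2 hN1 hN2 hDD
  rw [← h6]
  exact hDD

end

end Pool.Agent.SKT
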