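import Pool.Agent.SKT.Stm3

/-!
# Malle's conjecture for 8T8 over number fields: the structure theorem
-/

set_option autoImplicit false

open scoped BigOperators
open NumberField IsDedekindDomain

namespace Pool.Agent.SKT

open Pool.Agent.H98.MF
open Pool.Agent.H98.MK (sg)
open Pool.Agent.H32.MQ
open Pool.Agent.H32.MA (SD)
open Pool.Agent.D8 (RxF)

theorem nr_mono {K : Type} [Field K] [NumberField K] {P : HeightOneSpectrum (𝓞 K)} {m n : ℤ}
    (h : m ≤ n) {x c : K} (hx : Nr P n x c) : Nr P m x c := by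
  rcases hx with hx | hx
  · exact Or.inl hx
  · exact Or.inr (h.trans hx)

section

variable {k : Type} [Field k] [NumberField k] {Fr : Frm k} {L : Type} [Field L]
  [NumberField L] [Algebra k L] (tx : TX Fr L)

open Classical in
theorem ty_union {R G : Finset tx.X.PX} (h : Disjoint R G) :
    tx.ty (R ∪ G) = tx.ty R + tx.ty G := by
  unfold TX.ty Sys.tys
  rw [Finset.image_union, Finset.sum_union]
  rw [Finset.disjoint_image (io_inj tx.X tx.FL tx.hF)]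
  exact h

theorem sst (Rk : RxF k) (hct : STct tx) (hpd : SPD tx) (hhm : SHm tx) (hk : SPk tx)
    (hl : SPl tx) : SSTd tx Rk := by
  classical
  intro N hN Ps t R G₁ G₂ hori h1 h2 hd1 hd2 hg1 hg2 hn1 hn2 hty ρ₁ ρ₂ ha1 ha2 ho1 ho2 D hD
  have hty' : tx.ty (R ∪ G₁) = tx.ty (R ∪ G₂) := by
    rw [ty_union tx hd1, ty_union tx hd2, hty]
  obtain ⟨c, z₂, hc, hct2, hx2, hz⟩ := hct t (R ∪ G₁) (R ∪ G₂) hg1 hg2 hn1 hn2 hty'
    (hk _ _ ha1) (hk _ _ ha2) (hl t _ _ hg1 ha1) (hl t _ _ hg2 ha2)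
  obtain ⟨M₁, hM₁⟩ := hpd Rk t _ _ hg1 hg2 c z₂ hc hct2
  obtain ⟨M₂, hM₂⟩ := hhm N hN Ps t R G₁ G₂ hori h1 h2 hd1 hd2 hg1 hg2 hty
    (hl t _ _ hg2 ha2) c z₂ hct2 hx2
  obtain ⟨z₁, hct1, hun, hnr, hpos, hnz⟩ := hz (max M₁ M₂)
  have e1 := hM₁ z₁ hct1 (fun Q hQ => nr_mono (by exact_mod_cast le_max_left _ _) (hnr Q hQ))
    hpos ρ₁ ρ₂ D ha1 ha2 ho1 ho2 hD
  have e2 := hM₂ z₁ hct1 hun (fun Q hQ => nr_mono (by exact_mod_cast le_max_right _ _)
    (hnr Q hQ)) hpos hnz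
  rw [e1, e2]

end

end Pool.Agent.SKT
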