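import Pool.Agent.SKT.Defs

/-!
# Malle's conjecture for 8T8 over number fields: the statement (TD), statements of part 1
(the additive calculus, note 5327)
-/

set_option autoImplicit false

open scoped BigOperators
open NumberField IsDedekindDomain

namespace Pool.Agent.SKT

open Pool.Agent.H98.MF
open Pool.Agent.H98.MK (sg)
open Pool.Agent.H32.MQ

section

variable {k : Type} [Field k] [NumberField k] {Fr : Frm k} {L : Type} [Field L]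
  [NumberField L] [Algebra k L] (tx : TX Fr L)

/-! ### rows C: coordinates and local symbols -/

/-- C1: coordinates -/
structure SCo : Prop where
  repr : ∀ u : L, u = algebraMap k L (tx.cx u) + algebraMap k L (tx.cy u) * tx.X.α
  cx_mk : ∀ x y : k, tx.cx (algebraMap k L x + algebraMap k L y * tx.X.α) = x
  cy_mk : ∀ x y : k, tx.cy (algebraMap k L x + algebraMap k L y * tx.X.α) = y
  cx_mul : ∀ u v : L, tx.cx (u * v) = tx.cx u * tx.cx v + (tx.X.a : k) * tx.cy u * tx.cy v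
  cy_mul : ∀ u v : L, tx.cy (u * v) = tx.cx u * tx.cy v + tx.cx v * tx.cy u
  nn_eq : ∀ u : L, tx.nn u = tx.cx u ^ 2 - (tx.X.a : k) * tx.cy u ^ 2
  cx_sig : ∀ u : L, tx.cx (tx.X.sig u) = tx.cx u
  cy_sig : ∀ u : L, tx.cy (tx.X.sig u) = -tx.cy u
  tr : ∀ u : L, Algebra.trace k L u = 2 * tx.cx u
  nn_ne : ∀ u : L, u ≠ 0 → tx.nn u ≠ 0
  nn_mul : ∀ u v : L, tx.nn (u * v) = tx.nn u * tx.nn v
  cx_lin : ∀ (c : k) (u : L), tx.cx (algebraMap k L c * u) = c * tx.cx u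
  cy_lin : ∀ (c : k) (u : L), tx.cy (algebraMap k L c * u) = c * tx.cy u

/-- C2: the content in terms of the exponents -/
def SJj : Prop := ∀ (p : Fr.sys.P) (Q : HeightOneSpectrum (𝓞 L)), Over (Fr.pl p) Q → ∀ u : L,
  tx.Nz u → tx.jj p u = min (ord Q u) (ord (cj tx.X.sig Q) u) ∧
    ord (Fr.pl p) (tx.nn u) = ord Q u + ord (cj tx.X.sig Q) u

/-- C3a: the symbols at the conjugate primes, normalised elements -/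
def SKp0 : Prop := ∀ (p : Fr.sys.P) (u₁ u₂ : L), tx.Nz u₁ → tx.Nz u₂ → tx.Nz (u₁ * u₂) →
  tx.jj p u₁ = 0 → tx.jj p u₂ = 0 → tx.jj p (u₁ * u₂) = 0 →
    tx.Kp p u₂ u₁ = ((ord (Fr.pl p) (tx.nn u₁) : ℤ) : ZMod 2) *
      (qr (tx.cx (u₁ * u₂)) (Fr.pl p) + qr (tx.cx u₁) (Fr.pl p))

open Classical in
/-- the local symbol of normalised coordinates -/
noncomputable def T0 {K : Type} [Field K] [NumberField K] (P : HeightOneSpectrum (𝓞 K))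
    (x y : K) : ZMod 2 :=
  if ord P y < ord P x then ((ord P x - ord P y : ℤ) : ZMod 2) * qr y P else 0

/-- C3b: the multiplication law for normalised coordinates -/
def STm0 (K : Type) [Field K] [NumberField K] : Prop := ∀ (P : HeightOneSpectrum (𝓞 K))
  (d x₁ y₁ x₂ y₂ x y n : Kˣ), ord P (2 : K) = 0 → ord P (d : K) = 0 →
  (x : K) = x₁ * x₂ + d * y₁ * y₂ → (y : K) = x₁ * y₂ + x₂ * y₁ →
  (n : K) = (x₁ : K) ^ 2 - d * (y₁ : K) ^ 2 →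
  min (ord P (x₁ : K)) (ord P (y₁ : K)) = 0 → min (ord P (x₂ : K)) (ord P (y₂ : K)) = 0 →
  min (ord P (x : K)) (ord P (y : K)) = 0 →
  T0 P (x : K) y = T0 P (x₁ : K) y₁ + T0 P (x₂ : K) y₂ +
    ((ord P (n : K) : ℤ) : ZMod 2) * (qr (x : K) P + qr (x₁ : K) P) +
    (hs P (x : K) (x₁ * y₂ * n : K) + hs P (x₁ : K) (n : K) + hs P (-1 : K) (x₁ : K) +
      hs P (x₁ : K) (y₂ : K) + hs P (x₂ : K) (y₂ : K))

/-- C3c: the multiplication law at a prime outside the frame -/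
def STm : Prop := ∀ (p : Fr.sys.P) (u₁ u₂ : L), tx.Nz u₁ → tx.Nz u₂ → tx.Nz (u₁ * u₂) →
  tx.Ev p u₁ → tx.Ev p u₂ → tx.Nc p u₁ u₂ →
    tx.tp p (u₁ * u₂) = tx.tp p u₁ + tx.tp p u₂ + tx.Kp p u₂ u₁ +
      tx.Rv (Sum.inl (Fr.pl p)) u₁ u₂

/-- C4: squares at a prime outside the frame -/
def SSq : Prop := ∀ (p : Fr.sys.P) (w : L), tx.Nz w → tx.cx (w ^ 2) ≠ 0 →
  tx.tp p (w ^ 2) = hv (Sum.inl (Fr.pl p)) (tx.X.a : k) (tx.cx w) +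
    hv (Sum.inl (Fr.pl p)) (tx.cx (w ^ 2)) (tx.cy (w ^ 2))

/-- C5: almost all local terms vanish -/
def SFt : Prop := (∀ u : L, tx.Nz u → {p | tx.tp p u ≠ 0}.Finite) ∧
  ∀ u v : L, tx.Nz u → tx.Nz v → {p | tx.Kp p v u ≠ 0}.Finite

/-- C6: the product formula for Hilbert symbols, for a frame -/
def SRc {K : Type} [Field K] [NumberField K] (F : Frm K) : Prop := ∀ x y : K, x ≠ 0 → y ≠ 0 →
  {p | hv (Sum.inl (F.pl p) : Pl K) x y ≠ 0}.Finite ∧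
    ∑ v ∈ pls F.S, hv v x y = ∑ᶠ p : F.sys.P, hv (Sum.inl (F.pl p)) x y

/-- C7: the multiplication law -/
def STmG : Prop := ∀ u₁ u₂ : L, tx.Nz u₁ → tx.Nz u₂ → tx.Nz (u₁ * u₂) → (∀ p, tx.Ev p u₁) →
  (∀ p, tx.Ev p u₂) → (∀ p, tx.Nc p u₁ u₂) →
    tx.tt (u₁ * u₂) = tx.tt u₁ + tx.tt u₂ + ∑ᶠ p, tx.Kp p u₂ u₁ + tx.RS u₁ u₂

/-- C8: squares -/
def SSqG : Prop := ∀ w : L, tx.Nz w → tx.cx (w ^ 2) ≠ 0 → tx.tt (w ^ 2) =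
  ∑ v ∈ pls Fr.S, (hv v (tx.X.a : k) (tx.cx w) + hv v (tx.cx (w ^ 2)) (tx.cy (w ^ 2)))

/-! ### rows U: the group of elements close to one -/

/-- U1: the precision exists -/
def SBig : Prop := ∃ N : ℤ, tx.Big N

/-- U2: a group -/
def SUm : Prop := ∀ N : ℤ, tx.Big N → ∀ u v : L, tx.UU N u → tx.UU N v →
  tx.UU N (u * v) ∧ tx.UU N u⁻¹

/-- U3: coordinates and norms are local squares -/
def SUl : Prop := ∀ N : ℤ, tx.Big N → ∀ u : L, tx.UU N u → ∀ v ∈ pls Fr.S,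
  LocP v (tx.cx u) ∧ LocP v (tx.nn u)

/-- U4: the local terms vanish -/
def SUr : Prop := ∀ N : ℤ, tx.Big N → ∀ u v : L, tx.UU N u → tx.UU N v → tx.Nz u → tx.Nz v →
  tx.RS u v = 0

/-- U5: the symbol of a square close to one vanishes -/
def SUs : Prop := ∀ N : ℤ, tx.Big N → ∀ w : L, tx.UU N (w ^ 2) → tx.Nz w → tx.tt (w ^ 2) = 0

/-- U6: weak approximation with generic coordinates -/
def SApx : Prop := ∀ (T : Finset (HeightOneSpectrum (𝓞 L)))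
  (c : HeightOneSpectrum (𝓞 L) → Lˣ) (n : ℕ) (s : (L →+* ℝ) → Prop) (m : Finset Lˣ),
  ∃ z : Lˣ, (∀ Q ∈ T, Nr Q (n : ℤ) ((z / c Q : Lˣ) : L) 1) ∧ (∀ ψ : L →+* ℝ, 0 < ψ (z : L) ↔ s ψ) ∧
    ∀ u ∈ m, tx.Nz ((u * z : Lˣ) : L) ∧ tx.Nz ((u * z ^ 2 : Lˣ) : L)

/-- U7: elements close to one at the primes of `L` above the frame -/
def SNr : Prop := ∀ N : ℤ, ∃ n : ℕ, ∀ u : L, (∀ Q ∈ tx.FL.S, Nr Q (n : ℤ) u 1) →
  (∀ ψ : L →+* ℝ, 0 < ψ u) → tx.UU N u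

/-- U8: admissible elements exist -/
def SAdz : Prop := ∀ N : ℤ, ∀ (Ps : Set tx.X.PX) (l : Lˣ), tx.OO Ps l →
  ∀ (W : Finset Fr.sys.P) (m : Finset Lˣ), ∃ z : Lˣ, tx.Adz N l z ∧ (∀ p ∈ W, tx.Un p (z : L)) ∧
    ∀ u ∈ m, tx.Nz ((u * z : Lˣ) : L) ∧ tx.Nz ((u * z ^ 2 : Lˣ) : L)

/-! ### rows B: the symbol of an element -/

/-- B0: elements without conflicts: contents and exponents outside the support -/
def SEv : Prop := ∀ (Ps : Set tx.X.PX) (l : Lˣ), tx.Ori Ps → tx.OO Ps l → ∀ z : Lˣ,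
  (∀ p, ¬ tx.Un p (l : L) → tx.Un p (z : L)) → tx.Nz ((l * z ^ 2 : Lˣ) : L) →
    ∀ p, tx.Ev p ((l * z ^ 2 : Lˣ) : L)

/-- B1: the symbol does not depend on the choice -/
def SBw : Prop := ∀ N : ℤ, tx.Big N → ∀ (Ps : Set tx.X.PX) (l z : Lˣ), tx.Ori Ps →
  tx.OO Ps l → tx.Adz N l z → tx.br N l = tx.tt ((l * z ^ 2 : Lˣ) : L)

/-- B2: the symbol of a product -/
def SBa : Prop := ∀ N : ℤ, tx.Big N → ∀ (Ps : Set tx.X.PX) (l₁ l₂ : Lˣ), tx.Ori Ps →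
  tx.OO Ps l₁ → tx.OO Ps l₂ → tx.OO Ps (l₁ * l₂) ∧
    tx.br N (l₁ * l₂) = tx.br N l₁ + tx.br N l₂ + tx.KP Ps (l₂ : L) (l₁ : L)

open Classical in
/-- B3: products of two generators with the same type -/
def SOg : Prop := ∀ (Ps : Set tx.X.PX) (G G' : Finset tx.X.PX), tx.Ori Ps → ↑G ⊆ Ps →
  ↑G' ⊆ Ps → tx.ty G = tx.ty G' → tx.OO Ps (tx.gm 0 G * tx.gm 0 G')

open Classical in
/-- B4: the symbols `KP` of products of generators -/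
def SKg : Prop := ∀ (Ps : Set tx.X.PX) (A A' B B' : Finset tx.X.PX), tx.Ori Ps →
  ↑A ⊆ Ps → ↑A' ⊆ Ps → ↑B ⊆ Ps → ↑B' ⊆ Ps →
  tx.KP Ps ((tx.gm 0 B * tx.gm 0 B' : Lˣ) : L) ((tx.gm 0 A * tx.gm 0 A' : Lˣ) : L) =
    ∑ p ∈ A, (∑ q ∈ B, tx.FL.sys.J (io tx.X tx.FL tx.hF q) (io tx.X tx.FL tx.hF (tx.X.cjX p)) +
      ∑ q ∈ B', tx.FL.sys.J (io tx.X tx.FL tx.hF q) (io tx.X tx.FL tx.hF (tx.X.cjX p))) +
    ∑ p ∈ A', (∑ q ∈ B, tx.FL.sys.J (io tx.X tx.FL tx.hF q) (io tx.X tx.FL tx.hF (tx.X.cjX p)) +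
      ∑ q ∈ B', tx.FL.sys.J (io tx.X tx.FL tx.hF q) (io tx.X tx.FL tx.hF (tx.X.cjX p)))

/-! ### rows H: the comparison at the frame -/

/-- H1: the local terms of close elements at the finite places -/
def SHf : Prop := ∀ b : Lˣ, tx.Nz (b : L) → tx.cx ((b ^ 2 : Lˣ) : L) ≠ 0 →
  ∃ M : ℕ, ∀ b' : Lˣ, (∀ Q ∈ tx.FL.S, Nr Q (M : ℤ) ((b' / b : Lˣ) : L) 1) →
    tx.Nz (b' : L) → tx.Nz ((b' * b : Lˣ) : L) → ∀ P ∈ Fr.S,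
      LocSq P (tx.cx (b' : L) * tx.cx (b : L)) ∧ LocSq P (tx.cy (b' : L) * tx.cy (b : L)) ∧
      LocSq P (tx.nn (b' : L) * tx.nn (b : L)) ∧
      LocSq P (tx.cx ((b' * b : Lˣ) : L) * tx.cx ((b ^ 2 : Lˣ) : L)) ∧
      LocSq P (tx.nn ((b' * b : Lˣ) : L) * tx.nn ((b ^ 2 : Lˣ) : L))

/-- H2: the local terms at the real places -/
def SHr : Prop := ∀ (φ : k →+* ℝ) (b b' z : Lˣ), tx.Nz (b : L) → tx.Nz (b' : L) →
  tx.cx (b : L) = tx.cx (b' : L) → (∀ ψ : L →+* ℝ, 0 < ψ ((b' / b : Lˣ) : L)) →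
  tx.Nz ((b' * b : Lˣ) : L) → tx.Nz ((b ^ 2 : Lˣ) : L) → tx.Nz ((z ^ 2 : Lˣ) : L) →
    tx.Rv (Sum.inr φ) (b' : L) (b : L) = tx.Rv (Sum.inr φ) (b : L) (b : L) ∧
    tx.Rv (Sum.inr φ) ((b' * b : Lˣ) : L) ((z ^ 2 : Lˣ) : L) = 0 ∧
    tx.Rv (Sum.inr φ) ((b ^ 2 : Lˣ) : L) ((z ^ 2 : Lˣ) : L) = 0

/-- H3: the real places of `L` above a real place of `k` -/
def SRe : Prop := ∀ φ : k →+* ℝ, 0 < φ (tx.X.a : k) ∧ ∃ ψ ψ' : L →+* ℝ, ∀ u : L,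
  ψ u = φ (tx.cx u) + φ (tx.cy u) * Real.sqrt (φ (tx.X.a : k)) ∧
  ψ' u = φ (tx.cx u) - φ (tx.cy u) * Real.sqrt (φ (tx.X.a : k))

open Classical in
/-- H4: from close elements with the same trace to the symbol of the product of generators -/
def SHm : Prop := ∀ N : ℤ, tx.Big N → ∀ (Ps : Set tx.X.PX) (t : tx.FL.sys.T)
  (R G₁ G₂ : Finset tx.X.PX), tx.Ori Ps → ↑G₁ ⊆ Ps → ↑G₂ ⊆ Ps → Disjoint R G₁ →
  Disjoint R G₂ → tx.Gd (R ∪ G₁) → tx.Gd (R ∪ G₂) → tx.ty G₁ = tx.ty G₂ →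
  tx.Lf (tx.gm t (R ∪ G₂)) (R ∪ G₂) → ∀ (c : kˣ) (z₂ : Lˣ),
    CT tx ((R ∪ G₁).image tx.X.shX ∪ (R ∪ G₂).image tx.X.shX) c (tx.gm t (R ∪ G₂)) z₂ →
    tx.cx (((tx.gm t (R ∪ G₂) * z₂ ^ 2) ^ 2 : Lˣ) : L) ≠ 0 →
    ∃ M : ℕ, ∀ z₁ : Lˣ,
      CT tx ((R ∪ G₁).image tx.X.shX ∪ (R ∪ G₂).image tx.X.shX) c (tx.gm t (R ∪ G₁)) z₁ →
      (∀ p, tx.Un p (z₁ : L) ∨ tx.Un p (z₂ : L)) →
      (∀ Q ∈ tx.FL.S, Nr Q (M : ℤ)
        (((tx.gm t (R ∪ G₁) * z₁ ^ 2) / (tx.gm t (R ∪ G₂) * z₂ ^ 2) : Lˣ) : L) 1) →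
      (∀ ψ : L →+* ℝ, 0 < ψ (((tx.gm t (R ∪ G₁) * z₁ ^ 2) / (tx.gm t (R ∪ G₂) * z₂ ^ 2) : Lˣ) : L)) →
      tx.Nz ((tx.gm t (R ∪ G₁) * z₁ ^ 2) * (tx.gm t (R ∪ G₂) * z₂ ^ 2) : Lˣ) →
      tx.tt ((tx.gm t (R ∪ G₁) * z₁ ^ 2 : Lˣ) : L) + tx.tt ((tx.gm t (R ∪ G₂) * z₂ ^ 2 : Lˣ) : L) =
        tx.br N (tx.gm 0 G₁ * tx.gm 0 G₂) +
          ∑ b ∈ R ∪ G₁, qr ((tx.gm t (R ∪ G₂) : Lˣ) : L) (tx.X.cjX b).1

end

end Pool.Agent.SKT
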