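import Pool.Agent.SKT.Stm

/-!
# Malle's conjecture for 8T8 over number fields: the statement (TD), the main statements of
part 2 (note 5328) and the structure theorem
-/

set_option autoImplicit false

open scoped BigOperators
open NumberField IsDedekindDomain

namespace Pool.Agent.SKT

open Pool.Agent.H98.MF
open Pool.Agent.H98.MK (sg)
open Pool.Agent.H32.MQ
open Pool.Agent.H32.MA (SD)
open Pool.Agent.D8 (RxF)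

section

variable {k : Type} [Field k] [NumberField k] {Fr : Frm k} {L : Type} [Field L]
  [NumberField L] [Algebra k L] (tx : TX Fr L) (Rk : RxF k)

/-- P0: the obstructions of a class with a lift vanish -/
def SPk : Prop := ∀ (u : Lˣ) (ρ : Gm k →* SD), tx.At u ρ → tx.Kap u

/-- P0: the symbols at the conjugate primes of a class with a lift vanish -/
def SPl : Prop := ∀ (t : tx.FL.sys.T) (g : Finset tx.X.PX) (ρ : Gm k →* SD), tx.Gd g →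
  tx.At (tx.gm t g) ρ → tx.Lf (tx.gm t g) g

open Classical in
/-- P: the comparison of the lifts of two classes, for close elements with the same trace -/
def SPc : Prop := ∀ (t : tx.FL.sys.T) (g₁ g₂ : Finset tx.X.PX), tx.Gd g₁ → tx.Gd g₂ →
  g₁.Nonempty → g₂.Nonempty → tx.ty g₁ = tx.ty g₂ → ∀ ρ₁ ρ₂ : Gm k →* SD,
  tx.At (tx.gm t g₁) ρ₁ → tx.At (tx.gm t g₂) ρ₂ → tx.Nor Rk g₁ ρ₁ → tx.Nor Rk g₂ ρ₂ →
  ∀ (c : kˣ) (z₂ : Lˣ),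
    (∀ p ∈ g₁.image tx.X.shX ∪ g₂.image tx.X.shX, ord (Fr.pl p) (c : k) = 0 ∧
      qr (c : k) (Fr.pl p) = 0) →
    CT tx (g₁.image tx.X.shX ∪ g₂.image tx.X.shX) c (tx.gm t g₂) z₂ →
    ∃ M : ℕ, ∀ z₁ : Lˣ,
      CT tx (g₁.image tx.X.shX ∪ g₂.image tx.X.shX) c (tx.gm t g₁) z₁ →
      (∀ p, tx.Un p (z₁ : L) ∨ tx.Un p (z₂ : L)) →
      (∀ Q ∈ tx.FL.S, Nr Q (M : ℤ)
        (((tx.gm t g₁ * z₁ ^ 2) / (tx.gm t g₂ * z₂ ^ 2) : Lˣ) : L) 1) →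
      (∀ ψ : L →+* ℝ, 0 < ψ (((tx.gm t g₁ * z₁ ^ 2) / (tx.gm t g₂ * z₂ ^ 2) : Lˣ) : L)) →
      tx.DD ρ₁ ρ₂ (tx.tt ((tx.gm t g₁ * z₁ ^ 2 : Lˣ) : L) +
        tx.tt ((tx.gm t g₂ * z₂ ^ 2 : Lˣ) : L))

open Classical in
/-- ST: the structure theorem -/
def SST : Prop := ∀ N : ℤ, tx.Big N → ∀ (Ps : Set tx.X.PX) (t : tx.FL.sys.T)
  (R G₁ G₂ : Finset tx.X.PX), tx.Ori Ps → ↑G₁ ⊆ Ps → ↑G₂ ⊆ Ps → Disjoint R G₁ →
  Disjoint R G₂ → tx.Gd (R ∪ G₁) → tx.Gd (R ∪ G₂) → (R ∪ G₁).Nonempty → (R ∪ G₂).Nonempty →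
  tx.ty G₁ = tx.ty G₂ → ∀ ρ₁ ρ₂ : Gm k →* SD,
  tx.At (tx.gm t (R ∪ G₁)) ρ₁ → tx.At (tx.gm t (R ∪ G₂)) ρ₂ → tx.Nor Rk (R ∪ G₁) ρ₁ →
  tx.Nor Rk (R ∪ G₂) ρ₂ →
    tx.DD ρ₁ ρ₂ (tx.br N (tx.gm 0 G₁ * tx.gm 0 G₂) +
      ∑ b ∈ R ∪ G₁, qr ((tx.gm t (R ∪ G₂) : Lˣ) : L) (tx.X.cjX b).1)

open Classical in
/-- SL: the structure theorem for three primes -/
def SSl : Prop := ∀ N : ℤ, tx.Big N → ∀ (Ps : Set tx.X.PX) (t : tx.FL.sys.T)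
  (R : Finset tx.X.PX) (q : Fin 3 → tx.X.PX), tx.Ori Ps → (∀ i, q i ∈ Ps) →
  ∀ ρ' : Gm k →* SD, tx.At (tx.gm t (R ∪ Finset.univ.image q)) ρ' →
  tx.Nor Rk (R ∪ Finset.univ.image q) ρ' → tx.Gd (R ∪ Finset.univ.image q) →
  Function.Injective q → (∀ i, q i ∉ R) →
  ∃ (D₀ : ZMod 2) (α : Fin 3 → tx.X.PX → ZMod 2), ∀ p : Fin 3 → tx.X.PX, (∀ i, p i ∈ Ps) →
    Function.Injective p → (∀ i, p i ∉ R) → tx.Gd (R ∪ Finset.univ.image p) →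
    (∀ i, tx.ty {p i} = tx.ty {q i}) → ∀ ρ : Gm k →* SD,
    tx.At (tx.gm t (R ∪ Finset.univ.image p)) ρ → tx.Nor Rk (R ∪ Finset.univ.image p) ρ →
    tx.DD ρ ρ' (D₀ + ∑ i, α i (p i) +
      ∑ i, ∑ j, if i < j then tx.FL.sys.J (io tx.X tx.FL tx.hF (p i))
        (io tx.X tx.FL tx.hF (tx.X.cjX (p j))) else 0)

end

end Pool.Agent.SKT
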