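import Pool.Agent.SKT.PStm
import Pool.Agent.SKT.Stm2
import Pool.Agent.SK.VDefs

/-!
# Malle's conjecture for 8T8 over number fields: the statement (TD), the structure theorem and the
bridge to the coefficients
-/

set_option autoImplicit false

open scoped BigOperators
open NumberField IsDedekindDomain

namespace Pool.Agent.SKT

open Pool.Agent.H98.MF
open Pool.Agent.H98.MK (sg)
open Pool.Agent.H32.MQ
open Pool.Agent.H32.MA (SD)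
open Pool.Agent.D8 (RxF)
open Pool.Agent.SK

section

variable {k : Type} [Field k] [NumberField k] {Fr : Frm k} {L : Type} [Field L]
  [NumberField L] [Algebra k L] (tx : TX Fr L) (Rk : RxF k)

open Classical in
/-- ST: the structure theorem -/
def SSTd : Prop := ∀ N : ℤ, tx.Big N → ∀ (Ps : Set tx.X.PX) (t : tx.FL.sys.T)
  (R G₁ G₂ : Finset tx.X.PX), tx.Ori Ps → ↑G₁ ⊆ Ps → ↑G₂ ⊆ Ps → Disjoint R G₁ →
  Disjoint R G₂ → tx.Gd (R ∪ G₁) → tx.Gd (R ∪ G₂) → (R ∪ G₁).Nonempty → (R ∪ G₂).Nonempty →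
  tx.ty G₁ = tx.ty G₂ → ∀ ρ₁ ρ₂ : Gm k →* SD,
  tx.At (tx.gm t (R ∪ G₁)) ρ₁ → tx.At (tx.gm t (R ∪ G₂)) ρ₂ → tx.Nor Rk (R ∪ G₁) ρ₁ →
  tx.Nor Rk (R ∪ G₂) ρ₂ → ∀ D : ZMod 2, tx.DD ρ₁ ρ₂ D →
    D = tx.br N (tx.gm 0 G₁ * tx.gm 0 G₂) +
      ∑ b ∈ R ∪ G₁, qr ((tx.gm t (R ∪ G₂) : Lˣ) : L) (tx.X.cjX b).1

open Classical in
/-- SL: the structure theorem for three primes -/
def SSld : Prop := ∀ (Ps : Set tx.X.PX) (t : tx.FL.sys.T)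
  (R : Finset tx.X.PX) (q : Fin 3 → tx.X.PX), tx.Ori Ps → (∀ i, q i ∈ Ps) →
  ∀ ρ' : Gm k →* SD, tx.At (tx.gm t (R ∪ Finset.univ.image q)) ρ' →
  tx.Nor Rk (R ∪ Finset.univ.image q) ρ' → tx.Gd (R ∪ Finset.univ.image q) →
  Function.Injective q → (∀ i, q i ∉ R) →
  ∃ (D₀ : ZMod 2) (α : Fin 3 → tx.X.PX → ZMod 2), ∀ p : Fin 3 → tx.X.PX, (∀ i, p i ∈ Ps) →
    Function.Injective p → (∀ i, p i ∉ R) → tx.Gd (R ∪ Finset.univ.image p) →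
    (∀ i, tx.ty {p i} = tx.ty {q i}) → ∀ ρ : Gm k →* SD,
    tx.At (tx.gm t (R ∪ Finset.univ.image p)) ρ → tx.Nor Rk (R ∪ Finset.univ.image p) ρ →
    ∀ D : ZMod 2, tx.DD ρ ρ' D → D = D₀ + ∑ i, α i (p i) +
      (tx.FL.sys.J (io tx.X tx.FL tx.hF (p 0)) (io tx.X tx.FL tx.hF (tx.X.cjX (p 1))) +
        tx.FL.sys.J (io tx.X tx.FL tx.hF (p 0)) (io tx.X tx.FL tx.hF (tx.X.cjX (p 2))) +
        tx.FL.sys.J (io tx.X tx.FL tx.hF (p 1)) (io tx.X tx.FL tx.hF (tx.X.cjX (p 2))))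

/-- X1: from the relation `EqS` to `DD` -/
def SXd : Prop := ∀ (ρ ρ' : Gm k →* SD) (c : kˣ), (∀ σ, (ρ σ).pd = chi (tx.X.a : k) σ) →
  EqS Fr (twS ρ c) ρ' → tx.DD ρ' ρ (∑ v ∈ pls Fr.S, hv v (tx.X.a : k) (c : k))

/-- X2: the homomorphisms attached to a class, in terms of its representative -/
def SXa : Prop := ∀ (j : L →ₐ[k] Om k), j tx.X.α = Pool.Agent.H98.MF.sq (tx.X.a : k) →
  ∀ (t : tx.FL.sys.T) (g : Finset tx.X.PX), tx.Gd g → ∀ ρ : Gm k →* SD,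
    ρ ∈ Hc Rk.toRx tx.X j (elX tx.X tx.FL tx.hF t g) →
      tx.At (tx.gm t g) ρ ∧ tx.Nor Rk g ρ

/-- X3: tame generators in the inertia groups -/
def SXi (k : Type) [Field k] [NumberField k] : Prop := ∀ Rk : RxF k, RxI Rk.toRx

/-- X4: the coefficients of two classes -/
def SXt : Prop := ∀ (j : L →ₐ[k] Om k) (w : (Gm k →* SD) → ℝ), SLoc Fr w →
  ∀ b : Fr.sys.T, IsSquare (tx.X.a * lrp Fr b 0) →
  ∀ (t : tx.FL.sys.T) (g g' : Finset tx.X.PX), tx.Gd g → tx.Gd g' → g.Nonempty → g'.Nonempty →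
    tx.ty g = tx.ty g' → ∀ ρ ρ' : Gm k →* SD,
    ρ ∈ Hc Rk.toRx tx.X j (elX tx.X tx.FL tx.hF t g) →
    ρ' ∈ Hc Rk.toRx tx.X j (elX tx.X tx.FL tx.hF t g') →
    ∃ D : ZMod 2, tx.DD ρ ρ' D ∧
      tauW Rk.toRx tx.X j w b (elX tx.X tx.FL tx.hF t g) =
        ((sg D : ℤ) : ℝ) * tauW Rk.toRx tx.X j w b (elX tx.X tx.FL tx.hF t g')

/-- X5: the slices -/
def SXs : Prop := ∀ (j : L →ₐ[k] Om k), j tx.X.α = Pool.Agent.H98.MF.sq (tx.X.a : k) →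
  ∀ (w : (Gm k →* SD) → ℝ) (A : ℝ), (∀ ρ, |w ρ| ≤ A) → SLoc Fr w →
  ∀ b : Fr.sys.T, IsSquare (tx.X.a * lrp Fr b 0) →
    ∃ (Pp : Set tx.X.PX) (D : ℝ), 0 ≤ D ∧
      Slc (Qcof tx.X tx.FL tx.hF tx.hM) Pp (tauW Rk.toRx tx.X j w b) D ∧
      Slc (Qcof tx.X tx.FL tx.hF tx.hM) Ppᶜ (tauW Rk.toRx tx.X j w b) D

/-- X6: the conjugates of the generators -/
def SXc : Prop := Cjs (Qcof tx.X tx.FL tx.hF tx.hM)

end

end Pool.Agent.SKT
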